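import Pool.Agent.MP_776d16_ag.H7W.Spec

/-!
The affine form of the theorem.
-/

open Polynomial
open MvPolynomial (pderiv IsWeightedHomogeneous)
open Fintype (card)
open Set (range)

namespace Pool.Agent.MP_776d16_ag.H7W

namespace AffA

theorem sc_ne {σ : Type} (w : σ → ℕ) {l : ℂ} (hl : l ≠ 0) {v : σ → ℂ} (hv : v ≠ 0) :
    sc w l v ≠ 0 := fun h => hv (funext fun i =>
  (mul_eq_zero.1 (congrFun h i)).resolve_left (pow_ne_zero _ hl))

theorem ex_inj : ∃ s : Option Bool → ℂ, Function.Injective s :=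
  ⟨fun o => ((Fintype.equivFin (Option Bool) o : ℕ) : ℂ), fun _ _ h =>
    (Fintype.equivFin (Option Bool)).injective (Fin.val_injective (Nat.cast_injective h))⟩

end AffA

open AffA in
theorem rowAff : OfAff := by
  intro hT hB hG hAl hM hRam hDat hD hF σ J _ _ w d F ok q hq
  classical
  refine ⟨?_, fun p hp0 hp => ?_⟩
  · obtain ⟨D, K, -, -, -, -, -, -, -, h⟩ := hDat σ J w d F ok q 0 hq
    exact ⟨D.v false, (h false).1, (h false).2.1⟩
  obtain ⟨D, K, rfl, rfl, rfl, good, ov, hK, hpK, h⟩ := hDat σ J w d F ok q p hq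
  have hg : ∀ j, CoM K (bd (D.F j)) := fun j => hB.com σ K _ (ov.F j)
  obtain ⟨y, hy⟩ := (hG σ J _ ok.ok.sm).ex K p hK hg hp0 hp
  obtain ⟨⟨hρ, hv, -⟩, -⟩ := hD σ J Unit D K good ov
  obtain ⟨s, hs⟩ := ex_inj
  let v' : Option Bool → σ → ℂ := pt p fun l => sc D.w (D.ρ 0) (D.v l)
  have h1 : ∀ l i, v' l i ∈ K := fun l i => by
    cases l with
    | none => exact hpK i
    | some l => exact K.mul_mem (K.pow_mem hρ _) (hv l i)
  have h2 : ∀ l, v' l ≠ 0 := fun l => by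
    cases l with
    | none => exact hp0
    | some l => exact sc_ne _ good.ρ0 (h l).1
  have h3 : ∀ l, Fib (fun j => bd (D.F j)) 0 (v' l) := fun l => by
    cases l with
    | none => exact hp
    | some l =>
      intro j
      have e := hT.scale0 σ D.w _ _ (D.ρ 0) (D.v l) (ok.ok.hom j)
      rw [(h l).2.1 j, Pi.zero_apply, mul_zero] at e
      exact e
  obtain ⟨e, T, hT1, hT2, hT3⟩ := hM σ J (Option Bool) D.w D.d _ ok.ok K y v' s hK hg h1 h2 hy
    (fun l => hAl σ J D.w D.d _ ok.ok K _ y hK hg (h1 l) (h2 l) (h3 l) hy) hs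
  obtain ⟨E, x, t, k1, k2, k3, k4, k5⟩ := hF σ J D K p good ov hK hpK hp0 (fun l => (h l).1)
    (fun l => (h l).2.1) fun e0 => by
      obtain ⟨e', Γ, a1, a2, a3, a4, a5⟩ := hRam σ J D.w D.d _ ok.ok.hom e T y v' s D.a (2 * D.π)
        e0 hT1 hT2 hs hT3
      exact ⟨e', Γ, a1, a2, a3, a4 ▸ hy, a5⟩
  exact ⟨E, x, t, k1, k2, k3, k4, fun l => by rw [k5 l, (h l).2.2]⟩

end Pool.Agent.MP_776d16_ag.H7W
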