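import Pool.Agent.MP_776d16_ag.H7W.Spec

/-!
Row Al: every point of the cone is linked to every generic point.
-/

open Fintype (card)
open Set (range)

namespace Pool.Agent.MP_776d16_ag.H7W

theorem rowAl : OfAl := by
  intro hRk hSp hHom hLink hGen hVf hNewt hComb σ J _ _ w d g hOk K v z hK hg hvK hv hvF hz
  have L := hLink σ J w d g hOk.hom
  have G := hGen σ J g hOk.sm
  obtain ⟨e, T, c, hT, hon, hrk⟩ := hVf σ J w d g hOk K z hK hg hz
  obtain ⟨K', -, hsub, hkil⟩ := hRk.ext (K ∪ range z) (hK.union (Set.finite_range z).countable)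
  have hch : Chain w g v z :=
    hNewt σ J w d g hOk K' e T c z v (fun j m => hsub (Or.inl (hg j m)))
      (fun i => hsub (Or.inr ⟨i, rfl⟩)) hT hon hz.1 hv hvF
      (hSp.free σ K' _ v (hrk.trans (hRk.anti _ _ _ (Set.finite_range _) hkil)))
  have hQ : ∀ u, Chain w g u z → ∃ y, Spec K y z ∧ Link w g y u := fun u hu => by
    induction hu using Relation.ReflTransGen.head_induction_on with
    | refl => exact ⟨z, hSp.refl _ _ _, L.refl z hz.2.1⟩
    | head h _ ih =>
      obtain ⟨y, h1, h2⟩ := ih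
      obtain ⟨y', h3, h4⟩ := hComb σ J w d g hOk K y _ _ hK hg
        (G.spec K z y h1 hz (L.fib _ _ h2).1) h.2.1 h2 (L.symm _ _ h.2.2)
      exact ⟨y', hSp.trans _ _ _ _ _ h3 h1, h4⟩
  obtain ⟨y, h1, h2⟩ := hQ v hch
  have h3 := G.le K y hg (hSp.nz _ _ _ _ h1 hz.1) (L.fib _ _ h2).1
  have h4 := hz.2.2
  obtain ⟨ψ, h5, h6⟩ := hHom σ K y z hK h1 (hSp.symm σ K y z h1 (by omega))
  have h7 := L.hom y v ψ (fun j m => h5 _ (hg j m)) h2
  rw [funext h6, funext fun i => h5 _ (hvK i)] at h7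
  exact L.symm _ _ h7

end Pool.Agent.MP_776d16_ag.H7W
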