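import Pool.Agent.MP_776d16_ag.H7W.Spec

/-!
The dimension bound for admissible sections.
-/

open Polynomial
open MvPolynomial (pderiv IsWeightedHomogeneous)
open Fintype (card)
open Set (range)

namespace Pool.Agent.MP_776d16_ag.H7W

namespace B0A

/-- A frame adapted to independent linear forms. -/
theorem frame {σ J : Type} [Fintype σ] [DecidableEq σ] [Fintype J] [DecidableEq J]
    {φ : J → σ → ℂ} (hφ : LinearIndependent ℂ φ) :
    ∃ (m : ℕ) (v : Fin m → σ → ℂ) (B : J → σ → ℂ) (ε : σ ≃ Fin m ⊕ J), m + card J = card σ ∧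
      LinearIndependent ℂ v ∧ (∀ n j, ∑ i, φ j i * v n i = 0) ∧
      (∀ j j', ∑ i, φ j i * B j' i = if j = j' then 1 else 0) ∧
      (Matrix.of fun l l' => Sum.elim v B (ε l') l).det ≠ 0 := by
  let f : (σ → ℂ) →ₗ[ℂ] (J → ℂ) := (Matrix.of φ).mulVecLin
  have hr : Module.finrank ℂ (LinearMap.range f) = card J :=
    LinearIndependent.rank_matrix (M := Matrix.of φ) hφ
  have hs : LinearMap.range f = ⊤ := Submodule.eq_top_of_finrank_eq (by simpa using hr)
  obtain ⟨g, hg⟩ := f.exists_rightInverse_of_surjective hs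
  let b := Module.finBasis ℂ (LinearMap.ker f)
  have hn : Module.finrank ℂ (LinearMap.ker f) + card J = card σ := by
    have := f.finrank_range_add_finrank_ker
    rw [hr, Module.finrank_fintype_fun_eq_card] at this
    omega
  have hv : LinearIndependent ℂ fun m => (b m : σ → ℂ) :=
    b.linearIndependent.map' (LinearMap.ker f).subtype (Submodule.ker_subtype _)
  have h1 : ∀ m i, ∑ l, φ i l * (b m : σ → ℂ) l = 0 := fun m i =>
    congrFun (LinearMap.mem_ker.1 (b m).2) i
  have h2 : ∀ i i', ∑ l, φ i l * g (Pi.single i' 1) l = if i = i' then 1 else 0 := fun i i' =>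
    (congrFun (LinearMap.congr_fun hg (Pi.single i' 1)) i).trans (Pi.single_apply _ _ _)
  have ε : σ ≃ Fin (Module.finrank ℂ (LinearMap.ker f)) ⊕ J :=
    Fintype.equivOfCardEq (by simp; omega)
  refine ⟨_, fun m => b m, fun i => g (Pi.single i 1), ε, hn, hv, h1, h2, fun h => ?_⟩
  obtain ⟨x, hx, h0⟩ := Matrix.exists_mulVec_eq_zero_iff.2 h
  have h3 : ∀ l : σ, ∑ m, x (ε.symm (.inl m)) * (b m : σ → ℂ) l +
      ∑ i, x (ε.symm (.inr i)) * g (Pi.single i 1) l = 0 := fun l => by
    have := congrFun h0 l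
    rw [Matrix.mulVec, dotProduct, ← ε.symm.sum_comp] at this
    simp only [Fintype.sum_sum_type, Matrix.of_apply, Equiv.apply_symm_apply,
      Sum.elim_inl, Sum.elim_inr, Pi.zero_apply] at this
    simpa only [mul_comm (x _)] using this
  have h5 : ∀ i, x (ε.symm (.inr i)) = 0 := fun i => by
    have h6 : ∑ l, φ i l * (∑ m, x (ε.symm (.inl m)) * (b m : σ → ℂ) l +
        ∑ i, x (ε.symm (.inr i)) * g (Pi.single i 1) l) = 0 :=
      Finset.sum_eq_zero fun l _ => mul_eq_zero_of_right _ (h3 l)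
    simp only [mul_add, Finset.sum_add_distrib, Finset.mul_sum, mul_left_comm (φ i _)] at h6
    rw [Finset.sum_comm, Finset.sum_comm (s := Finset.univ (α := σ))] at h6
    simpa [← Finset.mul_sum, h1, h2] using h6
  have h7 := Fintype.linearIndependent_iff.1 hv (fun m => x (ε.symm (.inl m)))
    (funext fun l => by simpa [h5, Finset.sum_apply] using h3 l)
  refine hx (funext fun l => ?_)
  obtain ⟨y, rfl⟩ := ε.symm.surjective l
  rcases y with m | i
  exacts [h7 m, h5 i]

/-- Independent top coefficients. -/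
theorem lead {σ N : Type} [Fintype N] (D : σ → ℕ) (s : N → σ → ℂ[X]) (v : N → σ → ℂ)
    (A : N → ℂ[X]) (hs : ∀ n i, (s n i).natDegree ≤ D i) (hv : ∀ n i, (s n i).coeff (D i) = v n i)
    (hl : LinearIndependent ℂ v) (hd : ∀ i k, D i ≤ k → (∑ n, A n * s n i).coeff k = 0) :
    ∀ n, A n = 0 := by
  classical
  by_contra hne
  push Not at hne
  obtain ⟨n₀, hn₀, hmax⟩ := Finset.exists_max_image (Finset.univ.filter fun n => A n ≠ 0)
    (fun n => (A n).natDegree) (by
      obtain ⟨n, hn⟩ := hne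
      exact ⟨n, by simpa using hn⟩)
  have hle : ∀ n, (A n).natDegree ≤ (A n₀).natDegree := fun n => by
    by_cases hn : A n = 0
    · simp [hn]
    · exact hmax n (by simpa using hn)
  have := Fintype.linearIndependent_iff.1 hl (fun n => (A n).coeff (A n₀).natDegree) (by
    funext l
    have h1 := hd l ((A n₀).natDegree + D l) (Nat.le_add_left _ _)
    rw [finsetSum_coeff] at h1
    rw [Finset.sum_apply, Pi.zero_apply, ← h1]
    refine Finset.sum_congr rfl fun n _ => ?_
    rw [coeff_mul_add_eq_of_natDegree_le (hle n) (hs n l), hv]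
    rfl) n₀
  exact (Finset.mem_filter.1 hn₀).2 (leadingCoeff_eq_zero.1 this)

theorem dvd_der {p q : ℂ[X]} {k : ℕ} (h : q ^ k ∣ p) : q ^ k ∣ q * derivative p := by
  rcases k with _ | k
  · simp
  · have h1 := pow_sub_one_dvd_derivative_of_pow_dvd h
    rw [Nat.add_sub_cancel] at h1
    rw [pow_succ']
    exact mul_dvd_mul_left q h1

/-- The admissible sections form a module. -/
def lam {σ J : Type} [Fintype σ] (g : J → MvPolynomial σ ℂ) (T : σ → ℂ[X]) (P : ℂ[X]) :
    Submodule ℂ[X] (σ → ℂ[X]) where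
  carrier := {η | Sec g T P η}
  add_mem' := fun {x y} hx hy => by
    refine ⟨fun j => ?_, fun i => dvd_add (hx.dvd i) (hy.dvd i), fun a ha => ?_⟩
    · have h1 := hx.ker j
      have h2 := hy.ker j
      simp only [dP, Pi.add_apply, mul_add, Finset.sum_add_distrib] at h1 h2 ⊢
      rw [h1, h2, add_zero]
    · obtain ⟨γ, h1⟩ := hx.adm a ha
      obtain ⟨γ', h2⟩ := hy.adm a ha
      refine ⟨γ + γ', fun i k hk => ?_⟩
      convert dvd_add (h1 i k hk) (h2 i k hk) using 1
      rw [Pi.add_apply, C_add]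
      ring
  zero_mem' := ⟨fun j => by simp [dP], fun i => dvd_zero _, fun a _ => ⟨0, fun i k _ => by simp⟩⟩
  smul_mem' := fun f x hx => by
    refine ⟨fun j => ?_, fun i => (hx.dvd i).mul_left f, fun a ha => ?_⟩
    · have h1 := hx.ker j
      simp only [dP, Pi.smul_apply, smul_eq_mul, mul_left_comm _ f, ← Finset.mul_sum] at h1 ⊢
      rw [h1, mul_zero]
    · obtain ⟨γ, h1⟩ := hx.adm a ha
      obtain ⟨q, hq⟩ := X_sub_C_dvd_sub_C_eval (p := f) (a := a)
      refine ⟨f.eval a * γ, fun i k hk => ?_⟩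
      convert dvd_sub ((h1 i k hk).mul_left f) ((dvd_der hk).mul_left (q * C γ)) using 1
      rw [Pi.smul_apply, smul_eq_mul, C_mul]
      linear_combination (-(C γ * derivative (T i))) * hq

end B0A

open B0A in
theorem rowB0 : OfB0 := by
  intro hTop hDiv σ J _ _ w d g hOk c e T y P hsm hT hon hy hf hP hPT hξ I _ η hη
  classical
  obtain ⟨m, v, B, ε, hm, hv, hker, hB, hdet⟩ := frame (hOk.sm y hy hf)
  choose ξ hξ1 hξ2 using fun n => hξ (v n) (hker n)
  have hT0 : T ≠ 0 := fun h => hy (funext fun i => by rw [← hT.top i, h]; rfl)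
  obtain ⟨ω, hω⟩ : ∃ ω : J → σ → ℂ[X], ∀ j, Crv w e (ω j) (B j) :=
    ⟨fun j i => monomial (e * w i) (B j i), fun j => ⟨fun i => natDegree_monomial_le _,
      fun i => coeff_monomial_same _ _⟩⟩
  have hdt := fun j j' => hTop.dtop σ w (g j) (d j) e 0 T (ω j') y (hOk.hom j) hT (hω j').deg
  obtain ⟨hW1, hW2⟩ := sTopDet J (Matrix.of fun j j' => dP (g j) T (ω j')) (fun j => e * d j)
    (fun _ => 0) fun j j' => (hdt j j').1
  have hW3 : (DW (jacP g T) ω).coeff (e * ∑ j, d j) = 1 := by
    have e1 : (Matrix.of fun j j' => ((Matrix.of fun j j' => dP (g j) T (ω j')) j j').coeff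
        (e * d j + 0)) = 1 := by
      ext j j'
      rw [Matrix.of_apply, Matrix.of_apply, (hdt j j').2, Matrix.one_apply, ← hB]
      exact Finset.sum_congr rfl fun i _ => by rw [add_zero, (hω j').top i]; rfl
    rw [e1, Matrix.det_one, Finset.sum_const_zero, add_zero, ← Finset.mul_sum] at hW2
    exact hW2
  have hW : DW (jacP g T) ω ≠ 0 := fun h => by simp [h] at hW3
  have hW4 : e * ∑ j, d j ≤ (DW (jacP g T) ω).natDegree :=
    le_natDegree_of_ne_zero (by rw [hW3]; exact one_ne_zero)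
  have core : ∀ (Q : ℂ[X]) (t : ℕ) (s : Fin m → σ → ℂ[X]), Q ≠ 0 →
      (∀ a, Q.eval a = 0 → ev T a ≠ 0) → Q.natDegree = P.natDegree + t → (∀ n, Sec g T Q (s n)) →
      (∀ n i, (s n i).natDegree ≤ e * w i + t) → (∀ n i, (s n i).coeff (e * w i + t) = v n i) →
      (∀ q, Sec g T Q (η q)) → (∀ q i k, e * w i + t ≤ k → (η q i).coeff k = 0) →
      Bd w d e P.natDegree (card I) := by
    intro Q t s hQ hQT hQd hs hs1 hs2 hη1 hη2
    obtain ⟨hD1, hD2⟩ := sTopDet σ (Matrix.of fun l l' => Sum.elim s ω (ε l') l)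
      (fun l => e * w l) (fun l' => Sum.elim (fun _ => t) (fun _ => 0) (ε l')) fun l l' => by
        rw [Matrix.of_apply]
        rcases ε l' with n | j
        exacts [hs1 n l, (hω j).deg l]
    have e1 : (Matrix.of fun l l' => ((Matrix.of fun l l' => Sum.elim s ω (ε l') l) l l').coeff
        (e * w l + Sum.elim (fun _ => t) (fun _ => 0) (ε l'))) =
        Matrix.of fun l l' => Sum.elim v B (ε l') l := by
      ext l l'
      rw [Matrix.of_apply, Matrix.of_apply, Matrix.of_apply]
      rcases ε l' with n | j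
      exacts [hs2 n l, (hω j).top l]
    have e2 : ∑ l', Sum.elim (fun _ => t) (fun _ => 0) (ε l') = m * t := by
      rw [ε.sum_comp (Sum.elim (fun _ => t) fun _ => 0), Fintype.sum_sum_type]
      simp
    rw [e1] at hD2
    rw [e2, ← Finset.mul_sum] at hD1
    have hD : DD ε s ω ≠ 0 := fun h => hdet (by
      rw [← hD2]
      exact (congrArg (coeff · _) h).trans (coeff_zero _))
    have hb := absBound σ (Fin m) J I ε (jacP g T) ω (lam g T Q)
      (DW (jacP g T) ω * Q ^ card (Fin m)) s η (fun x hx j => Sec.ker hx j)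
      (fun u hu => hDiv σ J (Fin m) w d g hOk ε c T Q u ω hsm hon hT0 hQT hu hW) hs hη1 hD hW
      fun a ha => by
        obtain ⟨A, hA⟩ := (Submodule.mem_span_range_iff_exists_fun _).1 ha
        have h0 := lead (fun i => e * w i + t) s v A hs1 hs2 hv fun i k hk => by
          have h1 := congrFun hA i
          simp only [Finset.sum_apply, Pi.smul_apply, smul_eq_mul] at h1
          rw [h1, finsetSum_coeff]
          exact Finset.sum_eq_zero fun q _ => by rw [coeff_smul, hη2 q i k hk, smul_zero]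
        refine funext (Fintype.linearIndependent_iff.1 hη a ?_)
        rw [← hA]
        exact Finset.sum_eq_zero fun n _ => by rw [h0, zero_smul]
    rw [natDegree_mul hW (pow_ne_zero _ hQ), natDegree_pow, Fintype.card_fin, hQd, mul_add] at hb
    have hD3 : (DD ε s ω).natDegree ≤ e * ∑ i, w i + m * t := hD1
    rw [Bd, ← hm, add_mul]
    omega
  refine ⟨fun h => core P 0 ξ hP hPT rfl hξ1 (fun n => (hξ2 n).deg) (fun n => (hξ2 n).top)
    (fun q => (h q).1) fun q i k hk => ?_, fun s hs h => core (P * (X - C s)) 1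
      (fun n => (X - C s : ℂ[X]) • ξ n) (mul_ne_zero hP (X_sub_C_ne_zero s)) (fun a ha => ?_)
      (by rw [natDegree_mul hP (X_sub_C_ne_zero s), natDegree_X_sub_C]) (fun n => ?_)
      (fun n i => ?_) (fun n i => ?_) (fun q => (h q).1) fun q i k hk =>
        coeff_eq_zero_of_natDegree_lt (((h q).2 i).trans_lt hk)⟩
  · rcases hk.eq_or_lt with h1 | h1
    · rw [← h1]
      exact (h q).2.top i
    · exact coeff_eq_zero_of_natDegree_lt (((h q).2.deg i).trans_lt h1)
  · rw [eval_mul, mul_eq_zero] at ha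
    rcases ha with ha | ha
    · exact hPT a ha
    · rw [eval_sub, eval_X, eval_C, sub_eq_zero] at ha
      rwa [ha]
  · have h1 : Sec g T P ((X - C s : ℂ[X]) • ξ n) := (lam g T P).smul_mem _ (hξ1 n)
    refine ⟨h1.ker, fun i => ?_, h1.adm⟩
    rw [Pi.smul_apply, smul_eq_mul, mul_comm P]
    exact mul_dvd_mul_left _ ((hξ1 n).dvd i)
  · rw [Pi.smul_apply, smul_eq_mul, add_comm]
    exact natDegree_mul_le.trans (add_le_add (natDegree_X_sub_C_le s) ((hξ2 n).deg i))
  · rw [Pi.smul_apply, smul_eq_mul, add_comm,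
      coeff_mul_add_eq_of_natDegree_le (natDegree_X_sub_C_le s) ((hξ2 n).deg i), (hξ2 n).top i]
    simp

end Pool.Agent.MP_776d16_ag.H7W
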