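import Pool.Agent.MP_776d16_ag.H7W.Spec

/-!
The gain of one order of vanishing at a base point.
-/

open Polynomial
open MvPolynomial (pderiv IsWeightedHomogeneous)
open Fintype (card)

namespace Pool.Agent.MP_776d16_ag.H7W

namespace BaseA

variable {σ J N : Type} [Fintype σ] [DecidableEq σ] [Fintype J] [DecidableEq J] [Fintype N]
  [DecidableEq N]

theorem eval_det {K : Type} [Fintype K] [DecidableEq K] (M : Matrix K K ℂ[X]) (b : ℂ) :
    M.det.eval b = (Matrix.of fun i j => (M i j).eval b).det :=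
  (evalRingHom b).map_det M

/-- The ratio of the two determinants does not depend on the complement. -/
theorem cross (ε : σ ≃ N ⊕ J) (φ ω ω' : J → σ → ℂ[X]) (u : N → σ → ℂ[X])
    (h : ∀ n i, ∑ l, φ i l * u n l = 0) (hW : DW φ ω ≠ 0) :
    DD ε u ω * DW φ ω' = DD ε u ω' * DW φ ω := by
  obtain ⟨b, hb⟩ : ∃ b, (DW φ ω).eval b ≠ 0 := by
    by_contra hc
    exact hW (zero_of_eval_zero _ fun b => not_not.1 fun e => hc ⟨b, e⟩)
  have h1 : LinearIndependent ℂ fun i l => (φ i l).eval b := by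
    rw [DW, eval_det] at hb
    refine Fintype.linearIndependent_iff.2 fun c hc => congrFun
      (Matrix.eq_zero_of_vecMul_eq_zero hb (funext fun i' => ?_))
    have h2 : ∀ l, ∑ i, c i * (φ i l).eval b = 0 := fun l => by simpa using congrFun hc l
    simp only [Matrix.vecMul, dotProduct, Matrix.of_apply, eval_finsetSum, eval_mul,
      Finset.mul_sum, Pi.zero_apply, ← mul_assoc]
    rw [Finset.sum_comm]
    simp only [← Finset.sum_mul, h2, zero_mul, Finset.sum_const_zero]
  obtain ⟨m, x, hx, hm⟩ := DetDivA.exists_ext h1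
  have hN : card N = m := by
    have := Fintype.card_congr ε
    rw [Fintype.card_sum] at this
    omega
  let e : N ≃ Fin m := Fintype.equivFinOfCardEq hN
  let ρ : N → σ → ℂ[X] := fun n l => C (x (e n) l)
  have h3 : (Matrix.of fun k l => Sum.elim ρ φ (ε k) l).det ≠ 0 := fun h0 => by
    have h4 := hx.comp _ ((ε.trans (Equiv.sumComm N J)).trans
      ((Equiv.refl J).sumCongr e)).injective
    have h5 : (Matrix.of fun k l => (Sum.elim ρ φ (ε k) l).eval b).det = 0 := by
      have := congrArg (eval b) h0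
      rwa [eval_det, eval_zero] at this
    refine ((Matrix.isUnit_iff_isUnit_det _).1
      (Matrix.linearIndependent_rows_iff_isUnit.1 ?_)).ne_zero h5
    convert h4 using 1
    swap
    · rfl
    ext k l
    simp only [Function.comp, Equiv.trans_apply, Matrix.row, Matrix.of_apply]
    rcases ε k with n | i <;> simp [ρ]
  refine mul_left_cancel₀ h3 ?_
  rw [← mul_assoc, ← mul_assoc, DetDivA.det_mul_DD ε φ ω ρ u h, DetDivA.det_mul_DD ε φ ω' ρ u h]
  ring

omit [DecidableEq σ] in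
theorem rinv {f : J → σ → ℂ} (hf : LinearIndependent ℂ f) :
    ∃ B : J → σ → ℂ, ∀ j j', ∑ i, f j i * B j' i = (1 : Matrix J J ℂ) j j' := by
  classical
  obtain ⟨L, hL⟩ := (Fintype.linearCombination ℂ f).exists_leftInverse_of_injective
    (LinearMap.ker_eq_bot.2 (linearIndependent_iff_injective_fintypeLinearCombination.1 hf))
  refine ⟨fun j' i => L (Pi.single i 1) j', fun j j' => ?_⟩
  have h1 : L (f j) = Pi.single j 1 := by
    have := LinearMap.congr_fun hL (Pi.single j 1)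
    simpa using this
  have h2 : f j = ∑ i, f j i • (Pi.single i 1 : σ → ℂ) := pi_eq_sum_univ' (f j)
  rw [h2, map_sum] at h1
  have h3 := congrFun h1 j'
  simp only [map_smul, Finset.sum_apply, Pi.smul_apply, smul_eq_mul] at h3
  rw [h3, Matrix.one_apply, Pi.single_apply]
  exact if_congr eq_comm rfl rfl

/-- The case of an integral weighted order of vanishing. -/
theorem core (hT : STop) {w : σ → ℕ} {d : J → ℕ} {g : J → MvPolynomial σ ℂ} (hg : Ok w d g)
    (ε : σ ≃ N ⊕ J) (S : σ → ℂ[X]) (u : N → σ → ℂ[X]) (ω : J → σ → ℂ[X]) (k α : ℕ) (hα : 0 < α)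
    (T : σ → ℂ[X]) (hS : T = fun i => (X ^ α) ^ w i * S i) (hOn : On g 0 T) (hv : ev S 0 ≠ 0)
    (hk : ∀ n j, dP (g j) T (u n) = 0) (hu : ∀ n i, (X ^ α) ^ w i ∣ u n i)
    (hW : DW (jacP g T) ω ≠ 0) (hd : X ^ k ∣ DW (jacP g T) ω) : X ^ (k + 1) ∣ DD ε u ω := by
  have hX : ∀ n : ℕ, ((X : ℂ[X]) ^ α) ^ n ≠ 0 := fun n => pow_ne_zero _ (pow_ne_zero _ X_ne_zero)
  have hF : Fib g 0 (ev S 0) := fun j => by
    have h := hOn j
    rw [hS, hT.scale σ w _ _ _ _ (hg.hom j), Pi.zero_apply, C_0] at h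
    rw [← eval_aeval, (mul_eq_zero.1 h).resolve_left (hX _), eval_zero, Pi.zero_apply]
  obtain ⟨B, hB⟩ := rinv (hg.sm _ hv hF)
  choose q hq using hu
  let E : Matrix J J ℂ[X] := Matrix.of fun j j' => dP (g j) S fun i => C (B j' i)
  have hE : E.det.eval 0 = 1 := by
    rw [eval_det, ← Matrix.det_one (n := J)]
    refine congrArg _ (Matrix.ext fun j j' => ?_)
    rw [← hB]
    simp only [E, Matrix.of_apply, dP, eval_finsetSum, eval_mul, eval_C, eval_aeval, jac]
  have h1 : DW (jacP g T) (fun j' i => (X ^ α) ^ w i * C (B j' i)) =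
      (X ^ α) ^ (∑ j, d j) * E.det := by
    rw [← Finset.prod_pow_eq_pow_sum, ← Matrix.det_mul_column, DW]
    refine congrArg _ (Matrix.ext fun j j' => ?_)
    rw [hS]
    exact hT.dscale σ w _ _ _ _ _ (hg.hom j)
  have h2 : DD ε u (fun j' i => (X ^ α) ^ w i * C (B j' i)) =
      (X ^ α) ^ (∑ i, w i) * DD ε q fun j' i => C (B j' i) := by
    rw [← Finset.prod_pow_eq_pow_sum, DD, DD, ← Matrix.det_mul_column]
    refine congrArg _ (Matrix.ext fun l l' => ?_)
    simp only [Matrix.of_apply]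
    rcases ε l' with n | j
    · exact hq n l
    · rfl
  have h3 := cross ε (jacP g T) ω (fun j' i => (X ^ α) ^ w i * C (B j' i)) u hk hW
  obtain ⟨r, hr⟩ := Nat.exists_eq_add_of_lt hg.fano
  obtain ⟨a, rfl⟩ := Nat.exists_eq_add_one_of_ne_zero hα.ne'
  obtain ⟨y, hy⟩ := hd
  rw [h1, h2, hy, hr] at h3
  refine prime_X.pow_dvd_of_dvd_mul_right _ (b := E.det) (fun h => ?_) ⟨(X ^ (a + 1)) ^ r * X ^ a *
    DD ε q (fun j' i => C (B j' i)) * y, mul_left_cancel₀ (hX (∑ j, d j)) ?_⟩
  · rw [X_dvd_iff, coeff_zero_eq_eval_zero, hE] at h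
    exact one_ne_zero h
  · linear_combination h3

omit [DecidableEq σ] in
/-- The weighted order of vanishing becomes an integer after a ramified base change. -/
theorem order {w : σ → ℕ} (hw : ∀ i, 0 < w i) {T : σ → ℂ[X]} (h0 : T ≠ 0) (hz : ev T 0 = 0) :
    ∃ (W α : ℕ) (m : σ → ℕ), 0 < W ∧ 0 < α ∧ (∀ i, X ^ m i ∣ T i ∧ α * w i ≤ W * m i) ∧
      ∃ i, (expand ℂ W (T i)).coeff (α * w i) ≠ 0 := by
  classical
  have hW : 0 < ∏ i, w i := Finset.prod_pos fun i _ => hw i
  choose c hc using fun i => Finset.dvd_prod_of_mem w (Finset.mem_univ i)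
  obtain ⟨i₀, h1, h2⟩ := (Finset.univ.filter fun i => T i ≠ 0).exists_min_image
    (fun i => c i * (T i).natTrailingDegree) (by
      obtain ⟨i, hi⟩ := Function.ne_iff.1 h0
      exact ⟨i, Finset.mem_filter.2 ⟨Finset.mem_univ i, hi⟩⟩)
  have h3 := coeff_natTrailingDegree_ne_zero.2 (Finset.mem_filter.1 h1).2
  refine ⟨∏ i, w i, c i₀ * (T i₀).natTrailingDegree, fun i => if T i = 0 then
    c i₀ * (T i₀).natTrailingDegree * w i else (T i).natTrailingDegree, hW,
    Nat.mul_pos (Nat.pos_of_ne_zero fun e => ?_) (Nat.pos_of_ne_zero fun e => ?_), fun i => ?_,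
    i₀, ?_⟩
  · rw [hc i₀, e, mul_zero] at hW
    exact lt_irrefl _ hW
  · rw [e, coeff_zero_eq_eval_zero] at h3
    exact h3 (congrFun hz i₀)
  · by_cases h : T i = 0
    · simp only [if_pos h]
      exact ⟨h ▸ dvd_zero _, Nat.le_mul_of_pos_left _ hW⟩
    · simp only [if_neg h]
      refine ⟨X_pow_dvd_iff.2 fun _ => coeff_eq_zero_of_lt_natTrailingDegree, ?_⟩
      have := Nat.mul_le_mul_right (w i) (h2 i (Finset.mem_filter.2 ⟨Finset.mem_univ i, h⟩))
      rw [hc i]
      exact this.trans_eq (by ring)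
  · rw [show c i₀ * (T i₀).natTrailingDegree * w i₀ = (T i₀).natTrailingDegree * ∏ i, w i by
      rw [hc i₀]; ring, coeff_expand_mul hW]
    exact h3

theorem exp_dvd {W m n : ℕ} {p : ℂ[X]} (h : X ^ m ∣ p) (hn : n ≤ W * m) :
    X ^ n ∣ expand ℂ W p := by
  have := map_dvd (expand ℂ W) h
  rw [map_pow, expand_X, ← pow_mul] at this
  exact (pow_dvd_pow X hn).trans this

theorem map_aeval {τ : Type} (χ : ℂ[X] →ₐ[ℂ] ℂ[X]) (T : τ → ℂ[X]) (G : MvPolynomial τ ℂ) :
    MvPolynomial.aeval (fun i => χ (T i)) G = χ (MvPolynomial.aeval T G) :=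
  (MvPolynomial.comp_aeval_apply T χ G).symm

end BaseA

open BaseA in
theorem rowBase : OfBase := by
  intro hT σ J N _ _ _ _ _ _ w d g hg ε T u ω k hOn h0 hz hk hu hW hd
  obtain ⟨W, α, m, hW0, hα, hm, i₀, hi⟩ := order hg.wpos h0 hz
  have h1 : ∀ i, (X ^ α) ^ w i ∣ expand ℂ W (T i) := fun i => by
    rw [← pow_mul]; exact exp_dvd (hm i).1 (hm i).2
  choose S hS using h1
  have e1 : DW (jacP g fun i => expand ℂ W (T i)) (fun j i => expand ℂ W (ω j i)) =
      expand ℂ W (DW (jacP g T) ω) := by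
    rw [DW, DW, AlgHom.map_det]
    refine congrArg _ (Matrix.ext fun j j' => ?_)
    simp only [jacP, map_aeval, Matrix.of_apply, AlgHom.mapMatrix_apply, Matrix.map_apply, map_sum,
      map_mul]
  have e2 : DD ε (fun n i => expand ℂ W (u n i)) (fun j i => expand ℂ W (ω j i)) =
      expand ℂ W (DD ε u ω) := by
    rw [DD, DD, AlgHom.map_det]
    refine congrArg _ (Matrix.ext fun l l' => ?_)
    simp only [Matrix.of_apply, AlgHom.mapMatrix_apply, Matrix.map_apply]
    rcases ε l' with n | j <;> rfl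
  have h2 := core hT hg ε S (fun n i => expand ℂ W (u n i)) (fun j i => expand ℂ W (ω j i))
    (W * k) α hα (fun i => expand ℂ W (T i)) (funext hS)
    (fun j => by rw [map_aeval, hOn j, expand_C])
    (fun e => hi (by
      have h := coeff_X_pow_mul (S i₀) (α * w i₀) 0
      rw [zero_add] at h
      rw [hS, ← pow_mul, h, coeff_zero_eq_eval_zero]
      exact congrFun e i₀))
    (fun n j => by
      have h := congrArg (expand ℂ W) (hk n j)
      simpa only [dP, map_aeval, map_sum, map_mul, map_zero] using h)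
    (fun n i => by rw [← pow_mul]; exact exp_dvd (hu n i _ (hm i).1) (hm i).2)
    (by rw [e1]; exact fun e => hW (expand_injective hW0 (e.trans (map_zero _).symm)))
    (by rw [e1]; exact exp_dvd hd le_rfl)
  rw [e2, X_pow_dvd_iff] at h2
  refine X_pow_dvd_iff.2 fun n hn => ?_
  rw [← coeff_expand_mul' hW0]
  exact h2 _ (Nat.lt_succ_of_le (Nat.mul_le_mul_left W (Nat.lt_succ_iff.1 hn)))

end Pool.Agent.MP_776d16_ag.H7W
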