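import Pool.Agent.MP_776d16_ag.H7W.Spec

/-!
Row Comb: two links are merged after a generisation.
-/

open Polynomial

namespace Pool.Agent.MP_776d16_ag.H7W

theorem rowComb : OfComb := by
  intro sp lk gen df ca σ J _ _ w d g ok K y v p hK hg hy hv ⟨a, T0, a1, a2, a3⟩ ⟨e, Γ, b1, b2, b3⟩
  obtain ⟨T, t1, t2, t3⟩ := (lk σ J w d g ok.hom).pad a (a + 1) T0 v (Nat.le_succ a) a1 a2
  rw [a3] at t3
  have hG : Set.Infinite {s : ℂ | ∃ T' : σ → ℂ[X], ev Γ s ≠ 0 ∧ Crv w (a + 1) T' (ev Γ s) ∧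
      On g 0 T' ∧ Spec K (ev T' 0) y} := fun hf => by
    obtain ⟨s, T', h1, h2⟩ := df σ J w d g ok K (a + 1) T Γ _ hK hg (Nat.succ_pos a) (b3 ▸ t1) t2
      (t3 ▸ hy) (b3 ▸ hv) b2 hf
    exact h1 ⟨T', t3 ▸ h2⟩
  choose T' h1 h2 h3 h4 using fun l : Fin (e * ∑ j, d j + 1) => (hG.natEmbedding _ l).2
  obtain ⟨l, y', c1, c2⟩ := ca σ J (Fin (e * ∑ j, d j + 1)) w d g ok K (a + 1) e Γ p
    (fun l => hG.natEmbedding _ l) T' hK hg (Nat.succ_pos a) b1 b2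
    (fun l l' h => Fin.ext ((hG.natEmbedding _).injective (Subtype.ext h))) h1 h2 h3
    (fun l => (gen σ J g ok.sm).spec K y _ (h4 l) hy ((lk σ J w d g ok.hom).fib0 0 _ 0 (h3 l)))
    (by simp)
  exact ⟨y', sp.trans _ K _ _ _ c1 (h4 l), c2⟩

end Pool.Agent.MP_776d16_ag.H7W
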