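import Pool.Agent.MP_776d16_ag.H7W.Spec

/-!
Smoothing a comb with many free teeth.
-/

open Polynomial
open MvPolynomial (pderiv IsWeightedHomogeneous)
open Fintype (card)
open Set (range)

namespace Pool.Agent.MP_776d16_ag.H7W

namespace CombAA

variable {σ L : Type} {w : σ → ℕ} {a e : ℕ}

/-- The unknowns. -/
abbrev Un (L : Type) (w : σ → ℕ) (a e : ℕ) : Type :=
  (Σ i, Fin (e * w i)) ⊕ (L × Σ i, Fin (a * w i)) ⊕ L

/-- The handle. -/
noncomputable def hd (p : σ → ℂ) (x : (Σ i, Fin (e * w i)) → ℂ) : σ → ℂ[X] :=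
  tooth w e p fun i => pol fun k => x ⟨i, k⟩

/-- The lower parts of the teeth. -/
noncomputable def lo (z : Un L w a e → ℂ) (l : L) (i : σ) : ℂ[X] :=
  pol fun k : Fin (a * w i) => z (.inr (.inl (l, ⟨i, k⟩)))

theorem ev_tooth (hw : ∀ i, 0 < w i) (ha : 0 < a) (v : σ → ℂ) (b : σ → ℂ[X]) :
    ev (tooth w a v b) 0 = ev b 0 := funext fun i => by
  simp [ev, tooth, (Nat.mul_pos ha (hw i)).ne']

theorem coeff_tooth (v : σ → ℂ) (z : Un L w a e → ℂ) (l : L) (i : σ) (k : Fin (a * w i)) :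
    (tooth w a v (lo z l) i).coeff k = z (.inr (.inl (l, ⟨i, k⟩))) := by
  rw [tooth, coeff_add, coeff_C_mul_X_pow, if_neg k.2.ne, zero_add, lo, coeff_pol, dif_pos k.2]

theorem pf_hd (hf : SPf) (hp : SPp) (hq : SPq) {K : Subfield ℂ} {p : σ → ℂ} (h : ∀ i, p i ∈ K)
    (i : σ) : PFP K fun x : (Σ i, Fin (e * w i)) → ℂ => hd p x i :=
  hp.add _ _ _ _ (hp.mul _ _ _ _ (hp.C _ _ _ (hf.const _ _ _ (h i))) (hp.pow _ _ _ _ (hp.X _ _)))
    (hq.pol (Σ i, Fin (e * w i)) K (e * w i) (fun k x => x ⟨i, k⟩) fun _ => hf.var _ _ _)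

theorem uu_ne [Fintype L] [DecidableEq L] {s : L → ℂ} (hs : Function.Injective s) (l : L) :
    (uu s l).eval (s l) ≠ 0 := by
  rw [uu, eval_prod]
  exact Finset.prod_ne_zero_iff.2 fun l' h => by
    simpa using sub_ne_zero.2 (hs.ne (Finset.mem_erase.1 h).1.symm)

theorem sc_inv {t : ℂ} (ht : t ≠ 0) (y : σ → ℂ) : sc w t⁻¹ (sc w t y) = y := funext fun i => by
  rw [sc, sc, ← mul_assoc, ← mul_pow, inv_mul_cancel₀ ht, one_pow, one_mul]

/-- The degrees of freedom of a comb. -/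
theorem rk_le [Fintype σ] [Fintype L] (hr : SRk) (hf : SPf) (hp : SPp) (hq : SPq)
    {K K' : Subfield ℂ} (hK : K ≤ K') {p : σ → ℂ} (h : ∀ i, p i ∈ K') {s : L → ℂ}
    (hs : ∀ l, s l ∈ K') (z : Un L w a e → ℂ) (h0 : ∀ l, z (.inr (.inr l)) = 0) :
    rk K' (range z) ≤ e * ∑ i, w i + ∑ l, rk (K ∪ range (ev (hd p fun u => z (.inl u)) (s l)))
      (cf (tooth w a (ev (hd p fun u => z (.inl u)) (s l)) (lo z l))) := by
  have f1 := Set.finite_range fun u => z (.inl u)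
  have f2 := fun l => cf_finite (tooth w a (ev (hd p fun u => z (.inl u)) (s l)) (lo z l))
  have f3 := Set.finite_iUnion f2
  refine (hr.mono _ _ _ (f1.union f3) fun δ _ hδ => mem_Kil_range.2 ?_).trans
    ((hr.tower _ _ _ f1 f3).trans_le (add_le_add ((hr.le_card _ _ _).trans_eq ?_)
      ((hr.sum _ _ _ f2).trans (Finset.sum_le_sum fun l _ => hr.anti _ _ _ (f2 l) fun δ hδ => ?_))))
  · rintro (u | ⟨l, i, k⟩ | l)
    · exact hδ _ (Or.inl ⟨u, rfl⟩)
    · exact hδ _ (Or.inr (Set.mem_iUnion.2 ⟨l, i, k, (coeff_tooth _ z l i k).symm⟩))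
    · rw [h0, map_zero]
  · simp [Finset.mul_sum]
  · obtain ⟨h1, h2⟩ := mem_Kil_union.1 hδ
    exact mem_Kil_union.2 ⟨fun x hx => h1 x (hK hx), mem_Kil_range.2 fun i =>
      hf.der _ _ _ _ δ (hp.eval _ _ _ _ (pf_hd hf hp hq h i) (hf.const _ _ _ (hs l))) h1
        (mem_Kil_range.1 h2)⟩

end CombAA

open CombAA in
theorem rowCombA : OfCombA := by
  intro hr hf hp hq hs hk _ hl hg h2 gp gi gs gz σ J L _ _ _ _ w d g ok K a e Γ p s T cK cg ha
    c1 o1 si n1 c2 o2 g2 hL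
  have LK := hl σ J w d g ok.hom
  have fp := LK.fibT e Γ p c1 o1
  have : Nonempty L := Fintype.card_pos_iff.1 (by omega)
  obtain ⟨K', cK', sub, -⟩ := hr.ext ((K : Set ℂ) ∪ range s ∪ range p)
    ((cK.union (Set.countable_range s)).union (Set.countable_range p))
  have k1 : K ≤ K' := fun x hx => sub (Or.inl (Or.inl hx))
  have k2 : ∀ l, s l ∈ K' := fun l => sub (Or.inl (Or.inr ⟨l, rfl⟩))
  have k3 : ∀ i, p i ∈ K' := fun i => sub (Or.inr ⟨i, rfl⟩)
  have p1 : ∀ i, PFP K' fun z : Un L w a e → ℂ => hd p (fun u => z (.inl u)) i := fun i =>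
    hp.subst (Un L w a e) (Σ i, Fin (e * w i)) K' (fun x => hd p x i) (fun u z => z (.inl u))
      (pf_hd hf hp hq k3 i) fun u => hf.var _ _ _
  have p2 : ∀ l i, PFP K' fun z : Un L w a e → ℂ => lo z l i := fun l i =>
    hq.pol _ _ _ _ fun k => hf.var _ _ _
  have cv : ∀ x : (Σ i, Fin (e * w i)) → ℂ, Crv w e (hd p x) p := fun x =>
    LK.crv e p _ fun i => degree_pol _
  have dg : ∀ (z : Un L w a e → ℂ) l i, (lo z l i).degree < (a * w i : ℕ) := fun z l i =>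
    degree_pol _
  obtain ⟨q1, q2⟩ := gp σ J L (Un L w a e) K' w d g a s (fun i z => hd p (fun u => z (.inl u)) i)
    (fun l i z => lo z l i) (fun l z => z (.inr (.inr l))) (fun _ _ => 0) (fun _ _ _ => 0)
    (fun j m => k1 (cg j m)) k2 p1 p2 (fun l => hf.var _ _ _) (fun _ => hf.const _ _ _ K'.zero_mem)
    fun _ _ => hf.const _ _ _ K'.zero_mem
  obtain ⟨b₀, b1, b2⟩ := LK.tooth e Γ p c1
  choose b b3 b4 using fun l => LK.tooth a (T l) _ (c2 l)
  obtain ⟨z₀, z1, z2, z3⟩ : ∃ z₀ : Un L w a e → ℂ, hd p (fun u => z₀ (.inl u)) = Γ ∧ lo z₀ = b ∧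
      ∀ l, z₀ (.inr (.inr l)) = 0 :=
    ⟨Sum.elim (fun u => (b₀ u.1).coeff u.2) (Sum.elim (fun u => (b u.1 u.2.1).coeff u.2.2) 0),
      (congrArg (tooth w e p) (funext fun i => pol_coeff (b1 i))).trans b2.symm,
      funext₂ fun l i => pol_coeff (b3 l i), fun _ => rfl⟩
  obtain ⟨r1, r2⟩ := (gz σ J L w d g a e s _ p (lo z₀) (fun l => z₀ (.inr (.inr l))) (fun _ => 0)
    (fun _ _ => 0) 0 ok.wpos ok.dpos ok.hom ha si (cv fun u => z₀ (.inl u)) fp (dg z₀) z3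
    (fun _ => rfl) fun _ _ => (mul_zero _).symm).2
    ⟨z1 ▸ o1, fun l => by rw [z1, z2, ← b4]; exact o2 l⟩
  obtain ⟨z, e1, e2, e3⟩ := hk K' (Un L w a e) ((L × Σ j, Fin (a * d j)) ⊕ Σ j, Fin (e * d j))
    (Sum.elim (fun q z => (gLow g w a s (hd p fun u => z (.inl u)) (lo z)
      (fun l => z (.inr (.inr l))) (fun _ _ => 0) q.1 q.2.1).coeff q.2.2)
      fun q z => (gHigh g w d a s (hd p fun u => z (.inl u)) (lo z)
        (fun l => z (.inr (.inr l))) (fun _ => 0) q.1).coeff q.2) z₀ cK'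
    (by
      rintro (q | q)
      exacts [q1 q.1 q.2.1 q.2.2, q2 q.1 q.2])
    (by
      rintro (q | q)
      exacts [r1 q.1 q.2.1 q.2.2 q.2.2.2, r2 q.1 q.2 q.2.2])
  have s1 : ∀ l, Spec K (ev (lo z l) 0) (ev (T l) 0) := fun l => by
    rw [b4 l, ev_tooth ok.wpos ha, ← z2]
    exact hs.mono _ _ _ _ _ k1 (hs.map _ _ _ z z₀ (fun i z => (lo z l i).eval 0) e2 fun i =>
      hp.eval _ _ _ _ (p2 l i) (hf.const _ _ _ K'.zero_mem))
  by_cases h0 : ∀ l, z (.inr (.inr l)) = 0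
  · exfalso
    obtain ⟨-, t2⟩ := (gz σ J L w d g a e s _ p (lo z) (fun l => z (.inr (.inr l))) (fun _ => 0)
      (fun _ _ => 0) 0 ok.wpos ok.dpos ok.hom ha si (cv fun u => z (.inl u)) fp (dg z) h0
      (fun _ => rfl) fun _ _ => (mul_zero _).symm).1
      ⟨fun l j k h => e1 (.inl (l, ⟨j, k, h⟩)), fun j k h => e1 (.inr ⟨j, k, h⟩)⟩
    have n2 : ∀ l, ev (hd p fun u => z (.inl u)) (s l) ≠ 0 := fun l => by
      refine hs.nz _ K' _ (ev Γ (s l)) ?_ (n1 l)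
      rw [← z1]
      exact hs.map _ _ _ z z₀ (fun i z => (hd p (fun u => z (.inl u)) i).eval (s l)) e2
        fun i => hp.eval _ _ _ _ (p1 i) (hf.const _ _ _ (k2 l))
    have t3 := fun l => h2 σ J w d g ok K a _ _ 0 1 cg K.zero_mem (LK.crv a _ _ (dg z l)) (t2 l)
      (n2 l) ((hg σ J g ok.sm).spec K _ _ (by rw [ev_tooth ok.wpos ha]; exact s1 l) (g2 l)
        (LK.fib0 _ _ 0 (t2 l))) (by simp) (by simp) fun _ _ _ => one_dvd _
    simp only [Bd, natDegree_one, mul_zero, add_zero] at t3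
    have t4 := Finset.sum_le_sum fun l (_ : l ∈ Finset.univ) => t3 l
    have t5 := rk_le hr hf hp hq k1 k3 k2 z h0
    simp only [Finset.sum_add_distrib, Finset.sum_const, Finset.card_univ, smul_eq_mul] at t4
    simp only [Fintype.card_sum, Fintype.card_prod, Fintype.card_sigma, Fintype.card_fin,
      ← Finset.mul_sum] at e3
    omega
  · obtain ⟨l, h0⟩ := not_forall.1 h0
    have t1 := gs σ J L w d g a e s _ p (lo z) (fun l => z (.inr (.inr l))) (fun _ => 0)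
      (fun _ _ => 0) ok.wpos ok.dpos ok.hom ha si (cv fun u => z (.inl u)) fp (dg z)
      (fun _ _ => (mul_zero _).symm) (fun l j k h => e1 (.inl (l, ⟨j, k, h⟩)))
      fun j k h => e1 (.inr ⟨j, k, h⟩)
    have G := gi σ L w a s (hd p fun u => z (.inl u)) (lo z) (fun l => z (.inr (.inr l))) ok.wpos ha
      (dg z)
    have t2 := LK.shift _ _ p (s l) (G.crv e p (cv _)) t1
    rw [G.val] at t2
    exact ⟨l, _, s1 l, sc_inv (pow_ne_zero a (mul_ne_zero h0 (uu_ne si l))) (ev (lo z l) 0) ▸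
      LK.scale _ _ _ t2⟩

end Pool.Agent.MP_776d16_ag.H7W
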