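import Pool.Agent.MP_776d16_ag.H7W.Spec

/-!
Row `Dc`: derivations acting on coefficients.
-/

open Polynomial
open MvPolynomial (pderiv)

namespace Pool.Agent.MP_776d16_ag.H7W

namespace DcA

theorem dc_mon (δ : Der) (n : ℕ) (a : ℂ) : dc δ (monomial n a) = monomial n (δ a) := by
  ext k
  rw [coeff_dc, coeff_monomial, coeff_monomial]
  split_ifs
  · rfl
  · exact map_zero δ

theorem dc_one (δ : Der) : dc δ 1 = 0 := by
  rw [← C_1, dc_C, δ.map_one_eq_zero, C_0]

theorem adm (δ : Der) (p : ℂ[X]) (a : ℂ) (k : ℕ) (h : (X - C a) ^ k ∣ p) :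
    (X - C a) ^ k ∣ dc δ p + C (δ a) * derivative p := by
  have h1 : ∀ k : ℕ, dc δ ((X - C a) ^ k) + C (δ a) * derivative ((X - C a) ^ k : ℂ[X]) = 0 := by
    intro k
    induction k with
    | zero => simp [dc_one]
    | succ k ih =>
      rw [pow_succ, dc_mul, dc_lin, derivative_mul, derivative_X_sub_C]
      linear_combination (X - C a) * ih
  obtain ⟨q, rfl⟩ := h
  refine ⟨dc δ q + C (δ a) * derivative q, ?_⟩
  rw [dc_mul, derivative_mul]
  linear_combination q * h1 k

theorem dc_pow (δ : Der) {p : ℂ[X]} (h : dc δ p = 0) (k : ℕ) : dc δ (p ^ k) = 0 := by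
  induction k with
  | zero => simp [dc_one]
  | succ k ih => rw [pow_succ, dc_mul, h, ih, mul_zero, mul_zero, add_zero]

end DcA

open DcA in
theorem rowDc : OfDc := by
  refine ⟨fun I _ c δ p k => ?_, fun δ p => ?_, fun S δ p h1 h2 => ?_,
    fun σ δ T a => ⟨δ a, fun i k h => adm δ (T i) a k h⟩, fun δ p s hs => ?_, fun δ p s hs => ?_,
    fun δ p N => ?_, fun τ _ S δ G x h1 h2 => ?_, fun σ J _ S δ g c T P h1 h2 h3 h4 h5 =>
      ⟨fun j => ?_, h5, fun a _ => ⟨δ a, fun i k h => adm δ (T i) a k h⟩⟩⟩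
  · simp only [finsetSum_coeff, coeff_smul, coeff_dc, smul_eq_mul]
  · refine natDegree_le_iff_coeff_eq_zero.2 fun k hk => ?_
    rw [coeff_dc, coeff_eq_zero_of_natDegree_lt hk, map_zero]
  · ext k
    rw [coeff_dc, h1 _ (h2 k), coeff_zero]
  · induction p using Polynomial.induction_on' with
    | add p q hp hq => rw [dc_add, eval_add, eval_add, map_add, hp, hq]
    | monomial n a =>
      rw [dc_mon, eval_monomial, eval_monomial, δ.leibniz, δ.leibniz_pow, hs]
      simp [mul_comm]
  · have h : dc δ (X + C s) = 0 := by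
      have := dc_lin δ (-s)
      rwa [C_neg, sub_neg_eq_add, map_neg, hs, neg_zero, C_0, neg_zero] at this
    induction p using Polynomial.induction_on' with
    | add p q hp hq => rw [dc_add, add_comp, add_comp, dc_add, hp, hq]
    | monomial n a =>
      rw [dc_mon, monomial_comp, monomial_comp, dc_mul, dc_pow δ h, dc_C, mul_zero, zero_add,
        mul_comm]
  · ext k
    rw [coeff_dc, coeff_reflect, coeff_reflect, coeff_dc]
  · have h := chain δ G (fun o => C (x o)) fun m => h1 _ (h2 m)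
    rw [aeval_C', dc_C, dP] at h
    simp only [aeval_C', dc_C, ← C_mul, ← map_sum] at h
    exact C_injective h
  · rw [← chain δ (g j) T fun m => h1 _ (h2 j m), h4 j, dc_C, h1 _ (h3 j), C_0]

end Pool.Agent.MP_776d16_ag.H7W
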