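import Pool.Agent.MP_776d16_ag.H7W.Spec

/-!
A free curve follows its end point along any curve.
-/

open Polynomial
open Fintype (card)
open Set (range)

namespace Pool.Agent.MP_776d16_ag.H7W

namespace DefA

/-- The family of curves: the top coefficient moves along `Γ`, the lower ones are free. -/
noncomputable def fam {σ : Type} (w : σ → ℕ) (a : ℕ) (Γ : σ → ℂ[X])
    (z : Option (Σ i, Fin (a * w i)) → ℂ) : σ → ℂ[X] :=
  tooth w a (ev Γ (z none)) fun i => pol fun k => z (some ⟨i, k⟩)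

theorem coeff_fam {σ : Type} (w : σ → ℕ) (a : ℕ) (Γ : σ → ℂ[X])
    (z : Option (Σ i, Fin (a * w i)) → ℂ) (i : σ) (k : Fin (a * w i)) :
    (fam w a Γ z i).coeff k = z (some ⟨i, k⟩) := by
  rw [fam, tooth, coeff_add, coeff_C_mul_X_pow, if_neg k.2.ne, zero_add, coeff_pol, dif_pos k.2]

theorem pf_ev (hf : SPf) (hp : SPp) {U : Type} {K : Subfield ℂ} {p : ℂ[X]} (h : CoP K p) (u : U) :
    PF K fun z : U → ℂ => p.eval (z u) :=
  hp.eval U K (fun _ => p) (fun z => z u) (hp.const U K p h) (hf.var U K u)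

theorem pfp_fam (hf : SPf) (hp : SPp) (hq : SPq) {σ : Type} (w : σ → ℕ) (a : ℕ) {Γ : σ → ℂ[X]}
    {K : Subfield ℂ} (h : ∀ i, CoP K (Γ i)) (i : σ) : PFP K fun z => fam w a Γ z i :=
  hp.add _ K _ _
    (hp.mul _ K _ _ (hp.C _ K _ (pf_ev hf hp (h i) none)) (hp.pow _ K _ (a * w i) (hp.X _ K)))
    (hq.pol (Option (Σ i, Fin (a * w i))) K (a * w i) (fun k z => z (some ⟨i, k⟩))
      fun _ => hf.var _ K _)

end DefA

open DefA in
theorem rowDef : OfDef := by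
  intro hRk hPf hPp hPq hSp hKr hTop hLink hGen hR2 σ J _ _ w d g ok K a T Γ A hK hg _ hT hOn hG
    h0 hΓ hA
  have LK := hLink σ J w d g ok.hom
  obtain ⟨K1, hK1, hsub, -⟩ := hRk.ext ((K : Set ℂ) ∪ cf Γ ∪ A)
    ((hK.union (cf_finite Γ).countable).union hA.countable)
  have hle : K ≤ K1 := fun x hx => hsub (Or.inl (Or.inl hx))
  have hΓ1 : ∀ i, CoP K1 (Γ i) := fun i k => hsub (Or.inl (Or.inr ⟨i, k, rfl⟩))
  have hg1 : ∀ j, CoM K1 (g j) := fun j m => hle (hg j m)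
  obtain ⟨b, hb, hTb⟩ := LK.tooth a T _ hT
  let z0 : Option (Σ i, Fin (a * w i)) → ℂ := pt 0 fun q => (b q.1).coeff q.2
  have e0 : fam w a Γ z0 = T := by
    rw [hTb, fam]
    congr 1
    funext i
    exact pol_coeff (hb i)
  have hfam := pfp_fam hPf hPp hPq w a hΓ1
  obtain ⟨z, hz, hs, hr⟩ := hKr K1 _ (Σ j, Fin (a * d j))
    (fun q z => (MvPolynomial.aeval (fam w a Γ z) (g q.1)).coeff q.2) z0 hK1
    (fun q => hPp.coeff _ K1 _ q.2
      (hPq.aeval _ σ K1 (g q.1) (fun i z => fam w a Γ z i) (hg1 _) hfam))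
    fun q => by rw [e0, hOn q.1, Pi.zero_apply, C_0, coeff_zero]
  have hC : Crv w a (fam w a Γ z) (ev Γ (z none)) := LK.crv a _ _ fun i => degree_pol _
  have hO : On g 0 (fam w a Γ z) := fun j => by
    obtain ⟨h1, h2⟩ := hTop.top σ w (g j) (d j) a _ _ (ok.hom j) hC
    rw [Pi.zero_apply, C_0]
    ext k
    rw [coeff_zero]
    rcases lt_trichotomy k (a * d j) with h | h | h
    · exact hz ⟨j, ⟨k, h⟩⟩
    · rw [h, h2]
      exact LK.fib0 0 Γ _ hΓ j
    · exact coeff_eq_zero_of_natDegree_lt (h1.trans_lt h)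
  have hne : ev Γ (z none) ≠ 0 :=
    hSp.nz σ K1 _ _ (hSp.map _ σ K1 z z0 (fun i z => (Γ i).eval (z none)) hs
      fun i => pf_ev hPf hPp (hΓ1 i) none) h0
  have hS : Spec K (ev (fam w a Γ z) 0) (ev T 0) := by
    rw [← e0]
    exact hSp.mono σ K K1 _ _ hle (hSp.map _ σ K1 z z0 (fun i z => (fam w a Γ z i).eval 0) hs
      fun i => hPp.eval _ K1 _ (fun _ => 0) (hfam i) (hPf.const _ K1 0 K1.zero_mem))
  refine ⟨z none, fam w a Γ z, fun hzA => ?_, hne, hC, hO, hS⟩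
  have hz1 : z none ∈ K1 := hsub (Or.inr hzA)
  have hp1 : ∀ i, ev Γ (z none) i ∈ K1 := fun i =>
    hPf.mem Unit K1 _ (fun _ => z none) (pf_ev hPf hPp (hΓ1 i) ()) fun _ => hz1
  have hB := hR2 σ J w d g ok K a _ _ 0 1 hg K.zero_mem hC hO hne
    ((hGen σ J g ok.sm).spec K _ _ hS hG (LK.fib0 0 _ 0 hO)) (by simp) (by simp)
    fun _ _ _ => one_dvd _
  have h1 : rk K1 (range z) ≤ rk K1 (cf (fam w a Γ z)) :=
    hRk.mono _ _ _ (cf_finite _) fun δ hδ hδ' => mem_Kil_range.2 fun u => by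
      rcases u with _ | ⟨i, k⟩
      · exact hδ _ hz1
      · exact hδ' _ ⟨i, k, (coeff_fam w a Γ z i k).symm⟩
  have h2 : rk K1 (cf (fam w a Γ z)) ≤ rk (K ∪ range (ev Γ (z none))) (cf (fam w a Γ z)) :=
    hRk.anti _ _ _ (cf_finite _) fun δ hδ =>
      mem_Kil_union.2 ⟨fun x hx => hδ x (hle hx), mem_Kil_range.2 fun i => hδ _ (hp1 i)⟩
  rw [Bd, natDegree_one, mul_zero, mul_zero, add_zero, add_zero] at hB
  simp only [Fintype.card_option, Fintype.card_sigma, Fintype.card_fin, ← Finset.mul_sum] at hr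
  omega

end Pool.Agent.MP_776d16_ag.H7W
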