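import Pool.Agent.MP_776d16_ag.H7W.Spec

/-!
Divisibility of the determinant.
-/

open Polynomial
open MvPolynomial (pderiv IsWeightedHomogeneous)
open Fintype (card)

namespace Pool.Agent.MP_776d16_ag.H7W

namespace DivA

variable {σ J N : Type} [Fintype σ] [DecidableEq σ] [Fintype J] [DecidableEq J] [Fintype N]
  [DecidableEq N] {w : σ → ℕ} {d : J → ℕ} {g : J → MvPolynomial σ ℂ} {ε : σ ≃ N ⊕ J}
  {T : σ → ℂ[X]} {u : N → σ → ℂ[X]} {ω : J → σ → ℂ[X]} {a : ℂ} {k : ℕ}

theorem DD_comp (q : ℂ[X]) :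
    DD ε (fun n i => (u n i).comp q) (fun j i => (ω j i).comp q) = (DD ε u ω).comp q := by
  refine Eq.trans ?_ ((compRingHom q).map_det _).symm
  unfold DD
  congr 1
  ext1 l l'
  simp only [RingHom.mapMatrix_apply, Matrix.map_apply, Matrix.of_apply]
  rcases ε l' with n | j <;> rfl

theorem DW_comp (q : ℂ[X]) :
    DW (jacP g fun i => (T i).comp q) (fun j i => (ω j i).comp q) = (DW (jacP g T) ω).comp q := by
  refine Eq.trans ?_ ((compRingHom q).map_det _).symm
  unfold DW
  congr 1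
  ext1 l l'
  simp only [RingHom.mapMatrix_apply, Matrix.map_apply, Matrix.of_apply, map_sum, map_mul,
    coe_compRingHom_apply, jacP, aeval_comp']

/-- The local statement at an arbitrary point. -/
theorem base (h : SBase) (ok : Ok w d g) (h1 : On g 0 T) (h2 : T ≠ 0) (h3 : ev T a = 0)
    (h4 : ∀ n j, dP (g j) T (u n) = 0)
    (h5 : ∀ n i m, (X - C a) ^ m ∣ T i → (X - C a) ^ m ∣ u n i) (h6 : DW (jacP g T) ω ≠ 0)
    (h7 : (X - C a) ^ k ∣ DW (jacP g T) ω) : (X - C a) ^ (k + 1) ∣ DD ε u ω := by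
  rw [X_sub_C_pow_dvd_iff, ← DD_comp]
  refine h σ J N w d g ok ε (fun i => (T i).comp (X + C a)) _ _ k (fun j => ?_)
    (fun e => h2 (funext fun i => comp_X_add_C_eq_zero_iff.1 (congrFun e i))) (funext fun i => ?_)
    (fun n j => ?_) (fun n i m e => X_sub_C_pow_dvd_iff.1 (h5 n i m (X_sub_C_pow_dvd_iff.2 e)))
    ?_ ?_
  · rw [← aeval_comp', h1 j, C_comp]
  · simpa [ev, eval_comp] using congrFun h3 i
  · have := congrArg (compRingHom (X + C a)) (h4 n j)
    simpa only [dP, map_sum, map_mul, coe_compRingHom_apply, aeval_comp', map_zero] using this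
  · rw [DW_comp]
    exact fun e => h6 (comp_X_add_C_eq_zero_iff.1 e)
  · rw [DW_comp]
    exact X_sub_C_pow_dvd_iff.1 h7

theorem dvd_der {Y p : ℂ[X]} {m : ℕ} (h : Y ^ m ∣ p) : Y ^ m ∣ Y * derivative p := by
  rcases m with _ | m
  · simp
  · have := pow_sub_one_dvd_derivative_of_pow_dvd h
    rw [Nat.add_sub_cancel] at this
    rw [pow_succ']
    exact mul_dvd_mul_left Y this

/-- Admissible sections at a base point. -/
theorem bad (h : SBase) (ok : Ok w d g) (h1 : On g 0 T) (h2 : T ≠ 0) (h3 : ev T a = 0)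
    (h4 : ∀ n j, dP (g j) T (u n) = 0) (h5 : ∀ n, AdmAt T (u n) a) (h6 : DW (jacP g T) ω ≠ 0)
    (h7 : (X - C a) ^ k ∣ DW (jacP g T) ω) : (X - C a) ^ k ∣ DD ε u ω := by
  choose γ hγ using h5
  by_cases e : ∀ n, γ n = 0
  · refine (pow_dvd_pow _ k.le_succ).trans (base h ok h1 h2 h3 h4 (fun n i m b => ?_) h6 h7)
    simpa [e n] using hγ n i m b
  obtain ⟨n₀, h0⟩ := not_forall.1 e
  let v : N → ℂ[X] := fun n => if n = n₀ then X - C a else -C (γ n / γ n₀)
  let s : N → σ → ℂ[X] := fun n => v n • u n₀ + if n = n₀ then 0 else u n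
  have hs : ∀ n, s n = ∑ m, (1 : Matrix N N ℂ[X]).updateCol n₀ v n m • u m := fun n => by
    have : ∀ m, (1 : Matrix N N ℂ[X]).updateCol n₀ v n m • u m = (if m = n₀ then v n • u m else 0) +
        if n = m then (if n = n₀ then 0 else u n) else 0 := fun m => by
      rw [Matrix.updateCol_apply, Matrix.one_apply]
      split_ifs <;> simp_all
    simp only [this, Finset.sum_add_distrib, Finset.sum_ite_eq, Finset.sum_ite_eq',
      Finset.mem_univ, if_true, s]
  have hd := BoundA.DD_change ε s u ω _ hs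
  rw [← Matrix.cramer_apply, Matrix.cramer_one, Module.End.one_apply] at hd
  have h8 := base (ε := ε) (u := s) h ok h1 h2 h3 (fun n j => ?_) (fun n i m b => ?_) h6 h7
  · rw [hd, pow_succ, show v n₀ = X - C a from if_pos rfl] at h8
    exact (mul_dvd_mul_iff_right (X_sub_C_ne_zero a)).1 h8
  · have b0 := h4 n₀ j
    have b1 := h4 n j
    unfold dP at b0 b1 ⊢
    simp only [s, Pi.add_apply, Pi.smul_apply, smul_eq_mul, mul_add, Finset.sum_add_distrib,
      mul_left_comm _ (v n), ← Finset.mul_sum, b0, mul_zero, zero_add]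
    split_ifs
    · simp
    · exact b1
  · by_cases hn : n = n₀
    · have e1 : s n i = (X - C a) * (u n₀ i + C (γ n₀) * derivative (T i)) -
          C (γ n₀) * ((X - C a) * derivative (T i)) := by
        simp only [s, v, if_pos hn, add_zero, Pi.smul_apply, smul_eq_mul]
        ring
      rw [e1]
      exact dvd_sub ((hγ n₀ i m b).mul_left _) ((dvd_der b).mul_left _)
    · have e2 : C (γ n) = C (γ n / γ n₀) * C (γ n₀) := by rw [← C_mul, div_mul_cancel₀ _ h0]
      have e1 : s n i = (u n i + C (γ n) * derivative (T i)) -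
          C (γ n / γ n₀) * (u n₀ i + C (γ n₀) * derivative (T i)) := by
        simp only [s, v, if_neg hn, Pi.add_apply, Pi.smul_apply, smul_eq_mul]
        linear_combination (-derivative (T i)) * e2
      rw [e1]
      exact dvd_sub (hγ n i m b) ((hγ n₀ i m b).mul_left _)

open DetDivA in
/-- A point where the Jacobian matrix has full rank. -/
theorem good {P : ℂ[X]} (h1 : LinearIndependent ℂ (jac g (ev T a)))
    (h4 : ∀ n j, dP (g j) T (u n) = 0) (h5 : ∀ n i, P ∣ u n i) :
    ∃ r : ℂ[X], r.eval a ≠ 0 ∧ DW (jacP g T) ω * P ^ card N ∣ r * DD ε u ω := by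
  obtain ⟨m, x, hx, hm⟩ := exists_ext h1
  have hc : card N = card (Fin m) := by
    have := Fintype.card_congr ε
    simp only [Fintype.card_sum, Fintype.card_fin] at this ⊢
    omega
  let τ := Fintype.equivOfCardEq hc
  choose M hM using h5
  have e1 := det_mul_DD ε (jacP g T) ω (fun n l => C (x (τ n) l)) u h4
  have e2 : (Matrix.of fun n n' => ∑ l, C (x (τ n) l) * u n' l) =
      P • Matrix.of fun n n' => ∑ l, C (x (τ n) l) * M n' l := by
    ext1 n n'
    simp only [Matrix.of_apply, Matrix.smul_apply, smul_eq_mul, hM, Finset.mul_sum, mul_left_comm P]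
  rw [e2, Matrix.det_smul] at e1
  refine ⟨_, ?_, _, e1.trans (by rw [mul_right_comm, mul_comm (DW _ _)])⟩
  have e3 := (evalRingHom a).map_det
    (Matrix.of fun k l => Sum.elim (fun n l => C (x (τ n) l)) (jacP g T) (ε k) l)
  rw [coe_evalRingHom] at e3
  rw [e3]
  refine ((Matrix.isUnit_iff_isUnit_det _).1 (Matrix.linearIndependent_rows_iff_isUnit.1 ?_)).ne_zero
  let π : σ ≃ J ⊕ Fin m := ε.trans ((Equiv.sumComm _ _).trans ((Equiv.refl J).sumCongr τ))
  have e4 : ((evalRingHom a).mapMatrix (Matrix.of fun k l =>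
      Sum.elim (fun n l => C (x (τ n) l)) (jacP g T) (ε k) l)).row =
      Sum.elim (jac g (ev T a)) x ∘ π := by
    funext k l
    simp only [π, Matrix.row, RingHom.mapMatrix_apply, Matrix.map_apply, Matrix.of_apply,
      coe_evalRingHom, Function.comp_apply, Equiv.trans_apply]
    rcases ε k with n | i
    · simp
    · simp [jacP, jac, eval_aeval]
  rw [e4]
  exact hx.comp π π.injective

omit [Fintype σ] [DecidableEq σ] in
theorem eval_zero_hom {G : MvPolynomial σ ℂ} {n : ℕ} (h : IsWeightedHomogeneous w G n)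
    (hn : 0 < n) : MvPolynomial.eval 0 G = 0 := by
  rw [MvPolynomial.eval_zero, MvPolynomial.constantCoeff_eq]
  exact h.coeff_eq_zero 0 (by simpa using hn.ne)

end DivA

open DivA in
theorem rowDiv : OfDiv := by
  intro h σ J N _ _ _ _ _ _ w d g ok ε c T P u ω hs h1 h2 hP hu h6
  refine DetDivA.dvd_of_loc fun a => ?_
  by_cases hl : LinearIndependent ℂ (jac g (ev T a))
  · exact good hl (fun n => (hu n).ker) fun n => (hu n).dvd
  have hf : Fib g c (ev T a) := fun j => by rw [← eval_aeval, h1 j, eval_C]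
  have h3 : ev T a = 0 := by_contra fun e => hl (hs _ e hf)
  have hc : c = 0 := funext fun j => by
    rw [← hf j, h3]
    exact eval_zero_hom (ok.hom j) (ok.dpos j)
  subst hc
  obtain ⟨D, e1, e2⟩ := exists_eq_pow_rootMultiplicity_mul_and_not_dvd _ h6 a
  obtain ⟨q, hq⟩ := bad (ε := ε) h ok h1 h2 h3 (fun n => (hu n).ker) (fun n => (hu n).adm a hl) h6
    ⟨D, e1⟩
  refine ⟨D * P ^ card N, ?_, q, ?_⟩
  · rw [eval_mul, eval_pow]
    exact mul_ne_zero (fun e => e2 (dvd_iff_isRoot.2 e)) (pow_ne_zero _ fun e => hP a e h3)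
  · linear_combination D * P ^ card N * hq - P ^ card N * q * e1

end Pool.Agent.MP_776d16_ag.H7W
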