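import Pool.Agent.MP_776d16_ag.H7W.Spec

/-!
Reduction of curves at a place, and one edge of the Newton polygon.
-/

open Polynomial
open MvPolynomial (pderiv IsWeightedHomogeneous)

namespace Pool.Agent.MP_776d16_ag.H7W

namespace EdgeA

/-- The place as a ring homomorphism. -/
def phi (P : Plc) : P.V →+* ℂ where
  toFun x := P.χ x
  map_one' := P.one
  map_mul' x y := P.mul x x.2 y y.2
  map_zero' := (P.ker 0 (zero_mem _)).2 (by simp)
  map_add' x y := P.add x x.2 y y.2

theorem nat {σ R : Type} [CommRing R] (ψ : R →+* ℂ) (T : σ → R[X]) (G : MvPolynomial σ R) :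
    (MvPolynomial.aeval T G).map ψ =
      MvPolynomial.aeval (fun i => (T i).map ψ) (MvPolynomial.map ψ G) := by
  induction G using MvPolynomial.induction_on with
  | C c => simp
  | add p q hp hq => simp only [map_add, Polynomial.map_add, hp, hq]
  | mul_X p i hp =>
    simp only [map_mul, Polynomial.map_mul, hp, MvPolynomial.aeval_X, MvPolynomial.map_X]

theorem core {σ J : Type} {g : J → MvPolynomial σ ℂ} (P : Plc) {c : J → ℂ} (T : σ → P.V[X])
    (hg : ∀ j m, MvPolynomial.coeff m (g j) ∈ P.V ∧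
      P.χ (MvPolynomial.coeff m (g j)) = MvPolynomial.coeff m (g j))
    (h : On g c fun i => (T i).map P.V.subtype) :
    On g (fun j => P.χ (c j)) fun i => (T i).map (phi P) := by
  intro j
  obtain ⟨G, hG⟩ : ∃ G : MvPolynomial σ P.V, MvPolynomial.map P.V.subtype G = g j :=
    (MvPolynomial.mem_range_map_iff_coeffs_subset).2 fun x hx => by
      obtain ⟨m, -, rfl⟩ := MvPolynomial.mem_coeffs_iff.1 hx
      exact ⟨⟨_, (hg j m).1⟩, rfl⟩
  have h1 : MvPolynomial.map (phi P) G = g j := MvPolynomial.ext _ _ fun m => by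
    rw [← (hg j m).2, ← hG, MvPolynomial.coeff_map, MvPolynomial.coeff_map]
    rfl
  have h2 := nat P.V.subtype T G
  rw [hG, h j] at h2
  have h3 : ((MvPolynomial.aeval T G).coeff 0 : ℂ) = c j := by
    simpa using congrArg (fun p => coeff p 0) h2
  have h4 : MvPolynomial.aeval T G = C ((MvPolynomial.aeval T G).coeff 0) :=
    map_injective P.V.subtype Subtype.val_injective (by rw [h2, map_C, ← h3]; rfl)
  rw [← h1, ← nat, h4, map_C]
  exact congrArg (fun x => C (P.χ x)) h3

theorem red : SRed := by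
  intro σ J g P c T hg hT h
  choose T0 h0 using fun i => (lifts_iff_coeff_lifts (f := P.V.subtype) (T i)).2
    fun k => ⟨⟨_, hT i k⟩, rfl⟩
  obtain rfl : T = fun i => (T0 i).map P.V.subtype := funext fun i => (h0 i).symm
  exact ⟨_, fun i k => by rw [coeff_map, coeff_map]; rfl, core P T0 hg h⟩

theorem coeff_sum {w e n : ℕ} (hw : 0 < w) (hn : n ≤ e) (f : ℕ → ℂ) :
    (∑ k ∈ Finset.range (e + 1), monomial (k * w) (f k)).coeff (n * w) = f n := by
  simp [finsetSum_coeff, coeff_monomial, hw.ne', Nat.lt_succ_iff, hn]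

theorem link {σ J : Type} {w : σ → ℕ} {d : J → ℕ} {g : J → MvPolynomial σ ℂ} (hT : STop)
    (hL : LinkKit w g) (hw : ∀ i, 0 < w i) (hg : ∀ j, IsWeightedHomogeneous w (g j) (d j))
    {E j1 e : ℕ} (u : ℕ → ℂ) (b : ℕ → σ → ℂ) (hE : j1 + e ≤ E) (h1 : u j1 = 1)
    (h2 : u (j1 + e) ≠ 0) (h0 : ∀ j ≤ E, j < j1 ∨ j1 + e < j → u j = 0)
    (h : On g 0 fun i => ∑ j ∈ Finset.range (E + 1), monomial (j * w i) (u j ^ w i * b j i)) :
    Link w g (b j1) (b (j1 + e)) := by
  have h3 : ∀ i, ∑ j ∈ Finset.range (E + 1), monomial (j * w i) (u j ^ w i * b j i) =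
      (X ^ j1) ^ w i * ∑ k ∈ Finset.range (e + 1),
        monomial (k * w i) (u (j1 + k) ^ w i * b (j1 + k) i) := fun i => by
    rw [← Finset.sum_subset (s₁ := Finset.Ico j1 (j1 + (e + 1)))
      (fun j hj => by simp only [Finset.mem_Ico, Finset.mem_range] at hj ⊢; omega)
      fun j hj hj' => by
        simp only [Finset.mem_Ico, Finset.mem_range] at hj hj'
        rw [h0 j (by omega) (by omega), zero_pow (hw i).ne', zero_mul, monomial_zero_right],
      Finset.sum_Ico_eq_sum_range, Nat.add_sub_cancel_left, Finset.mul_sum]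
    refine Finset.sum_congr rfl fun k _ => ?_
    rw [← pow_mul, X_pow_mul_monomial, add_mul, add_comm]
  have h4 : Link w g (b j1) (sc w (u (j1 + e)) (b (j1 + e))) := by
    refine ⟨e, fun i => ∑ k ∈ Finset.range (e + 1),
      monomial (k * w i) (u (j1 + k) ^ w i * b (j1 + k) i), ⟨fun i => ?_, fun i => ?_⟩,
      fun j => ?_, funext fun i => ?_⟩
    · exact natDegree_sum_le_of_forall_le _ _ fun k hk => (natDegree_monomial_le _).trans
        (Nat.mul_le_mul_right _ (Nat.lt_succ_iff.1 (Finset.mem_range.1 hk)))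
    · exact coeff_sum (hw i) le_rfl fun k => u (j1 + k) ^ w i * b (j1 + k) i
    · have h5 := h j
      simp only [h3, hT.scale σ w (g j) (d j) _ _ (hg j), Pi.zero_apply, map_zero] at h5 ⊢
      exact (mul_eq_zero.1 h5).resolve_left (pow_ne_zero _ (pow_ne_zero _ X_ne_zero))
    · have h5 := coeff_sum (hw i) e.zero_le fun k => u (j1 + k) ^ w i * b (j1 + k) i
      rwa [zero_mul, coeff_zero_eq_eval_zero, add_zero, h1, one_pow, one_mul] at h5
  have h6 := hL.scale _ _ (u (j1 + e))⁻¹ (hL.symm _ _ h4)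
  have h7 : sc w (u (j1 + e))⁻¹ (sc w (u (j1 + e)) (b (j1 + e))) = b (j1 + e) :=
    funext fun i => by rw [sc, sc, ← mul_assoc, ← mul_pow, inv_mul_cancel₀ h2, one_pow, one_mul]
  rw [h7] at h6
  exact hL.symm _ _ h6

theorem edge (hT : STop) (hL : SLink) : SEdge := by
  intro σ J w d g P c E a μ r j1 j2 hw hg hc hO ha hv h12 h2E h1 h2 h3 h4
  obtain ⟨e, rfl⟩ := Nat.exists_eq_add_of_le h12
  obtain ⟨m, hm⟩ : ∃ m, m = μ j1 * r ^ j1 := ⟨_, rfl⟩
  rw [← hm] at h1 h2 h3 h4
  have p0 : 0 < P.V.valuation m := one_pos.trans_le h1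
  have m0 : m ≠ 0 := fun h => by simp [h] at p0
  have h5 : ∀ j, ∃ ρ : P.V, j ≤ E → (ρ : ℂ) = μ j * r ^ j / m := fun j => by
    by_cases hj : j ≤ E
    · refine ⟨⟨_, (P.V.valuation_le_one_iff _).1 ?_⟩, fun _ => rfl⟩
      rw [map_div₀]
      exact div_le_one_of_le₀ (h3 j hj) zero_le
    · exact ⟨0, fun h => absurd h hj⟩
  choose ρ hρ using h5
  have h6 := core P (c := fun j => m⁻¹ ^ d j * c j) (fun i => ∑ j ∈ Finset.range (E + 1),
    monomial (j * w i) (ρ j ^ w i * ⟨a j i, ha j i⟩)) hc fun j => ?_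
  · refine link hT (hL σ J w d g hg) hw hg (fun j => P.χ (ρ j)) (fun j i => P.χ (a j i)) h2E ?_
      (fun h => ?_) (fun j hj hj' => (P.ker _ (ρ j).2).2 ?_) fun j => ?_
    · rw [hρ j1 (by omega), ← hm, div_self m0, P.one]
    · have h7 := (P.ker _ (ρ _).2).1 h
      rw [hρ _ h2E, map_div₀, h2, div_self p0.ne'] at h7
      exact lt_irrefl _ h7
    · rw [hρ j hj, map_div₀]
      exact (div_lt_one₀ p0).2 (h4 j hj hj')
    · have h7 : P.V.valuation (m⁻¹ ^ d j * c j) < 1 := by
        rw [map_mul, map_pow, map_inv₀]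
        exact (mul_le_of_le_one_left' (pow_le_one' (inv_le_one_of_one_le₀ h1) _)).trans_lt (hv j)
      have h8 := h6 j
      simp only [Polynomial.map_sum, map_monomial, map_mul, map_pow,
        (P.ker _ ((P.V.valuation_le_one_iff _).1 h7.le)).2 h7] at h8
      exact h8
  · have h7 := congrArg (fun p => C m⁻¹ ^ d j * p.comp (C r * X)) (hO j)
    simp only [aeval_comp', ← hT.scale σ w (g j) (d j) _ _ (hg j), C_comp] at h7
    rw [map_mul, map_pow, ← h7]
    refine congrArg (fun f => MvPolynomial.aeval f (g j)) (funext fun i => ?_)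
    rw [Polynomial.map_sum, sum_comp, Finset.mul_sum]
    refine Finset.sum_congr rfl fun k hk => ?_
    have h8 : P.V.subtype (ρ k ^ w i * ⟨a k i, ha k i⟩) = (μ k * r ^ k / m) ^ w i * a k i := by
      rw [← hρ k (Nat.lt_succ_iff.1 (Finset.mem_range.1 hk))]
      rfl
    rw [map_monomial, h8, monomial_comp, ← C_mul_X_pow_eq_monomial, div_eq_mul_inv]
    simp only [map_mul, map_pow]
    ring

end EdgeA

theorem rowEdge : OfEdge := ⟨EdgeA.red, EdgeA.edge⟩

end Pool.Agent.MP_776d16_ag.H7W
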