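import Pool.Agent.MP_776d16_ag.H7W.Spec

/-!
A weighted homogeneous map whose zero fibre is the origin is finite.
-/

open MvPolynomial

namespace Pool.Agent.MP_776d16_ag.H7W

namespace FinA

theorem pow_ex {U V : Type} [Fintype U] [Fintype V] (Ψ : V → MvPolynomial U ℂ)
    (h : ∀ z, Fib Ψ 0 z → z = 0) :
    ∃ r : ℕ, ∀ u, (X u : MvPolynomial U ℂ) ^ r ∈ Ideal.span (Set.range Ψ) := by
  have h1 : ∀ u, ∃ r : ℕ, (X u : MvPolynomial U ℂ) ^ r ∈ Ideal.span (Set.range Ψ) := fun u => by
    have : (X u : MvPolynomial U ℂ) ∈ (Ideal.span (Set.range Ψ)).radical := by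
      rw [← vanishingIdeal_zeroLocus_eq_radical (K := ℂ), mem_vanishingIdeal_iff]
      intro z hz
      rw [h z fun v => by simpa [coe_aeval_eq_eval] using hz _ (Ideal.subset_span ⟨v, rfl⟩)]
      simp
    exact this
  choose r hr using h1
  exact ⟨∑ u, r u, fun u => Ideal.pow_mem_of_pow_mem _ (hr u)
    (Finset.single_le_sum (fun _ _ => Nat.zero_le _) (Finset.mem_univ u))⟩

end FinA

theorem rowFin : OfFin := by
  classical
  intro U V _ _ ω ω' Ψ _ hω' hΨ h
  obtain ⟨r, hr⟩ := FinA.pow_ex Ψ h
  let := (aeval Ψ : MvPolynomial V ℂ →ₐ[ℂ] MvPolynomial U ℂ).toRingHom.toAlgebra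
  have sm : ∀ (a : MvPolynomial V ℂ) (f : MvPolynomial U ℂ), a • f = aeval Ψ a * f :=
    fun _ _ => rfl
  let S : Set (MvPolynomial U ℂ) := (fun m => monomial m 1) '' {m : U →₀ ℕ | ∀ u, m u < r}
  have hS : S.Finite := by
    refine Set.Finite.image _ (Set.Finite.of_finite_image (f := fun (m : U →₀ ℕ) => (m : U → ℕ))
      ((Set.Finite.pi' fun _ : U => Set.finite_lt_nat r).subset ?_) DFunLike.coe_injective.injOn)
    rintro _ ⟨m, hm, rfl⟩
    exact hm
  let M := Submodule.span (MvPolynomial V ℂ) S
  have key : ∀ (n : ℕ) (m : U →₀ ℕ) (a : ℂ), Finsupp.weight ω m = n → monomial m a ∈ M := by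
    intro n
    induction n using Nat.strong_induction_on with
    | _ n ih =>
      intro m a hm
      by_cases h1 : ∀ u, m u < r
      · have := M.smul_mem (C a) (Submodule.subset_span ⟨m, h1, rfl⟩)
        rwa [sm, aeval_C, algebraMap_eq, C_mul_monomial, mul_one] at this
      obtain ⟨u, hu⟩ := not_forall.1 h1
      have h2 : monomial m a ∈ Ideal.span (Set.range Ψ) := by
        have := Ideal.mul_mem_right (monomial (m - Finsupp.single u r) a) _ (hr u)
        rwa [X_pow_eq_monomial, monomial_mul, one_mul,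
          add_tsub_cancel_of_le (Finsupp.single_le_iff.2 (not_lt.1 hu))] at this
      obtain ⟨c, hc⟩ := Ideal.mem_span_range_iff_exists_fun.1 h2
      rw [← (isWeightedHomogeneous_monomial ω m a hm).weightedHomogeneousComponent_same, ← hc,
        map_sum]
      refine sum_mem fun v _ => ?_
      induction c v using MvPolynomial.induction_on' with
      | add p q hp hq => rw [add_mul, map_add]; exact add_mem hp hq
      | monomial m' b =>
        rw [weightedHomogeneousComponent_of_mem
          ((isWeightedHomogeneous_monomial ω m' b rfl).mul (hΨ v))]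
        split_ifs with e
        · have := M.smul_mem (X v) (ih _ (by have := hω' v; omega) m' b rfl)
          rwa [sm, aeval_X, mul_comm] at this
        · exact zero_mem _
  refine ⟨⟨hS.toFinset, eq_top_iff.2 fun f _ => ?_⟩⟩
  rw [Set.Finite.coe_toFinset, f.as_sum]
  exact sum_mem fun m _ => key _ m _ rfl

end Pool.Agent.MP_776d16_ag.H7W
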