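import Pool.Agent.MP_776d16_ag.H7W.Spec

/-! Generic points of the cone. -/

open Polynomial
open MvPolynomial (pderiv IsWeightedHomogeneous)
open Fintype (card)
open Set (range)

namespace Pool.Agent.MP_776d16_ag.H7W

namespace GenA

theorem sum_apply {I : Type} (s : Finset I) (c : I → ℂ) (δ : I → Der) (x : ℂ) :
    (∑ q ∈ s, c q • δ q) x = ∑ q ∈ s, c q * δ q x := by
  classical
  induction s using Finset.induction_on with
  | empty => simp
  | insert a s ha ih =>
    rw [Finset.sum_insert ha, Finset.sum_insert ha, Derivation.add_apply, ih,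
      Derivation.smul_apply, smul_eq_mul]

variable {σ J : Type} [Fintype σ] [Fintype J] {g : J → MvPolynomial σ ℂ}

/-- The tangent space. -/
noncomputable def tg (g : J → MvPolynomial σ ℂ) (y : σ → ℂ) : Submodule ℂ (σ → ℂ) :=
  LinearMap.ker (Matrix.of (jac g y)).mulVecLin

omit [Fintype J] in
theorem mem_tg {y v : σ → ℂ} : v ∈ tg g y ↔ ∀ j, ∑ i, jac g y j i * v i = 0 := by
  rw [tg, LinearMap.mem_ker, funext_iff]
  rfl

theorem dim_tg {y : σ → ℂ} (h : LinearIndependent ℂ (jac g y)) :
    Module.finrank ℂ (tg g y) + card J = card σ := by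
  have h1 : (Matrix.of (jac g y)).rank = card J := LinearIndependent.rank_matrix h
  have h2 := LinearMap.finrank_range_add_finrank_ker (Matrix.of (jac g y)).mulVecLin
  rw [Module.finrank_fintype_fun_eq_card] at h2
  rw [← h2, ← h1, add_comm]
  rfl

omit [Fintype J] in
theorem fam (hR : SRk) (hD : SDc) {S : Set ℂ} {y : σ → ℂ} (hS : ∀ j, CoM S (g j))
    (hy : Fib g 0 y) : ∃ (δ : Fin (rk S (range y)) → Der) (u : Fin (rk S (range y)) → tg g y),
      (∀ q, δ q ∈ Kil S) ∧ (∀ q i, (u q).1 i = δ q (y i)) ∧ LinearIndependent ℂ u := by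
  obtain ⟨δ, h1, h2⟩ := hR.ex S (range y) (Set.finite_range y)
  refine ⟨δ, fun q => ⟨fun i => δ q (y i), mem_tg.2 fun j => ?_⟩, h1, fun _ _ => rfl, ?_⟩
  · have := hD.der σ S (δ q) (g j) y (h1 q) (hS j)
    rw [hy j, Pi.zero_apply, map_zero] at this
    exact this.symm
  · rw [Fintype.linearIndependent_iff]
    intro c hc
    refine congrFun (h2 c ?_)
    rintro _ ⟨i, rfl⟩
    have := congrArg (fun v : tg g y => v.1 i) hc
    simpa using this

end GenA

open GenA in
theorem rowGen : OfGen := by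
  intro hR hP hS hK hD σ J _ _ g sm
  refine ⟨?_, ?_, ?_, ?_, ?_, ?_⟩
  · intro K y y' h ⟨h1, _, h3⟩ h4
    exact ⟨hS.nz σ K y' y h h1, h4, h3.trans (Nat.add_le_add_right (hS.rk σ K y' y h) _)⟩
  · intro S y hc h0 hy
    obtain ⟨δ, u, -, -, h3⟩ := fam hR hD hc hy
    have := h3.fintype_card_le_finrank
    rw [Fintype.card_fin] at this
    rw [← dim_tg (sm y h0 hy)]
    exact Nat.add_le_add_right this _
  · intro S y hc ⟨h0, hy, hr⟩ v hv
    obtain ⟨δ, u, h1, h2, h3⟩ := fam hR hD hc hy
    have e1 := h3.fintype_card_le_finrank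
    have e2 := dim_tg (sm y h0 hy)
    have e3 : card (Fin (rk S (range y))) = Module.finrank ℂ (tg g y) := by
      rw [Fintype.card_fin] at e1 ⊢
      omega
    have e4 : (⟨v, mem_tg.2 hv⟩ : tg g y) ∈ Submodule.span ℂ (range u) := by
      rw [h3.span_eq_top_of_card_eq_finrank' e3]
      trivial
    obtain ⟨c, hc⟩ := (Submodule.mem_span_range_iff_exists_fun ℂ).1 e4
    refine ⟨∑ q, c q • δ q, Submodule.sum_mem _ fun q _ => Submodule.smul_mem _ _ (h1 q),
      fun i => ?_⟩
    have := congrArg (fun v : tg g y => v.1 i) hc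
    rw [sum_apply]
    simpa [h2] using this
  · intro K v hK' hc h0 hv
    obtain ⟨z, h1, h2, h3⟩ := hK K σ J (fun j z => MvPolynomial.eval z (g j)) v hK'
      (fun j => hP.mv σ σ K (g j) (fun o z => z o) (hc j) fun o => hP.var σ K o) hv
    exact ⟨z, hS.nz σ K z v h2 h0, h1, h3⟩
  · intro S y I _ c ⟨h0, hy, hr⟩ hc
    refine ⟨h0, hy, ?_⟩
    have e1 := hR.tower S (range y) (range c) (Set.finite_range y) (Set.finite_range c)
    have e2 := hR.tower S (range c) (range y) (Set.finite_range c) (Set.finite_range y)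
    have e3 := hR.le_card I S c
    rw [Set.union_comm, e2] at e1
    omega
  · classical
    intro S c hc hr x hx
    rw [Fintype.linearIndependent_iff]
    intro γ hγ j0
    obtain ⟨δ, h1, h2⟩ := hR.full J S c hr (Pi.single j0 1)
    have e1 : ∀ j, (Pi.single j0 1 : J → ℂ) j = ∑ i, jac g x j i * δ (x i) := fun j => by
      rw [← h2 j, ← hx j]
      exact hD.der σ S δ (g j) x h1 (hc j)
    have e2 : ∀ i, ∑ j, γ j * jac g x j i = 0 := fun i => by
      simpa using congrFun hγ i
    calc γ j0 = ∑ j, γ j * (Pi.single j0 1 : J → ℂ) j := by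
          simp [Pi.single_apply]
      _ = ∑ i, (∑ j, γ j * jac g x j i) * δ (x i) := by
          simp_rw [e1, Finset.mul_sum, Finset.sum_mul, mul_assoc]
          exact Finset.sum_comm
      _ = 0 := by simp [e2]

end Pool.Agent.MP_776d16_ag.H7W
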