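import Pool.Agent.MP_776d16_ag.H7W.Spec

/-!
Row `GlI`: the identities of the glued curve.
-/

open Polynomial
open Fintype (card)

namespace Pool.Agent.MP_776d16_ag.H7W

namespace GlIA

variable {σ L : Type} [Fintype L] [DecidableEq L]

lemma QQ_eq (s : L → ℂ) (l : L) : QQ s = (X - C (s l)) * uu s l :=
  (Finset.mul_prod_erase Finset.univ (fun l => X - C (s l)) (Finset.mem_univ l)).symm

lemma dvd_uu (s : L → ℂ) {l l' : L} (h : l ≠ l') : X - C (s l) ∣ uu s l' :=
  Finset.dvd_prod_of_mem (fun l => X - C (s l)) (Finset.mem_erase.2 ⟨h, Finset.mem_univ l⟩)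

lemma QQ_monic (s : L → ℂ) : (QQ s).Monic := monic_prod_of_monic _ _ fun _ _ => monic_X_sub_C _

lemma QQ_deg (s : L → ℂ) : (QQ s).natDegree = card L := by
  rw [QQ, natDegree_prod_of_monic _ _ fun _ _ => monic_X_sub_C _]
  simp

lemma uu_deg (s : L → ℂ) (l : L) : (uu s l).natDegree + 1 = card L := by
  have h : (uu s l).Monic := monic_prod_of_monic _ _ fun _ _ => monic_X_sub_C _
  rw [← QQ_deg s, QQ_eq s l, (monic_X_sub_C _).natDegree_mul h, natDegree_X_sub_C, add_comm]

lemma split (w : σ → ℕ) (a : ℕ) (s : L → ℂ) (Γ : σ → ℂ[X]) (b : L → σ → ℂ[X]) (ε : L → ℂ)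
    (l : L) (i : σ) : gx w a s Γ b ε i = (X - C (s l)) ^ (a * w i) * gM w a s Γ b ε l i +
      uu s l ^ (a * w i) * (hz (a * w i) (b l i) (ε l)).comp (X - C (s l)) := by
  have hm : ((X - C (s l)) ^ (a * w i) : ℂ[X]).Monic := (monic_X_sub_C _).pow _
  have hd : (X - C (s l)) ^ (a * w i) ∣ gx w a s Γ b ε i -
      uu s l ^ (a * w i) * (hz (a * w i) (b l i) (ε l)).comp (X - C (s l)) := by
    rw [gx, ← Finset.add_sum_erase _ _ (Finset.mem_univ l), add_comm (uu s l ^ _ * _), ← add_assoc,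
      add_sub_cancel_right]
    refine dvd_add (Dvd.dvd.mul_right (pow_dvd_pow_of_dvd (QQ_eq s l ▸ dvd_mul_right _ _) _) _)
      (Finset.dvd_sum fun l' hl' => Dvd.dvd.mul_right (pow_dvd_pow_of_dvd (dvd_uu s ?_) _) _)
    exact (Finset.ne_of_mem_erase hl').symm
  have h := modByMonic_add_div (gx w a s Γ b ε i -
      uu s l ^ (a * w i) * (hz (a * w i) (b l i) (ε l)).comp (X - C (s l)))
      ((X - C (s l)) ^ (a * w i))
  rw [(modByMonic_eq_zero_iff_dvd hm).2 hd, zero_add] at h
  rw [gM, h, sub_add_cancel]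

lemma hz_deg {D : ℕ} {f : ℂ[X]} (h : f.degree < D) (ε : ℂ) : (hz D f ε).natDegree ≤ D - 1 := by
  refine natDegree_le_iff_coeff_eq_zero.2 fun k hk => ?_
  rw [coeff_hz, (degree_lt_iff_coeff_zero _ _).1 h k (by omega), zero_mul, ite_self]

end GlIA

open GlIA in
theorem rowGlI : OfGlI := by
  intro σ L _ _ w a s Γ b ε hw ha hb
  have hD : ∀ i, a * w i ≠ 0 := fun i => (Nat.mul_pos ha (hw i)).ne'
  have hn : ∀ l i, (b l i).natDegree ≤ a * w i := fun l i => natDegree_le_of_degree_le (hb l i).le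
  have hc : ∀ l, (X - C (s l)).comp (C (s l) + C (ε l) * X) = C (ε l) * X := fun l => by simp
  refine ⟨split w a s Γ b ε, fun l i => ?_, fun l => ?_, fun l => ?_, fun e p h => ?_,
    fun h0 => ?_⟩
  · rw [split w a s Γ b ε l i, add_comp, mul_comp, mul_comp, comp_assoc, pow_comp, hc,
      hz_comp (hn l i), gX]
    ring
  · funext i
    simp only [ev, sc]
    rw [split w a s Γ b ε l i, eval_add, eval_mul, eval_mul, eval_pow, eval_pow, eval_comp,
      eval_sub, eval_X, eval_C, sub_self, zero_pow (hD i), zero_mul, zero_add,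
      ← coeff_zero_eq_eval_zero, ← coeff_zero_eq_eval_zero, coeff_hz, if_pos (Nat.zero_le _),
      Nat.sub_zero, ← pow_mul]
    ring
  · funext i
    simp only [ev, sc]
    rw [gX, eval_add, eval_mul, eval_mul, eval_pow, eval_X, zero_pow (hD i), zero_mul, zero_add,
      eval_comp, ← pow_mul]
    simp
  · have e1 : ∀ i, (e + card L * a) * w i = a * w i * card L + e * w i := fun i => by ring
    have d1 : ∀ i, (QQ s ^ (a * w i)).natDegree = a * w i * card L := fun i => by
      rw [(QQ_monic s).natDegree_pow, QQ_deg]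
    have d2 : ∀ i l, (uu s l ^ (a * w i) *
        (hz (a * w i) (b l i) (ε l)).comp (X - C (s l))).natDegree < a * w i * card L := by
      intro i l
      refine natDegree_mul_le.trans_lt ?_
      have h1 : (uu s l ^ (a * w i)).natDegree ≤ a * w i * (uu s l).natDegree := natDegree_pow_le
      have h2 := hz_deg (hb l i) (ε l)
      have h3 := hD i
      rw [natDegree_comp, natDegree_X_sub_C, mul_one, ← uu_deg s l, mul_add, mul_one]
      omega
    refine ⟨fun i => ?_, fun i => ?_⟩
    · rw [e1, gx]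
      refine natDegree_add_le_of_degree_le (natDegree_mul_le.trans ?_)
        (natDegree_sum_le_of_forall_le _ _ fun l _ => (d2 i l).le.trans (Nat.le_add_right _ _))
      rw [d1]
      exact Nat.add_le_add_left (h.deg i) _
    · rw [e1, gx, coeff_add, finsetSum_coeff, Finset.sum_eq_zero fun l _ =>
        coeff_eq_zero_of_natDegree_lt ((d2 i l).trans_le (Nat.le_add_right _ _)), add_zero,
        coeff_mul_add_eq_of_natDegree_le (d1 i).le (h.deg i), h.top, ← d1,
        ((QQ_monic s).pow _).coeff_natDegree, one_mul]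
  · have z : ∀ l i, hz (a * w i) (b l i) (ε l) = 0 := fun l i => by
      rw [h0, hz_zero, (degree_lt_iff_coeff_zero _ _).1 (hb l i) _ le_rfl, C_0, zero_mul]
    have g1 : ∀ i, gx w a s Γ b ε i = QQ s ^ (a * w i) * Γ i := fun i => by simp [gx, z]
    refine ⟨fun i => by rw [g1, pow_mul], fun l i => ?_⟩
    have g2 : gM w a s Γ b ε l i = uu s l ^ (a * w i) * Γ i := by
      rw [gM, g1, z, zero_comp, mul_zero, sub_zero, QQ_eq s l, mul_pow, mul_assoc,
        mul_divByMonic_cancel_left _ ((monic_X_sub_C _).pow _)]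
    rw [gX, g2, h0, C_0, zero_mul, add_zero, comp_C, comp_C, tooth, ← C_pow, ← pow_mul]
    simp only [ev, eval_mul, eval_pow, C_mul]
    ring

end Pool.Agent.MP_776d16_ag.H7W
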