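import Pool.Agent.MP_776d16_ag.H7W.Spec

/-!
The equations of the glued curve are polynomial in the parameters.
-/

open Polynomial

namespace Pool.Agent.MP_776d16_ag.H7W

theorem rowGlP : OfGlP := by
  intro hf hp hq σ J L U _ _ K w d g a s Γ b ε κ κ' hg hs hΓ hb hε hκ hκ'
  have c1 : ∀ l, PFP K fun _ : U → ℂ => C (s l) := fun l => hp.C U K _ (hf.const U K _ (hs l))
  have c2 : ∀ l, PFP K fun _ : U → ℂ => X - C (s l) := fun l => hp.sub U K _ _ (hp.X U K) (c1 l)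
  have c3 : ∀ n, PFP K fun _ : U → ℂ => QQ s ^ n := fun n =>
    hp.pow U K _ n (hp.prod U L K _ _ fun l _ => c2 l)
  have c4 : ∀ l n, PFP K fun _ : U → ℂ => uu s l ^ n := fun l n =>
    hp.pow U K _ n (hp.prod U L K _ _ fun l _ => c2 l)
  have c5 : ∀ l i, PFP K fun z => uu s l ^ (a * w i) *
      (hz (a * w i) (b l i z) (ε l z)).comp (X - C (s l)) := fun l i =>
    hp.mul U K _ _ (c4 l _) (hp.comp U K _ _ (hq.hz U K _ _ _ (hb l i) (hε l)) (c2 l))
  have c6 : ∀ i, PFP K fun z =>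
      gx w a s (fun i => Γ i z) (fun l i => b l i z) (fun l => ε l z) i := fun i =>
    hp.add U K _ _ (hp.mul U K _ _ (c3 _) (hΓ i)) (hp.sum U L K _ _ fun l _ => c5 l i)
  have c7 : ∀ l i, PFP K fun z =>
      gM w a s (fun i => Γ i z) (fun l i => b l i z) (fun l => ε l z) l i := fun l i =>
    hq.div U K _ _ _ (hp.sub U K _ _ (c6 i) (c5 l i)) (hp.pow U K _ _ (c2 l))
      fun _ => ⟨(monic_X_sub_C _).pow _, rfl⟩
  have c8 : ∀ l, PFP K fun z => C (s l) + C (ε l z) * X := fun l =>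
    hp.add U K _ _ (c1 l) (hp.mul U K _ _ (hp.C U K _ (hε l)) (hp.X U K))
  have c9 : ∀ l i, PFP K fun z =>
      gX w a s (fun i => Γ i z) (fun l i => b l i z) (fun l => ε l z) l i := fun l i =>
    hp.add U K _ _ (hp.mul U K _ _ (hp.pow U K _ _ (hp.X U K)) (hp.comp U K _ _ (c7 l i) (c8 l)))
      (hp.mul U K _ _ (hp.comp U K _ _ (c4 l _) (c8 l)) (hb l i))
  exact ⟨fun l j k => hp.coeff U K _ k
      (hp.sub U K _ _ (hq.aeval U σ K _ _ (hg j) (c9 l)) (hp.C U K _ (hκ' l j))),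
    fun j k => hp.coeff U K _ k (hq.div U K _ _ _
      (hp.sub U K _ _ (hq.aeval U σ K _ _ (hg j) c6) (hp.C U K _ (hκ j))) (c3 _)
      fun _ => ⟨(monic_prod_of_monic _ _ fun l _ => monic_X_sub_C (s l)).pow _, rfl⟩)⟩

end Pool.Agent.MP_776d16_ag.H7W
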