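import Pool.Agent.MP_776d16_ag.H7W.Spec

/-!
The gluing equations at the special point.
-/

open Polynomial
open MvPolynomial (pderiv IsWeightedHomogeneous)

namespace Pool.Agent.MP_776d16_ag.H7W

namespace GlZA

theorem crv_tooth {σ : Type} (w : σ → ℕ) (a : ℕ) (v : σ → ℂ) (b : σ → ℂ[X])
    (hb : ∀ i, (b i).degree < (a * w i : ℕ)) : Crv w a (tooth w a v b) v where
  deg i := by
    refine natDegree_add_le_of_degree_le (natDegree_C_mul_X_pow_le _ _) ?_
    exact natDegree_le_of_degree_le (hb i).le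
  top i := by
    rw [tooth, coeff_add, coeff_C_mul_X_pow, if_pos rfl, coeff_eq_zero_of_degree_lt (hb i),
      add_zero]

theorem eq_zero {P : ℂ[X]} {n : ℕ} (h1 : P.natDegree ≤ n) (h2 : P.coeff n = 0)
    (h3 : ∀ k, k < n → P.coeff k = 0) : P = 0 := by
  ext k
  rcases lt_trichotomy k n with h | h | h
  · exact h3 k h
  · rw [h]; exact h2
  · exact coeff_eq_zero_of_natDegree_lt (h1.trans_lt h)

theorem uu_ne {L : Type} [Fintype L] [DecidableEq L] {s : L → ℂ} (hs : Function.Injective s)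
    (l : L) : (uu s l).eval (s l) ≠ 0 := by
  rw [uu, eval_prod]
  refine Finset.prod_ne_zero_iff.2 fun l' hl' => ?_
  rw [eval_sub, eval_X, eval_C]
  exact sub_ne_zero.2 fun e => (Finset.mem_erase.1 hl').1 (hs e).symm

end GlZA

open GlZA in
theorem rowGlZ : OfGlZ := by
  intro hT hG σ J L _ _ w d g a e s Γ p b ε κ κ' c hw hd hg ha hs hΓ hp hb hε hκ hκ'
  obtain ⟨z1, z2⟩ := (hG σ L w a s Γ b ε hw ha hb).zero hε
  have hH : ∀ j, gHigh g w d a s Γ b ε κ j = MvPolynomial.aeval Γ (g j) := fun j => by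
    have hm : (QQ s ^ (a * d j)).Monic :=
      (monic_prod_of_monic _ _ fun l _ => monic_X_sub_C (s l)).pow _
    rw [gHigh, funext z1, hT.scale σ w (g j) (d j) _ Γ (hg j), hκ j, map_zero, sub_zero,
      ← pow_mul, mul_divByMonic_cancel_left _ hm]
  have hL : ∀ l j, gLow g w a s Γ b ε κ' l j = C (((uu s l).eval (s l) ^ a) ^ d j) *
      (MvPolynomial.aeval (tooth w a (ev Γ (s l)) (b l)) (g j) - C (c l j)) := fun l j => by
    rw [gLow, funext (z2 l), hT.scale σ w (g j) (d j) _ _ (hg j), hκ' l j, map_mul, mul_sub,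
      C_pow (n := d j)]
  constructor
  · rintro ⟨h1, h2⟩
    have h0 : ∀ j, MvPolynomial.aeval Γ (g j) = 0 := fun j => by
      obtain ⟨t1, t2⟩ := hT.top σ w (g j) (d j) e Γ p (hg j) hΓ
      exact eq_zero t1 (t2.trans (hp j)) fun k hk => hH j ▸ h2 j k hk
    refine ⟨fun j => by rw [h0 j]; exact (map_zero C).symm, fun l j => ?_⟩
    obtain ⟨t1, t2⟩ := hT.top σ w (g j) (d j) a _ _ (hg j) (crv_tooth w a (ev Γ (s l)) (b l) (hb l))
    refine sub_eq_zero.1 (eq_zero (n := a * d j) ?_ ?_ fun k hk => ?_)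
    · exact (natDegree_sub_le _ _).trans (max_le t1 (by rw [natDegree_C]; exact Nat.zero_le _))
    · rw [coeff_sub, t2, ← eval_aeval, h0 j, eval_zero, coeff_C,
        if_neg (Nat.mul_pos ha (hd j)).ne', sub_zero]
    · have := h1 l j k hk
      rw [hL, coeff_C_mul] at this
      exact (mul_eq_zero.1 this).resolve_left (pow_ne_zero _ (pow_ne_zero _ (uu_ne hs l)))
  · rintro ⟨h1, h2⟩
    refine ⟨fun l j k _ => ?_, fun j k _ => ?_⟩
    · rw [hL, h2 l j, sub_self, mul_zero, coeff_zero]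
    · rw [hH, h1 j]
      simp

end Pool.Agent.MP_776d16_ag.H7W
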