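import Pool.Agent.MP_776d16_ag.H7W.Spec
import Pool.Agent.MP_776d16_ag.H7W.Emb

/-! Row Hom: conjugate points. -/

namespace Pool.Agent.MP_776d16_ag.H7W

open Cardinal

namespace HomB

theorem ext (A : Type) [CommRing A] [IsDomain A] (hA : #A ≤ ℵ₀) (f f' : A →+* ℂ)
    (hf : Function.Injective f) (hf' : Function.Injective f') :
    ∃ ψ : ℂ →+* ℂ, ∀ a, ψ (f a) = f' a := by
  let g : FractionRing A →+* ℂ := IsFractionRing.lift hf
  let g' : FractionRing A →+* ℂ := IsFractionRing.lift hf'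
  have hC : ℵ₀ < #ℂ := by
    rw [mk_complex]
    exact aleph0_lt_continuum
  obtain ⟨φ⟩ := @emb_field (FractionRing A) ℂ ℂ _ _ _ _ g.toAlgebra g'.toAlgebra
    (mk_le_aleph0_iff.1 ((FractionRing.cardinalMk A).trans_le hA)) hC le_rfl
  refine ⟨@AlgHom.toRingHom _ ℂ ℂ _ _ _ g.toAlgebra g'.toAlgebra φ, fun a => ?_⟩
  have := @AlgHom.commutes _ ℂ ℂ _ _ _ g.toAlgebra g'.toAlgebra φ (algebraMap A (FractionRing A) a)
  rw [← IsFractionRing.lift_algebraMap (K := FractionRing A) hf a,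
    ← IsFractionRing.lift_algebraMap (K := FractionRing A) hf' a]
  exact this

theorem ext2 (R : Type) [CommRing R] (hR : #R ≤ ℵ₀) (f f' : R →+* ℂ)
    (h : ∀ a, f a = 0 ↔ f' a = 0) : ∃ ψ : ℂ →+* ℂ, ∀ a, ψ (f a) = f' a := by
  have : (RingHom.ker f).IsPrime := RingHom.ker_isPrime f
  obtain ⟨ψ, hψ⟩ := ext (R ⧸ RingHom.ker f)
    ((mk_le_of_surjective Ideal.Quotient.mk_surjective).trans hR)
    (Ideal.Quotient.lift _ f fun _ h => h) (Ideal.Quotient.lift _ f' fun a ha => (h a).1 ha)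
    (RingHom.lift_injective_of_ker_le_ideal _ _ le_rfl)
    (RingHom.lift_injective_of_ker_le_ideal _ _ fun a ha => (h a).2 ha)
  exact ⟨ψ, fun a => hψ (Ideal.Quotient.mk _ a)⟩

end HomB

theorem rowHomB : OfHom := by
  intro U _ K z z' hK h1 h2
  have : Countable K := hK
  obtain ⟨ψ, key⟩ := HomB.ext2 (MvPolynomial U K)
    (MvPolynomial.cardinalMk_le_max.trans (max_le (max_le mk_le_aleph0 mk_le_aleph0) le_rfl))
    (MvPolynomial.aeval z : MvPolynomial U K →ₐ[K] ℂ).toRingHom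
    (MvPolynomial.aeval z' : MvPolynomial U K →ₐ[K] ℂ).toRingHom fun P => ⟨h1 P, h2 P⟩
  refine ⟨ψ, fun a ha => ?_, fun u => ?_⟩
  · have h := key (MvPolynomial.C ⟨a, ha⟩)
    simp only [AlgHom.toRingHom_eq_coe, RingHom.coe_coe, MvPolynomial.aeval_C] at h
    exact h
  · simpa using key (MvPolynomial.X u)

end Pool.Agent.MP_776d16_ag.H7W
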