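import Pool.Agent.MP_776d16_ag.H7W.Spec

/-! Weighted homogeneity from scaling; forms of weight one are linear. -/

namespace Pool.Agent.MP_776d16_ag.H7W

open MvPolynomial

namespace HvA

variable {U : Type} (ω : U → ℕ)

theorem coeff_sc (l : ℂ) (f : MvPolynomial U ℂ) (s : U →₀ ℕ) :
    coeff s (aeval (fun u => C (l ^ ω u) * X u) f : MvPolynomial U ℂ) =
      l ^ Finsupp.weight ω s * coeff s f := by
  classical
  induction f using MvPolynomial.induction_on' with
  | monomial d c =>
    have h : (aeval (fun u => C (l ^ ω u) * X u) (monomial d c) : MvPolynomial U ℂ) =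
        monomial d (l ^ Finsupp.weight ω d * c) := by
      rw [aeval_monomial, monomial_eq, Finsupp.weight_apply, Finsupp.sum, Finsupp.prod,
        Finsupp.prod, ← Finset.prod_pow_eq_pow_sum, map_mul, map_prod, algebraMap_eq]
      simp only [mul_pow, Finset.prod_mul_distrib, ← map_pow, ← pow_mul, smul_eq_mul, mul_comm]
      ring
    rw [h, coeff_monomial, coeff_monomial]
    split_ifs with e
    · rw [e]
    · rw [mul_zero]
  | add p q hp hq => rw [map_add, coeff_add, coeff_add, hp, hq, mul_add]

theorem ev_sc (l : ℂ) (f : MvPolynomial U ℂ) (z : U → ℂ) :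
    eval z (aeval (fun u => C (l ^ ω u) * X u) f : MvPolynomial U ℂ) = eval (sc ω l z) f := by
  induction f using MvPolynomial.induction_on <;> simp_all [sc]

theorem single_of (h : ∀ u, 0 < ω u) {d : U →₀ ℕ} (hd : Finsupp.weight ω d = 1) :
    ∃ u, d = Finsupp.single u 1 := by
  have h0 : d ≠ 0 := fun e => by simp [e] at hd
  obtain ⟨u, hu⟩ := Finsupp.ne_iff.1 h0
  obtain ⟨d', rfl⟩ := exists_add_of_le (Finsupp.single_le_iff.2 (Nat.one_le_iff_ne_zero.2 hu))
  rw [map_add, Finsupp.weight_single, one_smul] at hd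
  have h1 := h u
  refine ⟨u, add_eq_left.2 (Finsupp.ext fun v => Nat.eq_zero_of_le_zero ?_)⟩
  exact (Finsupp.le_weight ω (h v).ne' d').trans (by omega)

end HvA

open HvA in
theorem rowHv : OfHv := by
  refine ⟨fun U ω f n h s hs => ?_, fun U ω f z η x h hf => ?_⟩
  · have h1 : (aeval (fun u => C ((2 : ℂ) ^ ω u) * X u) f : MvPolynomial U ℂ) = C (2 ^ n) * f :=
      MvPolynomial.funext fun z => by rw [ev_sc, h 2 two_ne_zero, map_mul, eval_C]
    have h2 := coeff_sc ω 2 f s
    rw [h1, coeff_C_mul] at h2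
    have h3 : (2 : ℕ) ^ Finsupp.weight ω s = 2 ^ n := by
      exact_mod_cast (mul_right_cancel₀ hs h2).symm
    exact Nat.pow_right_injective le_rfl h3
  · rw [eval_eq, eval_eq, eval_eq, Finset.mul_sum, ← Finset.sum_add_distrib]
    refine Finset.sum_congr rfl fun d hd => ?_
    obtain ⟨u, rfl⟩ := single_of ω h (hf (mem_support_iff.1 hd))
    simp only [Finsupp.support_single _ one_ne_zero, Finset.prod_singleton,
      Finsupp.single_eq_same, pow_one]
    ring

end Pool.Agent.MP_776d16_ag.H7W
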