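import Pool.Agent.MP_776d16_ag.H7W.Spec

/-!
Row Ind: the rank `rk` and algebraic independence.
-/

open Polynomial
open MvPolynomial (pderiv IsWeightedHomogeneous)
open Fintype (card)
open Set (range)

namespace Pool.Agent.MP_776d16_ag.H7W

namespace IndA

/-- The field of constants of a derivation. -/
noncomputable def cst (δ : Der) : Subfield ℂ where
  carrier := {a | δ a = 0}
  mul_mem' := fun {a b} ha hb => by
    have ha' : δ a = 0 := ha
    have hb' : δ b = 0 := hb
    change δ (a * b) = 0
    rw [Derivation.leibniz, ha', hb', smul_zero, smul_zero, add_zero]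
  one_mem' := δ.map_one_eq_zero
  add_mem' := fun {a b} ha hb => by
    have ha' : δ a = 0 := ha
    have hb' : δ b = 0 := hb
    change δ (a + b) = 0
    rw [map_add, ha', hb', add_zero]
  zero_mem' := map_zero δ
  neg_mem' := fun {a} ha => by
    have ha' : δ a = 0 := ha
    change δ (-a) = 0
    rw [map_neg, ha', neg_zero]
  inv_mem' := fun a ha => by
    have ha' : δ a = 0 := ha
    change δ a⁻¹ = 0
    rw [Derivation.leibniz_inv, ha', smul_zero]

/-- A derivation is linear over its constants. -/
noncomputable def lin (δ : Der) : Derivation (cst δ) ℂ ℂ where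
  toFun := δ
  map_add' := map_add δ
  map_smul' := fun c x => by
    have hc : δ (c : ℂ) = 0 := c.2
    change δ ((c : ℂ) * x) = (c : ℂ) * δ x
    rw [Derivation.leibniz, hc, smul_zero, add_zero, smul_eq_mul]
  map_one_eq_zero' := δ.map_one_eq_zero
  leibniz' := δ.leibniz

theorem kill_cst (δ : Der) {x : ℂ} (hx : IsAlgebraic (cst δ) x) : δ x = 0 := by
  have hi : IsIntegral (cst δ) x := hx.isIntegral
  have hsep : (minpoly (cst δ) x).Separable := (minpoly.irreducible hi).separable
  have h1 : aeval x (derivative (minpoly (cst δ) x)) ≠ 0 :=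
    hsep.aeval_derivative_ne_zero (minpoly.aeval _ _)
  have h2 := (lin δ).map_aeval (minpoly (cst δ) x) x
  rw [minpoly.aeval, map_zero, smul_eq_mul] at h2
  exact (mul_eq_zero.1 h2.symm).resolve_left h1

theorem kill_alg (δ : Der) (K : Subfield ℂ) (s : Set ℂ) (hK : δ ∈ Kil K) (hs : δ ∈ Kil s)
    {x : ℂ} (hx : IsAlgebraic (Algebra.adjoin K s) x) : δ x = 0 := by
  have hle : ∀ a ∈ Algebra.adjoin K s, a ∈ cst δ := fun a ha => by
    induction ha using Algebra.adjoin_induction with
    | mem y hy => exact hs y hy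
    | algebraMap r => exact hK r r.2
    | add y z _ _ hy hz => exact add_mem hy hz
    | mul y z _ _ hy hz => exact mul_mem hy hz
  let f : Algebra.adjoin K s →+* cst δ :=
    (Algebra.adjoin K s).val.toRingHom.codRestrict (cst δ) fun a => hle a a.2
  have hf : Function.Injective f := fun a b h => Subtype.ext (congrArg (fun t : cst δ => (t : ℂ)) h)
  obtain ⟨p, hp, hpx⟩ := hx
  refine kill_cst δ ⟨p.map f, (Polynomial.map_ne_zero_iff hf).2 hp, ?_⟩
  rw [aeval_def, eval₂_map]
  exact hpx

theorem ge (H : SRk) (K : Subfield ℂ) (I : Type) [Fintype I] (x : I → ℂ)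
    (hx : AlgebraicIndependent K x) : card I ≤ rk K (range x) := by
  classical
  obtain ⟨t, hst, ht⟩ := exists_isTranscendenceBasis_superset (R := K) (s := range x)
    hx.to_subtype_range
  have hE : ∀ q : I, ∃ δ : Der, δ ∈ Kil K ∧ ∀ i, δ (x i) = if i = q then 1 else 0 := fun q => by
    obtain ⟨E, hE⟩ := IndepA.der_exists ht fun a : t => if (a : ℂ) = x q then (1 : ℂ) else 0
    refine ⟨E.restrictScalars ℤ, fun a ha => E.map_algebraMap ⟨a, ha⟩, fun i => ?_⟩
    rw [Derivation.restrictScalars_apply]
    have h := hE ⟨x i, hst ⟨i, rfl⟩⟩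
    simp only [hx.injective.eq_iff] at h
    exact h
  choose δ hδK hδ using hE
  refine H.ge K (range x) I δ (Set.finite_range x) hδK fun c hc => funext fun i => ?_
  have h := hc (x i) ⟨i, rfl⟩
  simpa [hδ] using h

theorem ex (H : SRk) (K : Subfield ℂ) (U : Type) [Fintype U] (z : U → ℂ) (r : ℕ)
    (hr : r ≤ rk K (range z)) : ∃ f : Fin r → U, AlgebraicIndependent K fun q => z (f q) := by
  classical
  obtain ⟨s, hs⟩ := (AlgebraicIndependent.matroid K ℂ).exists_isBasis (range z)
  obtain ⟨hind, hsub, halg⟩ := AlgebraicIndependent.matroid_isBasis_iff.1 hs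
  have hfin : s.Finite := (Set.finite_range z).subset hsub
  let _ : Fintype s := hfin.fintype
  have h1 : rk K (range z) ≤ rk K s :=
    H.mono K s (range z) hfin fun δ hK hδ a ha => kill_alg δ K s hK hδ (halg a ha)
  have h2 : rk K s ≤ card s := by
    have := H.le_card s K Subtype.val
    rwa [Subtype.range_coe] at this
  obtain ⟨e⟩ : Nonempty (Fin r ↪ s) :=
    Function.Embedding.nonempty_of_card_le (by rw [Fintype.card_fin]; omega)
  choose f hf using fun q : Fin r => hsub (e q).2
  refine ⟨f, ?_⟩
  have h3 := AlgebraicIndependent.comp hind e e.injective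
  convert h3 using 1
  funext q
  exact hf q

end IndA

theorem rowInd : OfInd := fun H => ⟨IndA.ge H, IndA.ex H⟩

end Pool.Agent.MP_776d16_ag.H7W
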