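import Pool.Agent.MP_776d16_ag.H7W.Spec

/-!
Row Jac: the equations of the space of curves with given top coefficients.
-/

open Polynomial
open MvPolynomial (pderiv IsWeightedHomogeneous)

namespace Pool.Agent.MP_776d16_ag.H7W

namespace JacA

variable {σ : Type} (w : σ → ℕ) (p : σ → ℂ)

theorem coeff_cv (z : (Σ i, Fin (w i)) → ℂ) (i : σ) (k : ℕ) : (cv w p z i).coeff k =
    (if k = w i then p i else 0) + if h : k < w i then z ⟨i, ⟨k, h⟩⟩ else 0 := by
  rw [cv, coeff_add, coeff_C_mul_X_pow, coeff_pol]

/-- The universal curve. -/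
noncomputable def Tu (i : σ) : (MvPolynomial (Σ i, Fin (w i)) ℂ)[X] :=
  C (MvPolynomial.C (p i)) * X ^ w i + ∑ k : Fin (w i), monomial (k : ℕ) (MvPolynomial.X ⟨i, k⟩)

theorem map_Tu (z : (Σ i, Fin (w i)) → ℂ) (i : σ) :
    (Tu w p i).map (MvPolynomial.eval z) = cv w p z i := by
  simp [Tu, cv, pol, Polynomial.map_sum]

theorem map_aeval (z : (Σ i, Fin (w i)) → ℂ) (G : MvPolynomial σ ℂ) :
    (MvPolynomial.aeval (Tu w p) G).map (MvPolynomial.eval z) =
      MvPolynomial.aeval (cv w p z) G := by
  induction G using MvPolynomial.induction_on with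
  | C c => simp
  | add a b ha hb => simp only [map_add, Polynomial.map_add, ha, hb]
  | mul_X a i ha => simp only [map_mul, Polynomial.map_mul, ha, MvPolynomial.aeval_X, map_Tu]

section

variable {U : Type} [Fintype U] (z η : U → ℂ)

/-- The derivative at `z` in the direction `η`. -/
noncomputable def pd : MvPolynomial U ℂ →+ ℂ where
  toFun r := ∑ u, MvPolynomial.eval z (pderiv u r) * η u
  map_zero' := by simp
  map_add' := by simp [add_mul, Finset.sum_add_distrib]

theorem pd_apply (r : MvPolynomial U ℂ) :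
    pd z η r = ∑ u, MvPolynomial.eval z (pderiv u r) * η u := rfl

theorem pd_mul (r s : MvPolynomial U ℂ) :
    pd z η (r * s) = MvPolynomial.eval z r * pd z η s + pd z η r * MvPolynomial.eval z s := by
  simp only [pd_apply, Derivation.leibniz, smul_eq_mul, map_add, map_mul, Finset.mul_sum,
    Finset.sum_mul, ← Finset.sum_add_distrib]
  exact Finset.sum_congr rfl fun u _ => by ring

theorem pd_X (u : U) : pd z η (MvPolynomial.X u) = η u := by
  classical
  simp [pd_apply, MvPolynomial.pderiv_X, Pi.single_apply, apply_ite]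

theorem pd_coeff {A B : (MvPolynomial U ℂ)[X]} {a b : ℂ[X]}
    (ha : ∀ k, pd z η (A.coeff k) = a.coeff k) (hb : ∀ k, pd z η (B.coeff k) = b.coeff k) (k : ℕ) :
    pd z η ((A * B).coeff k) =
      (A.map (MvPolynomial.eval z) * b + a * B.map (MvPolynomial.eval z)).coeff k := by
  simp only [coeff_add, coeff_mul, map_sum, pd_mul, ha, hb, coeff_map, Finset.sum_add_distrib]

end

variable [Fintype σ]

theorem dP_mul_X (G : MvPolynomial σ ℂ) (i : σ) (f v : σ → ℂ[X]) :
    dP (G * MvPolynomial.X i) f v = MvPolynomial.aeval f G * v i + dP G f v * f i := by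
  classical
  simp only [dP, Derivation.leibniz, smul_eq_mul, map_add, map_mul, add_mul,
    Finset.sum_add_distrib, Finset.sum_mul, MvPolynomial.aeval_X, MvPolynomial.pderiv_X]
  refine congrArg₂ _ ?_ (Finset.sum_congr rfl fun u _ => by ring)
  rw [Finset.sum_eq_single i (fun u _ hu => by simp [Pi.single_eq_of_ne' hu]) (by simp)]
  simp

theorem pd_aeval (z η : (Σ i, Fin (w i)) → ℂ) (G : MvPolynomial σ ℂ) : ∀ k,
    pd z η ((MvPolynomial.aeval (Tu w p) G).coeff k) = (dP G (cv w p z) (cv w 0 η)).coeff k := by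
  induction G using MvPolynomial.induction_on with
  | C c =>
    intro k
    simp [dP, pd_apply, coeff_C, apply_ite]
  | add a b ha hb =>
    intro k
    simp only [map_add, coeff_add, ha, hb, dP, add_mul, Finset.sum_add_distrib]
  | mul_X a i ha =>
    intro k
    rw [map_mul, MvPolynomial.aeval_X, pd_coeff z η ha (b := cv w 0 η i), map_aeval, map_Tu,
      dP_mul_X]
    intro k
    rw [Tu, cv, pol, coeff_add, coeff_add, coeff_C_mul_X_pow, coeff_C_mul_X_pow, map_add,
      finsetSum_coeff, finsetSum_coeff, map_sum]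
    congr 1
    · simp [pd_apply, apply_ite]
    · refine Finset.sum_congr rfl fun l _ => ?_
      simp only [coeff_monomial]
      split_ifs
      exacts [pd_X .., map_zero _]

end JacA

open JacA in
theorem rowJac : OfJac := by
  intro hT hY hH σ J _ _ w d g p hw hg _
  have h1 : ∀ z j k, MvPolynomial.eval z ((MvPolynomial.aeval (Tu w p) (g j)).coeff k) =
      (MvPolynomial.aeval (cv w p z) (g j)).coeff k := fun z j k => by
    rw [← map_aeval, coeff_map]
  refine ⟨fun q => (MvPolynomial.aeval (Tu w p) (g q.1)).coeff q.2, fun z q => h1 z _ _,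
    fun z η q => pd_aeval w p z η _ _, fun q => hH.hom _ _ _ _ fun l hl z => ?_,
    fun v hv q hq => ?_⟩
  · have a1 : ∀ i, (cv w p (sc (fun u => w u.1 - u.2) l z) i).comp (C l * X) =
        C l ^ w i * cv w p z i := fun i => by
      ext k
      rw [comp_C_mul_X_coeff, ← C_pow, coeff_C_mul, coeff_cv, coeff_cv]
      split_ifs with b1 b2 b2
      · omega
      · rw [b1]
        ring
      · rw [sc, zero_add, zero_add, mul_right_comm, ← pow_add, Nat.sub_add_cancel b2.le]
      · simp
    have a2 := congrArg (coeff · q.2)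
      (aeval_comp' (cv w p (sc (fun u => w u.1 - u.2) l z)) (C l * X) (g q.1))
    simp only [a1, hT.scale _ _ _ _ _ _ (hg q.1), comp_C_mul_X_coeff] at a2
    rw [← C_pow, coeff_C_mul] at a2
    rw [h1, h1]
    refine mul_right_cancel₀ (pow_ne_zero q.2 hl) ?_
    rw [a2, mul_right_comm, ← pow_add, Nat.sub_add_cancel q.2.2.le]
  · obtain ⟨Q, hQ⟩ := hY σ (g q.1)
    have a1 : cv w p (fun u => if (u.2 : ℕ) + 1 = w u.1 then v u.1 else 0) =
        fun i => reflect (1 * w i) (C (p i) + X * C (v i)) := by
      funext i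
      ext k
      have := hw i
      rw [coeff_cv, coeff_reflect, one_mul, coeff_add, coeff_C, coeff_mul_C, coeff_X]
      dsimp only
      rcases le_or_gt k (w i) with b | b
      · rw [revAt_le b]
        split_ifs <;> first | omega | simp
      · rw [revAt_eq_self_of_lt b]
        split_ifs <;> first | omega | simp
    rw [h1, a1, hT.refl _ _ _ _ _ _ (hg q.1) fun i => (by compute_degree : _ ≤ 1).trans
      (by have := hw i; omega), coeff_reflect, one_mul, revAt_le q.2.2.le, hq, hQ, aeval_C', sq,
      mul_assoc]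
    simp only [coeff_add, coeff_C, coeff_X_mul, one_ne_zero, if_false, mul_coeff_zero,
      coeff_X_zero, zero_mul, zero_add, add_zero, dP, aeval_C', ← C_mul, finsetSum_coeff, if_true]
    exact hv q.1

end Pool.Agent.MP_776d16_ag.H7W
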