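import Pool.Agent.MP_776d16_ag.H7W.Spec
import Pool.Agent.MP_776d16_ag.H7W.Emb

/-!
Generic points of large transcendence degree.
-/

open Fintype (card)
open Set (range)

namespace Pool.Agent.MP_776d16_ag.H7W

open MvPolynomial

namespace KrA

variable {U : Type} [DecidableEq U] (K : Subfield ℂ) (z : U → ℂ)

/-- The variables in `s` are specialised. -/
noncomputable def ph (s : Finset U) : MvPolynomial U K →ₐ[K] MvPolynomial U ℂ :=
  aeval fun u => if u ∈ s then C (z u) else X u

/-- The kernels. -/
noncomputable def pr (s : Finset U) : Ideal (MvPolynomial U K) := RingHom.ker (ph K z s)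

instance (s : Finset U) : (pr K z s).IsPrime := RingHom.ker_isPrime _

omit [DecidableEq U] in
theorem aev_C {τ : Type} (y : τ → ℂ) (P : MvPolynomial τ K) :
    aeval (fun o => (C (y o) : MvPolynomial U ℂ)) P = C (aeval y P) :=
  (comp_aeval_apply y (IsScalarTower.toAlgHom K ℂ (MvPolynomial U ℂ)) P).symm

theorem pr_mono {s t : Finset U} (h : s ⊆ t) : pr K z s ≤ pr K z t := fun P hP => by
  have e : ph K z t = ((aeval fun u => if u ∈ t then C (z u) else X u :
      MvPolynomial U ℂ →ₐ[ℂ] MvPolynomial U ℂ).restrictScalars K).comp (ph K z s) :=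
    algHom_ext fun u => by
      by_cases hu : u ∈ s
      · simp [ph, hu, h hu]
      · simp [ph, hu]
  rw [pr, RingHom.mem_ker] at hP ⊢
  rw [e, AlgHom.comp_apply, hP, map_zero]

theorem pr_lt {ι : Type} {f : ι → U} {s : Finset U} {u : U} (hf : ∀ q, f q ∈ s) (hu : u ∉ s)
    (h1 : AlgebraicIndependent K fun q => z (f q))
    (h2 : ¬AlgebraicIndependent K fun o => z (Sum.elim (fun _ : Unit => u) f o)) :
    pr K z s < pr K z (insert u s) := by
  rw [algebraicIndependent_iff] at h2
  push Not at h2
  obtain ⟨P, p1, p2⟩ := h2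
  refine lt_of_le_of_ne (pr_mono K z (Finset.subset_insert u s)) fun e => p2 ?_
  have h3 : rename (Sum.elim (fun _ : Unit => u) f) P ∈ pr K z (insert u s) := by
    rw [pr, RingHom.mem_ker, ph, aeval_rename, ← map_zero C, ← p1, ← aev_C]
    congr 2
    funext o
    rcases o with o | o <;> simp [hf]
  rw [← e, pr, RingHom.mem_ker, ph, aeval_rename] at h3
  refine algebraicIndependent_iff.1 (h1.sumElim_comp (((algebraicIndependent_X U ℂ).comp
    (fun _ : Unit => u) (Function.injective_of_subsingleton _)))) P ?_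
  rw [← h3]
  congr 2
  funext o
  rcases o with o | o <;> simp [hf, hu]

end KrA

open KrA in
theorem rowKr : OfKr := by
  classical
  intro hR hI K U I _ _ f z0 hK hf h0
  choose P hP using hf
  have : (RingHom.ker (aeval z0 : MvPolynomial U K →ₐ[K] ℂ)).IsPrime := RingHom.ker_isPrime _
  obtain ⟨q, hq, hq0⟩ := Ideal.exists_minimalPrimes_le
    (I := Ideal.span (Finset.univ.image P : Finset (MvPolynomial U K)))
    (J := RingHom.ker (aeval z0 : MvPolynomial U K →ₐ[K] ℂ)) (Ideal.span_le.2 fun x hx => by
      obtain ⟨i, -, rfl⟩ := Finset.mem_image.1 hx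
      exact (hP i z0).symm.trans (h0 i))
  have := hq.1.1
  have cK : Countable K := hK.to_subtype
  obtain ⟨φ, hφ⟩ := sEmb.1 K cK (MvPolynomial U K ⧸ q) ((Cardinal.mk_le_of_surjective
    Ideal.Quotient.mk_surjective).trans (cardinalMk_le_max.trans ((sup_le (sup_le
      Cardinal.mk_le_aleph0 Cardinal.mk_le_aleph0) le_rfl).trans Cardinal.aleph0_le_continuum)))
  obtain ⟨z, hz⟩ : ∃ z : U → ℂ, ∀ G : MvPolynomial U K, aeval z G = 0 ↔ G ∈ q :=
    ⟨fun u => (φ.comp (Ideal.Quotient.mkₐ K q)) (X u), fun G => by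
      rw [← comp_aeval_apply, aeval_X_left_apply, AlgHom.comp_apply, map_eq_zero_iff _ hφ]
      exact Ideal.Quotient.eq_zero_iff_mem⟩
  refine ⟨z, fun i => (hP i z).trans ((hz _).2 (hq.1.2 (Ideal.subset_span (by simp)))),
    fun G hG => hq0 ((hz G).1 hG), ?_⟩
  obtain ⟨g, hg⟩ := hI.ex K U z _ le_rfl
  have h1 : ∀ t : Finset U, Disjoint t (Finset.univ.image g) →
      (t.card : ℕ∞) ≤ (pr K z (t ∪ Finset.univ.image g)).height := fun t => by
    induction t using Finset.induction_on with
    | empty => simp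
    | insert u t hu ih =>
      intro hd
      rw [Finset.disjoint_insert_left] at hd
      rw [Finset.card_insert_of_notMem hu, Finset.insert_union, Nat.cast_succ]
      refine (add_le_add_left (ih hd.2) 1).trans (Ideal.height_add_one_le_of_lt_of_isPrime
        (pr_lt K z (fun _ => by simp) (by simpa [hu] using hd.1) hg fun h => ?_))
      have h2 := (hI.ge K _ _ h).trans (hR.mono K (range z) _ (Set.finite_range z)
        fun δ _ hδ => mem_Kil_range.2 fun o => mem_Kil_range.1 hδ _)
      simp at h2
  have h2 := h1 _ disjoint_compl_left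
  have h3 : pr K z ((Finset.univ.image g)ᶜ ∪ Finset.univ.image g) = q := by
    ext G
    rw [Finset.union_comm, Finset.union_compl, pr, RingHom.mem_ker, ph, ← hz]
    simp only [Finset.mem_univ, if_true, aev_C, C_eq_zero]
  rw [h3, Finset.card_compl] at h2
  have h4 := Nat.cast_le.1 (h2.trans (Ideal.height_le_card_of_mem_minimalPrimes_span_finset hq))
  have h5 := Finset.card_image_le (s := Finset.univ) (f := P)
  have h6 := Finset.card_image_le (s := Finset.univ) (f := g)
  rw [Finset.card_univ] at h5 h6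
  rw [Fintype.card_fin] at h6
  omega

end Pool.Agent.MP_776d16_ag.H7W
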