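import Pool.Agent.MP_776d16_ag.H7W.Spec

/-! Elementary operations on curves. -/

open Polynomial
open MvPolynomial (pderiv IsWeightedHomogeneous)

namespace Pool.Agent.MP_776d16_ag.H7W

namespace LinkA

variable {σ J : Type} {w : σ → ℕ} {d : J → ℕ} {g : J → MvPolynomial σ ℂ}

theorem fib0 (c : J → ℂ) (T : σ → ℂ[X]) (s : ℂ) (h : On g c T) : Fib g c (ev T s) := fun j => by
  rw [← eval_aeval, h j, eval_C]

theorem fibT (hT : STop) (hg : ∀ j, IsWeightedHomogeneous w (g j) (d j)) (e : ℕ) (T : σ → ℂ[X])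
    (v : σ → ℂ) (h : Crv w e T v) (h' : On g 0 T) : Fib g 0 v := fun j => by
  rw [← (hT.top σ w (g j) (d j) e T v (hg j) h).2, h' j]
  simp

theorem mulp (hT : STop) (hg : ∀ j, IsWeightedHomogeneous w (g j) (d j)) (e : ℕ) (T : σ → ℂ[X])
    (v : σ → ℂ) (f : ℂ[X]) (hf : f.Monic) (h : Crv w e T v) (h' : On g 0 T) :
    Crv w (e + f.natDegree) (fun i => f ^ w i * T i) v ∧ On g 0 fun i => f ^ w i * T i := by
  have e1 : ∀ i, (e + f.natDegree) * w i = (f ^ w i).natDegree + e * w i := fun i => by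
    rw [hf.natDegree_pow]; ring
  refine ⟨⟨fun i => ?_, fun i => ?_⟩, fun j => ?_⟩
  · rw [e1]
    exact natDegree_mul_le.trans (add_le_add le_rfl (h.deg i))
  · rw [e1, coeff_mul_add_eq_of_natDegree_le le_rfl (h.deg i), h.top i,
      (hf.pow (w i)).coeff_natDegree, one_mul]
  · rw [hT.scale σ w (g j) (d j) f T (hg j), h' j]
    simp

theorem comp_top {p : ℂ[X]} {n : ℕ} (h : p.natDegree ≤ n) (s : ℂ) :
    (p.comp (X + C s)).natDegree ≤ n ∧ (p.comp (X + C s)).coeff n = p.coeff n := by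
  have h1 : (p.comp (X + C s)).natDegree = p.natDegree := by
    rw [natDegree_comp, natDegree_X_add_C, mul_one]
  refine ⟨h1.trans_le h, ?_⟩
  rcases h.eq_or_lt with rfl | h2
  · have h3 := leadingCoeff_comp (p := p) (q := X + C s) (by rw [natDegree_X_add_C]; norm_num)
    rw [(monic_X_add_C s).leadingCoeff, one_pow, mul_one, leadingCoeff, h1] at h3
    exact h3
  · rw [coeff_eq_zero_of_natDegree_lt h2, coeff_eq_zero_of_natDegree_lt (h1.trans_lt h2)]

theorem aeval_map {τ : Type} (ψ : ℂ →+* ℂ) (f : τ → ℂ[X]) (G : MvPolynomial τ ℂ) :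
    (MvPolynomial.aeval f G).map ψ =
      MvPolynomial.aeval (fun o => (f o).map ψ) (MvPolynomial.map ψ G) := by
  induction G using MvPolynomial.induction_on with
  | C c => simp
  | add p r hp hr => simp only [map_add, Polynomial.map_add, hp, hr]
  | mul_X p i hp =>
    simp only [map_mul, Polynomial.map_mul, hp, MvPolynomial.aeval_X, MvPolynomial.map_X]

end LinkA

open LinkA in
theorem rowLink : OfLink := by
  intro hT σ J w d g hg
  refine ⟨fib0, fibT hT hg, ?_, ?_, ?_, ?_, ?_, ?_, mulp hT hg, ?_, ?_, ?_⟩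
  · rintro y v ⟨e, T, h, h', rfl⟩
    exact ⟨fib0 0 T 0 h', fibT hT hg e T v h h'⟩
  · intro v hv
    refine ⟨0, fun i => C (v i), ⟨fun i => by simp, fun i => by simp⟩, fun j => ?_,
      funext fun i => eval_C⟩
    rw [aeval_C', hv j]
  · rintro y v ⟨e, T, h, h', rfl⟩
    refine ⟨e, fun i => reflect (e * w i) (T i), ⟨fun i => ?_, fun i => ?_⟩, fun j => ?_,
      funext fun i => ?_⟩
    · exact natDegree_le_iff_coeff_eq_zero.2 fun k hk => by
        rw [coeff_reflect, revAt_eq_self_of_lt hk,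
          coeff_eq_zero_of_natDegree_lt ((h.deg i).trans_lt hk)]
    · rw [coeff_reflect, revAt_le le_rfl, Nat.sub_self, ev, coeff_zero_eq_eval_zero]
    · rw [hT.refl σ w (g j) (d j) e T (hg j) h.deg, h' j]
      simp
    · rw [ev, ← coeff_zero_eq_eval_zero, coeff_reflect, revAt_zero, h.top i]
  · rintro y v l ⟨e, T, h, h', rfl⟩
    obtain ⟨h1, h2⟩ := mulp hT hg e T v (X + C l) (monic_X_add_C l) h h'
    exact ⟨_, _, h1, h2, funext fun i => by simp [ev, sc]⟩
  · intro e T v s h h'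
    refine ⟨e, fun i => (T i).comp (X + C s), ⟨fun i => (comp_top (h.deg i) s).1,
      fun i => (comp_top (h.deg i) s).2.trans (h.top i)⟩, fun j => ?_,
      funext fun i => by simp [ev, eval_comp]⟩
    rw [← aeval_comp', h' j, C_comp]
  · intro e e' T v he h h'
    have hm := (monic_X_add_C (1 : ℂ)).pow (e' - e)
    obtain ⟨h1, h2⟩ := mulp hT hg e T v _ hm h h'
    rw [(monic_X_add_C (1 : ℂ)).natDegree_pow, natDegree_X_add_C, mul_one,
      Nat.add_sub_cancel' he] at h1
    exact ⟨_, h1, h2, funext fun i => by simp [ev]⟩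
  · rintro y v ψ hψ ⟨e, T, h, h', rfl⟩
    refine ⟨e, fun i => (T i).map ψ, ⟨fun i => natDegree_map_le.trans (h.deg i),
      fun i => by rw [coeff_map, h.top i]⟩, fun j => ?_, funext fun i => ?_⟩
    · have h1 : MvPolynomial.map ψ (g j) = g j :=
        MvPolynomial.ext _ _ fun m => by rw [MvPolynomial.coeff_map, hψ]
      rw [← h1, ← aeval_map, h' j]
      simp
    · rw [ev, ev, ← coeff_zero_eq_eval_zero, ← coeff_zero_eq_eval_zero, coeff_map]
  · intro a T v h
    refine ⟨fun i => T i - C (v i) * X ^ (a * w i), fun i => ?_, funext fun i => by simp [tooth]⟩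
    refine (degree_lt_iff_coeff_zero _ _).2 fun k hk => ?_
    rw [coeff_sub, coeff_C_mul_X_pow]
    rcases hk.eq_or_lt with rfl | hk
    · rw [if_pos rfl, h.top i, sub_self]
    · rw [if_neg hk.ne', coeff_eq_zero_of_natDegree_lt ((h.deg i).trans_lt hk), sub_zero]
  · intro a v b hb
    refine ⟨fun i => ?_, fun i => ?_⟩
    · exact (natDegree_add_le _ _).trans (max_le (natDegree_C_mul_X_pow_le _ _)
        (natDegree_le_iff_degree_le.2 (hb i).le))
    · rw [tooth, coeff_add, coeff_C_mul_X_pow, if_pos rfl,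
        (degree_lt_iff_coeff_zero _ _).1 (hb i) _ le_rfl, add_zero]

end Pool.Agent.MP_776d16_ag.H7W
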