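import Pool.Agent.MP_776d16_ag.H7W.Spec

/-!
The rank of the lowest order term of a family.
-/

open Polynomial
open Set (range)

namespace Pool.Agent.MP_776d16_ag.H7W

namespace LowA

theorem spec {U I : Type} {K K' : Subfield ℂ} (h : K ≤ K') (f : I → U) (t : ℂ) (x : U → ℂ)
    (Q : (MvPolynomial I K)[X]) :
    MvPolynomial.aeval (pt t x) (Q.eval₂ (MvPolynomial.eval₂Hom
      ((MvPolynomial.C : K' →+* MvPolynomial (Option U) K').comp (Subfield.inclusion h))
        fun q => MvPolynomial.X (some (f q))) (MvPolynomial.X none)) =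
      Q.eval₂ (MvPolynomial.aeval fun q => x (f q) : MvPolynomial I K →ₐ[K] ℂ).toRingHom t := by
  refine (hom_eval₂ Q _ (MvPolynomial.aeval (pt t x) :
    MvPolynomial (Option U) K' →ₐ[K'] ℂ).toRingHom _).trans ?_
  congr 1
  · ext a
    · simp only [RingHom.comp_apply, MvPolynomial.eval₂Hom_C, AlgHom.toRingHom_eq_coe,
        RingHom.coe_coe, MvPolynomial.aeval_C]
      rfl
    · simp [pt]
  · simp [pt]

theorem scale {I A : Type} {K : Subfield ℂ} [CommRing A] [Algebra K A] (t : A) (x : I → A)
    (P : MvPolynomial I K) :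
    (MvPolynomial.aeval (fun q => C (MvPolynomial.X q) * X) P : (MvPolynomial I K)[X]).eval₂
      (MvPolynomial.aeval x : MvPolynomial I K →ₐ[K] A).toRingHom t =
      MvPolynomial.aeval (fun q => t * x q) P := by
  induction P using MvPolynomial.induction_on with
  | C c => simp
  | add p q hp hq => simp only [map_add, eval₂_add, hp, hq]
  | mul_X p i hp =>
    simp only [map_mul, eval₂_mul, hp, MvPolynomial.aeval_X, eval₂_C, eval₂_X]
    simp [mul_comm]

end LowA

theorem rowLow : OfLow := by
  intro hR hI U _ K K' ε η η0 hK hε hS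
  obtain ⟨f, hf⟩ := hI.ex K U η0 _ le_rfl
  have key : AlgebraicIndependent K fun q => ε * η (f q) := by
    rw [algebraicIndependent_iff] at hf ⊢
    intro P hP
    by_contra n
    obtain ⟨Q, e, hQ⟩ := exists_eq_pow_rootMultiplicity_mul_and_not_dvd
      (MvPolynomial.aeval (fun q => C (MvPolynomial.X q) * X) P :
        (MvPolynomial (Fin (rk K (range η0))) K)[X]) (fun e => n (by
          have := LowA.scale (A := MvPolynomial _ K) 1 MvPolynomial.X P
          rw [e, eval₂_zero] at this
          simpa using this.symm)) 0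
    rw [← LowA.scale, e, eval₂_mul, eval₂_pow, C_0, sub_zero, eval₂_X,
      mul_eq_zero_iff_left (pow_ne_zero _ hε), ← LowA.spec hK] at hP
    have := hS _ hP
    rw [LowA.spec, eval₂_at_zero] at this
    exact hQ (by rw [C_0, sub_zero, X_dvd_iff]; exact hf _ this)
  refine le_trans ?_ ((hI.ge K _ _ key).trans (hR.mono K _ _ (Set.finite_range _) fun δ _ h =>
    mem_Kil_range.2 fun q => mem_Kil_range.1 h (f q)))
  simp

end Pool.Agent.MP_776d16_ag.H7W
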