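import Pool.Agent.MP_776d16_ag.H7W.Spec

/-!
Row Mem: a polynomial that vanishes on an unramified fibre lies in the ideal of the fibre.
-/

open MvPolynomial (pderiv)
open Set (range)

namespace Pool.Agent.MP_776d16_ag.H7W

namespace MemA

variable {U : Type} [Fintype U]

/-- The ideal of the point `z`. -/
noncomputable def mz (z : U → ℂ) : Ideal (MvPolynomial U ℂ) :=
  RingHom.ker (MvPolynomial.eval z)

omit [Fintype U] in
theorem mem_mz (z : U → ℂ) (p : MvPolynomial U ℂ) : p ∈ mz z ↔ MvPolynomial.eval z p = 0 :=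
  RingHom.mem_ker

/-- The coordinate function centred at `z`. -/
noncomputable def xz (z : U → ℂ) (u : U) : MvPolynomial U ℂ :=
  MvPolynomial.X u - MvPolynomial.C (z u)

omit [Fintype U] in
theorem xz_mem (z : U → ℂ) (u : U) : xz z u ∈ mz z := by
  rw [mem_mz]; simp [xz]

/-- The linear part at `z`. -/
noncomputable def lin (z : U → ℂ) (p : MvPolynomial U ℂ) : MvPolynomial U ℂ :=
  ∑ u, MvPolynomial.C (MvPolynomial.eval z (pderiv u p)) * xz z u

theorem lin_mem (z : U → ℂ) (p : MvPolynomial U ℂ) : lin z p ∈ mz z :=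
  Ideal.sum_mem _ fun u _ => Ideal.mul_mem_left _ _ (xz_mem z u)

theorem lin_add (z : U → ℂ) (p q : MvPolynomial U ℂ) : lin z (p + q) = lin z p + lin z q := by
  simp only [lin, map_add, add_mul, Finset.sum_add_distrib]

theorem lin_C (z : U → ℂ) (a : ℂ) : lin z (MvPolynomial.C a) = 0 := by
  simp [lin]

theorem lin_mul_X (z : U → ℂ) (p : MvPolynomial U ℂ) (n : U) :
    lin z (p * MvPolynomial.X n) =
      MvPolynomial.C (z n) * lin z p + MvPolynomial.C (MvPolynomial.eval z p) * xz z n := by
  classical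
  have h : ∀ u, MvPolynomial.eval z (pderiv u (p * MvPolynomial.X n)) =
      z n * MvPolynomial.eval z (pderiv u p) + if u = n then MvPolynomial.eval z p else 0 := by
    intro u
    rw [Derivation.leibniz, MvPolynomial.pderiv_X]
    by_cases hu : u = n
    · subst hu
      simp
      ring
    · have hu' : n ≠ u := fun h => hu h.symm
      simp [hu, hu']
  unfold lin
  simp only [h, map_add, map_mul, add_mul, Finset.sum_add_distrib, Finset.mul_sum]
  congr 1
  · exact Finset.sum_congr rfl fun u _ => by ring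
  · rw [Finset.sum_eq_single n]
    · simp
    · intro u _ hu
      simp [hu]
    · intro hn
      exact absurd (Finset.mem_univ n) hn

theorem taylor (z : U → ℂ) (p : MvPolynomial U ℂ) :
    p - MvPolynomial.C (MvPolynomial.eval z p) - lin z p ∈ mz z * mz z := by
  induction p using MvPolynomial.induction_on with
  | C a => simp [lin_C]
  | add p q hp hq =>
    have := Ideal.add_mem _ hp hq
    rw [lin_add, map_add, map_add]
    refine (congrArg (· ∈ mz z * mz z) ?_).mp this
    ring
  | mul_X p n hp =>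
    have h1 := Ideal.mul_mem_right (MvPolynomial.X n) _ hp
    have h2 : lin z p * xz z n ∈ mz z * mz z := Ideal.mul_mem_mul (lin_mem z p) (xz_mem z n)
    have := Ideal.add_mem _ h1 h2
    rw [lin_mul_X, map_mul, MvPolynomial.eval_X, map_mul]
    refine (congrArg (· ∈ mz z * mz z) ?_).mp this
    unfold xz
    ring

theorem left_inv {V : Type} [Fintype V] (J : V → U → ℂ)
    (h : ∀ η : U → ℂ, (∀ v, ∑ u, J v u * η u = 0) → η = 0) (u : U) :
    ∃ c : V → ℂ, ∀ η : U → ℂ, η u = ∑ v, c v * ∑ w, J v w * η w := by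
  classical
  let L : (U → ℂ) →ₗ[ℂ] (V → ℂ) := Matrix.mulVecLin (Matrix.of J)
  have hL : ∀ η v, L η v = ∑ w, J v w * η w := fun η v => rfl
  have hk : LinearMap.ker L = ⊥ := by
    rw [LinearMap.ker_eq_bot']
    intro η hη
    exact h η fun v => by rw [← hL, hη]; rfl
  obtain ⟨g, hg⟩ := LinearMap.exists_leftInverse_of_injective L hk
  refine ⟨fun v => g (Pi.single v 1) u, fun η => ?_⟩
  have h1 : g (L η) = η := LinearMap.congr_fun hg η
  have h2 : L η = ∑ v, (L η v) • (Pi.single v 1 : V → ℂ) := by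
    ext v
    simp [Finset.sum_apply, Pi.single_apply]
  have h3 : η u = (g (∑ v, (L η v) • (Pi.single v 1 : V → ℂ))) u := by rw [← h2, h1]
  rw [h3, map_sum, Finset.sum_apply]
  refine Finset.sum_congr rfl fun v _ => ?_
  rw [map_smul, Pi.smul_apply, smul_eq_mul, hL, mul_comm]

theorem key {V : Type} [Fintype V] (Ψ : V → MvPolynomial U ℂ) (a : V → ℂ) (z : U → ℂ)
    (hz : Fib Ψ a z) (h : ∀ η : U → ℂ, (∀ v, ∑ u, jac Ψ z v u * η u = 0) → η = 0) :
    mz z ≤ Ideal.span (range fun v => Ψ v - MvPolynomial.C (a v)) ⊔ mz z * mz z := by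
  classical
  set I := Ideal.span (range fun v => Ψ v - MvPolynomial.C (a v)) with hI
  have hl : ∀ v, lin z (Ψ v) ∈ I ⊔ mz z * mz z := by
    intro v
    have h1 : Ψ v - MvPolynomial.C (a v) ∈ I ⊔ mz z * mz z :=
      Ideal.mem_sup_left (Ideal.subset_span ⟨v, rfl⟩)
    have h2 : Ψ v - MvPolynomial.C (MvPolynomial.eval z (Ψ v)) - lin z (Ψ v) ∈ I ⊔ mz z * mz z :=
      Ideal.mem_sup_right (taylor z (Ψ v))
    rw [hz v] at h2
    have h3 := Ideal.sub_mem _ h1 h2
    rwa [sub_sub_cancel] at h3
  have hx : ∀ u, xz z u ∈ I ⊔ mz z * mz z := by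
    intro u
    obtain ⟨c, hc⟩ := left_inv (jac Ψ z) h u
    have h1 : ∀ w, ∑ v, c v * jac Ψ z v w = if w = u then 1 else 0 := by
      intro w
      have := hc (Pi.single w 1)
      simp only [Pi.single_apply, mul_ite, mul_one, mul_zero, Finset.sum_ite_eq',
        Finset.mem_univ, if_true] at this
      rw [← this]
      by_cases hw : w = u
      · simp [hw]
      · have hw' : u ≠ w := fun h => hw h.symm
        simp [hw, hw']
    have h2 : ∑ v, MvPolynomial.C (c v) * lin z (Ψ v) = xz z u := by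
      unfold lin
      simp only [Finset.mul_sum]
      rw [Finset.sum_comm]
      have h3 : ∀ w, ∑ v, MvPolynomial.C (c v) *
          (MvPolynomial.C (MvPolynomial.eval z (pderiv w (Ψ v))) * xz z w) =
          MvPolynomial.C (∑ v, c v * jac Ψ z v w) * xz z w := by
        intro w
        rw [map_sum, Finset.sum_mul]
        refine Finset.sum_congr rfl fun v _ => ?_
        rw [map_mul, mul_assoc]
        rfl
      simp only [h3, h1]
      rw [Finset.sum_eq_single u]
      · simp
      · intro w _ hw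
        simp [hw]
      · intro hn
        exact absurd (Finset.mem_univ u) hn
    rw [← h2]
    exact Ideal.sum_mem _ fun v _ => Ideal.mul_mem_left _ _ (hl v)
  intro p hp
  have h1 : p - MvPolynomial.C (MvPolynomial.eval z p) - lin z p ∈ I ⊔ mz z * mz z :=
    Ideal.mem_sup_right (taylor z p)
  have h2 : lin z p ∈ I ⊔ mz z * mz z :=
    Ideal.sum_mem _ fun u _ => Ideal.mul_mem_left _ _ (hx u)
  rw [(mem_mz z p).1 hp, map_zero, sub_zero] at h1
  have h3 := Ideal.add_mem _ h1 h2
  rwa [sub_add_cancel] at h3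

end MemA

open MemA in
theorem rowMem : OfMem := by
  intro U V _ _ Ψ a f hj hf
  set I := Ideal.span (range fun v => Ψ v - MvPolynomial.C (a v)) with hI
  by_contra hfI
  have hne : I.colon {f} ≠ ⊤ := by
    intro h
    have h1 : (1 : MvPolynomial U ℂ) ∈ I.colon {f} := h ▸ Submodule.mem_top
    rw [Submodule.mem_colon_singleton, one_smul] at h1
    exact hfI h1
  obtain ⟨m, hm, hle⟩ := Ideal.exists_le_maximal _ hne
  obtain ⟨z, hz⟩ := MvPolynomial.isMaximal_iff_eq_vanishingIdeal_singleton.1 hm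
  have hmz : m = mz z := by
    ext p
    rw [hz, MvPolynomial.mem_vanishingIdeal_singleton_iff, mem_mz, MvPolynomial.aeval_eq_eval]
  have hIm : I ≤ mz z := by
    intro p hp
    rw [← hmz]
    apply hle
    rw [Submodule.mem_colon_singleton, smul_eq_mul]
    exact Ideal.mul_mem_right _ _ hp
  have hfib : Fib Ψ a z := by
    intro v
    have h1 : Ψ v - MvPolynomial.C (a v) ∈ mz z := hIm (Ideal.subset_span ⟨v, rfl⟩)
    rw [mem_mz, map_sub, MvPolynomial.eval_C, sub_eq_zero] at h1
    exact h1
  have hk := key Ψ a z hfib (hj z hfib)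
  have hfg : (mz z).FG := IsNoetherian.noetherian _
  obtain ⟨r, hr1, hr2⟩ := Submodule.exists_sub_one_mem_and_smul_le_of_fg_of_le_sup
    (I := mz z) (N := I) (N' := mz z) (P := mz z) hfg le_rfl hk
  have hfm : f ∈ mz z := (mem_mz z f).2 (hf z hfib)
  have hrf : r • f ∈ I := hr2 (Submodule.smul_mem_pointwise_smul f r _ hfm)
  have hr : r ∈ mz z := by
    rw [← hmz]
    apply hle
    rw [Submodule.mem_colon_singleton]
    exact hrf
  have h1 : (1 : MvPolynomial U ℂ) ∈ mz z := by
    have := Ideal.sub_mem _ hr hr1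
    rwa [sub_sub_cancel] at this
  rw [mem_mz, map_one] at h1
  exact one_ne_zero h1

end Pool.Agent.MP_776d16_ag.H7W
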