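import Pool.Agent.MP_776d16_ag.H7W.Spec

open Polynomial
open MvPolynomial (IsWeightedHomogeneous weightedHomogeneousComponent)

namespace Pool.Agent.MP_776d16_ag.H7W

namespace MinA

variable {U V : Type} {ω : U → ℕ} {ω' : V → ℕ} {Ψ : V → MvPolynomial U ℂ} {L : MvPolynomial U ℂ}

theorem comp (hΨ : ∀ v, IsWeightedHomogeneous ω (Ψ v) (ω' v)) (hL : IsWeightedHomogeneous ω L 1)
    {i m : ℕ} (him : i ≤ m) (P : MvPolynomial V ℂ) :
    weightedHomogeneousComponent ω m (MvPolynomial.aeval Ψ P * L ^ i) =
      MvPolynomial.aeval Ψ (weightedHomogeneousComponent ω' (m - i) P) * L ^ i := by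
  induction P using MvPolynomial.induction_on' with
  | add p q hp hq => simp only [map_add, add_mul, hp, hq]
  | monomial s c =>
    have h1 : IsWeightedHomogeneous ω (MvPolynomial.aeval Ψ (MvPolynomial.monomial s c))
        (Finsupp.weight ω' s) := by
      rw [MvPolynomial.aeval_monomial, Finsupp.weight_apply]
      exact (IsWeightedHomogeneous.prod _ _ _ fun v _ => (hΨ v).pow _).C_mul c
    rw [MvPolynomial.weightedHomogeneousComponent_of_mem (h1.mul (hL.pow i)),
      MvPolynomial.weightedHomogeneousComponent_of_mem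
        (MvPolynomial.isWeightedHomogeneous_monomial ω' s c rfl), smul_eq_mul, mul_one]
    by_cases h : m = Finsupp.weight ω' s + i
    · rw [if_pos h, if_pos (by omega)]
    · rw [if_neg h, if_neg (by omega), map_zero, zero_mul]

end MinA

theorem rowMin : OfMin := by
  intro U V _ _ ω ω' Ψ L hΨ hL hfin hinj
  set φ := (MvPolynomial.aeval Ψ : MvPolynomial V ℂ →ₐ[ℂ] MvPolynomial U ℂ).toRingHom with hφ
  let _ : Algebra (MvPolynomial V ℂ) (MvPolynomial U ℂ) := φ.toAlgebra
  have : Module.Finite (MvPolynomial V ℂ) (MvPolynomial U ℂ) := hfin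
  have : FaithfulSMul (MvPolynomial V ℂ) (MvPolynomial U ℂ) :=
    (faithfulSMul_iff_algebraMap_injective _ _).2 hinj
  have hi : IsIntegral (MvPolynomial V ℂ) L := Algebra.IsIntegral.isIntegral L
  set μ := minpoly (MvPolynomial V ℂ) L with hμ
  have hM : MinEq Ψ L μ :=
    ⟨minpoly.monic hi, minpoly.aeval _ L, fun χ h => minpoly.isIntegrallyClosed_dvd hi h⟩
  refine ⟨μ, hM, ?_⟩
  set m := μ.natDegree with hm
  set ν : (MvPolynomial V ℂ)[X] := ∑ i ∈ Finset.range (m + 1),
    monomial i (weightedHomogeneousComponent ω' (m - i) (μ.coeff i)) with hν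
  have hc : ∀ i, ν.coeff i =
      if i < m + 1 then weightedHomogeneousComponent ω' (m - i) (μ.coeff i) else 0 := by
    intro i
    simp only [hν, finsetSum_coeff, coeff_monomial, Finset.sum_ite_eq', Finset.mem_range]
  have hd : ν.natDegree ≤ m :=
    natDegree_le_iff_coeff_eq_zero.2 fun i h => by rw [hc, if_neg (by omega)]
  have h1 : ν.Monic := monic_of_natDegree_le_of_coeff_eq_one m hd (by
    rw [hc, if_pos (by omega), hm, hM.monic.coeff_natDegree, Nat.sub_self,
      MvPolynomial.weightedHomogeneousComponent_of_mem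
        (MvPolynomial.isWeightedHomogeneous_one ℂ ω'), if_pos rfl])
  have h2 : ν.eval₂ φ L = 0 := by
    have h3 := congrArg (weightedHomogeneousComponent ω m) hM.root
    rw [map_zero, eval₂_eq_sum_range, map_sum] at h3
    rw [hν, eval₂_finsetSum, ← h3]
    refine Finset.sum_congr rfl fun i h => ?_
    rw [eval₂_monomial]
    exact (MinA.comp hΨ hL (by have := Finset.mem_range.1 h; omega) _).symm
  have h4 : ν = μ := eq_of_monic_of_dvd_of_natDegree_le hM.monic h1 (hM.min ν h2) hd
  intro i
  rw [← h4, hc]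
  split_ifs
  · exact MvPolynomial.weightedHomogeneousComponent_isWeightedHomogeneous _ _
  · exact MvPolynomial.isWeightedHomogeneous_zero _ _ _

end Pool.Agent.MP_776d16_ag.H7W
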