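import Pool.Agent.MP_776d16_ag.H7W.Spec

/-!
The Newton polygon of a curve gives a chain of links.
-/

open Polynomial

namespace Pool.Agent.MP_776d16_ag.H7W

namespace NewtA

/-- The primitive form of a vector. -/
theorem prim {σ : Type} [Finite σ] {w : σ → ℕ} (hw : ∀ i, 0 < w i) (P : Plc) (A : σ → ℂ) :
    ∃ (μ : ℂ) (a : σ → ℂ), (∀ i, μ ^ w i * a i = A i) ∧ (∀ i, a i ∈ P.V) ∧
      (μ ≠ 0 → (fun i => P.χ (a i)) ≠ 0) := by
  by_cases h : A = 0
  · exact ⟨0, 0, fun i => by simp [h], fun _ => zero_mem _, fun h => absurd rfl h⟩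
  obtain ⟨i₁, h₁⟩ := Function.ne_iff.1 h
  have : Nonempty σ := ⟨i₁⟩
  choose r hr using fun i => IsAlgClosed.exists_pow_nat_eq (A i) (hw i)
  obtain ⟨i₀, h₀⟩ := Finite.exists_max fun i => P.V.valuation (r i)
  have hμ : r i₀ ≠ 0 := fun e => h₁ (by
    have := h₀ i₁
    rw [e, map_zero, nonpos_iff_eq_zero, map_eq_zero] at this
    rw [← hr, this, zero_pow (hw i₁).ne']
    rfl)
  refine ⟨r i₀, fun i => (r i / r i₀) ^ w i, fun i => by
    rw [← mul_pow, mul_div_cancel₀ _ hμ, hr], fun i => pow_mem ?_ _, fun _ e => ?_⟩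
  · rw [← P.V.valuation_le_one_iff, map_div₀]
    exact div_le_one_of_le₀ (h₀ i) zero_le
  · simpa [div_self hμ, P.one] using congrFun e i₀

end NewtA

open NewtA in
theorem rowNewt : OfNewt := by
  intro hPl hRed hEdge hPoly σ J _ _ w d g ok K e T c p y hg hp hT on p0 y0 fib sp
  obtain ⟨P, hK, hz⟩ := hPl σ K _ _ sp
  have hc := fun j m => hK _ (hg j m)
  choose u hu using fun i => Finset.dvd_prod_of_mem w (Finset.mem_univ i)
  have hW : 0 < ∏ i, w i := Finset.prod_pos fun i _ => ok.wpos i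
  generalize ∏ i, w i = W at hu hW
  have u0 : ∀ i, 0 < u i := fun i => Nat.pos_of_mul_pos_left (hu i ▸ hW)
  let A : ℕ → σ → ℂ := fun j i => (expand ℂ (u i) (T i)).coeff j
  have A0 : ∀ i, A 0 i = ev T 0 i := fun i => by
    simpa [ev, ← coeff_zero_eq_eval_zero] using coeff_expand_mul (u0 i) (T i) 0
  have AE : ∀ i, A (e * W) i = p i := fun i => by
    rw [← hT.top i, ← coeff_expand_mul (u0 i) (T i), mul_assoc, ← hu]
  have h1 : ∀ j, ∃ (μ : ℂ) (a : σ → ℂ), ((∀ i, μ ^ w i * a i = A j i) ∧ (∀ i, a i ∈ P.V) ∧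
      (μ ≠ 0 → (fun i => P.χ (a i)) ≠ 0)) ∧ (j = 0 ∨ j = e * W → μ = 1 ∧ a = A j) := fun j => by
    by_cases h : j = 0 ∨ j = e * W
    · refine ⟨1, A j, ⟨by simp, ?_⟩, fun _ => ⟨rfl, rfl⟩⟩
      rcases h with rfl | rfl
      · simp only [A0, hz]
        exact ⟨fun _ => trivial, fun _ => y0⟩
      · simp only [AE, hK _ (hp _)]
        exact ⟨fun _ => trivial, fun _ => p0⟩
    · obtain ⟨μ, a, h2⟩ := prim ok.wpos P (A j)
      exact ⟨μ, a, h2, fun h' => absurd h' h⟩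
  choose μ a h2 h3 using h1
  have on' : On g c fun i =>
      ∑ j ∈ Finset.range (e * W + 1), monomial (j * w i) (μ j ^ w i * a j i) := fun j => by
    have : ∀ i, ∑ j ∈ Finset.range (e * W + 1), monomial (j * w i) (μ j ^ w i * a j i) =
        (T i).comp (X ^ W) := fun i => by
      rw [← expand_eq_comp_X_pow, hu i, ← expand_expand, (expand ℂ (u i) (T i)).as_sum_range'
        (e * (w i * u i) + 1) (by
          rw [natDegree_expand, ← mul_assoc]
          exact Nat.lt_succ_of_le (Nat.mul_le_mul_right _ (hT.deg i))), map_sum]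
      simp only [expand_monomial, (h2 _).1, A]
    simp only [this, ← aeval_comp', on j, C_comp]
  have cv : ∀ j, P.V.valuation (c j) < 1 := fun j => by
    have e0 : ∀ j, MvPolynomial.eval (ev T 0) (g j) = c j := fun j => by
      rw [← eval_aeval, on j, eval_C]
    obtain ⟨T', t1, t2⟩ := hRed σ J g P c (fun i => C (ev T 0 i)) hc (fun i k => by
      rw [coeff_C]
      split_ifs
      exacts [(hz i).1, zero_mem _]) fun j => by rw [aeval_C', e0]
    have e1 : ev T' 0 = y := funext fun i => by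
      rw [ev, ← coeff_zero_eq_eval_zero, t1, coeff_C_zero, (hz i).2]
    refine (P.ker _ (e0 j ▸ MvPolynomial.eval_mem (fun m _ => (hc j m).1) fun i => (hz i).1)).1 ?_
    have := eval_aeval T' 0 (g j)
    rwa [t2 j, eval_C, e1, fib j] at this
  have h4 := (hPoly P.V (e * W) μ (fun j1 j2 => (fun i => P.χ (a j1 i)) ≠ 0 ∧
    (fun i => P.χ (a j2 i)) ≠ 0 ∧ Link w g (fun i => P.χ (a j1 i)) fun i => P.χ (a j2 i))
    (h3 0 (Or.inl rfl)).1 ((h3 _ (Or.inr rfl)).1 ▸ one_ne_zero)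
    fun r j1 j2 b1 b2 b3 b4 b5 b6 b7 b8 => ⟨(h2 j1).2.2 b3, (h2 j2).2.2 b4,
      hEdge σ J w d g P c _ a μ r j1 j2 ok.wpos ok.hom hc on' (fun j => (h2 j).2.1) cv b1 b2 b5 b6
        b7 b8⟩).lift (p := fun a b => a ≠ 0 ∧ b ≠ 0 ∧ Link w g a b) (fun j i => P.χ (a j i))
    fun _ _ h => h
  simpa only [Chain, Function.onFun, (h3 0 (Or.inl rfl)).2, (h3 _ (Or.inr rfl)).2, A0, AE, hz,
    hK _ (hp _)] using h4

end Pool.Agent.MP_776d16_ag.H7W
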