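import Pool.Agent.MP_776d16_ag.H7W.Spec

/-! A form of weight one that is constant on a reduced fibre. -/

open Polynomial
open MvPolynomial (IsWeightedHomogeneous)

namespace Pool.Agent.MP_776d16_ag.H7W

namespace NormA

theorem ev_aeval {U V : Type} (Ψ : V → MvPolynomial U ℂ) (z : U → ℂ) (Φ : MvPolynomial V ℂ) :
    MvPolynomial.eval z (MvPolynomial.aeval Ψ Φ) =
      MvPolynomial.eval (fun v => MvPolynomial.eval z (Ψ v)) Φ := by
  induction Φ using MvPolynomial.induction_on <;> simp_all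

theorem wt_le {V : Type} (ω : V → ℕ) (μ : (MvPolynomial V ℂ)[X]) (l : ℂ)
    (h : ∀ i, IsWeightedHomogeneous ω (μ.coeff i) (μ.natDegree - i)) :
    ∀ s ∈ (μ.eval (MvPolynomial.C l)).support, Finsupp.weight ω s ≤ μ.natDegree := fun s hs => by
  rw [MvPolynomial.mem_support_iff, eval_eq_sum_range, MvPolynomial.coeff_sum] at hs
  obtain ⟨i, -, hi⟩ := Finset.exists_ne_zero_of_sum_ne_zero hs
  rw [← map_pow, mul_comm, MvPolynomial.coeff_C_mul] at hi
  exact (h i (right_ne_zero_of_mul hi)).trans_le (Nat.sub_le _ _)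

end NormA

open NormA in
theorem rowNorm : OfNorm := by
  intro hH hF hI hM hN hO hW U V _ _ ω ω' Ψ a L l hc h1 h2 h3 h4 h5 hL hl η hη
  by_contra h0
  have fin := hF U V ω ω' Ψ h1 h2 h3 h4
  have inj := hI U V Ψ hc fin
  obtain ⟨μ, hμ, hw⟩ := hN U V ω ω' Ψ L h3 hL fin inj
  have hm := hM U V Ψ a (L - MvPolynomial.C l) h5 fun z hz => by
    rw [map_sub, hl z hz, MvPolynomial.eval_C, sub_self]
  have key := hW V ω' a _ _ h2 (wt_le ω' μ l hw) (hO U V Ψ a L l μ fin hμ hm)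
  set θ := (MvPolynomial.aeval Ψ : MvPolynomial V ℂ →ₐ[ℂ] MvPolynomial U ℂ).toRingHom with hθ
  have hC : θ (MvPolynomial.C l) = MvPolynomial.C l := MvPolynomial.algHom_C _ l
  have hd : L - MvPolynomial.C l ∣ θ (μ.eval (MvPolynomial.C l)) := by
    have h6 := sub_dvd_eval_sub L (MvPolynomial.C l) (μ.map θ)
    rwa [eval_map, hμ.root, zero_sub, dvd_neg, ← hC, eval_map, eval₂_hom, hC] at h6
  have hz : θ (μ.eval (MvPolynomial.C l)) = 0 := MvPolynomial.funext fun z => by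
    obtain ⟨q, hq⟩ := hd
    have h6 := congrArg (MvPolynomial.eval fun u =>
      z u + (l - MvPolynomial.eval z L) / MvPolynomial.eval η L * η u) hq
    rw [map_mul, map_sub, hH.lin U ω L z η _ h1 hL, div_mul_cancel₀ _ h0, MvPolynomial.eval_C,
      add_sub_cancel, sub_self, zero_mul] at h6
    refine Eq.trans ?_ (h6.trans (map_zero _).symm)
    refine (ev_aeval Ψ _ _).trans ((key _ _ fun v hv => ?_).trans (ev_aeval Ψ _ _).symm)
    rw [hH.lin U ω (Ψ v) z η _ h1 (hv ▸ h3 v), hη v hv, mul_zero, add_zero]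
  obtain ⟨ν, hν⟩ := dvd_iff_isRoot.2 ((map_eq_zero_iff _ inj).1 hz)
  have h6 := hμ.root
  rw [hν, eval₂_mul, eval₂_sub, eval₂_X, eval₂_C, hC, mul_eq_zero, sub_eq_zero] at h6
  rcases h6 with h6 | h6
  · have h7 := hH.lin U ω L 0 0 1 h1 hL
    rw [h6] at h7 h0
    simp only [MvPolynomial.eval_C, one_mul, left_eq_add] at h7 h0
    exact h0 h7
  · have h7 : ν ≠ 0 := fun e => hμ.monic.ne_zero (by rw [hν, e, mul_zero])
    have h8 := natDegree_le_of_dvd (hμ.min ν h6) h7
    rw [hν, natDegree_mul (X_sub_C_ne_zero _) h7, natDegree_X_sub_C] at h8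
    omega

end Pool.Agent.MP_776d16_ag.H7W
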