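import Pool.Agent.MP_776d16_ag.H7W.Spec

/-!
The order of vanishing of the norm along a line.
-/

open Polynomial
open Set (range)

namespace Pool.Agent.MP_776d16_ag.H7W

namespace OrdA

/-- A monic divisor of a polynomial whose roots are divisible by `t`. -/
theorem gauss {O : Type} [CommRing O] [IsDomain O] [IsIntegrallyClosed O] {t : O} (ht : t ≠ 0)
    {χ g : O[X]} (hχ : χ.Monic) (hg : g.Monic) (hd : g ∣ χ)
    (hc : ∀ k, t ^ (χ.natDegree - k) ∣ χ.coeff k) : t ^ g.natDegree ∣ g.coeff 0 := by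
  have hinj := IsFractionRing.injective O (FractionRing O)
  have h0 : algebraMap O (FractionRing O) t ≠ 0 := fun e => ht (hinj (e.trans (map_zero _).symm))
  have hl : (χ.map (algebraMap O (FractionRing O))).scaleRoots
      (algebraMap O (FractionRing O) t)⁻¹ ∈ lifts (algebraMap O (FractionRing O)) := by
    rw [lifts_iff_coeff_lifts]
    intro k
    obtain ⟨c, hc⟩ := hc k
    refine ⟨c, ?_⟩
    rw [coeff_scaleRoots, coeff_map, hc, hχ.natDegree_map, map_mul, map_pow, inv_pow,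
      mul_comm (_ ^ _), mul_assoc, mul_inv_cancel₀ (pow_ne_zero _ h0), mul_one]
  obtain ⟨χ', h1, -, h2⟩ := lifts_and_degree_eq_and_monic hl
    ((monic_scaleRoots_iff _).2 (hχ.map _))
  have h3 := scaleRoots_dvd _ _ (r := (algebraMap O (FractionRing O) t)⁻¹)
    (Polynomial.map_dvd (algebraMap O (FractionRing O)) hd)
  rw [← h1] at h3
  obtain ⟨g', h4⟩ := IsIntegrallyClosed.eq_map_mul_C_of_dvd (FractionRing O) h2 h3
  rw [((monic_scaleRoots_iff _).2 (hg.map _)).leadingCoeff, C_1, mul_one] at h4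
  have h5 := congrArg (fun p => p.coeff 0) h4
  simp only [coeff_scaleRoots, coeff_map, hg.natDegree_map, Nat.sub_zero] at h5
  refine ⟨g'.coeff 0, hinj ?_⟩
  rw [map_mul, map_pow, h5, inv_pow, mul_comm, mul_assoc, inv_mul_cancel₀ (pow_ne_zero _ h0),
    mul_one]

/-- The determinant trick. -/
theorem trick {R A : Type} [CommRing R] [CommRing A] (φ : R →+* A) (hφ : φ.Finite) (I : Ideal R)
    {f : A} (hf : f ∈ I.map φ) :
    ∃ χ : R[X], χ.Monic ∧ (∀ k, χ.coeff k ∈ I ^ (χ.natDegree - k)) ∧ χ.eval₂ φ f = 0 := by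
  let _ := φ.toAlgebra
  have _ : Module.Finite R A := hφ
  obtain ⟨χ, h1, -, h2, h3⟩ :=
    LinearMap.exists_monic_and_natDegree_eq_and_coeff_mem_pow_and_aeval_eq_zero R
      (Algebra.lmul R A f) I (by
        rintro _ ⟨y, rfl⟩
        rw [Ideal.smul_top_eq_map]
        exact Ideal.mul_mem_right y _ hf)
  refine ⟨χ, h1, h2, ?_⟩
  rw [aeval_algHom_apply, ← map_zero (Algebra.lmul R A)] at h3
  exact Algebra.lmul_injective h3

end OrdA

theorem rowOrd : OfOrd := by
  intro U V _ _ Ψ a L l μ hfin hμ hL x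
  obtain ⟨χ, h1, h2, h3⟩ := OrdA.trick _ hfin
    (Ideal.span (range fun v => MvPolynomial.X v - MvPolynomial.C (a v)))
    (f := L - MvPolynomial.C l) (Ideal.span_le.2 (by
      rintro _ ⟨v, rfl⟩
      have := Ideal.mem_map_of_mem
        (MvPolynomial.aeval Ψ : MvPolynomial V ℂ →ₐ[ℂ] MvPolynomial U ℂ).toRingHom
        (Ideal.subset_span (s := range fun v => MvPolynomial.X v - MvPolynomial.C (a v)) ⟨v, rfl⟩)
      simpa using this) hL)
  have h4 : μ ∣ χ.comp (X - C (MvPolynomial.C l)) := by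
    refine hμ.min _ ?_
    rw [eval₂_comp, eval₂_sub, eval₂_X, eval₂_C, ← h3]
    simp
  have h5 : μ.comp (X + C (MvPolynomial.C l)) ∣ χ := by
    obtain ⟨q, hq⟩ := h4
    refine ⟨q.comp (X + C (MvPolynomial.C l)), ?_⟩
    rw [← mul_comp, ← hq, comp_assoc]
    simp
  have h6 : (μ.comp (X + C (MvPolynomial.C l))).Monic := hμ.monic.comp_X_add_C _
  set θ := (MvPolynomial.aeval fun v => C (a v) + C (x v) * X :
    MvPolynomial V ℂ →ₐ[ℂ] ℂ[X]).toRingHom with hθ
  have h7 : (Ideal.span (range fun v => MvPolynomial.X v - MvPolynomial.C (a v))).map θ ≤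
      Ideal.span {(X : ℂ[X])} := by
    rw [Ideal.map_le_iff_le_comap, Ideal.span_le]
    rintro _ ⟨v, rfl⟩
    refine Ideal.mem_comap.2 (Ideal.mem_span_singleton.2 ⟨C (x v), ?_⟩)
    rw [hθ, mul_comm X]
    simp
  have h8 := OrdA.gauss (X_ne_zero (R := ℂ)) (h1.map θ) (h6.map θ) (Polynomial.map_dvd θ h5)
    fun k => by
      rw [h1.natDegree_map, coeff_map, ← Ideal.mem_span_singleton, ← Ideal.span_singleton_pow]
      refine Ideal.pow_right_mono h7 _ ?_
      rw [← Ideal.map_pow]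
      exact Ideal.mem_map_of_mem θ (h2 k)
  rw [h6.natDegree_map, natDegree_comp, natDegree_X_add_C, mul_one, coeff_map,
    coeff_zero_eq_eval_zero, eval_comp, eval_add, eval_X, eval_C, zero_add] at h8
  exact h8

end Pool.Agent.MP_776d16_ag.H7W
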