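import Pool.Agent.MP_776d16_ag.H7W.Spec

/-!
Polynomial functions with coefficients in a subfield.
-/

open Polynomial
open MvPolynomial (pderiv IsWeightedHomogeneous)
open Fintype (card)
open Set (range)

namespace Pool.Agent.MP_776d16_ag.H7W

namespace PfA

variable {U : Type} {K : Subfield ℂ}

theorem const {a : ℂ} (ha : a ∈ K) : PF K fun _ : U → ℂ => a :=
  ⟨MvPolynomial.C ⟨a, ha⟩, fun z => by rw [MvPolynomial.aeval_C]; rfl⟩

theorem var (u : U) : PF K fun z : U → ℂ => z u :=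
  ⟨MvPolynomial.X u, fun z => by rw [MvPolynomial.aeval_X]⟩

theorem add {f g : (U → ℂ) → ℂ} : PF K f → PF K g → PF K fun z => f z + g z :=
  fun ⟨P, hP⟩ ⟨Q, hQ⟩ => ⟨P + Q, fun z => by rw [map_add, ← hP, ← hQ]⟩

theorem sub {f g : (U → ℂ) → ℂ} : PF K f → PF K g → PF K fun z => f z - g z :=
  fun ⟨P, hP⟩ ⟨Q, hQ⟩ => ⟨P - Q, fun z => by rw [map_sub, ← hP, ← hQ]⟩

theorem mul {f g : (U → ℂ) → ℂ} : PF K f → PF K g → PF K fun z => f z * g z :=
  fun ⟨P, hP⟩ ⟨Q, hQ⟩ => ⟨P * Q, fun z => by rw [map_mul, ← hP, ← hQ]⟩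

theorem pow {f : (U → ℂ) → ℂ} (n : ℕ) : PF K f → PF K fun z => f z ^ n :=
  fun ⟨P, hP⟩ => ⟨P ^ n, fun z => by rw [map_pow, ← hP]⟩

theorem sum {L : Type} (s : Finset L) (f : L → (U → ℂ) → ℂ) (h : ∀ l ∈ s, PF K (f l)) :
    PF K fun z => ∑ l ∈ s, f l z := by
  choose! P hP using h
  exact ⟨∑ l ∈ s, P l, fun z => by
    rw [map_sum]
    exact Finset.sum_congr rfl fun l hl => hP l hl z⟩

theorem prod {L : Type} (s : Finset L) (f : L → (U → ℂ) → ℂ) (h : ∀ l ∈ s, PF K (f l)) :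
    PF K fun z => ∏ l ∈ s, f l z := by
  choose! P hP using h
  exact ⟨∏ l ∈ s, P l, fun z => by
    rw [map_prod]
    exact Finset.prod_congr rfl fun l hl => hP l hl z⟩

/-- induction on polynomial functions -/
theorem ind {p : ((U → ℂ) → ℂ) → Prop} (h1 : ∀ a ∈ K, p fun _ => a)
    (h2 : ∀ f g, p f → p g → p fun z => f z + g z) (h3 : ∀ f u, p f → p fun z => f z * z u)
    {f : (U → ℂ) → ℂ} (hf : PF K f) : p f := by
  obtain ⟨P, hP⟩ := hf
  obtain rfl : f = fun z => MvPolynomial.aeval z P := funext hP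
  clear hP
  induction P using MvPolynomial.induction_on with
  | C a =>
    simp only [MvPolynomial.aeval_C]
    exact h1 a a.2
  | add P Q hP hQ => simpa only [map_add] using h2 _ _ hP hQ
  | mul_X P u hP => simpa only [map_mul, MvPolynomial.aeval_X] using h3 _ u hP

end PfA

open PfA in
theorem rowPf : OfPf where
  const _ _ _ ha := const ha
  var _ _ u := var u
  add _ _ _ _ := add
  sub _ _ _ _ := sub
  mul _ _ _ _ := mul
  pow _ _ _ n := pow n
  sum _ _ _ s f := sum s f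
  prod _ _ _ s f := prod s f
  subst _ _ K _ h hf hh := ind (p := fun f => PF K fun z => f fun v => h v z)
    (fun _ ha => const ha) (fun _ _ => add) (fun _ v h1 => mul h1 (hh v)) hf
  mv _ _ _ G h hG hh := by
    simp only [MvPolynomial.eval_eq]
    exact sum _ _ fun m _ => mul (const (hG m)) (prod _ _ fun o _ => pow _ (hh o))
  mem _ K _ z hf hz := ind (p := fun f => f z ∈ K) (fun _ ha => ha) (fun _ _ => add_mem)
    (fun _ u h1 => mul_mem h1 (hz u)) hf
  mono _ _ K' _ hK hf := ind (p := fun f => PF K' f) (fun _ ha => const (hK ha)) (fun _ _ => add)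
    (fun _ u h1 => mul h1 (var u)) hf
  der _ _ _ z δ hf hδ hz := ind (p := fun f => δ (f z) = 0) (fun a ha => hδ a ha)
    (fun _ _ h1 h2 => by rw [map_add, h1, h2, add_zero])
    (fun _ u h1 => by rw [Derivation.leibniz, h1, hz u, smul_zero, smul_zero, add_zero]) hf
  top U _ _ hf := ind (p := fun f => ∃ P : MvPolynomial U ℂ, ∀ z, f z = MvPolynomial.eval z P)
    (fun a _ => ⟨MvPolynomial.C a, fun z => by simp⟩)
    (fun _ _ ⟨P, hP⟩ ⟨Q, hQ⟩ => ⟨P + Q, fun z => by rw [map_add, ← hP, ← hQ]⟩)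
    (fun _ u ⟨P, hP⟩ => ⟨P * MvPolynomial.X u, fun z => by
      rw [map_mul, ← hP, MvPolynomial.eval_X]⟩) hf

end Pool.Agent.MP_776d16_ag.H7W
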