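import Pool.Agent.MP_776d16_ag.H7W.Spec

/-! Extension of places (the graph argument is copied from the file of helper81). -/

set_option autoImplicit false

namespace Pool.Agent.MP_776d16_ag.H7W

open Set Polynomial

namespace PlA

variable {K Ω : Type} [Field K] [Field Ω]

/-- `G` is the graph of a homomorphism defined on a subring of `F`. -/
def Gr (F : Subfield K) (G : Subring (K × Ω)) : Prop :=
  (∀ z ∈ G, z.1 ∈ F) ∧ ∀ z ∈ G, z.1 = 0 → z.2 = 0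

lemma Gr.uniq {F : Subfield K} {G : Subring (K × Ω)} (h : Gr F G) {z z' : K × Ω} (hz : z ∈ G)
    (hz' : z' ∈ G) (e : z.1 = z'.1) : z.2 = z'.2 :=
  sub_eq_zero.1 (h.2 _ (G.sub_mem hz hz') (sub_eq_zero.2 e))

lemma exists_max {F : Subfield K} {G₀ : Subring (K × Ω)} (h : Gr F G₀) :
    ∃ G, G₀ ≤ G ∧ Gr F G ∧ ∀ G', Gr F G' → G ≤ G' → G' ≤ G := by
  obtain ⟨G, h1, h2⟩ := zorn_le_nonempty₀ {G : Subring (K × Ω) | Gr F G} (fun c hc hch y hy => by
    refine ⟨sSup c, ⟨fun z hz => ?_, fun z hz => ?_⟩, fun z hz => le_sSup hz⟩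
    · obtain ⟨s, hs, hz⟩ := (Subring.mem_sSup_of_directedOn ⟨y, hy⟩ hch.directedOn).1 hz
      exact (hc hs).1 z hz
    · obtain ⟨s, hs, hz⟩ := (Subring.mem_sSup_of_directedOn ⟨y, hy⟩ hch.directedOn).1 hz
      exact (hc hs).2 z hz) G₀ h
  exact ⟨G, h1, h2.1, fun G' h3 h4 => h2.2 h3 h4⟩

lemma inv_mem {F : Subfield K} {G : Subring (K × Ω)} (h : Gr F G)
    (hm : ∀ G', Gr F G' → G ≤ G' → G' ≤ G) {z : K × Ω} (hz : z ∈ G) (h0 : z.2 ≠ 0) : z⁻¹ ∈ G := by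
  have h1 : z.1 ≠ 0 := fun e => h0 (h.2 z hz e)
  let G' : Subring (K × Ω) :=
    { carrier := {u | ∃ n : ℕ, z ^ n * u ∈ G}
      mul_mem' := fun {u v} ⟨n, hn⟩ ⟨m, hm⟩ => ⟨n + m, by
        have := G.mul_mem hn hm
        rwa [mul_mul_mul_comm, ← pow_add] at this⟩
      one_mem' := ⟨0, by simp⟩
      add_mem' := fun {u v} ⟨n, hn⟩ ⟨m, hm⟩ => ⟨n + m, by
        have := G.add_mem (G.mul_mem (G.pow_mem hz m) hn) (G.mul_mem (G.pow_mem hz n) hm)
        have e : z ^ m * (z ^ n * u) + z ^ n * (z ^ m * v) = z ^ (n + m) * (u + v) := by ring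
        rwa [e] at this⟩
      zero_mem' := ⟨0, by simp⟩
      neg_mem' := fun {u} ⟨n, hn⟩ => ⟨n, by simpa using G.neg_mem hn⟩ }
  refine hm G' ⟨?_, ?_⟩ (fun u hu => ⟨0, by simpa using hu⟩) ⟨1, ?_⟩
  · rintro u ⟨n, hn⟩
    have h2 : z.1 ^ n * u.1 ∈ F := h.1 _ hn
    have e : u.1 = (z.1 ^ n)⁻¹ * (z.1 ^ n * u.1) := by field_simp
    rw [e]
    exact F.mul_mem (F.inv_mem (F.pow_mem (h.1 z hz) n)) h2
  · rintro u ⟨n, hn⟩ e
    have h2 : z.2 ^ n * u.2 = 0 := h.2 _ hn (by simp [e])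
    exact (mul_eq_zero.1 h2).resolve_left (pow_ne_zero _ h0)
  · have e : z ^ 1 * z⁻¹ = 1 := Prod.ext (by simp [h1]) (by simp [h0])
    rw [e]
    exact G.one_mem

lemma ext_mem {F : Subfield K} {G : Subring (K × Ω)} (h : Gr F G)
    (hm : ∀ G', Gr F G' → G ≤ G' → G' ≤ G) {x : K} (hx : x ∈ F) {ω : Ω}
    (H : ∀ p : G[X], p.eval₂ ((RingHom.fst K Ω).comp G.subtype) x = 0 →
      p.eval₂ ((RingHom.snd K Ω).comp G.subtype) ω = 0) : (x, ω) ∈ G := by
  refine hm (eval₂RingHom G.subtype (x, ω)).range ⟨?_, ?_⟩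
    (fun u hu => ⟨C ⟨u, hu⟩, by simp⟩) ⟨X, by simp⟩
  · rintro _ ⟨p, rfl⟩
    induction p using Polynomial.induction_on' with
    | add p q hp hq => rw [map_add]; exact F.add_mem hp hq
    | monomial n a =>
      rw [coe_eval₂RingHom, eval₂_monomial]
      exact F.mul_mem (h.1 _ a.2) (F.pow_mem hx n)
  · rintro _ ⟨p, rfl⟩ e
    exact (hom_eval₂ p G.subtype (RingHom.snd K Ω) (x, ω)).trans
      (H p ((hom_eval₂ p G.subtype (RingHom.fst K Ω) (x, ω)).symm.trans e))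

lemma total [IsAlgClosed Ω] {F : Subfield K} {G : Subring (K × Ω)} (h : Gr F G)
    (hm : ∀ G', Gr F G' → G ≤ G' → G' ≤ G) {x : K} (hx : x ∈ F) :
    (∃ ω, (x, ω) ∈ G) ∨ ∃ ω, (x⁻¹, ω) ∈ G := by
  let f : G →+* K := (RingHom.fst K Ω).comp G.subtype
  let χ : G →+* Ω := (RingHom.snd K Ω).comp G.subtype
  obtain ⟨V, hV, hV'⟩ := Ideal.image_subset_nonunits_valuationSubring (A := f.range)
    ((RingHom.ker χ).map f.rangeRestrict) (by
      rw [Ne, Ideal.eq_top_iff_one, Ideal.mem_map_iff_of_surjective _ f.rangeRestrict_surjective]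
      rintro ⟨z, hz, e⟩
      have e1 : z.1.1 = (1 : K × Ω).1 := congrArg Subtype.val e
      have e2 : z.1.2 = 0 := hz
      exact one_ne_zero ((h.uniq z.2 G.one_mem e1).symm.trans e2))
  have hn : ∀ z : G, χ z = 0 → V.valuation (f z) < 1 := fun z hz =>
    V.mem_nonunits_iff.1 (hV' ⟨f.rangeRestrict z, Ideal.mem_map_of_mem _ hz, rfl⟩)
  let k : Subfield Ω :=
    { χ.range with
      inv_mem' := by
        rintro _ ⟨z, rfl⟩
        by_cases h0 : χ z = 0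
        · rw [h0, inv_zero]; exact χ.range.zero_mem
        · exact ⟨⟨z.1⁻¹, inv_mem h hm z.2 h0⟩, rfl⟩ }
  let χ' : G →+* k := χ.codRestrict k fun z => ⟨z, rfl⟩
  have hs : Function.Surjective χ' := by
    rintro ⟨_, z, rfl⟩
    exact ⟨z, rfl⟩
  have key : ∀ x ∈ F, x ∈ V → ∃ ω, (x, ω) ∈ G := by
    intro x hx hxV
    let J : Ideal k[X] := (RingHom.ker (eval₂RingHom f x)).map (mapRingHom χ')
    obtain ⟨g, hg⟩ := (IsPrincipalIdealRing.principal J).principal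
    have hJ : g.degree ≠ 0 := by
      intro h0
      have h1 : (1 : k[X]) ∈ J := by
        rw [hg]
        exact Ideal.mem_span_singleton.2 (isUnit_iff_degree_eq_zero.2 h0).dvd
      obtain ⟨p, hp, e⟩ := (Ideal.mem_map_iff_of_surjective (mapRingHom χ')
        (map_surjective χ' hs)).1 h1
      have hp' : p.eval₂ f x = 0 := hp
      have e' : (1 - p).map χ' = 0 := by
        rw [Polynomial.map_sub, Polynomial.map_one]
        exact sub_eq_zero.2 e.symm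
      have h2 : V.valuation ((1 - p).eval₂ f x) < 1 := by
        rw [eval₂_eq_sum_range]
        refine V.valuation.map_sum_lt one_ne_zero fun i _ => ?_
        have h3 : χ' ((1 - p).coeff i) = 0 := by rw [← coeff_map, e', coeff_zero]
        rw [map_mul, map_pow]
        exact mul_lt_one_of_lt_of_le (hn _ (congrArg Subtype.val h3))
          (pow_le_one' ((V.valuation_le_one_iff x).2 hxV) i)
      rw [eval₂_sub, eval₂_one, hp', sub_zero, map_one] at h2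
      exact lt_irrefl _ h2
    obtain ⟨ω, hω⟩ := IsAlgClosed.exists_eval₂_eq_zero k.subtype g hJ
    refine ⟨ω, ext_mem h hm hx fun p hp => ?_⟩
    have h1 : p.map χ' ∈ J := Ideal.mem_map_of_mem (mapRingHom χ') (show p ∈ RingHom.ker _ from hp)
    rw [hg] at h1
    obtain ⟨q, hq⟩ := Ideal.mem_span_singleton.1 h1
    have h2 : (p.map χ').eval₂ k.subtype ω = 0 := by rw [hq, eval₂_mul, hω, zero_mul]
    rwa [eval₂_map] at h2
  exact (V.mem_or_inv_mem x).imp (key x hx) (key _ (F.inv_mem hx))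

end PlA

open PlA in
theorem rowPl : OfPl := by
  classical
  intro U K z z0 hs
  let φ : MvPolynomial U K →+* ℂ × ℂ :=
    RingHom.prod (MvPolynomial.aeval z : _ →ₐ[K] ℂ).toRingHom
      (MvPolynomial.aeval z0 : _ →ₐ[K] ℂ).toRingHom
  obtain ⟨G, h0, h, hm⟩ := exists_max (F := ⊤) (G₀ := φ.range) ⟨fun _ _ => trivial, by
    rintro _ ⟨p, rfl⟩ e
    exact hs p e⟩
  let χ : ℂ → ℂ := fun y => if h : ∃ ω, (y, ω) ∈ G then h.choose else 0
  have hO : ∀ y, y ∈ G.map (RingHom.fst ℂ ℂ) ↔ ∃ ω, (y, ω) ∈ G := fun y =>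
    ⟨fun ⟨z, hz, e⟩ => ⟨z.2, e ▸ hz⟩, fun ⟨ω, hω⟩ => ⟨_, hω, rfl⟩⟩
  have h1 : ∀ y ∈ G.map (RingHom.fst ℂ ℂ), (y, χ y) ∈ G := fun y hy => by
    have := (hO y).1 hy
    simp only [χ, dif_pos this]
    exact this.choose_spec
  have h2 : ∀ y ω, (y, ω) ∈ G → χ y = ω := fun y ω hy =>
    h.uniq (h1 y ((hO y).2 ⟨ω, hy⟩)) hy rfl
  let V : ValuationSubring ℂ := ⟨G.map (RingHom.fst ℂ ℂ), fun y =>
    (total h hm (x := y) trivial).imp (hO _).2 (hO _).2⟩
  have h3 : ∀ p, (φ p).1 ∈ V ∧ χ (φ p).1 = (φ p).2 := fun p =>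
    ⟨(hO _).2 ⟨_, h0 ⟨p, rfl⟩⟩, h2 _ _ (h0 ⟨p, rfl⟩)⟩
  refine ⟨⟨V, χ, h2 _ _ G.one_mem, fun x hx y hy => h2 _ _ (G.add_mem (h1 x hx) (h1 y hy)),
    fun x hx y hy => h2 _ _ (G.mul_mem (h1 x hx) (h1 y hy)), fun x hx => ?_⟩,
    fun a ha => ?_, fun u => by simpa [φ] using h3 (MvPolynomial.X u)⟩
  swap
  · have := h3 (MvPolynomial.C ⟨a, ha⟩)
    simp only [φ, RingHom.prod_apply, AlgHom.toRingHom_eq_coe, RingHom.coe_coe,
      MvPolynomial.aeval_C] at this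
    exact this
  refine Iff.trans ?_ (V.mem_nonunits_iff_or.symm.trans V.mem_nonunits_iff)
  constructor
  · intro e
    by_contra hn
    rw [not_or, not_not] at hn
    have h4 := h2 _ _ (G.mul_mem (h1 x hx) (h1 _ hn.2))
    rw [mul_inv_cancel₀ hn.1, e, zero_mul, h2 _ _ G.one_mem] at h4
    exact one_ne_zero h4
  · rintro (rfl | e)
    · exact h2 _ _ G.zero_mem
    · exact by_contra fun q => e ((hO _).2 ⟨_, inv_mem h hm (h1 x hx) q⟩)

end Pool.Agent.MP_776d16_ag.H7W
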