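import Pool.Agent.MP_776d16_ag.H7W.Spec

/-!
The Newton polygon is a chain of edges.
-/

namespace Pool.Agent.MP_776d16_ag.H7W

open Finset

theorem rowPoly : OfPoly := by
  classical
  intro V E μ R h0 hE hR
  set v := V.valuation
  have key : ∀ n j (r : ℂ), j + n = E → μ j ≠ 0 → (j = 0 ∨ r ≠ 0) →
      (∀ i < j, v (μ i * r ^ i) ≤ v (μ j * r ^ j)) →
      (∀ i, j < i → i ≤ E → v (μ i * r ^ i) < v (μ j * r ^ j)) → Relation.ReflTransGen R j E := by
    intro n
    induction n using Nat.strong_induction_on with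
    | _ n ih =>
    intro j r hn hj hr lo hi
    rcases (show j ≤ E by omega).eq_or_lt with rfl | hlt
    · exact .refl
    have vp : ∀ {a : ℂ}, a ≠ 0 → 0 < v a := fun h => zero_lt_iff.2 ((map_ne_zero v).2 h)
    have ex : ∀ i, ∃ ρ : ℂ, j < i → μ i ≠ 0 → μ i * ρ ^ (i - j) = μ j := fun i => by
      rcases le_or_gt i j with h | h
      · exact ⟨0, fun k => absurd k h.not_gt⟩
      · obtain ⟨ρ, k⟩ := IsAlgClosed.exists_pow_nat_eq (μ j / μ i) (Nat.sub_pos_of_lt h)
        exact ⟨ρ, fun _ l => by rw [k, mul_div_cancel₀ _ l]⟩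
    choose ρ hρ using ex
    obtain ⟨i0, h1, h2⟩ := exists_min_image ((Ioc j E).filter fun i => μ i ≠ 0) (fun i => v (ρ i))
      ⟨E, by simp [hlt, hE]⟩
    simp only [mem_filter, mem_Ioc] at h1 h2
    set s := ρ i0
    have e0 := hρ i0 h1.1.1 h1.2
    have s0 : s ≠ 0 := fun k => hj (by
      rw [← e0, show ρ i0 = 0 from k, zero_pow (Nat.sub_pos_of_lt h1.1.1).ne', mul_zero])
    have sp : ∀ (a : ℂ) {i k : ℕ} (t : ℂ), k ≤ i →
        v (a * t ^ i) = v a * v t ^ (i - k) * v t ^ k := fun a i k t h => by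
      rw [map_mul, map_pow, mul_assoc, ← pow_add, Nat.sub_add_cancel h]
    have rs : v r < v s := by
      refine not_le.1 fun k => (hi i0 h1.1.1 h1.1.2).not_ge ?_
      rw [sp _ r h1.1.1.le, ← e0, map_mul, map_mul, map_pow, map_pow]
      gcongr
    have a1 : ∀ i < j, v (μ i * s ^ i) < v (μ j * s ^ j) := fun i h => by
      have r0 := vp (hr.resolve_left (by omega))
      have k := lo i h
      rw [sp _ r h.le, map_mul, map_pow] at k
      rw [sp _ s h.le, map_mul, map_pow]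
      exact mul_lt_mul_of_pos_right ((le_of_mul_le_mul_right k (pow_pos r0 _)).trans_lt
        (mul_lt_mul_of_pos_left (pow_lt_pow_left₀ rs r0.le (by omega)) (vp hj))) (pow_pos (vp s0) _)
    have a2 : ∀ i ≤ E, v (μ i * s ^ i) ≤ v (μ j * s ^ j) := fun i h => by
      rcases lt_trichotomy i j with k | rfl | k
      exacts [(a1 i k).le, le_rfl, by
        rcases eq_or_ne (μ i) 0 with l | l
        · simp [l]
        · rw [sp _ s k.le, ← hρ i k l, map_mul, map_mul, map_pow, map_pow]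
          gcongr
          exact h2 i ⟨⟨k, h⟩, l⟩]
    obtain ⟨j2, h3, h4⟩ := exists_max_image
      ((Icc i0 E).filter fun i => v (μ i * s ^ i) = v (μ j * s ^ j)) id
      ⟨i0, mem_filter.2 ⟨mem_Icc.2 ⟨le_rfl, h1.1.2⟩, by
        rw [sp _ s h1.1.1.le, ← e0, map_mul, map_mul, map_pow, map_pow]⟩⟩
    simp only [mem_filter, mem_Icc, id] at h3 h4
    have m2 : μ j2 ≠ 0 := fun k => (vp (mul_ne_zero hj (pow_ne_zero j s0))).ne' (by
      rw [← h3.2, k, zero_mul, map_zero])
    have a3 : ∀ i, j2 < i → i ≤ E → v (μ i * s ^ i) < v (μ j * s ^ j) := fun i k l =>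
      (a2 i l).lt_of_ne fun e => (h4 i ⟨⟨by omega, l⟩, e⟩).not_gt k
    exact .head (hR s j j2 (by omega) h3.1.2 hj m2 (by simpa [h0] using a2 0 E.zero_le) h3.2 a2
      fun i l k => k.elim (a1 i) fun k => a3 i k l)
      (ih (E - j2) (by omega) j2 s (by omega) m2 (.inr s0) (fun i k => h3.2 ▸ a2 i (by omega))
        fun i k l => h3.2 ▸ a3 i k l)
  exact key E 0 0 (zero_add E) (by simp [h0]) (.inl rfl) (fun i h => absurd h i.not_lt_zero)
    fun i h _ => by simp [h0, h.ne']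

end Pool.Agent.MP_776d16_ag.H7W
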