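import Pool.Agent.MP_776d16_ag.H7W.Spec

/-!
Row Pp: polynomials whose coefficients are polynomial functions.
-/

open Polynomial
open MvPolynomial (pderiv IsWeightedHomogeneous)
open Fintype (card)
open Set (range)

namespace Pool.Agent.MP_776d16_ag.H7W

namespace PpA

variable {U : Type} {K : Subfield ℂ}

theorem pC (f : (U → ℂ) → ℂ) (h : PF K f) : PFP K fun z => C (f z) := by
  obtain ⟨P, hP⟩ := h
  exact ⟨C P, fun z => by beta_reduce; rw [map_C, hP]; rfl⟩

theorem pX : PFP K fun _ : U → ℂ => (X : ℂ[X]) := ⟨X, fun z => by rw [map_X]⟩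

theorem padd (f g : (U → ℂ) → ℂ[X]) (hf : PFP K f) (hg : PFP K g) :
    PFP K fun z => f z + g z := by
  obtain ⟨P, hP⟩ := hf
  obtain ⟨Q, hQ⟩ := hg
  exact ⟨P + Q, fun z => by rw [Polynomial.map_add, ← hP, ← hQ]⟩

theorem psub (f g : (U → ℂ) → ℂ[X]) (hf : PFP K f) (hg : PFP K g) :
    PFP K fun z => f z - g z := by
  obtain ⟨P, hP⟩ := hf
  obtain ⟨Q, hQ⟩ := hg
  exact ⟨P - Q, fun z => by rw [Polynomial.map_sub, ← hP, ← hQ]⟩

theorem pmul (f g : (U → ℂ) → ℂ[X]) (hf : PFP K f) (hg : PFP K g) :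
    PFP K fun z => f z * g z := by
  obtain ⟨P, hP⟩ := hf
  obtain ⟨Q, hQ⟩ := hg
  exact ⟨P * Q, fun z => by rw [Polynomial.map_mul, ← hP, ← hQ]⟩

theorem ppow (f : (U → ℂ) → ℂ[X]) (n : ℕ) (hf : PFP K f) : PFP K fun z => f z ^ n := by
  obtain ⟨P, hP⟩ := hf
  exact ⟨P ^ n, fun z => by rw [Polynomial.map_pow, ← hP]⟩

theorem psum {L : Type} (s : Finset L) (f : L → (U → ℂ) → ℂ[X]) (h : ∀ l ∈ s, PFP K (f l)) :
    PFP K fun z => ∑ l ∈ s, f l z := by
  classical
  induction s using Finset.induction_on with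
  | empty => exact ⟨0, fun z => by simp⟩
  | insert a s ha ih =>
    simp only [Finset.sum_insert ha]
    exact padd _ _ (h a (Finset.mem_insert_self a s))
      (ih fun l hl => h l (Finset.mem_insert_of_mem hl))

theorem pprod {L : Type} (s : Finset L) (f : L → (U → ℂ) → ℂ[X]) (h : ∀ l ∈ s, PFP K (f l)) :
    PFP K fun z => ∏ l ∈ s, f l z := by
  classical
  induction s using Finset.induction_on with
  | empty => exact ⟨1, fun z => by simp⟩
  | insert a s ha ih =>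
    simp only [Finset.prod_insert ha]
    exact pmul _ _ (h a (Finset.mem_insert_self a s))
      (ih fun l hl => h l (Finset.mem_insert_of_mem hl))

theorem pconst (p : ℂ[X]) (h : CoP K p) : PFP K fun _ : U → ℂ => p := by
  have h1 : PFP K fun _ : U → ℂ => ∑ k ∈ p.support, C (p.coeff k) * X ^ k :=
    psum _ _ fun k _ => pmul _ _
      (pC _ ⟨MvPolynomial.C ⟨p.coeff k, h k⟩, fun z => by rw [MvPolynomial.aeval_C]; rfl⟩)
      (ppow _ k pX)
  rwa [← p.as_sum_support_C_mul_X_pow] at h1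

theorem pcomp (f g : (U → ℂ) → ℂ[X]) (hf : PFP K f) (hg : PFP K g) :
    PFP K fun z => (f z).comp (g z) := by
  obtain ⟨P, hP⟩ := hf
  obtain ⟨Q, hQ⟩ := hg
  exact ⟨P.comp Q, fun z => by rw [Polynomial.map_comp, ← hP, ← hQ]⟩

theorem pcoeff (f : (U → ℂ) → ℂ[X]) (k : ℕ) (hf : PFP K f) : PF K fun z => (f z).coeff k := by
  obtain ⟨P, hP⟩ := hf
  exact ⟨P.coeff k, fun z => by beta_reduce; rw [hP, coeff_map]; rfl⟩

theorem peval (f : (U → ℂ) → ℂ[X]) (s : (U → ℂ) → ℂ) (hf : PFP K f) (hs : PF K s) :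
    PF K fun z => (f z).eval (s z) := by
  obtain ⟨P, hP⟩ := hf
  obtain ⟨Q, hQ⟩ := hs
  refine ⟨P.eval Q, fun z => ?_⟩
  beta_reduce
  rw [hP, hQ, eval_map]
  exact eval₂_at_apply (MvPolynomial.aeval z : MvPolynomial U K →ₐ[K] ℂ).toRingHom Q

theorem psubst {V : Type} (f : (V → ℂ) → ℂ[X]) (h : V → (U → ℂ) → ℂ) (hf : PFP K f)
    (hh : ∀ v, PF K (h v)) : PFP K fun z => f fun v => h v z := by
  obtain ⟨P, hP⟩ := hf
  choose Q hQ using hh
  refine ⟨P.map (MvPolynomial.aeval Q : MvPolynomial V K →ₐ[K] MvPolynomial U K).toRingHom,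
    fun z => ?_⟩
  beta_reduce
  rw [hP, Polynomial.map_map]
  congr 1
  have : (MvPolynomial.aeval fun v => h v z : MvPolynomial V K →ₐ[K] ℂ) =
      (MvPolynomial.aeval z : MvPolynomial U K →ₐ[K] ℂ).comp (MvPolynomial.aeval Q) := by
    ext v
    simp [hQ]
  rw [this]
  rfl

theorem pmono {K' : Subfield ℂ} (f : (U → ℂ) → ℂ[X]) (hK : K ≤ K') (hf : PFP K f) : PFP K' f := by
  obtain ⟨P, hP⟩ := hf
  refine ⟨P.map (MvPolynomial.map (Subfield.inclusion hK)), fun z => ?_⟩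
  rw [hP, Polynomial.map_map]
  congr 1
  refine MvPolynomial.ringHom_ext (fun r => ?_) fun i => ?_
  · simp only [AlgHom.toRingHom_eq_coe, RingHom.coe_coe, MvPolynomial.aeval_C, RingHom.comp_apply,
      MvPolynomial.map_C]
    rfl
  · simp

theorem pbdd (f : (U → ℂ) → ℂ[X]) (hf : PFP K f) : ∃ B, ∀ z, (f z).natDegree ≤ B := by
  obtain ⟨P, hP⟩ := hf
  exact ⟨P.natDegree, fun z => by rw [hP]; exact natDegree_map_le⟩

end PpA

theorem rowPp : OfPp :=
  { C := fun _ _ => PpA.pC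
    const := fun _ _ => PpA.pconst
    X := fun _ _ => PpA.pX
    add := fun _ _ => PpA.padd
    sub := fun _ _ => PpA.psub
    mul := fun _ _ => PpA.pmul
    pow := fun _ _ => PpA.ppow
    sum := fun _ _ _ => PpA.psum
    prod := fun _ _ _ => PpA.pprod
    comp := fun _ _ => PpA.pcomp
    coeff := fun _ _ => PpA.pcoeff
    eval := fun _ _ => PpA.peval
    subst := fun _ _ _ => PpA.psubst
    mono := fun _ _ _ => PpA.pmono
    bdd := fun _ _ => PpA.pbdd }

end Pool.Agent.MP_776d16_ag.H7W
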