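import Pool.Agent.MP_776d16_ag.H7W.Spec

/-!
More closure properties of polynomial families of polynomials.
-/

open Polynomial
open MvPolynomial (pderiv)

namespace Pool.Agent.MP_776d16_ag.H7W

namespace PqA

variable {U : Type} {K : Subfield ℂ}

theorem ext {P Q : MvPolynomial U K}
    (h : ∀ z : U → ℂ, MvPolynomial.aeval z P = MvPolynomial.aeval z Q) : P = Q :=
  MvPolynomial.map_injective _ (algebraMap K ℂ).injective (MvPolynomial.funext fun z => by
    rw [MvPolynomial.eval_map, MvPolynomial.eval_map]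
    exact h z)

theorem wit {P : (MvPolynomial U K)[X]} {m : (U → ℂ) → ℂ[X]} {D : ℕ}
    (h : ∀ z, m z = P.map (MvPolynomial.aeval z : MvPolynomial U K →ₐ[K] ℂ).toRingHom)
    (h' : ∀ z, (m z).Monic ∧ (m z).natDegree = D) : P.natDegree ≤ D ∧ P.Monic := by
  have e : ∀ z k, MvPolynomial.aeval z (P.coeff k) = (m z).coeff k := fun z k => by
    rw [h, coeff_map]
    rfl
  have h1 : P.natDegree ≤ D := natDegree_le_iff_coeff_eq_zero.2 fun k hk => ext fun z => by
    rw [e, map_zero, coeff_eq_zero_of_natDegree_lt ((h' z).2 ▸ hk)]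
  exact ⟨h1, monic_of_natDegree_le_of_coeff_eq_one D h1 (ext fun z => by
    rw [e, map_one, ← (h' z).2, (h' z).1.coeff_natDegree])⟩

end PqA

theorem rowPq : OfPq := by
  intro F P
  have mon : ∀ (U : Type) (K : Subfield ℂ) (k : ℕ) (b : (U → ℂ) → ℂ), PF K b →
      PFP K fun z => monomial k (b z) := fun U K k b hb => by
    simpa only [C_mul_X_pow_eq_monomial] using
      P.mul _ _ _ _ (P.C _ _ _ hb) (P.pow _ _ _ k (P.X U K))
  have ae : ∀ (U τ : Type) (K : Subfield ℂ) (G : MvPolynomial τ ℂ) (h : τ → (U → ℂ) → ℂ[X]),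
      CoM K G → (∀ o, PFP K (h o)) → PFP K fun z => MvPolynomial.aeval (fun o => h o z) G :=
    fun U τ K G h hG hh => by
      simp only [MvPolynomial.aeval_def, MvPolynomial.eval₂_eq]
      exact P.sum _ _ _ _ _ fun d _ => P.mul _ _ _ _ (P.C _ _ _ (F.const _ _ _ (hG d)))
        (P.prod _ _ _ _ _ fun i _ => P.pow _ _ _ _ (hh i))
  refine ⟨ae, fun U τ _ K G h v hG hh hv => ?_, ?_, fun U K D b hb => ?_,
    fun U K D f ε hf hε => ?_, ?_⟩
  · refine P.sum _ _ _ _ _ fun l _ => P.mul _ _ _ _ (ae _ _ _ _ _ (fun m => ?_) hh) (hv l)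
    rw [MvPolynomial.coeff_pderiv]
    exact K.mul_mem (hG _) (K.add_mem (natCast_mem K _) K.one_mem)
  · rintro U K f m D ⟨A, hA⟩ ⟨B, hB⟩ h
    exact ⟨A /ₘ B, fun z => by rw [map_divByMonic _ (PqA.wit hB h).2, ← hA, ← hB]⟩
  · exact P.sum _ _ _ _ _ fun k _ => mon _ _ _ _ (hb k)
  · exact P.sum _ _ _ _ _ fun k _ =>
      mon _ _ _ _ (F.mul _ _ _ _ (P.coeff _ _ _ _ hf) (F.pow _ _ _ _ hε))
  · rintro U K f m D z0 ⟨A, hA⟩ ⟨B, hB⟩ h hc
    obtain ⟨p, q, -, -, e⟩ := exists_mul_add_mul_eq_C_resultant A B (PqA.wit hA h).1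
      (Nat.le_succ _) (.inr (Nat.succ_ne_zero _))
    refine ⟨_, _, _, ⟨p, fun _ => rfl⟩, ⟨q, fun _ => rfl⟩,
      ⟨resultant A B D B.natDegree.succ, fun _ => rfl⟩, ?_, fun z => ?_⟩
    · obtain ⟨k, hk⟩ := Nat.exists_eq_add_of_le
        (show (m z0).natDegree ≤ B.natDegree.succ from hB z0 ▸ natDegree_map_le.trans (Nat.le_succ _))
      have := resultant_map_map A B D B.natDegree.succ
        (MvPolynomial.aeval z0 : MvPolynomial U K →ₐ[K] ℂ).toRingHom
      rw [← hA, ← hB, hk, resultant_add_right_deg _ _ _ _ _ le_rfl, ← (h z0).2,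
        (h z0).1.coeff_natDegree, one_pow, one_mul, ← hk] at this
      exact (h z0).2 ▸ fun e => resultant_ne_zero _ _ hc (this.trans e)
    · rw [hA, hB, ← Polynomial.map_mul, ← Polynomial.map_mul, ← Polynomial.map_add, mul_comm p,
        mul_comm q, e, map_C]
      rfl

end Pool.Agent.MP_776d16_ag.H7W
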