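import Pool.Agent.MP_776d16_ag.H7W.Spec

/-!
Row R1: the dimension bound for a curve whose top coefficient is a generic point.
-/

open Polynomial
open MvPolynomial (pderiv IsWeightedHomogeneous)
open Fintype (card)
open Set (range)

namespace Pool.Agent.MP_776d16_ag.H7W

namespace R1A

theorem crv_dc (hD : SDc) {σ : Type} {w : σ → ℕ} {e : ℕ} {T : σ → ℂ[X]} {y v : σ → ℂ}
    (h : Crv w e T y) (δ : Der) (hv : ∀ i, δ (y i) = v i) : Crv w e (fun i => dc δ (T i)) v :=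
  ⟨fun i => (hD.deg δ (T i)).trans (h.deg i), fun i => by rw [DcA.coeff_dc, h.top, hv]⟩

end R1A

theorem rowR1 : OfR1 := by
  intro hR hD hG hB σ J _ _ w d g ok S c e T y hg hc hT hOn hy
  have hmov : ∀ P : ℂ[X], (∀ δ ∈ Kil S, ∀ i, P ∣ dc δ (T i)) → ∀ v : σ → ℂ,
      (∀ j, ∑ i, jac g y j i * v i = 0) → ∃ ξ, Sec g T P ξ ∧ Crv w e ξ v := by
    intro P hP v hv
    obtain ⟨δ, hδ, hδv⟩ := (hG σ J g ok.sm).mov S y hg hy v hv
    exact ⟨_, hD.sec σ J S δ g c T P hδ hg hc hOn (hP δ hδ), R1A.crv_dc hD hT δ hδv⟩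
  refine ⟨fun P hSm hP0 hPa hP => ?_, fun hsm I _ η hli hker hcrv => ?_⟩
  · obtain ⟨δ, hδ, hind⟩ := hR.ex (S ∪ range y) (cf T) (cf_finite T)
    have hli : LinearIndependent ℂ fun q i => dc (δ q) (T i) := by
      rw [Fintype.linearIndependent_iff]
      intro a ha
      refine congrFun (hind a ?_)
      rintro _ ⟨i, k, rfl⟩
      rw [← hD.lin]
      have h1 := congrFun ha i
      rw [Finset.sum_apply] at h1
      simp only [Pi.smul_apply, Pi.zero_apply] at h1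
      rw [h1, coeff_zero]
    have h := (hB σ J w d g ok c e T y P hSm hT hOn hy.1 hy.2.1 hP0 hPa (hmov P hP) _ _ hli).1
      fun q => ⟨hD.sec σ J S (δ q) g c T P (mem_Kil_union.1 (hδ q)).1 hg hc hOn
        (hP _ (mem_Kil_union.1 (hδ q)).1),
        R1A.crv_dc hD hT (δ q) (mem_Kil_range.1 (mem_Kil_union.1 (hδ q)).2)⟩
    rwa [Fintype.card_fin] at h
  · have h := (hB σ J w d g ok c e T y 1 (fun x _ hx => hsm x hx) hT hOn hy.1 hy.2.1 one_ne_zero
      (fun a ha => absurd ha (by simp)) (hmov 1 fun _ _ _ => one_dvd _) I η hli).1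
      fun q => ⟨⟨hker q, fun _ => one_dvd _, fun a ha => absurd (hsm _ fun j => by
        rw [← eval_aeval, hOn j, eval_C]) ha⟩, hcrv q⟩
    rwa [natDegree_one] at h

end Pool.Agent.MP_776d16_ag.H7W
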