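import Pool.Agent.MP_776d16_ag.H7W.Spec

/-!
Row R2: the dimension bound for curves through a generic point, by inversion of the parameter.
-/

open Polynomial
open Fintype (card)
open Set (range)

namespace Pool.Agent.MP_776d16_ag.H7W

namespace R2A

/-- `X ^ N * f (s + 1 / X)` -/
noncomputable def iv (N : ℕ) (s : ℂ) (f : ℂ[X]) : ℂ[X] := reflect N (f.comp (X + C s))

variable {N : ℕ} {s : ℂ} {f : ℂ[X]}

theorem deg_sh (f : ℂ[X]) (s : ℂ) : (f.comp (X + C s)).natDegree = f.natDegree :=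
  natDegree_taylor f s

theorem deg_iv (h : f.natDegree ≤ N) : (iv N s f).natDegree ≤ N :=
  natDegree_reflect_le.trans (max_le le_rfl ((deg_sh f s).trans_le h))

theorem top_iv (N : ℕ) (s : ℂ) (f : ℂ[X]) : (iv N s f).coeff N = f.eval s := by
  rw [iv, coeff_reflect, revAt_le le_rfl, Nat.sub_self, coeff_zero_eq_eval_zero]
  simp

theorem zero_iv (h : f.natDegree ≤ N) : (iv N s f).eval 0 = f.coeff N := by
  rw [← coeff_zero_eq_eval_zero, iv, coeff_reflect, revAt_zero]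
  rcases h.eq_or_lt with rfl | h
  · exact coeff_taylor_natDegree s f
  · rw [coeff_eq_zero_of_natDegree_lt h, coeff_eq_zero_of_natDegree_lt ((deg_sh f s).trans_lt h)]

theorem eval_iv (h : f.natDegree ≤ N) {a : ℂ} (ha : a ≠ 0) :
    (iv N s f).eval a = 0 ↔ f.eval (a⁻¹ + s) = 0 := by
  have := invertibleOfNonzero (inv_ne_zero ha)
  have h1 := eval₂_reflect_eq_zero_iff (RingHom.id ℂ) a⁻¹ N _ ((deg_sh f s).trans_le h)
  simpa [iv, eval_comp] using h1

theorem iv_eq_zero (h : iv N s f = 0) : f = 0 :=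
  taylor_injective s (((reflect_eq_zero_iff).1 h).trans (map_zero _).symm)

theorem iv_dvd {P : ℂ[X]} (h : f.natDegree ≤ N) (hP : P ≠ 0) (hd : P ∣ f) :
    iv P.natDegree s P ∣ iv N s f := by
  obtain ⟨q, rfl⟩ := hd
  rcases eq_or_ne q 0 with rfl | hq
  · simp [iv]
  rw [natDegree_mul hP hq] at h
  obtain ⟨m, rfl⟩ := Nat.exists_eq_add_of_le (le_of_add_le_left h)
  rw [iv, iv, mul_comp, reflect_mul _ _ (deg_sh P s).le
    ((deg_sh q s).trans_le (Nat.le_of_add_le_add_left h))]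
  exact dvd_mul_right _ _

theorem dc_iv (hDc : SDc) {δ : Der} (h : δ s = 0) (N : ℕ) (f : ℂ[X]) :
    dc δ (iv N s f) = iv N s (dc δ f) := by
  rw [iv, hDc.refl, hDc.shift _ _ _ h, iv]

theorem mul_dvd {P : ℂ[X]} (hP : P.eval 0 ≠ 0) (hd : P ∣ f) (h0 : f.eval 0 = 0) :
    P * (X - C 0) ∣ f := by
  obtain ⟨q, rfl⟩ := hd
  rw [eval_mul] at h0
  exact mul_dvd_mul_left _ (dvd_iff_isRoot.2 ((mul_eq_zero.1 h0).resolve_left hP))

end R2A

open R2A in
theorem rowR2 : OfR2 := by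
  intro hRk hTop hDc hGen hB0 σ J _ _ w d g hOk S e T p s P hg hs hT hOn hp hy hPs hPa hdv
  have hP0 : P ≠ 0 := by
    rintro rfl
    simp at hPs
  obtain ⟨T', hT'⟩ : ∃ T' : σ → ℂ[X], ∀ i, T' i = iv (e * w i) s (T i) := ⟨_, fun _ => rfl⟩
  have hcrv : Crv w e T' (ev T s) :=
    ⟨fun i => hT' i ▸ deg_iv (hT.deg i), fun i => hT' i ▸ top_iv _ _ _⟩
  have hev : ∀ i, (T' i).eval 0 = p i := fun i => by rw [hT', zero_iv (hT.deg i), hT.top]
  have hon : On g 0 T' := fun j => by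
    have h1 := hTop.refl σ w (g j) (d j) e (fun i => (T i).comp (X + C s)) (hOk.hom j)
      fun i => (deg_sh _ _).trans_le (hT.deg i)
    rw [← aeval_comp', hOn j] at h1
    rw [funext hT']
    simpa [iv] using h1
  have hdeg : (iv P.natDegree s P).natDegree = P.natDegree :=
    natDegree_eq_of_le_of_coeff_ne_zero (deg_iv le_rfl) (by rwa [top_iv])
  have hP1 : (iv P.natDegree s P).eval 0 ≠ 0 := by
    rw [zero_iv le_rfl]
    exact leadingCoeff_ne_zero.2 hP0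
  have hP2 : iv P.natDegree s P ≠ 0 := fun h => hP1 (by rw [h, eval_zero])
  have hp' : ev T' 0 ≠ 0 := fun h => hp (funext fun i => (hev i).symm.trans (congrFun h i))
  have hroot : ∀ a, (iv P.natDegree s P).eval a = 0 → ev T' a ≠ 0 := fun a ha h => by
    rcases eq_or_ne a 0 with rfl | h0
    · exact hp' h
    · refine hPa _ ((eval_iv le_rfl h0).1 ha) (funext fun i => ?_)
      refine (eval_iv (hT.deg i) h0).1 ?_
      rw [← hT']
      exact congrFun h i
  have hdv' : ∀ δ ∈ Kil S, ∀ i, iv P.natDegree s P ∣ dc δ (T' i) := fun δ hδ i => by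
    rw [hT', dc_iv hDc (hδ s hs)]
    exact iv_dvd ((hDc.deg _ _).trans (hT.deg i)) hP0 (hdv δ hδ i)
  have hsec : ∀ δ ∈ Kil S, ∀ Q : ℂ[X], (∀ i, Q ∣ dc δ (T' i)) →
      Sec g T' Q fun i => dc δ (T' i) := fun δ hδ Q hQ =>
    hDc.sec σ J (insert 0 S) δ g 0 T' Q
      (fun a ha => ha.elim (fun h => by rw [h, map_zero]) (hδ a))
      (fun j m => Or.inr (hg j m)) (fun _ => Or.inl rfl) hon hQ
  have hdg : ∀ δ i, (dc δ (T' i)).natDegree ≤ e * w i := fun δ i =>
    (hDc.deg _ _).trans (hcrv.deg i)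
  obtain ⟨δ, hδ, hind⟩ := hRk.ex (S ∪ range p) (cf T') (cf_finite T')
  have hli : LinearIndependent ℂ fun q i => dc (δ q) (T' i) := by
    refine Fintype.linearIndependent_iff.2 fun c hc => congrFun (hind c ?_)
    rintro _ ⟨i, k, rfl⟩
    rw [← hDc.lin]
    have h1 := congrFun hc i
    rw [Finset.sum_apply] at h1
    exact (congrArg (fun f => coeff f k) h1).trans (coeff_zero k)
  have hmain := (hB0 σ J w d g hOk 0 e T' (ev T s) _ hOk.sm hcrv hon hy.1 hy.2.1 hP2 hroot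
    (fun v hv => by
      obtain ⟨ξ, h1, h2⟩ := (hGen σ J g hOk.sm).mov S _ hg hy v hv
      exact ⟨_, hsec ξ h1 _ (hdv' ξ h1), hdg ξ, fun i => by rw [DcA.coeff_dc, hcrv.top, h2]⟩)
    _ _ hli).2 0 hp' fun q => by
      obtain ⟨h1, h2⟩ := mem_Kil_union.1 (hδ q)
      refine ⟨hsec _ h1 _ fun i => mul_dvd hP1 (hdv' _ h1 i) ?_, hdg _⟩
      rw [hDc.eval _ _ _ (map_zero _), hev]
      exact mem_Kil_range.1 h2 i
  have hle : rk (S ∪ range p) (cf T) ≤ rk (S ∪ range p) (cf T') := by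
    refine hRk.mono _ _ _ (cf_finite T') fun ξ h1 h2 => ?_
    rintro _ ⟨i, k, rfl⟩
    have h3 : dc ξ (T' i) = 0 := hDc.cop _ _ _ h2 fun k => ⟨i, k, rfl⟩
    rw [hT', dc_iv hDc (h1 s (Or.inl hs))] at h3
    rw [← DcA.coeff_dc, iv_eq_zero h3, coeff_zero]
  rw [hdeg, Fintype.card_fin] at hmain
  unfold Bd at hmain ⊢
  omega

end Pool.Agent.MP_776d16_ag.H7W
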