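import Pool.Agent.MP_776d16_ag.H7W.Spec

/-!
Change of parameter and ramification.
-/

open Polynomial

namespace Pool.Agent.MP_776d16_ag.H7W

namespace RamA

theorem cop (l : Bool) (a b : ℕ) :
    IsCoprime ((X - C (nd (!l))) ^ a) ((X - C (nd l)) ^ b : ℂ[X]) :=
  (isCoprime_X_sub_C_of_isUnit_sub (by cases l <;> simp [nd])).pow

theorem crt (μ n : ℕ) (r : Bool → ℂ[X]) (c : ℂ) : ∃ φ : ℂ[X], φ.Monic ∧ n < φ.natDegree ∧
    φ.eval 2 = c ∧ ∀ l, (X - C (nd l)) ^ μ ∣ φ - r l := by
  obtain ⟨u, v, h⟩ := cop true μ μ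
  obtain ⟨m, hm⟩ : ∃ m : Bool → ℂ[X], ∀ l, m l = (X - C (nd l)) ^ μ := ⟨_, fun _ => rfl⟩
  simp only [← hm, Bool.not_true] at h ⊢
  have mo : (m false * m true).Monic := by
    rw [hm, hm]
    exact ((monic_X_sub_C _).pow _).mul ((monic_X_sub_C _).pow _)
  have m2 : (m false * m true).eval 2 ≠ 0 := by
    norm_num [hm, nd]
  obtain ⟨ψ, hψ⟩ : ∃ ψ, ψ = r true * (u * m false) + r false * (v * m true) := ⟨_, rfl⟩
  obtain ⟨k, hk⟩ : ∃ k, k = (c - ψ.eval 2) / (m false * m true).eval 2 := ⟨_, rfl⟩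
  obtain ⟨N, hN⟩ : ∃ N, N = (ψ + C k * (m false * m true)).natDegree + n := ⟨_, rfl⟩
  have q1 : (m false * m true * ((X - C 2) * X ^ N)).Monic :=
    mo.mul ((monic_X_sub_C _).mul (monic_X_pow _))
  have q2 : N < (m false * m true * ((X - C 2) * X ^ N)).natDegree := by
    rw [mo.natDegree_mul ((monic_X_sub_C _).mul (monic_X_pow _)),
      (monic_X_sub_C _).natDegree_mul (monic_X_pow _), natDegree_X_sub_C, natDegree_X_pow]
    omega
  have q3 : (ψ + C k * (m false * m true)).natDegree <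
      (m false * m true * ((X - C 2) * X ^ N)).natDegree := by omega
  refine ⟨ψ + C k * (m false * m true) + m false * m true * ((X - C 2) * X ^ N),
    q1.add_of_right (degree_lt_degree q3), ?_, ?_, fun l => ?_⟩
  · rw [natDegree_add_eq_right_of_natDegree_lt q3]
    omega
  · rw [eval_add, eval_add, eval_mul, eval_C, hk, div_mul_cancel₀ _ m2]
    simp
  · cases l
    · exact ⟨u * (r true - r false) + (C k + (X - C 2) * X ^ N) * m true, by
        rw [hψ]; linear_combination r false * h⟩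
    · exact ⟨v * (r false - r true) + (C k + (X - C 2) * X ^ N) * m false, by
        rw [hψ]; linear_combination r true * h⟩

theorem comp_top {p φ : ℂ[X]} {N : ℕ} (hp : p.natDegree ≤ N) (hφ : φ.Monic)
    (h0 : 0 < φ.natDegree) : (p.comp φ).natDegree ≤ N * φ.natDegree ∧
      (p.comp φ).coeff (N * φ.natDegree) = p.coeff N := by
  refine ⟨natDegree_comp_le.trans (Nat.mul_le_mul_right _ hp), ?_⟩
  rcases hp.eq_or_lt with rfl | h
  · rw [coeff_comp_degree_mul_degree h0.ne', hφ.leadingCoeff, one_pow, mul_one]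
    rfl
  · rw [coeff_eq_zero_of_natDegree_lt h, coeff_eq_zero_of_natDegree_lt
      (natDegree_comp_le.trans_lt (Nat.mul_lt_mul_of_pos_right h h0))]

theorem eval_reflect {p : ℂ[X]} {N : ℕ} (hp : p.natDegree ≤ N) {x : ℂ} (hx : x ≠ 0) :
    (reflect N p).eval x⁻¹ = x⁻¹ ^ N * p.eval x := by
  have := invertibleOfNonzero hx
  have h := eval₂_reflect_mul_pow (RingHom.id ℂ) x N p hp
  rw [invOf_eq_inv, eval₂_id, eval₂_id] at h
  rw [← h, mul_left_comm, ← mul_pow, inv_mul_cancel₀ hx, one_pow, mul_one]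

end RamA

open RamA in
theorem rowRam : OfRam := by
  intro h1 h2 σ J w d g hg e T y v s a μ e0 hT hO hs hv
  choose t t0 ht using hv
  have sn : ∀ l, s (some l) - s none ≠ 0 := fun l => sub_ne_zero.2 fun h => by simpa using hs h
  have c1 := fun i => comp_top (hT.deg i) (monic_X_add_C (s none)) (by simp)
  simp only [natDegree_X_add_C, mul_one] at c1
  obtain ⟨U, hU⟩ : ∃ U : σ → ℂ[X], U = fun i => reflect (e * w i) ((T i).comp (X + C (s none))) :=
    ⟨_, rfl⟩
  have u1 : ∀ i, (U i).natDegree ≤ e * w i := fun i =>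
    hU ▸ natDegree_reflect_le.trans (max_le le_rfl (c1 i).1)
  have u2 : ∀ i, (U i).coeff (e * w i) = t none ^ w i * v none i := fun i => by
    simpa [hU, coeff_zero_eq_eval_zero, eval_comp, ev, sc] using congrFun (ht none) i
  have u3 : ∀ i, (U i).eval 0 = y i := fun i => by
    rw [← coeff_zero_eq_eval_zero, hU, coeff_reflect, revAt_zero, (c1 i).2, hT.top]
  have u4 : ∀ l i, (U i).eval (s (some l) - s none)⁻¹ =
      ((s (some l) - s none)⁻¹ ^ e * t (some l)) ^ w i * v (some l) i := fun l i => by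
    have h : (T i).eval (s (some l)) = t (some l) ^ w i * v (some l) i := congrFun (ht _) i
    simp only [hU, eval_reflect (c1 i).1 (sn l), eval_comp, eval_add, eval_X, eval_C,
      sub_add_cancel, h, mul_pow, pow_mul, mul_assoc]
  have u5 : On g 0 U := fun j => by
    rw [hU, h1.refl σ w (g j) (d j) e _ (hg j) fun i => (c1 i).1, ← aeval_comp', hO j]
    simp
  obtain ⟨φ, p1, p2, p3, p4⟩ := crt μ 0 (fun l => C (s (some l) - s none)⁻¹) 0
  choose r r' hr using fun l => cop l a μ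
  obtain ⟨f, f1, f2, f3, f4⟩ := crt μ e0
    (fun l => C (t none / ((s (some l) - s none)⁻¹ ^ e * t (some l))) * r l) (t none)
  have c2 := fun i => comp_top (u1 i) p1 p2
  have k1 : Crv w (e * φ.natDegree) (fun i => C (t none)⁻¹ ^ w i * (U i).comp φ) (v none) := by
    refine ⟨fun i => ?_, fun i => ?_⟩ <;> rw [← C_pow, mul_right_comm]
    · exact (natDegree_C_mul_le _ _).trans (c2 i).1
    · rw [coeff_C_mul, (c2 i).2, u2, ← mul_assoc, ← mul_pow, inv_mul_cancel₀ (t0 _), one_pow,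
        one_mul]
  have k2 : On g 0 fun i => C (t none)⁻¹ ^ w i * (U i).comp φ := fun j => by
    rw [h1.scale σ w (g j) (d j) _ _ (hg j), ← aeval_comp', u5 j]
    simp
  obtain ⟨k3, k4⟩ := (h2 σ J w d g hg).mulp _ _ _ f f1 k1 k2
  refine ⟨_, _, by omega, k3, k4, funext fun i => ?_, fun l i => ?_⟩
  · simp only [ev, eval_mul, eval_pow, eval_C, eval_comp, f3, p3, u3]
    rw [← mul_assoc, ← mul_pow, mul_inv_cancel₀ (t0 _), one_pow, one_mul]
  · obtain ⟨κ, hκ⟩ : ∃ κ, κ = (s (some l) - s none)⁻¹ ^ e * t (some l) := ⟨_, rfl⟩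
    have κ0 : κ ≠ 0 := hκ ▸ mul_ne_zero (pow_ne_zero _ (inv_ne_zero (sn l))) (t0 _)
    have a1 : (X - C (nd l)) ^ μ ∣ (X - C (nd (!l))) ^ a * f - C (t none / κ) := by
      obtain ⟨q, hq⟩ := f4 l
      rw [← hκ] at hq
      exact ⟨(X - C (nd (!l))) ^ a * q - C (t none / κ) * r' l, by
        linear_combination (X - C (nd (!l))) ^ a * hq + C (t none / κ) * hr l⟩
    have a2 := a1.trans (sub_dvd_pow_sub_pow _ _ (w i))
    have a3 : (X - C (nd l)) ^ μ ∣ (U i).comp φ - C (κ ^ w i * v (some l) i) := by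
      have := map_dvd (compRingHom φ) (X_sub_C_dvd_sub_C_eval (p := U i)
        (a := (s (some l) - s none)⁻¹))
      simp only [coe_compRingHom_apply, sub_comp, X_comp, C_comp, u4, ← hκ] at this
      exact (p4 l).trans this
    have a4 : (C (t none / κ) ^ w i * C (t none)⁻¹ ^ w i * C (κ ^ w i * v (some l) i) : ℂ[X]) =
        C (v (some l) i) := by
      rw [← C_pow, ← C_pow, ← C_mul, ← C_mul, ← mul_assoc, ← mul_pow, ← mul_pow]
      have := t0 none
      rw [show t none / κ * (t none)⁻¹ * κ = 1 by field_simp, one_pow, one_mul]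
    have a5 := dvd_add (a2.mul_right (C (t none)⁻¹ ^ w i * (U i).comp φ))
      (a3.mul_left (C (t none / κ) ^ w i * C (t none)⁻¹ ^ w i))
    refine a5.trans (dvd_of_eq ?_)
    rw [← a4, pow_mul, mul_pow]
    ring

end Pool.Agent.MP_776d16_ag.H7W
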