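import Pool.Agent.MP_776d16_ag.H7W.Spec

/-!
A right inverse of the Jacobian matrix along a tail, up to a monic polynomial.
-/

open Polynomial
open MvPolynomial (pderiv IsWeightedHomogeneous)

namespace Pool.Agent.MP_776d16_ag.H7W

namespace RinvA

theorem right_inv {σ J : Type} [Fintype σ] [Fintype J] [DecidableEq J] (M : J → σ → ℂ)
    (h : LinearIndependent ℂ M) :
    ∃ B : σ → J → ℂ, ∀ j j', ∑ i, M j i * B i j' = if j = j' then 1 else 0 := by
  classical
  obtain ⟨L, hL⟩ := (Fintype.linearCombination ℂ M).exists_leftInverse_of_injective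
    (LinearMap.ker_eq_bot.2 h.fintypeLinearCombination_injective)
  refine ⟨fun i => L (Pi.single i 1), fun j j' => ?_⟩
  have h1 : L (M j) = Pi.single j 1 := by
    simpa [Fintype.linearCombination_apply_single] using LinearMap.congr_fun hL (Pi.single j 1)
  have h2 : M j = ∑ i, M j i • (Pi.single i 1 : σ → ℂ) := by
    ext i
    simp [Finset.sum_apply, Pi.single_apply]
  rw [h2, map_sum] at h1
  have := congrFun h1 j'
  simpa [Finset.sum_apply, Pi.single_apply, eq_comm] using this

theorem adj_deg {J : Type} [Fintype J] [DecidableEq J] (A : Matrix J J ℂ[X]) (n : J → ℕ)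
    (h : ∀ j j', (A j j').natDegree ≤ n j) (j j' : J) :
    (A.adjugate j' j).natDegree + n j ≤ ∑ l, n l := by
  have h1 := (sTopDet J (A.updateRow j (Pi.single j' 1)) (Function.update n j 0) 0 fun l l' => by
    by_cases e : l = j
    · subst e
      rw [Matrix.updateRow_self, Pi.single_apply]
      split_ifs <;> simp
    · rw [Matrix.updateRow_ne e, Function.update_of_ne e]
      exact h l l').1
  rw [Finset.sum_update_of_mem (Finset.mem_univ j), Finset.sdiff_singleton_eq_erase] at h1
  rw [Matrix.adjugate_apply, ← Finset.add_sum_erase _ _ (Finset.mem_univ j)]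
  simp only [Pi.zero_apply, Finset.sum_const_zero] at h1
  omega

end RinvA

open RinvA in
theorem rowRinv : OfRinv := by
  intro hT hB σ J _ _ _ w d F hF a T v ha hv hf hc
  obtain ⟨B, h0⟩ := right_inv _ (hF.ok.sm v hv hf)
  have h1 : Crv (pt 1 w) a (pt 1 T) (pt 0 v) :=
    ⟨fun o => by
      cases o with
      | none => simp [pt]
      | some i => exact hc.deg i, fun o => by
      cases o with
      | none => simp [pt, coeff_one, ha.ne']
      | some i => exact hc.top i⟩
  let A : Matrix J J ℂ[X] := Matrix.of fun j j' =>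
    ∑ i, MvPolynomial.aeval (pt 1 T) (pderiv (some i) (F j)) * (C (B i j') * X ^ (a * w i))
  have h2 : ∀ j j', (A j j').natDegree ≤ a * d j ∧
      (A j j').coeff (a * d j) = if j = j' then 1 else 0 := fun j j' => by
    have := hT.dtop (Option σ) (pt 1 w) (F j) (d j) a 0 (pt 1 T)
      (pt 0 fun i => C (B i j') * X ^ (a * w i)) (pt 0 v) (hF.hom j) h1 fun o => by
        cases o with
        | none => simp [pt]
        | some i => exact natDegree_C_mul_X_pow_le _ _
    have e : dP (F j) (pt 1 T) (pt 0 fun i => C (B i j') * X ^ (a * w i)) = A j j' := by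
      simp [dP, pt, A]
    rw [e, add_zero, Fintype.sum_option] at this
    refine ⟨this.1, this.2.trans ?_⟩
    rw [← h0 j j']
    simp [pt, jac, hB.der, hB.eval]
  obtain ⟨h3, h4⟩ := sTopDet J A (fun j => a * d j) 0 fun j j' => (h2 j j').1
  simp only [Pi.zero_apply, Finset.sum_const_zero, add_zero, ← Finset.mul_sum] at h3 h4
  rw [show (Matrix.of fun i j => (A i j).coeff (a * d i)) = 1 from
    Matrix.ext fun j j' => (h2 j j').2.trans (Matrix.one_apply).symm, Matrix.det_one] at h4
  have h5 := monic_of_natDegree_le_of_coeff_eq_one _ h3 h4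
  have h6 := natDegree_eq_of_le_of_coeff_ne_zero h3 (h4 ▸ one_ne_zero)
  refine ⟨X * A.det, fun i j => X * ∑ j', C (B i j') * X ^ (a * w i) * A.adjugate j' j,
    monic_X.mul h5, by rw [monic_X.natDegree_mul h5, natDegree_X, h6, add_comm], by simp,
    fun i j => ?_, fun j j' => ?_⟩
  · have h7 : (∑ j', C (B i j') * X ^ (a * w i) * A.adjugate j' j).natDegree ≤
        a * w i + (a * ∑ j, d j - a * d j) := natDegree_sum_le_of_forall_le _ _ fun j' _ => by
      have h8 := adj_deg A (fun j => a * d j) (fun j j' => (h2 j j').1) j j'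
      rw [← Finset.mul_sum] at h8
      refine natDegree_mul_le.trans (add_le_add (natDegree_C_mul_X_pow_le _ _) ?_)
      omega
    have h8 : a * d j ≤ a * ∑ j, d j := Nat.mul_le_mul_left _
      (Finset.single_le_sum (fun _ _ => Nat.zero_le _) (Finset.mem_univ j))
    refine natDegree_mul_le.trans ?_
    rw [natDegree_X]
    omega
  · have h7 := congrFun (congrFun (Matrix.mul_adjugate A) j) j'
    rw [Matrix.mul_apply, Matrix.smul_apply, Matrix.one_apply, smul_eq_mul] at h7
    rw [show (if j = j' then X * A.det else 0) = X * (A.det * if j = j' then 1 else 0) by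
      split_ifs <;> simp, ← h7]
    simp only [A, Matrix.of_apply, Finset.mul_sum, Finset.sum_mul]
    rw [Finset.sum_comm]
    exact Finset.sum_congr rfl fun _ _ => Finset.sum_congr rfl fun _ _ => by ring

end Pool.Agent.MP_776d16_ag.H7W

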