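import Pool.Agent.MP_776d16_ag.H7W.Spec

/-!
Ranks of finite sets with respect to derivations.
-/

open Fintype (card)
open Set (range)
open Module (finrank)

namespace Pool.Agent.MP_776d16_ag.H7W

namespace RkA

section Lin

variable {V W W' : Type} [AddCommGroup V] [Module ℂ V] [AddCommGroup W] [Module ℂ W]
  [AddCommGroup W'] [Module ℂ W']

theorem cmp [Module.Finite ℂ W] (P : Submodule ℂ V) (f : V →ₗ[ℂ] W) (g : V →ₗ[ℂ] W')
    (h : ∀ v ∈ P, f v = 0 → g v = 0) : finrank ℂ (P.map g) ≤ finrank ℂ (P.map f) := by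
  have hk : LinearMap.ker (f.domRestrict P) ≤ LinearMap.ker (g.domRestrict P) :=
    fun v hv => h v v.2 hv
  have e := (f.domRestrict P).quotKerEquivRange
  have : Module.Finite ℂ (P ⧸ LinearMap.ker (f.domRestrict P)) := Module.Finite.equiv e.symm
  rw [← LinearMap.range_domRestrict, ← LinearMap.range_domRestrict, ← e.finrank_eq,
    ← Submodule.range_liftQ _ _ hk]
  exact LinearMap.finrank_range_le _

theorem null [Module.Finite ℂ W] (P : Submodule ℂ V) (f : V →ₗ[ℂ] W) (φ : W →ₗ[ℂ] W') :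
    finrank ℂ (P.map f) =
      finrank ℂ (P.map (φ ∘ₗ f)) + finrank ℂ ((P ⊓ LinearMap.ker (φ ∘ₗ f)).map f) := by
  have e : (P ⊓ LinearMap.ker (φ ∘ₗ f)).map f = P.map f ⊓ LinearMap.ker φ := by
    rw [LinearMap.ker_comp, Submodule.map_inf_eq_map_inf_comap]
  rw [← (φ.domRestrict (P.map f)).finrank_range_add_finrank_ker, LinearMap.range_domRestrict,
    Submodule.map_comp, LinearMap.ker_domRestrict, e, ← Submodule.map_comap_subtype,
    Submodule.finrank_map_subtype_eq]

end Lin

/-- Evaluation at a family. -/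
noncomputable def evl {U : Type} (z : U → ℂ) : Der →ₗ[ℂ] (U → ℂ) where
  toFun δ u := δ (z u)
  map_add' _ _ := rfl
  map_smul' _ _ := rfl

theorem res_zero {A : Set ℂ} {δ : Der} : res A δ = 0 ↔ δ ∈ Kil A :=
  ⟨fun h a ha => congrFun h ⟨a, ha⟩, fun h => funext fun a => h a a.2⟩

theorem le_evl {U : Type} [Fintype U] (S : Set ℂ) (z : U → ℂ) :
    rk S (range z) ≤ finrank ℂ ((Kil S).map (evl z)) :=
  cmp _ _ _ fun _ _ h => res_zero.2 (mem_Kil_range.2 (congrFun h))

theorem mono (S A B : Set ℂ) (hA : A.Finite) (h : ∀ δ ∈ Kil S, δ ∈ Kil A → δ ∈ Kil B) :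
    rk S B ≤ rk S A :=
  have := hA.to_subtype
  cmp _ _ _ fun δ h1 h2 => res_zero.2 (h δ h1 (res_zero.1 h2))

theorem anti (S S' A : Set ℂ) (hA : A.Finite) (h : ∀ δ ∈ Kil S', δ ∈ Kil S) :
    rk S' A ≤ rk S A :=
  have := hA.to_subtype
  Submodule.finrank_mono (Submodule.map_mono h)

theorem tower (S A B : Set ℂ) (hA : A.Finite) (hB : B.Finite) :
    rk S (A ∪ B) = rk S A + rk (S ∪ A) B := by
  have := (hA.union hB).to_subtype
  have h1 := null (Kil S) (res (A ∪ B))
    (LinearMap.funLeft ℂ ℂ (Set.inclusion (Set.subset_union_left : A ⊆ A ∪ B)))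
  have e : LinearMap.funLeft ℂ ℂ (Set.inclusion (Set.subset_union_left : A ⊆ A ∪ B)) ∘ₗ
      res (A ∪ B) = res A := rfl
  have e' : Kil S ⊓ LinearMap.ker (res A) = Kil (S ∪ A) := Submodule.ext fun δ => by
    rw [Submodule.mem_inf, LinearMap.mem_ker, res_zero, mem_Kil_union]
  rw [e, e'] at h1
  refine h1.trans (congrArg _ (le_antisymm ?_ ?_))
  · exact mono _ B (A ∪ B) hB fun δ h2 h3 => mem_Kil_union.2 ⟨(mem_Kil_union.1 h2).2, h3⟩
  · exact mono _ (A ∪ B) B (hA.union hB) fun δ _ h3 => (mem_Kil_union.1 h3).2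

theorem ge (S A : Set ℂ) (I : Type) [Fintype I] (δ : I → Der) (hA : A.Finite)
    (h1 : ∀ q, δ q ∈ Kil S) (h2 : ∀ c : I → ℂ, (∀ x ∈ A, ∑ q, c q * δ q x = 0) → c = 0) :
    card I ≤ rk S A := by
  have := hA.to_subtype
  refine LinearIndependent.fintype_card_le_finrank
    (b := fun q => (⟨res A (δ q), Submodule.mem_map_of_mem (h1 q)⟩ : (Kil S).map (res A)))
    (Fintype.linearIndependent_iff.2 fun c hc => congrFun (h2 c fun x hx => ?_))
  have h3 := congrFun (congrArg Subtype.val hc) ⟨x, hx⟩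
  rw [Submodule.coe_sum, Finset.sum_apply] at h3
  exact h3

theorem ex (S A : Set ℂ) (hA : A.Finite) : ∃ δ : Fin (rk S A) → Der, (∀ q, δ q ∈ Kil S) ∧
    ∀ c : Fin (rk S A) → ℂ, (∀ x ∈ A, ∑ q, c q * δ q x = 0) → c = 0 := by
  have := hA.to_subtype
  let b := Module.finBasis ℂ ((Kil S).map (res A))
  choose δ h1 h2 using fun q => (b q).2
  refine ⟨δ, h1, fun c hc => funext (Fintype.linearIndependent_iff.1 b.linearIndependent c
    (Subtype.ext (funext fun x => ?_)))⟩
  rw [Submodule.coe_sum, Finset.sum_apply]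
  refine Eq.trans (Finset.sum_congr rfl fun q _ => ?_) (hc x x.2)
  rw [Submodule.coe_smul, ← h2]
  rfl

theorem sum (S : Set ℂ) (L : Type) (A : L → Set ℂ) (hA : ∀ l, (A l).Finite) (s : Finset L) :
    rk S (⋃ l ∈ s, A l) ≤ ∑ l ∈ s, rk S (A l) := by
  classical
  induction s using Finset.induction_on with
  | empty =>
    rw [Finset.sum_empty]
    have := le_evl S (Empty.elim : Empty → ℂ)
    have h1 := Submodule.finrank_le ((Kil S).map (evl (Empty.elim : Empty → ℂ)))
    rw [Module.finrank_fintype_fun_eq_card, Fintype.card_eq_zero] at h1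
    simpa [Set.range_eq_empty] using this.trans h1
  | insert l s hl ih =>
    have hs : (⋃ l ∈ s, A l).Finite := s.finite_toSet.biUnion fun l _ => hA l
    rw [Finset.set_biUnion_insert, Finset.sum_insert hl, tower S _ _ (hA l) hs]
    exact Nat.add_le_add_left ((anti S _ _ hs fun δ h => (mem_Kil_union.1 h).1).trans ih) _

end RkA

open RkA in
theorem rowRk : OfRk := by
  refine ⟨fun U _ S z => ?_, mono, anti, tower, ge, ex, fun S L _ A hA => ?_,
    fun U _ S z h γ => ?_, fun S hS => ?_, fun I _ S hS => ?_⟩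
  · exact (le_evl S z).trans ((Submodule.finrank_le _).trans_eq
      (Module.finrank_fintype_fun_eq_card ℂ))
  · simpa using sum S L A hA Finset.univ
  · have e : (Kil S).map (evl z) = ⊤ := Submodule.eq_top_of_finrank_eq (le_antisymm
      (Submodule.finrank_le _) ((Module.finrank_fintype_fun_eq_card ℂ).trans_le
        (h.trans (le_evl S z))))
    obtain ⟨δ, h1, h2⟩ : γ ∈ (Kil S).map (evl z) := e ▸ Submodule.mem_top
    exact ⟨δ, h1, congrFun h2⟩
  · refine ⟨Subfield.closure S, Cardinal.le_aleph0_iff_set_countable.1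
      ((Subfield.cardinalMk_closure_le_max S).trans
        (max_le (Cardinal.le_aleph0_iff_set_countable.2 hS) le_rfl)), Subfield.subset_closure,
      fun δ hδ a ha => ?_⟩
    induction ha using Subfield.closure_induction with
    | mem x hx => exact hδ x hx
    | one => exact δ.map_one_eq_zero
    | add x y _ _ hx hy => rw [map_add, hx, hy, add_zero]
    | neg x _ hx => rw [map_neg, hx, neg_zero]
    | inv x _ hx => rw [Derivation.leibniz_inv, hx, smul_zero]
    | mul x y _ _ hx hy => rw [Derivation.leibniz, hx, hy, smul_zero, smul_zero, add_zero]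
  · classical
    obtain ⟨c, hc⟩ := sFree I S hS
    choose δ h1 h2 using fun q : I => hc (Pi.single q 1)
    refine ⟨c, ge S _ I δ (Set.finite_range c) h1 fun a ha => funext fun i => ?_⟩
    simpa [h2, Pi.single_apply] using ha (c i) ⟨i, rfl⟩

end Pool.Agent.MP_776d16_ag.H7W
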