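import Pool.Agent.MP_776d16_ag.H7W.Spec

/-!
Row SlA: a linear form which is constant on the slopes of the lines through a generic point
vanishes on the tangent space.
-/

open Polynomial
open MvPolynomial (pderiv IsWeightedHomogeneous)
open Fintype (card)
open Set (range)

namespace Pool.Agent.MP_776d16_ag.H7W

namespace SlAA

theorem coeff_cv {σ : Type} (w : σ → ℕ) (p : σ → ℂ) (z : (Σ i, Fin (w i)) → ℂ) (i : σ) (k : ℕ) :
    (cv w p z i).coeff k =
      (if k = w i then p i else 0) + if h : k < w i then z ⟨i, ⟨k, h⟩⟩ else 0 := by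
  rw [cv, coeff_add, coeff_C_mul_X_pow, coeff_pol]

theorem coeff_cv_lt {σ : Type} (w : σ → ℕ) (p : σ → ℂ) (z : (Σ i, Fin (w i)) → ℂ)
    (u : Σ i, Fin (w i)) : (cv w p z u.1).coeff u.2 = z u := by
  rw [coeff_cv, if_neg u.2.2.ne, dif_pos u.2.2, zero_add]

theorem crv_cv {σ : Type} (w : σ → ℕ) (p : σ → ℂ) (z : (Σ i, Fin (w i)) → ℂ) :
    Crv w 1 (cv w p z) p where
  deg i := by
    rw [one_mul]
    refine natDegree_le_iff_coeff_eq_zero.2 fun k hk => ?_
    rw [coeff_cv, if_neg hk.ne', dif_neg (not_lt.2 hk.le), add_zero]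
  top i := by
    rw [one_mul, coeff_cv, if_pos rfl, dif_neg (lt_irrefl _), add_zero]

theorem eq_of_low {f : ℂ[X]} {n : ℕ} {c : ℂ} (hn : 0 < n) (h1 : f.natDegree ≤ n)
    (h2 : f.coeff n = 0) (h3 : ∀ k, k < n → f.coeff k = if k = 0 then c else 0) : f = C c := by
  ext k
  rw [coeff_C]
  rcases lt_trichotomy k n with h | h | h
  · exact h3 k h
  · rw [h, h2, if_neg hn.ne']
  · rw [coeff_eq_zero_of_natDegree_lt (h1.trans_lt h), if_neg (by omega)]

theorem on_cv (top : STop) {σ J : Type} {w : σ → ℕ} {d : J → ℕ} {g : J → MvPolynomial σ ℂ}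
    (hd : ∀ j, 0 < d j) (hom : ∀ j, IsWeightedHomogeneous w (g j) (d j)) {p : σ → ℂ}
    (hp : Fib g 0 p) (c : J → ℂ) (z : (Σ i, Fin (w i)) → ℂ)
    (h : ∀ q : Σ j, Fin (d j), (MvPolynomial.aeval (cv w p z) (g q.1)).coeff q.2 =
      if (q.2 : ℕ) = 0 then c q.1 else 0) : On g c (cv w p z) := by
  intro j
  obtain ⟨h1, h2⟩ := top.top σ w (g j) (d j) 1 _ p (hom j) (crv_cv w p z)
  rw [one_mul] at h1 h2
  exact eq_of_low (hd j) h1 (h2.trans (hp j)) fun k hk => h ⟨j, ⟨k, hk⟩⟩

theorem dP_cv (top : STop) {σ J : Type} [Fintype σ] {w : σ → ℕ} {d : J → ℕ}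
    {g : J → MvPolynomial σ ℂ} (hd : ∀ j, 0 < d j)
    (hom : ∀ j, IsWeightedHomogeneous w (g j) (d j)) (p : σ → ℂ) (z η : (Σ i, Fin (w i)) → ℂ)
    (h : ∀ q : Σ j, Fin (d j), (dP (g q.1) (cv w p z) (cv w 0 η)).coeff q.2 = 0) (j : J) :
    dP (g j) (cv w p z) (cv w 0 η) = 0 := by
  have hc := crv_cv w 0 η
  obtain ⟨h1, h2⟩ := top.dtop σ w (g j) (d j) 1 0 _ (cv w 0 η) p (hom j) (crv_cv w p z)
    fun o => by rw [add_zero]; exact hc.deg o
  have h3 : ∀ o, (cv w 0 η o).coeff (1 * w o + 0) = 0 := fun o => by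
    rw [add_zero]; exact hc.top o
  simp only [h3, mul_zero, Finset.sum_const_zero] at h2
  rw [one_mul, add_zero] at h1 h2
  have := eq_of_low (c := 0) (hd j) h1 h2 fun k hk => by
    rw [ite_self]; exact h ⟨j, ⟨k, hk⟩⟩
  rw [this, C_0]

theorem dc_cv {σ : Type} (w : σ → ℕ) (p : σ → ℂ) (z : (Σ i, Fin (w i)) → ℂ) (δ : Der)
    (hp : ∀ i, δ (p i) = 0) : (fun i => dc δ (cv w p z i)) = cv w 0 fun u => δ (z u) := by
  funext i
  ext k
  rw [DcA.coeff_dc, coeff_cv, coeff_cv, map_add]
  congr 1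
  · split_ifs
    · exact hp i
    · exact map_zero δ
  · split_ifs
    · rfl
    · exact map_zero δ

theorem indep {σ R : Type} [Fintype R] [DecidableEq R] (w : σ → ℕ)
    (ξ : Option R → (Σ i, Fin (w i)) → ℂ) [Fintype (Σ i, Fin (w i))]
    (M : R → (Σ i, Fin (w i)) → ℂ) (h0 : ξ none ≠ 0) (h1 : ∀ q, ∑ u, M q u * ξ none u = 0)
    (h2 : ∀ q q', ∑ u, M q u * ξ (some q') u = if q = q' then 1 else 0) :
    LinearIndependent ℂ fun o => cv w 0 (ξ o) := by
  rw [Fintype.linearIndependent_iff]
  intro t ht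
  have hu : ∀ u, ∑ o, t o * ξ o u = 0 := fun u => by
    have := congrArg (fun f : σ → ℂ[X] => (f u.1).coeff u.2) ht
    simpa only [Finset.sum_apply, Pi.smul_apply, finsetSum_coeff, coeff_smul, coeff_cv_lt,
      smul_eq_mul, Pi.zero_apply, coeff_zero] using this
  have hs : ∀ q, t (some q) = 0 := fun q => by
    have e1 : ∑ u, M q u * ∑ o, t o * ξ o u = 0 := by simp only [hu, mul_zero, Finset.sum_const_zero]
    have e2 : ∑ u, M q u * ∑ o, t o * ξ o u = ∑ o, t o * ∑ u, M q u * ξ o u := by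
      simp only [Finset.mul_sum]
      rw [Finset.sum_comm]
      exact Finset.sum_congr rfl fun o _ => Finset.sum_congr rfl fun u _ => by ring
    rw [e2, Fintype.sum_option, h1, mul_zero, zero_add] at e1
    simpa [h2] using e1
  have hn : t none = 0 := by
    by_contra hne
    refine h0 (funext fun u => ?_)
    have := hu u
    rw [Fintype.sum_option] at this
    simp only [hs, zero_mul, Finset.sum_const_zero, add_zero] at this
    exact (mul_eq_zero.1 this).resolve_left hne
  rintro (_ | q)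
  · exact hn
  · exact hs q

end SlAA

open SlAA in
theorem rowSlA : OfSlA := by
  intro rkk top hdc gen r1 norm sop hjac σ J _ _ w d g ok S p c hS hg hp hc lam l H v hv
  classical
  obtain ⟨E, E1, E2, E3, E4⟩ := hjac σ J w d g p ok.wpos ok.hom hp.2.1
  have kit := gen σ J g ok.sm
  obtain ⟨r, hr⟩ : ∃ r, r + ∑ j, d j = ∑ i, w i := ⟨_, Nat.sub_add_cancel ok.fano.le⟩
  let ω : (Σ i, Fin (w i)) → ℕ := fun u => w u.1 - u.2
  have hω : ∀ u, 0 < ω u := fun u => Nat.sub_pos_of_lt u.2.2
  have hW : 1 < (∑ i, w i + 1).factorial := Nat.one_lt_factorial.2 (by have := ok.fano; omega)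
  have hS0 : ∀ δ : Der, δ ∈ Kil S → δ ∈ Kil (insert 0 S) := fun δ h a ha => by
    rcases ha with rfl | ha
    · exact map_zero δ
    · exact h a ha
  have hp0 : Gen (insert 0 S) g p :=
    ⟨hp.1, hp.2.1, hp.2.2.trans (Nat.add_le_add_right
      (rkk.anti (insert 0 S) S _ (Set.finite_range p) hS0) _)⟩
  obtain ⟨h, hh, hz⟩ := sop (Σ i, Fin (w i)) ω (∑ i, w i + 1).factorial r (insert 0 S ∪ range p)
    {z | Fib E 0 z} (by omega)
    (fun u => Nat.dvd_factorial (hω u) (by
      have := Finset.single_le_sum (f := w) (fun i _ => Nat.zero_le _) (Finset.mem_univ u.1)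
      simp only [ω]
      omega))
    ((hS.insert 0).union (Set.countable_range p))
    (fun z hz t _ q => by
      rw [top.scale0 _ ω (E q) _ t z (E3 q), hz q, Pi.zero_apply, mul_zero])
    (fun z hz => by
      have on : On g 0 (cv w p z) := on_cv top ok.dpos ok.hom hp.2.1 0 z fun q => by
        rw [← E1, hz q, Pi.zero_apply, Pi.zero_apply, ite_self]
      have b1 := (r1 σ J w d g ok (insert 0 S) 0 1 _ p
        (fun j m => Set.mem_insert_of_mem _ (hg j m)) (fun _ => Set.mem_insert _ _)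
        (crv_cv w p z) on hp0).1 1 ok.sm one_ne_zero (fun a ha => by simp at ha)
        fun _ _ _ => one_dvd _
      have b2 := rkk.mono (insert 0 S ∪ range p) (cf (cv w p z)) (range z) (cf_finite _)
        fun δ _ hδ => mem_Kil_range.2 fun u => hδ _ ⟨u.1, u.2, (coeff_cv_lt w p z u).symm⟩
      simp only [Bd, natDegree_one, mul_zero, add_zero, one_mul] at b1
      omega)
  let S' : Set ℂ := S ∪ range p ∪ range c ∪ ⋃ q, range fun m => MvPolynomial.coeff m (h q)
  have hS' : S'.Countable :=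
    ((hS.union (Set.countable_range p)).union (Set.countable_range c)).union
      (Set.countable_iUnion fun q => Set.countable_range _)
  obtain ⟨a0, ha0⟩ := sFree (Fin r) S' hS'
  choose δ hδ1 hδ2 using fun q : Fin r => ha0 fun q' => if q' = q then 1 else 0
  let top' : σ → Σ i, Fin (w i) := fun i => ⟨i, ⟨w i - 1, Nat.sub_lt (ok.wpos i) one_pos⟩⟩
  have hon : ∀ z, Fib (Sum.elim E h)
      (Sum.elim (fun q : Σ j, Fin (d j) => if (q.2 : ℕ) = 0 then c q.1 else 0) a0) z →
      On g c (cv w p z) := fun z hz =>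
    on_cv top ok.dpos ok.hom hp.2.1 c z fun q => by rw [← E1]; exact hz (Sum.inl q)
  have key := norm (Σ i, Fin (w i)) ((Σ j, Fin (d j)) ⊕ Fin r) ω
    (Sum.elim (fun q => d q.1 - q.2) fun _ => (∑ i, w i + 1).factorial) (Sum.elim E h)
    (Sum.elim (fun q => if (q.2 : ℕ) = 0 then c q.1 else 0) a0)
    (∑ i, MvPolynomial.C (lam i) * MvPolynomial.X (top' i)) l
    (by simp only [Fintype.card_sum, Fintype.card_sigma, Fintype.card_fin]; omega) hω
    (by
      rintro (q | q)
      · exact Nat.sub_pos_of_lt q.2.2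
      · exact Nat.factorial_pos _)
    (by
      rintro (q | q)
      · exact E3 q
      · exact hh q)
    (fun z hz' => hz z (fun q => hz' (Sum.inl q)) fun q => hz' (Sum.inr q))
    (fun z hz' η hη => by
      by_contra hne
      have on := hon z hz'
      let ξ : Option (Fin r) → (Σ i, Fin (w i)) → ℂ := fun o => o.elim η fun q u => δ q (z u)
      have hcj := hc.trans (rkk.anti S (S ∪ range p) _ (Set.finite_range c)
        fun δ hδ => (mem_Kil_union.1 hδ).1)
      have li : LinearIndependent ℂ fun o => cv w 0 (ξ o) :=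
        indep w ξ (jac h z) hne (fun q => hη (Sum.inr q)) fun q q' => by
          have e1 := hdc.der _ S' (δ q') (h q) z (hδ1 q')
            fun m => Or.inr (Set.mem_iUnion.2 ⟨q, m, rfl⟩)
          have e2 : MvPolynomial.eval z (h q) = a0 q := hz' (Sum.inr q)
          rw [e2, hδ2] at e1
          exact e1.symm
      have b1 := (r1 σ J w d g ok (S ∪ range c) c 1 _ p (fun j m => Or.inl (hg j m))
        (fun j => Or.inr ⟨j, rfl⟩) (crv_cv w p z) on (kit.ext S p J c hp hc)).2
        (kit.smc S c hg hcj) (Option (Fin r)) _ li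
        (by
          rintro (_ | q) j
          · exact dP_cv top ok.dpos ok.hom p z η (fun q => by
              rw [← E2]; exact hη (Sum.inl q)) j
          · have e1 := (hdc.sec σ J S' (δ q) g c _ 1 (hδ1 q)
              (fun j m => Or.inl (Or.inl (Or.inl (hg j m)))) (fun j => Or.inl (Or.inr ⟨j, rfl⟩))
              on fun _ => one_dvd _).ker j
            rw [dc_cv w p z (δ q) fun i => hδ1 q _ (Or.inl (Or.inl (Or.inr ⟨i, rfl⟩)))] at e1
            exact e1)
        fun o => crv_cv w 0 _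
      simp only [Bd, mul_zero, add_zero, one_mul, Fintype.card_option, Fintype.card_fin] at b1
      omega)
    (IsWeightedHomogeneous.sum _ _ _ fun i _ => by
      have e1 := (MvPolynomial.isWeightedHomogeneous_C ω (lam i)).mul
        (MvPolynomial.isWeightedHomogeneous_X ℂ ω (top' i))
      have e2 : 0 + ω (top' i) = 1 := by
        have := ok.wpos i
        simp only [ω, top']
        omega
      rwa [e2] at e1)
    (fun z hz' => by
      have e1 := H (fun i => pol fun k => z ⟨i, k⟩)
        (fun i => by rw [one_mul]; exact degree_pol _)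
        (by
          have : tooth w 1 p (fun i => pol fun k => z ⟨i, k⟩) = cv w p z := by
            funext i
            rw [tooth, cv, one_mul]
          rw [this]
          exact hon z hz')
      rw [← e1, map_sum]
      refine Finset.sum_congr rfl fun i _ => ?_
      rw [map_mul, MvPolynomial.eval_C, MvPolynomial.eval_X, slope, coeff_pol,
        dif_pos (Nat.sub_lt (ok.wpos i) one_pos)])
    (fun u => if (u.2 : ℕ) + 1 = w u.1 then v u.1 else 0)
    (by
      rintro (q | q) hq
      · exact E4 v hv q hq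
      · exact absurd hq hW.ne')
  rw [← key, map_sum]
  refine Finset.sum_congr rfl fun i _ => ?_
  have e1 : ((top' i).2 : ℕ) + 1 = w (top' i).1 := Nat.sub_add_cancel (ok.wpos i)
  rw [map_mul, MvPolynomial.eval_C, MvPolynomial.eval_X, if_pos e1]

end Pool.Agent.MP_776d16_ag.H7W
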