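import Pool.Agent.MP_776d16_ag.H7W.Spec

/-!
Lines with independent slopes.
-/

open Polynomial Module
open Fintype (card)

namespace Pool.Agent.MP_776d16_ag.H7W

namespace SlopeA

theorem key {σ : Type} [Fintype σ] (B : Set (σ → ℂ)) (T : Submodule ℂ (σ → ℂ)) (hT : T ≠ ⊥)
    (H : ∀ (lam : σ → ℂ) (l : ℂ), (∀ s ∈ B, ∑ i, lam i * s i = l) →
      ∀ v ∈ T, ∑ i, lam i * v i = 0) :
    ∃ s : Fin (finrank ℂ T + 1) → σ → ℂ, (∀ l, s l ∈ B) ∧
      LinearIndependent ℂ fun l => pt (1 : ℂ) (s l) := by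
  classical
  let ι : (σ → ℂ) →ₗ[ℂ] (Option σ → ℂ) :=
    ⟨⟨pt 0, fun _ _ => funext fun o => by cases o <;> simp [pt]⟩,
      fun _ _ => funext fun o => by cases o <;> simp [pt]⟩
  have hι : Function.Injective ι := fun _ _ h => funext fun i => congrFun h (some i)
  have h1 : T.map ι ≤ Submodule.span ℂ (pt 1 '' B) := by
    rintro _ ⟨v, hv, rfl⟩
    by_contra h
    obtain ⟨f, f1, f2⟩ := Submodule.exists_dual_map_eq_bot_of_notMem h inferInstance
    have e : ∀ t x, f (pt t x) = t * f (fun j => if none = j then 1 else 0) +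
        ∑ i, f (fun j => if some i = j then 1 else 0) * x i := fun t x => by
      rw [LinearMap.pi_apply_eq_sum_univ, Fintype.sum_option]
      simp only [pt, Option.elim, smul_eq_mul, mul_comm]
    refine f1 ((e 0 v).trans ?_)
    rw [zero_mul, zero_add]
    refine H _ (-f fun j => if none = j then 1 else 0) (fun s hs => ?_) v hv
    have : f (pt 1 s) = 0 :=
      (Submodule.mem_bot ℂ).1 (f2 ▸ Submodule.mem_map_of_mem (Submodule.subset_span ⟨s, hs, rfl⟩))
    linear_combination this - e 1 s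
  have h2 : finrank ℂ T + 1 ≤ finrank ℂ (Submodule.span ℂ (pt (1 : ℂ) '' B)) := by
    rw [(Submodule.equivMapOfInjective ι hι T).finrank_eq]
    refine Submodule.finrank_lt_finrank_of_lt (lt_of_le_of_ne h1 fun h => ?_)
    rcases B.eq_empty_or_nonempty with rfl | ⟨s, hs⟩
    · rw [Set.image_empty, Submodule.span_empty, ← Submodule.map_bot ι] at h
      exact hT (Submodule.map_injective_of_injective hι h)
    · obtain ⟨v, -, e⟩ : pt 1 s ∈ T.map ι := h ▸ Submodule.subset_span ⟨s, hs, rfl⟩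
      exact zero_ne_one (congrFun e none)
  obtain ⟨f, f1, -, f2⟩ := Submodule.exists_fun_fin_finrank_span_eq ℂ (pt (1 : ℂ) '' B)
  choose s s1 s2 using f1
  refine ⟨fun l => s (Fin.castLE h2 l), fun l => s1 _, ?_⟩
  simp only [s2]
  exact f2.comp _ (Fin.castLE_injective h2)

end SlopeA

theorem rowSlope : OfSlope := by
  intro T A σ J _ _ w d g ok S p c h1 h2 h3 h4
  have mem : ∀ v, v ∈ LinearMap.ker (Matrix.of (jac g p)).mulVecLin ↔
      ∀ j, ∑ i, jac g p j i * v i = 0 := fun v => funext_iff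
  obtain ⟨s, s1, s2⟩ := SlopeA.key
    (slope w '' {b | (∀ i, (b i).degree < (1 * w i : ℕ)) ∧ On g c (tooth w 1 p b)})
    (LinearMap.ker (Matrix.of (jac g p)).mulVecLin) (fun h => h3.1 (funext fun i => by
      have : (fun i => (w i : ℂ) * p i) = 0 := (Submodule.mem_bot ℂ).1 (h ▸ (mem _).2 fun j =>
        (T.euler σ w (g j) (d j) p (ok.hom j)).trans (by rw [h3.2.1 j]; simp))
      exact (mul_eq_zero.1 (congrFun this i)).resolve_left (Nat.cast_ne_zero.2 (ok.wpos i).ne')))
    fun lam l h v hv => A σ J w d g ok S p c h1 h2 h3 h4 lam l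
      (fun b b1 b2 => h _ ⟨b, ⟨b1, b2⟩, rfl⟩) v ((mem v).1 hv)
  choose b b1 b2 using s1
  refine ⟨_, b, ?_, fun l => (b1 l).1, fun l => (b1 l).2, by simpa only [b2] using s2⟩
  rw [← LinearIndependent.rank_matrix (M := Matrix.of (jac g p)) (ok.sm p h3.1 h3.2.1), add_comm,
    Matrix.rank, LinearMap.finrank_range_add_finrank_ker, finrank_fintype_fun_eq_card]

end Pool.Agent.MP_776d16_ag.H7W
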