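import Pool.Agent.MP_776d16_ag.H7W.Spec

/-!
A homogeneous system of parameters for a cone.
-/

open Polynomial
open MvPolynomial (pderiv IsWeightedHomogeneous)
open Fintype (card)
open Set (range)

namespace Pool.Agent.MP_776d16_ag.H7W

namespace SopA

theorem hom {U : Type} [Fintype U] {ω : U → ℕ} {W : ℕ} (hω : ∀ u, ω u ∣ W) (c : U → ℂ) :
    IsWeightedHomogeneous ω
      (∑ u, MvPolynomial.C (c u) * MvPolynomial.X u ^ (W / ω u) : MvPolynomial U ℂ) W := by
  refine IsWeightedHomogeneous.sum _ _ _ fun u _ => ?_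
  have h := (MvPolynomial.isWeightedHomogeneous_C ω (c u)).mul
    ((MvPolynomial.isWeightedHomogeneous_X ℂ ω u).pow (W / ω u))
  rwa [zero_add, smul_eq_mul, Nat.div_mul_cancel (hω u)] at h

end SopA

theorem rowSop : OfSop := by
  classical
  intro hR U _ ω W r S Z hW hω hS hZ hr
  obtain ⟨c, hc⟩ := hR.free (Fin r × U) S hS
  refine ⟨fun q => ∑ u, MvPolynomial.C (c (q, u)) * MvPolynomial.X u ^ (W / ω u),
    fun q => SopA.hom hω _, fun z hz h0 => ?_⟩
  by_contra hne
  obtain ⟨u₀, hu⟩ := Function.ne_iff.1 hne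
  have hu : z u₀ ≠ 0 := hu
  have h1 : ∀ q, ∑ u, c (q, u) * z u ^ (W / ω u) = 0 := fun q => by simpa using h0 q
  obtain ⟨l, hl⟩ := hR.free Unit (S ∪ range c ∪ range z)
    ((hS.union (Set.countable_range c)).union (Set.countable_range z))
  obtain ⟨δ₀, d1, d2⟩ := hR.full Unit _ l hl fun _ => 1
  have d2 := d2 ()
  have l0 : l () ≠ 0 := fun h => by simp [h] at d2
  have w0 : ∀ u, ω u ≠ 0 := fun u h => hW.ne' (Nat.eq_zero_of_zero_dvd (h ▸ hω u))
  obtain ⟨y, hy⟩ : ∃ y, y = sc ω (l ()) z := ⟨_, rfl⟩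
  have y0 : y u₀ ≠ 0 := by
    rw [hy]
    exact mul_ne_zero (pow_ne_zero _ l0) hu
  have h2 : ∀ q, ∑ u, c (q, u) * y u ^ (W / ω u) = 0 := fun q => by
    rw [← mul_zero (l () ^ W), ← h1 q, Finset.mul_sum]
    refine Finset.sum_congr rfl fun u _ => ?_
    rw [hy, sc, mul_pow, ← pow_mul, Nat.mul_div_cancel' (hω u)]
    ring
  have h3 : rk S (range y) ≤ r := hy ▸ hr _ (hZ z hz _ l0)
  have h4 : card Unit ≤ rk (S ∪ range c) (range y) := by
    refine hR.ge _ _ Unit (fun _ => δ₀) (Set.finite_range y)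
      (fun _ a ha => d1 a (Or.inl ha)) fun a ha => ?_
    have h5 := ha _ ⟨u₀, rfl⟩
    have h6 : δ₀ (y u₀) ≠ 0 := by
      rw [hy, sc, Derivation.leibniz, d1 (z u₀) (Or.inr ⟨u₀, rfl⟩), Derivation.leibniz_pow, d2]
      simp [hu, l0, w0 u₀]
    funext q
    simpa [h6] using h5
  have h5 : rk (S ∪ range y) (range c) ≤ card (Fin r × {u // u ≠ u₀}) := by
    refine (hR.mono _ (range fun p : Fin r × {u // u ≠ u₀} => c (p.1, p.2)) _
      (Set.finite_range _) fun δ k1 k2 => ?_).trans (hR.le_card _ _ _)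
    have k3 : ∀ q u, u ≠ u₀ → δ (c (q, u)) = 0 := fun q u h => k2 _ ⟨(q, ⟨u, h⟩), rfl⟩
    rintro _ ⟨⟨q, u⟩, rfl⟩
    by_cases h : u = u₀
    · subst h
      have k4 := congrArg δ (h2 q)
      rw [map_sum, map_zero, Finset.sum_eq_single u (fun v _ hv => by
        rw [Derivation.leibniz, k3 q v hv, Derivation.leibniz_pow, k1 (y v) (Or.inr ⟨v, rfl⟩)]
        simp) (by simp), Derivation.leibniz, Derivation.leibniz_pow,
        k1 (y u) (Or.inr ⟨u, rfl⟩)] at k4
      simpa [y0] using k4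
    · exact k3 q u h
  have t1 := hR.tower S (range c) (range y) (Set.finite_range c) (Set.finite_range y)
  have t2 := hR.tower S (range y) (range c) (Set.finite_range y) (Set.finite_range c)
  rw [Set.union_comm, t1] at t2
  have e1 : card {u // u ≠ u₀} + 1 = card U := by
    rw [Fintype.card_subtype_compl, Fintype.card_subtype_eq]
    have : 0 < card U := Fintype.card_pos_iff.2 ⟨u₀⟩
    omega
  rw [Fintype.card_prod, Fintype.card_fin] at hc h5
  rw [Fintype.card_unique] at h4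
  rw [← e1, mul_add, mul_one] at hc
  omega

end Pool.Agent.MP_776d16_ag.H7W
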