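import Pool.Agent.MP_776d16_ag.H7W.Spec

/-!
Row Sp: specialisation.
-/

open Set Fintype MvPolynomial

namespace Pool.Agent.MP_776d16_ag.H7W

namespace SpA

variable {U : Type} {K : Subfield ℂ} {z z0 : U → ℂ}

theorem indep (h : Spec K z z0) {I : Type} {f : I → U}
    (hf : AlgebraicIndependent K fun q => z0 (f q)) : AlgebraicIndependent K fun q => z (f q) := by
  rw [algebraicIndependent_iff] at hf ⊢
  intro p hp
  refine hf p ?_
  have := h (rename f p) (by rwa [aeval_rename])
  rwa [aeval_rename] at this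

theorem kil {δ : Der} (h1 : δ ∈ Kil K) (h2 : δ ∈ Kil (range z)) (P : MvPolynomial U K) :
    δ (aeval z P) = 0 := by
  induction P using MvPolynomial.induction_on with
  | C c => rw [aeval_C]; exact h1 c c.2
  | add p q hp hq => rw [map_add, map_add, hp, hq, add_zero]
  | mul_X p i hp =>
    rw [map_mul, aeval_X, Derivation.leibniz, hp, mem_Kil_range.1 h2 i, smul_zero, smul_zero,
      add_zero]

theorem rk_le (hr : SRk) (hi : SInd) [Fintype U] {I : Type} [Fintype I]
    (P : I → MvPolynomial U K) (h : AlgebraicIndependent K fun q => aeval z (P q)) :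
    card I ≤ rk K (range z) :=
  (hi.ge K I _ h).trans (hr.mono _ _ _ (finite_range z) fun _ h1 h2 =>
    mem_Kil_range.2 fun q => kil h1 h2 (P q))

theorem symm (hr : SRk) (hi : SInd) [Fintype U] (h : Spec K z z0)
    (hle : rk K (range z) ≤ rk K (range z0)) : Spec K z0 z := by
  intro P hP
  by_contra h0
  obtain ⟨f, hf⟩ := hi.ex K U z0 _ le_rfl
  have hz := indep h hf
  have ha : IsAlgebraic (Algebra.adjoin K (range fun q => z (f q))) (aeval z P) := by
    by_contra ha
    have h1 := rk_le hr hi (z := z) (fun o : Option _ => o.elim P fun q => X (f q)) (by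
      have h2 := AlgebraicIndependent.option_iff.2 ⟨hz, ha⟩
      rwa [show (fun o : Option _ => aeval z (o.elim P fun q => X (f q))) =
        fun o : Option _ => o.elim (aeval z P) fun q => z (f q) from
        funext fun o => by cases o <;> simp])
    rw [card_option, card_fin] at h1
    omega
  obtain ⟨q, q1, q2⟩ := ha.exists_nonzero_coeff_and_aeval_eq_zero (mem_nonZeroDivisors_of_ne_zero h0)
  have h3 := h (q.eval₂ ((rename f).toRingHom.comp hz.aevalEquiv.symm.toRingEquiv.toRingHom) P) (by
    rw [← q2, Polynomial.aeval_def]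
    refine (Polynomial.hom_eval₂ _ _ (aeval z : MvPolynomial U K →ₐ[K] ℂ).toRingHom _).trans ?_
    congr 1
    ext a
    obtain ⟨b, rfl⟩ := hz.aevalEquiv.surjective a
    simp [aeval_rename, Function.comp_def])
  have h4 := (Polynomial.hom_eval₂ q _ (aeval z0 : MvPolynomial U K →ₐ[K] ℂ).toRingHom
    P).symm.trans h3
  rw [show (aeval z0 : MvPolynomial U K →ₐ[K] ℂ).toRingHom P = 0 from hP,
    Polynomial.eval₂_at_zero] at h4
  refine q1 (hz.aevalEquiv.symm.injective ((algebraicIndependent_iff.1 hf _ ?_).trans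
    (map_zero _).symm))
  simpa [aeval_rename, Function.comp_def] using h4

theorem ne {f : (U → ℂ) → ℂ} (h : Spec K z z0) (hf : PF K f) (h0 : f z0 ≠ 0) : f z ≠ 0 := by
  obtain ⟨P, hP⟩ := hf
  rw [hP] at h0 ⊢
  exact fun e => h0 (h P e)

end SpA

open SpA in
theorem rowSp : OfSp := by
  intro hr hi
  refine ⟨fun _ _ _ _ h => h, fun _ _ _ _ _ h h' P e => h' P (h P e),
    fun U K K' z z0 hK h P e => ?_, fun U V K z z0 g h hg P e => ?_,
    fun _ _ _ _ _ h hf h0 => ne h hf h0, fun U K z z0 h h0 e => h0 (funext fun u => ?_),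
    fun U _ K z z0 h => ?_, fun _ _ _ _ _ h h' => symm hr hi h h', fun U _ K z z0 h P e => ?_⟩
  · have key : ∀ x : U → ℂ, aeval x (map (Subfield.inclusion hK) P) = aeval x P := fun x => by
      rw [aeval_def, eval₂_map, aeval_def]
      rfl
    rw [← key] at e ⊢
    exact h _ e
  · choose Q hQ using hg
    have key : ∀ x : U → ℂ, aeval (fun v => g v x) P = aeval x (aeval Q P) := fun x => by
      simp only [hQ]
      exact (DFunLike.congr_fun (comp_aeval Q (aeval x)) P).symm
    rw [key] at e ⊢
    exact h _ e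
  · simpa using h (X u) (by simp [e])
  · obtain ⟨f, hf⟩ := hi.ex K U z0 _ le_rfl
    simpa using rk_le hr hi (z := z) (fun q => X (f q)) (by simpa using indep h hf)
  · obtain ⟨f, hf⟩ := hi.ex K U z _ h
    have hb : Function.Bijective f := (bijective_iff_injective_and_card f).2
      ⟨Function.Injective.of_comp (f := z) hf.injective, card_fin _⟩
    have h1 : AlgebraicIndependent K z :=
      (algebraicIndependent_equiv (Equiv.ofBijective f hb)).1 hf
    rw [algebraicIndependent_iff.1 h1 P e, map_zero]

end Pool.Agent.MP_776d16_ag.H7W
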