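import Pool.Agent.MP_776d16_ag.H7W.Spec

/-! Tails: polynomial curves through given points of the affine part. -/

open Polynomial
open MvPolynomial (IsWeightedHomogeneous)

namespace Pool.Agent.MP_776d16_ag.H7W

namespace TailA

variable {σ J : Type} {w : σ → ℕ} {d : J → ℕ} {F : J → MvPolynomial (Option σ) ℂ}

theorem on_exp {T : σ → ℂ[X]} (p : ℕ) {G : MvPolynomial (Option σ) ℂ}
    (h : MvPolynomial.aeval (pt 1 T) G = 0) :
    MvPolynomial.aeval (pt 1 fun i => expand ℂ p (T i)) G = 0 := by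
  have h1 := aeval_comp' (pt 1 T) (X ^ p) G
  rw [h, zero_comp] at h1
  refine Eq.trans (congrArg (MvPolynomial.aeval · G) (funext fun o => ?_)) h1.symm
  cases o
  · exact one_comp.symm
  · rfl

theorem ev_exp (T : σ → ℂ[X]) {p : ℕ} (hp : 0 < p) :
    ev (fun i => expand ℂ p (T i)) 0 = ev T 0 := funext fun i => by
  simp [ev, expand_eval, hp.ne']

theorem crv_exp {T : σ → ℂ[X]} {v : σ → ℂ} {a p : ℕ} (hp : 0 < p) (h : Crv w a T v) :
    Crv w (a * p) (fun i => expand ℂ p (T i)) v :=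
  ⟨fun i => by
    rw [natDegree_expand, mul_right_comm]
    exact Nat.mul_le_mul_right p (h.deg i),
  fun i => by rw [mul_right_comm, coeff_expand_mul hp, h.top]⟩

variable [Fintype σ] [Fintype J]

theorem curve (h1 : SPf) (h2 : SPp) (h3 : SPq) (h4 : STop) (hF : OkF w d F) {q : σ → ℂ}
    (hq : Fib F 0 (pt 1 q)) : ∃ T : σ → ℂ[X], (∃ i, 0 < (T i).natDegree) ∧ ev T 0 = q ∧
      ∀ j, MvPolynomial.aeval (pt 1 T) (F j) = 0 := by
  let T : ((Σ i, Fin (w i)) → ℂ) → σ → ℂ[X] := fun z i => C (q i) + X * pol fun k => z ⟨i, k⟩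
  have hT : ∀ o, PFP ⊤ fun z => pt 1 (T z) o := fun o => by
    cases o
    · exact h2.const _ _ 1 fun _ => trivial
    · exact h2.add _ _ _ _ (h2.const _ _ _ fun _ => trivial)
        (h2.mul _ _ _ _ (h2.X _ _) (h3.pol _ _ _ _ fun k => h1.var _ _ _))
  choose P hP using fun x : Σ j, Fin (d j) => h1.top _ _ _ (h2.coeff _ _ _ (x.2 + 1)
    (h3.aeval _ _ ⊤ (F x.1) _ (fun _ => trivial) hT))
  have e0 : ∀ z, ev (T z) 0 = q := fun z => funext fun i => by simp [ev, T]
  obtain ⟨z, hz, h⟩ := sKrull0 _ _ P (fun x => by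
    have e : (fun o => pt 1 (T 0) o) = fun o => C (pt 1 q o) := funext fun o => by
      cases o <;> simp [pt, T, pol]
    rw [← hP, e, aeval_C', coeff_C_succ]) (by simpa [Fintype.card_sigma] using hF.ok.fano)
  refine ⟨T z, ?_, e0 z, fun j => Polynomial.ext fun k => ?_⟩
  · obtain ⟨⟨i, k⟩, hk⟩ := Function.ne_iff.1 hz
    refine ⟨i, (Nat.succ_pos k).trans_le (le_natDegree_of_ne_zero ?_)⟩
    simpa [T, coeff_C_succ, coeff_pol] using hk
  · rcases k with _ | k
    · have e : ev (pt 1 (T z)) 0 = pt 1 q := funext fun o => by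
        cases o
        · exact eval_one
        · exact congrFun (e0 z) _
      rw [coeff_zero_eq_eval_zero, eval_aeval, e]
      exact hq j
    · rcases lt_or_ge k (d j) with hk | hk
      · exact (hP ⟨j, k, hk⟩ z).trans (h _)
      · refine coeff_eq_zero_of_natDegree_lt ((h4.top _ _ _ _ 1 _ _ (hF.hom j)
          ⟨fun o => ?_, fun _ => rfl⟩).1.trans_lt (by omega))
        cases o with
        | none => exact natDegree_one.trans_le (Nat.zero_le _)
        | some i =>
          refine natDegree_le_iff_coeff_eq_zero.2 fun n hn => ?_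
          obtain ⟨n, rfl⟩ := Nat.exists_eq_succ_of_ne_zero (Nat.ne_zero_of_lt hn)
          have : ¬n < w i := by
            change 1 * w i < _ at hn
            omega
          simp [pt, T, coeff_C_succ, coeff_pol, this]

theorem one (h1 : SPf) (h2 : SPp) (h3 : SPq) (h4 : STop) (hF : OkF w d F) {q : σ → ℂ}
    (hq : Fib F 0 (pt 1 q)) : ∃ (a : ℕ) (T : σ → ℂ[X]) (v : σ → ℂ), 0 < a ∧ v ≠ 0 ∧
      Crv w a T v ∧ ev T 0 = q ∧ ∀ j, MvPolynomial.aeval (pt 1 T) (F j) = 0 := by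
  obtain ⟨T, ⟨i₁, a1⟩, a2, a3⟩ := curve h1 h2 h3 h4 hF hq
  obtain ⟨i₀, -, b⟩ := Finset.univ.exists_max_image
    (fun i => ((T i).natDegree : ℚ) / w i) ⟨i₁, Finset.mem_univ _⟩
  have w0 := hF.ok.wpos
  have b1 : ∀ i, (T i).natDegree * w i₀ ≤ (T i₀).natDegree * w i := fun i => by
    exact_mod_cast (div_le_div_iff₀ (Nat.cast_pos.2 (w0 i)) (Nat.cast_pos.2 (w0 i₀))).1
      (b i (Finset.mem_univ i))
  have b2 : 0 < (T i₀).natDegree :=
    Nat.pos_of_mul_pos_right ((Nat.mul_pos a1 (w0 i₀)).trans_le (b1 i₁))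
  refine ⟨_, fun i => expand ℂ (w i₀) (T i), _, b2, fun e => ?_,
    ⟨fun i => (natDegree_expand _ _).trans_le (b1 i), fun _ => rfl⟩,
    (ev_exp T (w0 i₀)).trans a2, fun j => on_exp _ (a3 j)⟩
  have h := congrFun e i₀
  rw [coeff_expand_mul (w0 i₀), coeff_natDegree, Pi.zero_apply, leadingCoeff_eq_zero] at h
  simp [h] at b2

end TailA

open TailA in
theorem rowTail : OfTail := by
  intro h1 h2 h3 h4 h5 σ J _ _ w d F hF q hq
  choose a T v a1 a2 a3 a4 a5 using fun l => one h1 h2 h3 h4 hF (hq l)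
  refine ⟨a true * a false, fun l i => expand ℂ (a !l) (T l i), v, Nat.mul_pos (a1 _) (a1 _),
    fun l => ⟨a2 l, fun j => ?_, ?_, (ev_exp _ (a1 _)).trans (a4 l), fun j => on_exp _ (a5 l j)⟩⟩
  · have h := (h4.top _ _ _ _ (a l) (pt 1 (T l)) (pt 0 (v l)) (hF.hom j) ⟨fun o => ?_,
      fun o => ?_⟩).2
    · rw [a5, coeff_zero] at h
      exact (h5.eval _ _ _).trans h.symm
    · cases o
      · exact natDegree_one.trans_le (Nat.zero_le _)
      · exact (a3 l).deg _
    · cases o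
      · simp [pt, coeff_one, (a1 l).ne']
      · exact (a3 l).top _
  · have h := crv_exp (a1 !l) (a3 l)
    cases l
    · rwa [mul_comm]
    · exact h

end Pool.Agent.MP_776d16_ag.H7W
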