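import Pool.Agent.MP_776d16_ag.H7W.Spec

/-!
Taylor expansion to second order, and the restriction to `t = 0`.
-/

open Polynomial
open MvPolynomial (pderiv IsWeightedHomogeneous)

namespace Pool.Agent.MP_776d16_ag.H7W

namespace TayA

theorem dP_X {τ : Type} [Fintype τ] (f η : τ → ℂ[X]) (p : MvPolynomial τ ℂ) (o : τ) :
    dP (p * MvPolynomial.X o) f η = dP p f η * f o + MvPolynomial.aeval f p * η o := by
  classical
  simp only [dP, Derivation.leibniz, smul_eq_mul, map_add, map_mul, add_mul,
    Finset.sum_add_distrib, Finset.sum_mul, MvPolynomial.aeval_X]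
  rw [add_comm]
  refine congrArg₂ (· + ·) ?_ ?_
  · exact Finset.sum_congr rfl fun l _ => by ring
  · rw [Finset.sum_eq_single o (fun b _ hb => by
      rw [MvPolynomial.pderiv_X_of_ne hb.symm, map_zero, mul_zero, zero_mul]) (by simp)]
    simp

theorem tay : STay := by
  intro τ _ G
  induction G using MvPolynomial.induction_on with
  | C a => exact ⟨0, fun x ν η => by simp [dP]⟩
  | add p q hp hq =>
    obtain ⟨P, hP⟩ := hp
    obtain ⟨Q, hQ⟩ := hq
    refine ⟨P + Q, fun x ν η => ?_⟩
    rw [map_add, hP, hQ]
    simp only [dP, map_add, add_mul, Finset.sum_add_distrib]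
    ring
  | mul_X p o hp =>
    obtain ⟨P, hP⟩ := hp
    refine ⟨P * (MvPolynomial.X (some (.inl o)) +
      MvPolynomial.X none * MvPolynomial.X (some (.inr o))) +
      (∑ l, MvPolynomial.rename (fun i => some (.inl i)) (pderiv l p) *
        MvPolynomial.X (some (.inr l))) * MvPolynomial.X (some (.inr o)), fun x ν η => ?_⟩
    have h : MvPolynomial.aeval (pt η (Sum.elim x ν))
        (∑ l, MvPolynomial.rename (fun i => some (.inl i)) (pderiv l p) *
          MvPolynomial.X (some (.inr l))) = dP p x ν := by
      simp only [map_sum, map_mul, MvPolynomial.aeval_rename, MvPolynomial.aeval_X]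
      rfl
    rw [map_mul, hP, dP_X, map_add, map_mul, map_mul, map_mul, h]
    simp only [map_add, map_mul, MvPolynomial.aeval_X, pt, Option.elim, Sum.elim_inl,
      Sum.elim_inr]
    ring

variable {σ : Type}

theorem bd_C (a : ℂ) : bd (MvPolynomial.C a : MvPolynomial (Option σ) ℂ) = MvPolynomial.C a := by
  simp [bd]

theorem bd_add (p q : MvPolynomial (Option σ) ℂ) : bd (p + q) = bd p + bd q := map_add _ _ _

theorem bd_X (p : MvPolynomial (Option σ) ℂ) (o : Option σ) :
    bd (p * MvPolynomial.X o) = bd p * pt 0 MvPolynomial.X o := by simp [bd]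

theorem aeval_bd {S : Type} [CommRing S] [Algebra ℂ S] (F : MvPolynomial (Option σ) ℂ)
    (x : σ → S) : MvPolynomial.aeval x (bd F) = MvPolynomial.aeval (pt 0 x) F := by
  induction F using MvPolynomial.induction_on with
  | C a => simp [bd_C]
  | add p q hp hq => rw [bd_add, map_add, map_add, hp, hq]
  | mul_X p o hp =>
    rw [bd_X, map_mul, map_mul, hp]
    cases o <;> simp [pt]

theorem coeff_bd (F : MvPolynomial (Option σ) ℂ) (m : σ →₀ ℕ) :
    MvPolynomial.coeff m (bd F) = MvPolynomial.coeff (m.optionElim 0) F := by
  rw [← MvPolynomial.optionEquivLeft_coeff_coeff]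
  congr 1
  induction F using MvPolynomial.induction_on with
  | C a => simp [bd_C]
  | add p q hp hq => rw [bd_add, map_add, coeff_add, hp, hq]
  | mul_X p o hp =>
    rw [bd_X, map_mul, hp, mul_coeff_zero]
    cases o <;> simp [pt]

theorem weight_elim (W : Option σ → ℕ) (m : σ →₀ ℕ) :
    Finsupp.weight W (m.optionElim 0) = Finsupp.weight (fun i => W (some i)) m := by
  rw [Finsupp.weight_apply, Finsupp.weight_apply, Finsupp.sum_option_index_smul,
    Finsupp.optionElim_apply_none, Finsupp.some_optionElim, zero_smul, zero_add]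

end TayA

open TayA in
theorem rowTay : OfTay := ⟨tay,
  { aeval := fun _ F x => aeval_bd F x
    eval := fun _ F x => aeval_bd F x
    der := fun σ F i => by
      classical
      induction F using MvPolynomial.induction_on with
      | C a => simp [bd]
      | add p q hp hq => rw [bd_add, map_add, map_add, hp, hq, bd_add]
      | mul_X p o hp =>
        rw [bd_X, Derivation.leibniz, Derivation.leibniz, hp, bd_add]
        cases o with
        | none => simp [pt, bd]
        | some j => by_cases h : j = i <;> simp [pt, bd, h]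
    hom := fun _ W F n h m hm => by
      rw [coeff_bd] at hm
      rw [← weight_elim, h hm]
    com := fun _ K F h m => by
      rw [coeff_bd]
      exact h _ }⟩

end Pool.Agent.MP_776d16_ag.H7W
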