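import Pool.Agent.MP_776d16_ag.H7W.Spec

/-!
Existence of the data for gluing two tails.
-/

open Polynomial
open Set (range)

namespace Pool.Agent.MP_776d16_ag.H7W

namespace TdatA

theorem monic_hat {n : ℕ} {f : ℂ[X]} (h1 : f.Monic) (h2 : f.natDegree = n) (ε : ℂ) (l : Bool) :
    (hat n f ε l).Monic ∧ (hat n f ε l).natDegree = n := by
  have h3 : (hz n f ε).coeff n = 1 := by
    rw [coeff_hz, if_pos le_rfl, Nat.sub_self, pow_zero, mul_one, ← h2]
    exact h1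
  refine ⟨(monic_of_natDegree_le_of_coeff_eq_one n (natDegree_hz _ _ _) h3).comp_X_sub_C _, ?_⟩
  rw [hat, natDegree_comp, natDegree_X_sub_C, mul_one]
  exact natDegree_eq_of_le_of_coeff_ne_zero (natDegree_hz _ _ _) (h3 ▸ one_ne_zero)

theorem hat_zero {n : ℕ} {f : ℂ[X]} (h1 : f.Monic) (h2 : f.natDegree = n) (l : Bool) :
    hat n f 0 l = (X - C (nd l)) ^ n := by
  have h3 : f.coeff n = 1 := h2 ▸ h1
  simp [hat, hz_zero, h3]

theorem pfp_hat (hf : SPf) (hp : SPp) (hq : SPq) {K : Subfield ℂ} (n : ℕ) {f : ℂ[X]}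
    (h : CoP K f) (l : Bool) : PFP K fun z : Unit → ℂ => hat n f (z ()) l :=
  hp.comp _ _ _ _ (hq.hz _ _ n _ _ (hp.const _ _ f h) (hf.var _ _ ()))
    (hp.sub _ _ _ _ (hp.X _ _) (hp.C _ _ _ (hf.const _ _ (nd l) (by cases l <;> simp [nd]))))

end TdatA

open TdatA in
theorem rowTdat : OfTdat := by
  intro hk hf hp hq hty htl hri σ J _ _ _ w d F hF q p hq0
  obtain ⟨a, T, v, ha, hT⟩ := htl σ J w d F hF q hq0
  choose Δ R h1 h2 h3 h4 h5 using fun l =>
    hri σ J w d F hF a (T l) (v l) ha (hT l).1 (hT l).2.1 (hT l).2.2.1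
  choose Q hQ using fun j => hty (Option σ) (F j)
  obtain ⟨K, k1, k2, -⟩ := hk.ext ((⋃ j, range fun m => MvPolynomial.coeff m (F j)) ∪
    (⋃ j, range fun m => MvPolynomial.coeff m (Q j)) ∪ (⋃ l, ⋃ i, range (T l i).coeff) ∪
    (⋃ l, range (Δ l).coeff) ∪ (⋃ l, ⋃ i, ⋃ j, range (R l i j).coeff) ∪ range p) (by
      simp only [Set.countable_union, Set.countable_iUnion_iff, Set.countable_range, implies_true,
        and_self])
  simp only [Set.union_subset_iff, Set.iUnion_subset_iff, Set.range_subset_iff] at k2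
  obtain ⟨⟨⟨⟨⟨c1, c2⟩, c3⟩, c4⟩, c5⟩, c6⟩ := k2
  obtain ⟨α, β, ρ, b1, b2, b3, b4, b5⟩ := hq.bez Unit K
    (fun z => hat (a * ∑ j, d j + 1) (Δ false) (z ()) false ^ (a * ∑ i, w i + 1 + 2))
    (fun z => hat (a * ∑ j, d j + 1) (Δ true) (z ()) true ^ (a * ∑ i, w i + 1 + 2))
    ((a * ∑ i, w i + 1 + 2) * (a * ∑ j, d j + 1)) (fun _ => 0)
    (hp.pow _ _ _ _ (pfp_hat hf hp hq _ (c4 false) false))
    (hp.pow _ _ _ _ (pfp_hat hf hp hq _ (c4 true) true))
    (fun z => ⟨(monic_hat (h1 false) (h2 false) _ _).1.pow _, by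
      rw [natDegree_pow, (monic_hat (h1 false) (h2 false) _ _).2]⟩) (by
      rw [hat_zero (h1 false) (h2 false), hat_zero (h1 true) (h2 true)]
      exact (isCoprime_X_sub_C_of_isUnit_sub (by simp [nd])).pow.pow)
  obtain ⟨B1, e1⟩ := hp.bdd _ _ _ b1
  obtain ⟨B2, e2⟩ := hp.bdd _ _ _ b2
  refine ⟨⟨w, d, F, Q, a, a * ∑ j, d j + 1, a * ∑ i, w i + 1, T, v, Δ, R,
    fun l ε => if l then α fun _ => ε else β fun _ => ε, fun ε => ρ fun _ => ε⟩, K, rfl, rfl, rfl,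
    ⟨hF, ha, Nat.succ_pos _, fun l => (hT l).2.2.1, fun l => (hT l).2.2.2.2, h1, h2, h3,
      fun j => ?_, h4, h5, hQ, fun i => ?_, fun ε => ?_, ⟨max B1 B2, fun l ε => ?_⟩, b4⟩,
    ⟨c1, c2, c3, c4, c5, fun l => ?_, b3⟩, k1, c6,
    fun l => ⟨(hT l).1, (hT l).2.1, (hT l).2.2.2.1⟩⟩
  · exact (Nat.mul_le_mul_left a
      (Finset.single_le_sum (fun _ _ => Nat.zero_le _) (Finset.mem_univ j))).trans (Nat.le_succ _)
  · exact (Nat.lt_succ_of_le (Nat.mul_le_mul_left a (Finset.single_le_sum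
      (fun _ _ => Nat.zero_le _) (Finset.mem_univ i)))).trans_le
        (Nat.le_mul_of_pos_right _ (Nat.succ_pos _))
  · rw [Fintype.sum_bool]
    exact b5 fun _ => ε
  · cases l
    · exact (e2 _).trans (le_max_right _ _)
    · exact (e1 _).trans (le_max_left _ _)
  · cases l
    · exact b2
    · exact b1

end Pool.Agent.MP_776d16_ag.H7W
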