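import Pool.Agent.MP_776d16_ag.H7W.Spec

/-!
Row TgA: the local identities for the glued curve.
-/

open Polynomial
open MvPolynomial (pderiv IsWeightedHomogeneous)

namespace Pool.Agent.MP_776d16_ag.H7W

namespace TgAA

theorem sub_comp_loc (ε : ℂ) (l : Bool) : (X - C (nd l)).comp (loc ε l) = C ε * X := by
  simp [loc]

theorem hat_comp {D : ℕ} {f : ℂ[X]} (h : f.natDegree ≤ D) (ε : ℂ) (l : Bool) :
    (hat D f ε l).comp (loc ε l) = C ε ^ D * f := by
  rw [hat, comp_assoc, sub_comp_loc, hz_comp h]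

theorem sum_bool {A : Type} [AddCommMonoid A] (f : Bool → A) (l : Bool) :
    ∑ b, f b = f l + f (!l) := by
  cases l <;> simp [add_comm]

theorem prod_bool {A : Type} [CommMonoid A] (f : Bool → A) (l : Bool) :
    ∏ b, f b = f l * f (!l) := by
  cases l <;> simp [mul_comm]

variable {σ J : Type} [Fintype σ] [Fintype J] [DecidableEq J] (D : TD σ J)

theorem xt_eq (h : D.Good) (ε : ℂ) (ζ : Bool → J → ℂ[X]) (G : σ → ℂ[X]) (l : Bool) (i : σ) :
    D.xt ε ζ G i = C (D.ρ ε) ^ D.w i * D.Th ε l i +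
      C (D.ρ ε) ^ D.w i * D.dh ε (!l) ^ (D.M + 2) * D.Zh ε ζ l i +
      D.fac ε (D.a * D.w i) l * (D.fac ε (D.a * D.w i) (!l) * G i) +
      D.dh ε l ^ (D.M + 2) * D.E ε ζ l i := by
  have hb := h.bez ε
  rw [sum_bool _ l, Bool.not_not] at hb
  have hw : C (D.ρ ε) ^ D.w i = C (D.ρ ε) ^ (D.w i - 1) * C (D.ρ ε) := by
    rw [← pow_succ, Nat.sub_add_cancel (h.ok.ok.wpos i)]
  rw [TD.xt, TD.E, sum_bool _ l, sum_bool _ l, prod_bool _ l, Bool.not_not]
  linear_combination (C (D.ρ ε) ^ (D.w i - 1) * D.Th ε l i) * hb - D.Th ε l i * hw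

theorem deg_Z (h : D.Good) (ζ : Bool → J → ℂ[X])
    (hζ : ∀ l j, (ζ l j).degree < (D.a * D.d j : ℕ)) (l : Bool) (i : σ) :
    (D.Δ l * ∑ j, D.R l i j * ζ l j).natDegree ≤ D.a * D.w i + 2 * D.π := by
  have h1 : (∑ j, D.R l i j * ζ l j).natDegree ≤ D.a * D.w i + D.π := by
    refine natDegree_sum_le_of_forall_le _ _ fun j _ => natDegree_mul_le.trans ?_
    have h2 := h.degR l i j
    have h3 : (ζ l j).natDegree ≤ D.a * D.d j := natDegree_le_iff_degree_le.2 (hζ l j).le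
    have h4 := h.dπ j
    omega
  have h5 := h.degΔ l
  refine natDegree_mul_le.trans ?_
  omega

theorem one (h : D.Good) (ε : ℂ) (ζ : Bool → J → ℂ[X]) (G : σ → ℂ[X])
    (hζ : ∀ l j, (ζ l j).degree < (D.a * D.d j : ℕ)) (l : Bool) (i : σ) :
    (D.xt ε ζ G i).comp (loc ε l) = C ε ^ (D.a * D.w i) *
      (C (D.ρ ε) ^ D.w i * D.T l i + C ε ^ (2 * D.π) * D.Δ l * D.nu ε ζ G l i) := by
  have hT : (D.Th ε l i).comp (loc ε l) = C ε ^ (D.a * D.w i) * D.T l i :=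
    hat_comp ((h.crv l).deg i) ε l
  have hZ : (D.Zh ε ζ l i).comp (loc ε l) =
      C ε ^ (D.a * D.w i + 2 * D.π) * (D.Δ l * ∑ j, D.R l i j * ζ l j) :=
    hat_comp (deg_Z D h ζ hζ l i) ε l
  have hd : (D.dh ε l).comp (loc ε l) = C ε ^ D.π * D.Δ l := hat_comp (h.degΔ l).le ε l
  have hf : (D.fac ε (D.a * D.w i) l).comp (loc ε l) =
      (C ε ^ D.π * D.Δ l) ^ 2 * (C ε * X) ^ (D.a * D.w i) := by
    rw [TD.fac, mul_comp, pow_comp, pow_comp, hd, sub_comp_loc]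
  have hp : (C ε ^ D.π : ℂ[X]) ^ (D.M + 2) =
      C ε ^ (D.a * D.w i) * C ε ^ (2 * D.π) * C ε ^ (D.M * D.π - D.a * D.w i) := by
    rw [← pow_mul, ← pow_add, ← pow_add]
    congr 1
    have := h.big i
    have e : D.π * (D.M + 2) = D.M * D.π + 2 * D.π := by ring
    omega
  have hM : (D.dh ε l ^ (D.M + 2)).comp (loc ε l) =
      C ε ^ (D.a * D.w i) * C ε ^ (2 * D.π) * C ε ^ (D.M * D.π - D.a * D.w i) *
        (D.Δ l ^ D.M * D.Δ l ^ 2) := by
    rw [pow_comp, hd, mul_pow, hp, pow_add]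
  rw [xt_eq D h ε ζ G l i, add_comp, add_comp, add_comp, mul_comp, mul_comp, mul_comp,
    mul_comp (D.fac _ _ _), mul_comp (D.dh ε l ^ _), hT, hZ, hf, hM, pow_comp, C_comp, TD.nu,
    TD.nu']
  generalize C ε ^ (D.M * D.π - D.a * D.w i) = u
  ring

omit [Fintype σ] [Fintype J] [DecidableEq J] in
theorem base_eq (ε : ℂ) (l : Bool) :
    D.base ε l = fun o => C (D.ρ ε) ^ pt 1 D.w o * pt 1 (D.T l) o := by
  funext o
  cases o <;> simp [TD.base, pt]

theorem dP_nu (hT : STop) (h : D.Good) (ε : ℂ) (ζ : Bool → J → ℂ[X]) (G : σ → ℂ[X]) (l : Bool)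
    (j : J) :
    dP (D.F j) (D.base ε l) (pt 0 (D.nu ε ζ G l)) =
      D.Δ l * (C (D.ρ ε) ^ D.d j * (D.dh ε (!l) ^ (D.M + 2)).comp (loc ε l) * ζ l j +
        dP (D.F j) (D.base ε l) (pt 0 (D.nu' ε ζ G l))) := by
  have h1 := hT.dscale _ (pt 1 D.w) (D.F j) (D.d j) (C (D.ρ ε)) (pt 1 (D.T l))
    (pt 0 fun i => ∑ j', D.R l i j' * ζ l j') (h.ok.hom j)
  rw [← base_eq] at h1
  have h2 : dP (D.F j) (pt 1 (D.T l)) (pt 0 fun i => ∑ j', D.R l i j' * ζ l j') =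
      D.Δ l * ζ l j := by
    have h3 : ∀ j', ∑ i, MvPolynomial.aeval (pt 1 (D.T l))
        (pderiv (some i) (D.F j)) * (D.R l i j' * ζ l j') =
        (if j = j' then D.Δ l else 0) * ζ l j' := fun j' => by
      rw [← h.inv l j j', Finset.sum_mul]
      exact Finset.sum_congr rfl fun i _ => (mul_assoc _ _ _).symm
    rw [dP, Fintype.sum_option]
    change _ * 0 + ∑ i, MvPolynomial.aeval (pt 1 (D.T l)) (pderiv (some i) (D.F j)) *
      ∑ j', D.R l i j' * ζ l j' = _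
    simp only [mul_zero, zero_add, Finset.mul_sum]
    rw [Finset.sum_comm]
    simp only [h3, ite_mul, zero_mul, Finset.sum_ite_eq, Finset.mem_univ, if_true]
  rw [h2] at h1
  have h4 : dP (D.F j) (D.base ε l) (pt 0 (D.nu ε ζ G l)) =
      (D.dh ε (!l) ^ (D.M + 2)).comp (loc ε l) * dP (D.F j) (D.base ε l)
        (fun o => C (D.ρ ε) ^ pt 1 D.w o * pt 0 (fun i => ∑ j', D.R l i j' * ζ l j') o) +
      D.Δ l * dP (D.F j) (D.base ε l) (pt 0 (D.nu' ε ζ G l)) := by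
    simp only [dP, Finset.mul_sum (Finset.univ : Finset (Option σ)), ← Finset.sum_add_distrib]
    refine Finset.sum_congr rfl fun o _ => ?_
    cases o with
    | none => simp [pt]
    | some i =>
      simp only [pt, Option.elim_some, TD.nu]
      ring
  rw [h4, h1]
  ring

theorem two (hT : STop) (h : D.Good) (ε : ℂ) (ζ : Bool → J → ℂ[X]) (G : σ → ℂ[X])
    (hζ : ∀ l j, (ζ l j).degree < (D.a * D.d j : ℕ)) (l : Bool) (j : J) :
    (D.val ε ζ G j).comp (loc ε l) =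
      C ε ^ (D.a * D.d j + 2 * D.π) * D.Δ l ^ 2 * D.H ε ζ G l j := by
  have h1 : (fun o => (pt (C (D.ρ ε * ε ^ D.a)) (D.xt ε ζ G) o).comp (loc ε l)) =
      fun o => (C ε ^ D.a) ^ pt 1 D.w o *
        (D.base ε l o + C ε ^ (2 * D.π) * D.Δ l * pt 0 (D.nu ε ζ G l) o) := by
    funext o
    cases o with
    | none => simp [pt, TD.base, mul_comm]
    | some i =>
      simp only [pt, Option.elim_some, TD.base]
      rw [one D h ε ζ G hζ l i, pow_mul]
  have h0 : MvPolynomial.aeval (D.base ε l) (D.F j) = 0 := by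
    rw [base_eq, hT.scale _ _ _ _ _ _ (h.ok.hom j), h.on, mul_zero]
  rw [TD.val, aeval_comp', h1, hT.scale _ _ _ _ _ _ (h.ok.hom j), h.tay, h0,
    dP_nu D hT h, TD.H]
  ring

end TgAA

theorem rowTgA : OfTgA := fun hT _ _ _ _ _ D h ε ζ G hζ l =>
  ⟨TgAA.one D h ε ζ G hζ l, TgAA.two D hT h ε ζ G hζ l⟩

end Pool.Agent.MP_776d16_ag.H7W
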