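import Pool.Agent.MP_776d16_ag.H7W.Spec

/-!
A solution of the gluing equations with a nonzero parameter is a curve on the variety.
-/

open Polynomial

namespace Pool.Agent.MP_776d16_ag.H7W

namespace TgBA

theorem lin_loc (ε : ℂ) (l : Bool) : (X - C (nd l)).comp (loc ε l) = C ε * X := by
  simp [loc]

theorem dvd_of_comp {ε : ℂ} (hε : ε ≠ 0) (l : Bool) {A B : ℂ[X]}
    (h : A.comp (loc ε l) ∣ B.comp (loc ε l)) : A ∣ B := by
  have e : (loc ε l).comp (C ε⁻¹ * (X - C (nd l))) = X := by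
    rw [loc, add_comp, mul_comp, C_comp, C_comp, X_comp, ← mul_assoc, ← C_mul,
      mul_inv_cancel₀ hε, C_1]
    ring
  obtain ⟨q, hq⟩ := h
  refine ⟨q.comp (C ε⁻¹ * (X - C (nd l))), ?_⟩
  have h1 := congrArg (fun p : ℂ[X] => p.comp (C ε⁻¹ * (X - C (nd l)))) hq
  simpa only [mul_comp, comp_assoc, e, comp_X] using h1

variable {σ J : Type} [Fintype σ] [Fintype J] [DecidableEq J] {D : TD σ J}

theorem dh_loc (hD : D.Good) (ε : ℂ) (l : Bool) :
    (D.dh ε l).comp (loc ε l) = C ε ^ D.π * D.Δ l := by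
  rw [TD.dh, hat, comp_assoc, lin_loc, hz_comp (hD.degΔ l).le]

theorem lin_dvd (hD : D.Good) {ε : ℂ} (hε : ε ≠ 0) (l : Bool) : X - C (nd l) ∣ D.dh ε l := by
  refine dvd_of_comp hε l ?_
  rw [lin_loc, dh_loc hD]
  exact mul_dvd_mul (dvd_pow_self _ hD.πpos.ne') (X_dvd_iff.2 (hD.zeroΔ l))

theorem fac_dvd (hD : D.Good) {ε : ℂ} (hε : ε ≠ 0) (n : ℕ) (l : Bool) :
    D.fac ε n l ∣ D.dh ε l ^ (2 + n) := by
  rw [TD.fac, pow_add]
  exact mul_dvd_mul_left _ (pow_dvd_pow_of_dvd (lin_dvd hD hε l) n)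

theorem cop (hD : D.Good) {ε : ℂ} (hε : ε ≠ 0) (hρ : D.ρ ε ≠ 0) (n : ℕ) :
    IsCoprime (D.fac ε n true) (D.fac ε n false) := by
  have h := hD.bez ε
  rw [Fintype.sum_bool, Bool.not_true, Bool.not_false] at h
  have h1 : IsCoprime (D.dh ε true ^ (D.M + 2)) (D.dh ε false ^ (D.M + 2)) :=
    ⟨C (D.ρ ε)⁻¹ * D.β false ε, C (D.ρ ε)⁻¹ * D.β true ε, by
      rw [mul_assoc, mul_assoc, ← mul_add, add_comm, h, ← C_mul, inv_mul_cancel₀ hρ, C_1]⟩
  have h2 : IsCoprime (D.dh ε true) (D.dh ε false) :=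
    (IsCoprime.pow_iff (by omega) (by omega)).1 h1
  exact ((h2.pow (m := 2 + n) (n := 2 + n)).of_isCoprime_of_dvd_left
    (fac_dvd hD hε n true)).of_isCoprime_of_dvd_right (fac_dvd hD hε n false)

end TgBA

open TgBA in
theorem rowTgB : OfTgB := by
  intro top bdd tgA tgE σ J _ _ _ D hD ε ζ G p e hζ hε hρ hc hp hH hq
  refine ⟨fun j => ?_, fun l => funext fun i => ?_⟩
  · have h1 : ∀ l, D.fac ε (D.a * D.d j) l ∣ D.val ε ζ G j := fun l => by
      refine dvd_of_comp hε l ?_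
      obtain ⟨H', hH'⟩ := X_pow_dvd_iff.2 (hH l j)
      rw [(tgA σ J D hD ε ζ G hζ l).2 j, hH', TD.fac, mul_comp, pow_comp, pow_comp, lin_loc,
        dh_loc hD]
      exact ⟨H', by ring⟩
    have h2 : D.den ε j ∣ D.val ε ζ G j := by
      rw [TD.den, Fintype.prod_bool]
      exact (cop hD hε hρ _).mul_dvd (h1 true) (h1 false)
    obtain ⟨q, h3⟩ := h2
    obtain ⟨hm, hd⟩ := (tgE σ J D hD).1 ε j
    have hcv : Crv (pt 1 D.w) (e + 2 * D.a) (pt (C (D.ρ ε * ε ^ D.a)) (D.xt ε ζ G)) (pt 0 p) := by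
      refine ⟨fun o => ?_, fun o => ?_⟩ <;> cases o
      · exact (natDegree_C _).le.trans (Nat.zero_le _)
      · exact hc.deg _
      · exact coeff_C_of_ne_zero (by have := hD.apos; simp only [pt, Option.elim]; omega)
      · exact hc.top _
    obtain ⟨h4, h5⟩ := top.top _ _ (D.F j) (D.d j) _ _ _ (hD.ok.hom j) hcv
    rw [← bdd.eval, hp j] at h5
    change (D.val ε ζ G j).natDegree ≤ _ at h4
    change (D.val ε ζ G j).coeff _ = _ at h5
    have h6 := hq j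
    rw [h3, mul_divByMonic_cancel_left q hm] at h6
    by_contra h0
    have hq0 : q ≠ 0 := fun h => h0 (by rw [h3, h, mul_zero])
    have h7 : (D.val ε ζ G j).natDegree ≠ (e + 2 * D.a) * D.d j := fun h =>
      h0 (leadingCoeff_eq_zero.1 (by rw [leadingCoeff, h, h5]; rfl))
    have h8 : (D.val ε ζ G j).natDegree = 2 * (D.a * D.d j) + 4 * D.π + q.natDegree := by
      rw [h3, hm.natDegree_mul' hq0, hd]
    have h9 : (e + 2 * D.a) * D.d j = e * D.d j + 2 * (D.a * D.d j) := by ring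
    exact hq0 (leadingCoeff_eq_zero.1 (h6 q.natDegree (by omega)))
  · have h1 := congrArg (eval 0) ((tgA σ J D hD ε ζ G hζ l).1 i)
    have h2 : (D.Δ l).eval 0 = 0 := by rw [← coeff_zero_eq_eval_zero, hD.zeroΔ]
    have h3 : (loc ε l).eval 0 = nd l := by simp [loc]
    rw [eval_comp, h3] at h1
    simp only [eval_mul, eval_add, eval_pow, eval_C, h2, mul_zero, zero_mul, add_zero] at h1
    simp only [ev, sc, h1]
    ring

end Pool.Agent.MP_776d16_ag.H7W
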