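import Pool.Agent.MP_776d16_ag.H7W.Spec

/-! Row TgC: the fibre `ε = 0` of the glued tails. -/

open Polynomial
open MvPolynomial (pderiv IsWeightedHomogeneous)

namespace Pool.Agent.MP_776d16_ag.H7W

namespace TgCA

theorem sum_bool {R : Type} [AddCommMonoid R] (f : Bool → R) (l : Bool) :
    ∑ l, f l = f l + f (!l) := by
  cases l
  · simp [add_comm]
  · simp

theorem QQ_eq (l : Bool) : QQ nd = (X - C (nd l)) * (X - C (nd (!l))) := by
  cases l
  · simp [QQ, mul_comm]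
  · simp [QQ]

theorem nd_ne (l : Bool) : nd l - nd (!l) ≠ 0 := by cases l <;> simp [nd]

theorem cop (l : Bool) : IsCoprime (X - C (nd l)) (X - C (nd (!l))) :=
  isCoprime_X_sub_C_of_isUnit_sub (nd_ne l).isUnit

theorem congr_aeval {τ : Type} (m : ℂ[X]) (f g : τ → ℂ[X]) (h : ∀ i, m ∣ f i - g i)
    (G : MvPolynomial τ ℂ) : m ∣ MvPolynomial.aeval f G - MvPolynomial.aeval g G := by
  induction G using MvPolynomial.induction_on with
  | C c => simp
  | add p q hp hq =>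
    rw [map_add, map_add, add_sub_add_comm]
    exact dvd_add hp hq
  | mul_X p i hp =>
    rw [map_mul, map_mul, MvPolynomial.aeval_X, MvPolynomial.aeval_X,
      ← sub_add_sub_cancel _ (MvPolynomial.aeval g p * f i), ← sub_mul, ← mul_sub]
    exact dvd_add (hp.mul_right _) ((h i).mul_left _)

theorem hat_zero (n : ℕ) (f : ℂ[X]) (l : Bool) :
    hat n f 0 l = C (f.coeff n) * (X - C (nd l)) ^ n := by
  simp [hat, hz_zero]

variable {σ J : Type} [Fintype σ] [Fintype J] [DecidableEq J] {D : TD σ J}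

theorem dh0 (h : D.Good) (l : Bool) : D.dh 0 l = (X - C (nd l)) ^ D.π := by
  rw [TD.dh, hat_zero, ← h.degΔ l, (h.monic l).coeff_natDegree, C_1, one_mul]

theorem Th0 (h : D.Good) (l : Bool) (i : σ) :
    D.Th 0 l i = C (D.v l i) * (X - C (nd l)) ^ (D.a * D.w i) := by
  rw [TD.Th, hat_zero, (h.crv l).top]

theorem Zh0 (h : D.Good) {ζ : Bool → J → ℂ[X]} (hζ : ∀ l j, (ζ l j).degree < (D.a * D.d j : ℕ))
    (l : Bool) (i : σ) : D.Zh 0 ζ l i = 0 := by
  rw [TD.Zh, hat_zero, Finset.mul_sum, finsetSum_coeff, Finset.sum_eq_zero, C_0, zero_mul]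
  intro j _
  by_cases e : ζ l j = 0
  · simp [e]
  have h1 := (natDegree_lt_iff_degree_lt e).2 (hζ l j)
  have h2 := h.degR l i j
  have h3 := h.dπ j
  have h4 := h.degΔ l
  have h5 := natDegree_mul_le (p := D.Δ l) (q := D.R l i j * ζ l j)
  have h6 := natDegree_mul_le (p := D.R l i j) (q := ζ l j)
  exact coeff_eq_zero_of_natDegree_lt (by omega)

theorem expo (h : D.Good) (i : σ) : ∃ r, (D.M + 2) * D.π - D.a * D.w i = 2 * D.π + r ∧
    D.π * (D.M + 2) = 2 * D.π + r + D.a * D.w i := by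
  have := h.big i
  refine ⟨D.M * D.π - D.a * D.w i, ?_, ?_⟩
  · rw [add_mul]; omega
  · rw [mul_comm D.π, add_mul]; omega

theorem one (h : D.Good) (l : Bool) (i : σ) : (X - C (nd l)) ^ (2 * D.π) ∣
    (X - C (nd (!l))) ^ (D.a * D.w i) * D.Φ i - C (sc D.w (D.ρ 0) (D.v l) i) := by
  obtain ⟨r, e1, e2⟩ := expo h i
  have hb := h.bez 0
  obtain ⟨k, hk⟩ : ∃ k, D.w i = k + 1 := ⟨_, (Nat.succ_pred_eq_of_pos (h.ok.ok.wpos i)).symm⟩
  simp only [dh0 h, ← pow_mul, e2] at hb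
  rw [sum_bool _ l, Bool.not_not] at hb
  rw [TD.Φ, e1, sum_bool _ l, Bool.not_not, sc, C_mul, C_pow]
  generalize D.a * D.w i = n at hb ⊢
  rw [hk, Nat.add_sub_cancel]
  refine ⟨C (D.ρ 0) ^ k * D.β (!l) 0 * (X - C (nd l)) ^ r *
    ((X - C (nd (!l))) ^ n * C (D.v (!l) i) - (X - C (nd l)) ^ n * C (D.v l i)), ?_⟩
  linear_combination (C (D.ρ 0) ^ k * C (D.v l i)) * hb

theorem xt0 (h : D.Good) {ζ : Bool → J → ℂ[X]} (hζ : ∀ l j, (ζ l j).degree < (D.a * D.d j : ℕ))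
    (G : σ → ℂ[X]) (i : σ) :
    D.xt 0 ζ G i = (QQ nd ^ D.a) ^ D.w i * (D.Φ i + QQ nd ^ (2 * D.π) * G i) := by
  obtain ⟨r, e1, e2⟩ := expo h i
  simp only [TD.xt, TD.Φ, TD.fac, dh0 h, Th0 h, Zh0 h hζ, ← pow_mul, e1, e2, mul_zero,
    Finset.sum_const_zero, add_zero, Fintype.sum_bool, Fintype.prod_bool, QQ_eq true,
    Bool.not_true, Bool.not_false, mul_pow]
  ring

theorem den0 (h : D.Good) (j : J) : D.den 0 j = (QQ nd ^ D.a) ^ D.d j * QQ nd ^ (2 * D.π) := by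
  simp only [TD.den, TD.fac, dh0 h, Fintype.prod_bool, QQ_eq true, Bool.not_true, mul_pow]
  ring

end TgCA

open TgCA in
theorem rowTgC : OfTgC := by
  intro hT hB σ J _ _ _ D h
  refine ⟨one h, ⟨fun l j => D.ρ 0 ^ D.d j * ((nd l - nd (!l)) ^ D.π) ^ (D.M + 2), fun l j =>
    mul_ne_zero (pow_ne_zero _ h.ρ0) (pow_ne_zero _ (pow_ne_zero _ (nd_ne l))), fun K hK l j => ?_,
    fun ζ G _ l j => ?_⟩, fun ζ G hζ hv j => ?_⟩
  · have : ∀ l, nd l ∈ K := fun l => by cases l <;> simp [nd]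
    exact mul_mem (pow_mem hK _) (pow_mem (pow_mem (sub_mem (this _) (this _)) _) _)
  · have h1 : D.nu' 0 ζ G l = D.nu' 0 0 G l := funext fun i => by
      simp only [TD.nu', C_0, zero_pow (Nat.sub_ne_zero_of_lt (h.big i)), zero_mul]
    have h2 : 2 * D.π ≠ 0 := by have := h.πpos; omega
    simp [TD.H, h1, h2, dh0 h, loc]
  · have hh := h.ok.ok.hom j
    have h1 : D.val 0 ζ G j = (QQ nd ^ D.a) ^ D.d j *
        MvPolynomial.aeval (fun i => D.Φ i + QQ nd ^ (2 * D.π) * G i) (bd (D.F j)) := by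
      rw [TD.val, zero_pow h.apos.ne', mul_zero, C_0, ← hB.aeval, funext (xt0 h hζ G),
        hT.scale _ _ _ _ _ _ hh]
    have h2 : ∀ l, (X - C (nd l)) ^ (2 * D.π) ∣
        MvPolynomial.aeval (fun i => D.Φ i + QQ nd ^ (2 * D.π) * G i) (bd (D.F j)) := fun l => by
      have h3 := congr_aeval ((X - C (nd l)) ^ (2 * D.π))
        (fun i => ((X - C (nd (!l))) ^ D.a) ^ D.w i * (D.Φ i + QQ nd ^ (2 * D.π) * G i))
        (fun i => C (sc D.w (D.ρ 0) (D.v l) i)) (fun i => by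
          rw [mul_add, add_sub_right_comm, ← pow_mul, QQ_eq l, mul_pow]
          exact dvd_add (one h l i) (((dvd_mul_right _ _).mul_right _).mul_left _)) (bd (D.F j))
      rw [hT.scale _ _ _ _ _ _ hh, aeval_C', hT.scale0 _ _ _ _ _ _ hh, hv l j, Pi.zero_apply,
        mul_zero, C_0, sub_zero] at h3
      exact (cop l).pow.pow_right.dvd_of_dvd_mul_left h3
    obtain ⟨B, hB⟩ : QQ nd ^ (2 * D.π) ∣
        MvPolynomial.aeval (fun i => D.Φ i + QQ nd ^ (2 * D.π) * G i) (bd (D.F j)) := by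
      nth_rewrite 1 [QQ_eq true, mul_pow]
      exact (cop true).pow.mul_dvd (h2 _) (h2 _)
    have hm : (QQ nd).Monic := monic_prod_of_monic _ _ fun l _ => monic_X_sub_C _
    rw [h1, den0 h, hB, ← mul_assoc,
      mul_divByMonic_cancel_left _ (((hm.pow _).pow _).mul (hm.pow _))]

end Pool.Agent.MP_776d16_ag.H7W
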