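import Pool.Agent.MP_776d16_ag.H7W.Spec

/-!
The equations of the gluing are polynomial in the parameters.
-/

open Polynomial

namespace Pool.Agent.MP_776d16_ag.H7W

namespace TgDA

variable {U : Type} {K : Subfield ℂ} {ε : (U → ℂ) → ℂ}

theorem nd_mem (l : Bool) : nd l ∈ K := by cases l <;> simp [nd]

theorem lin (hf : SPf) (hp : SPp) (l : Bool) : PFP K fun _ : U → ℂ => (X - C (nd l) : ℂ[X]) :=
  hp.sub _ _ _ _ (hp.X _ _) (hp.C _ _ _ (hf.const _ _ _ (nd_mem l)))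

theorem hat' (hf : SPf) (hp : SPp) (hq : SPq) (he : PF K ε) (n : ℕ) {f : (U → ℂ) → ℂ[X]}
    (h : PFP K f) (l : Bool) : PFP K fun z => hat n (f z) (ε z) l :=
  hp.comp _ _ _ _ (hq.hz _ _ n _ _ h he) (lin hf hp l)

theorem loc' (hf : SPf) (hp : SPp) (he : PF K ε) {f : (U → ℂ) → ℂ[X]} (h : PFP K f) (l : Bool) :
    PFP K fun z => (f z).comp (loc (ε z) l) :=
  hp.comp _ _ _ _ h (hp.add _ _ _ _ (hp.C _ _ _ (hf.const _ _ _ (nd_mem l)))
    (hp.mul _ _ _ _ (hp.C _ _ _ he) (hp.X _ _)))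

theorem cp (hp : SPp) (he : PF K ε) (n : ℕ) : PFP K fun z => C (ε z) ^ n :=
  hp.pow _ _ _ n (hp.C _ _ _ he)

theorem pt' {τ : Type} {t : (U → ℂ) → ℂ[X]} {x : τ → (U → ℂ) → ℂ[X]} (ht : PFP K t)
    (hx : ∀ i, PFP K (x i)) (o : Option τ) : PFP K fun z => pt (t z) (fun i => x i z) o := by
  cases o
  · exact ht
  · exact hx _

end TgDA

open TgDA in
theorem rowTgD : OfTgD := by
  intro hf hp hq hE σ J U _ _ _ D K h hK
  have hv : ∀ l i, D.v l i ∈ K := fun l i => (h.crv l).top i ▸ hK.T l i _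
  refine ⟨⟨hf.mem _ _ _ (fun _ => 0) hK.ρ fun _ => K.zero_mem, hv, fun i k => ?_⟩,
    fun ε ζ G he hζ hG => ?_⟩
  · exact hf.mem _ _ _ (fun _ => 0) (hp.coeff _ _ _ k (hp.mul _ _ _ _ (cp hp hK.ρ (D.w i - 1))
      (hp.sum _ _ _ Finset.univ _ fun l _ => hp.mul _ _ _ _ (hp.mul _ _ _ _ (hK.β l)
        (hp.pow _ _ _ ((D.M + 2) * D.π - D.a * D.w i) (lin hf hp (!l))))
        (hp.C _ _ _ (hf.const _ _ _ (hv l i)))))) fun _ => K.zero_mem
  have hρ : PF K fun z => D.ρ (ε z) := hf.subst U Unit K _ (fun _ => ε) hK.ρ fun _ => he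
  have hβ : ∀ l, PFP K fun z => D.β l (ε z) := fun l =>
    hp.subst U Unit K _ (fun _ => ε) (hK.β l) fun _ => he
  have h0 : PFP K fun _ : U → ℂ => (0 : ℂ[X]) := hp.const _ _ _ fun k => K.zero_mem
  have hΔ : ∀ l, PFP K fun _ : U → ℂ => D.Δ l := fun l => hp.const _ _ _ (hK.Δ l)
  have hT : ∀ l i, PFP K fun _ : U → ℂ => D.T l i := fun l i => hp.const _ _ _ (hK.T l i)
  have hR : ∀ l i, PFP K fun z => ∑ j, D.R l i j * ζ l j z := fun l i =>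
    hp.sum _ _ _ _ _ fun j _ => hp.mul _ _ _ _ (hp.const _ _ _ (hK.R l i j)) (hζ l j)
  have hdh : ∀ l n, PFP K fun z => D.dh (ε z) l ^ n := fun l n =>
    hp.pow _ _ _ n (hat' hf hp hq he _ (hΔ l) l)
  have hTh : ∀ l i, PFP K fun z => D.Th (ε z) l i := fun l i => hat' hf hp hq he _ (hT l i) l
  have hZh : ∀ l i, PFP K fun z => D.Zh (ε z) (fun l j => ζ l j z) l i := fun l i =>
    hat' hf hp hq he _ (hp.mul _ _ _ _ (hΔ l) (hR l i)) l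
  have hfac : ∀ n l, PFP K fun z => D.fac (ε z) n l := fun n l =>
    hp.mul _ _ _ _ (hdh l 2) (hp.pow _ _ _ n (lin hf hp l))
  have hxt : ∀ i, PFP K fun z => D.xt (ε z) (fun l j => ζ l j z) (fun i => G i z) i := fun i =>
    hp.add _ _ _ _ (hp.add _ _ _ _
      (hp.mul _ _ _ _ (cp hp hρ _) (hp.sum _ _ _ _ _ fun l _ =>
        hp.mul _ _ _ _ (hp.mul _ _ _ _ (hβ l) (hdh _ _)) (hTh l i)))
      (hp.mul _ _ _ _ (cp hp hρ _) (hp.sum _ _ _ _ _ fun l _ =>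
        hp.mul _ _ _ _ (hdh _ _) (hZh l i))))
      (hp.mul _ _ _ _ (hp.prod _ _ _ _ _ fun l _ => hfac _ l) (hG i))
  have hEE : ∀ l i, PFP K fun z => D.E (ε z) (fun l j => ζ l j z) l i := fun l i =>
    hp.add _ _ _ _ (hp.mul _ _ _ _ (hp.mul _ _ _ _ (cp hp hρ _) (hβ _))
      (hp.sub _ _ _ _ (hTh _ i) (hTh l i))) (hp.mul _ _ _ _ (cp hp hρ _) (hZh _ i))
  have hn' : ∀ l i, PFP K fun z => D.nu' (ε z) (fun l j => ζ l j z) (fun i => G i z) l i :=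
    fun l i => hp.add _ _ _ _ (hp.mul _ _ _ _ (hp.pow _ _ _ _ (hp.X _ _))
      (loc' hf hp he (hp.mul _ _ _ _ (hfac _ _) (hG i)) l))
      (hp.mul _ _ _ _ (hp.mul _ _ _ _ (cp hp he _) (hp.pow _ _ _ _ (hΔ l)))
        (loc' hf hp he (hEE l i) l))
  have hn : ∀ l i, PFP K fun z => D.nu (ε z) (fun l j => ζ l j z) (fun i => G i z) l i :=
    fun l i => hp.add _ _ _ _ (hp.mul _ _ _ _ (hp.mul _ _ _ _ (cp hp hρ _)
      (loc' hf hp he (hdh _ _) l)) (hR l i)) (hp.mul _ _ _ _ (hΔ l) (hn' l i))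
  have hb : ∀ l o, PFP K fun z => D.base (ε z) l o := fun l =>
    pt' (hp.C _ _ _ hρ) fun i => hp.mul _ _ _ _ (cp hp hρ _) (hT l i)
  refine ⟨hρ, fun l j => ?_, fun j => ?_⟩
  · refine hp.add _ _ _ _ (hp.add _ _ _ _ (hp.mul _ _ _ _ (hp.mul _ _ _ _ (cp hp hρ _)
      (loc' hf hp he (hdh _ _) l)) (hζ l j))
      (hq.dP _ _ _ _ _ _ (hK.F j) (hb l) (pt' h0 (hn' l))))
      (hp.mul _ _ _ _ (cp hp he _) (hq.aeval _ _ _ _ _ (hK.Q j)
        (pt' (x := fun o z => Sum.elim (D.base (ε z) l)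
          (pt 0 (D.nu (ε z) (fun l j => ζ l j z) (fun i => G i z) l)) o)
          (hp.mul _ _ _ _ (cp hp he _) (hΔ l)) fun o => ?_)))
    cases o
    · exact hb l _
    · exact pt' h0 (hn l) _
  · exact hq.div _ _ _ _ _ (hq.aeval _ _ _ _ _ (hK.F j) (pt' (hp.C _ _ _ (hf.mul _ _ _ _ hρ
      (hf.pow _ _ _ _ he))) hxt)) (hp.prod _ _ _ _ _ fun l _ => hfac _ l)
      fun z => (hE σ J D h).1 (ε z) j

end Pool.Agent.MP_776d16_ag.H7W
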