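import Pool.Agent.MP_776d16_ag.H7W.Spec

/-!
Degrees of the glued curve.
-/

open Polynomial

namespace Pool.Agent.MP_776d16_ag.H7W

namespace TgEA

theorem deg_hat (n : ℕ) (f : ℂ[X]) (ε : ℂ) (l : Bool) : (hat n f ε l).natDegree ≤ n := by
  rw [hat, natDegree_comp, natDegree_X_sub_C, mul_one]
  exact natDegree_hz _ _ _

theorem monic_hat {n : ℕ} {f : ℂ[X]} (h1 : f.Monic) (h2 : f.natDegree = n) (ε : ℂ) (l : Bool) :
    (hat n f ε l).Monic ∧ (hat n f ε l).natDegree = n := by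
  have h3 : (hz n f ε).coeff n = 1 := by
    rw [coeff_hz, if_pos le_rfl, Nat.sub_self, pow_zero, mul_one, ← h2]
    exact h1
  refine ⟨(monic_of_natDegree_le_of_coeff_eq_one n (natDegree_hz _ _ _) h3).comp_X_sub_C _, ?_⟩
  rw [hat, natDegree_comp, natDegree_X_sub_C, mul_one]
  exact natDegree_eq_of_le_of_coeff_ne_zero (natDegree_hz _ _ _) (h3 ▸ one_ne_zero)

variable {σ J : Type} [Fintype σ] [Fintype J] [DecidableEq J] {D : TD σ J}

theorem fac (h : D.Good) (ε : ℂ) (n : ℕ) :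
    (∏ l, D.fac ε n l).Monic ∧ (∏ l, D.fac ε n l).natDegree = 2 * n + 4 * D.π := by
  have h1 : ∀ l, (D.fac ε n l).Monic ∧ (D.fac ε n l).natDegree = 2 * D.π + n := fun l => by
    obtain ⟨a1, a2⟩ := monic_hat (h.monic l) (h.degΔ l) ε l
    have a3 := (monic_X_sub_C (nd l)).pow n
    refine ⟨(a1.pow 2).mul a3, ?_⟩
    rw [TD.fac, TD.dh, (a1.pow 2).natDegree_mul a3, natDegree_pow, natDegree_pow, a2,
      natDegree_X_sub_C, mul_one]
  refine ⟨monic_prod_of_monic _ _ fun l _ => (h1 l).1, ?_⟩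
  rw [Fintype.prod_bool, (h1 _).1.natDegree_mul (h1 _).1, (h1 _).2, (h1 _).2]
  ring

theorem cpow {c : ℂ} {n m : ℕ} {f : Bool → ℂ[X]} (h : ∀ l, (f l).natDegree ≤ m) :
    (C c ^ n * ∑ l, f l).natDegree ≤ m := by
  rw [← C_pow]
  exact (natDegree_C_mul_le _ _).trans (natDegree_sum_le_of_forall_le _ _ fun l _ => h l)

end TgEA

open TgEA in
theorem rowTgE : OfTgE := by
  intro σ J _ _ _ D h
  obtain ⟨B, hB⟩ := h.bdd
  refine ⟨fun ε j => fac h ε _, B + (D.M + 2) * D.π + 4 * D.π + 1, by omega, fun e he => ?_⟩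
  have hw : ∀ i, e ≤ e * D.w i := fun i => Nat.le_mul_of_pos_right _ (h.ok.ok.wpos i)
  have hd : ∀ ε l, (D.dh ε l ^ (D.M + 2)).natDegree ≤ (D.M + 2) * D.π := fun ε l =>
    natDegree_pow_le_of_le _ (deg_hat _ _ _ _)
  refine ⟨fun i => ?_, fun ε ζ G p h1 h2 => ?_⟩
  · refine (cpow (m := B + (D.M + 2) * D.π) fun l => ?_).trans_lt (by have := hw i; omega)
    refine (natDegree_mul_C_le _ _).trans (natDegree_mul_le_of_le (hB _ _) ?_)
    rw [natDegree_pow, natDegree_X_sub_C, mul_one]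
    exact Nat.sub_le _ _
  · have key : ∀ i, (D.xt ε ζ G i).natDegree ≤ (e + 2 * D.a) * D.w i ∧
        (D.xt ε ζ G i).coeff ((e + 2 * D.a) * D.w i) = p i := fun i => by
      have a0 := hw i
      have a1 : (e + 2 * D.a) * D.w i =
          (2 * (D.a * D.w i) + 4 * D.π) + (e * D.w i - 4 * D.π) := by
        rw [add_mul, mul_assoc]
        omega
      have a2 := cpow (c := D.ρ ε) (n := D.w i - 1) fun l => natDegree_mul_le_of_le
        (natDegree_mul_le_of_le (hB l ε) (hd ε (!l))) (deg_hat (D.a * D.w i) (D.T l i) ε l)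
      have a3 := cpow (c := D.ρ ε) (n := D.w i) fun l => natDegree_mul_le_of_le (hd ε (!l))
        (deg_hat (D.a * D.w i + 2 * D.π) (D.Δ l * ∑ j, D.R l i j * ζ l j) ε l)
      obtain ⟨a4, a5⟩ := fac h ε (D.a * D.w i)
      refine ⟨natDegree_add_le_of_degree_le (natDegree_add_le_of_degree_le
        (a2.trans (by omega)) (a3.trans (by omega)))
        (a1 ▸ natDegree_mul_le_of_le a5.le (h1 i)), ?_⟩
      simp only [TD.xt, TD.Th, TD.Zh]
      rw [coeff_add, coeff_add, coeff_eq_zero_of_natDegree_lt (a2.trans_lt (by omega)),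
        coeff_eq_zero_of_natDegree_lt (a3.trans_lt (by omega)), a1,
        coeff_mul_add_eq_of_natDegree_le a5.le (h1 i), h2, ← a5, a4.coeff_natDegree]
      simp
    exact ⟨fun i => (key i).1, fun i => (key i).2⟩

end Pool.Agent.MP_776d16_ag.H7W
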