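import Pool.Agent.MP_776d16_ag.H7W.Spec

/-! Row TgF: the smoothing of two tails and a handle. -/

open Polynomial
open Fintype (card)
open Set (range)

namespace Pool.Agent.MP_776d16_ag.H7W

namespace TgFA

theorem cv_coeff {σ : Type} (D : σ → ℕ) (p : σ → ℂ) (z : (Σ i, Fin (D i)) → ℂ) (i : σ)
    (k : Fin (D i)) : (cv D p z i).coeff k = z ⟨i, k⟩ := by
  rw [cv, coeff_add, coeff_C_mul_X_pow, if_neg k.2.ne, coeff_pol, dif_pos k.2, zero_add]

theorem cv_top {σ : Type} (D : σ → ℕ) (p : σ → ℂ) (z : (Σ i, Fin (D i)) → ℂ) (i : σ) :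
    (cv D p z i).coeff (D i) = p i := by
  rw [cv, coeff_add, coeff_C_mul_X_pow, if_pos rfl, coeff_pol, dif_neg (lt_irrefl _), add_zero]

theorem cv_deg {σ : Type} (D : σ → ℕ) (p : σ → ℂ) (z : (Σ i, Fin (D i)) → ℂ) (i : σ) :
    (cv D p z i).natDegree ≤ D i :=
  natDegree_le_iff_coeff_eq_zero.2 fun k hk => by
    rw [cv, coeff_add, coeff_C_mul_X_pow, if_neg hk.ne', coeff_pol, dif_neg (not_lt.2 hk.le),
      add_zero]

theorem cv_of {σ : Type} (D : σ → ℕ) (p : σ → ℂ) (f : σ → ℂ[X]) (h1 : ∀ i, (f i).natDegree ≤ D i)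
    (h2 : ∀ i, (f i).coeff (D i) = p i) (i : σ) :
    cv D p (fun u => (f u.1).coeff u.2) i = f i := by
  ext k
  rcases lt_trichotomy k (D i) with h | h | h
  · exact cv_coeff D p _ i ⟨k, h⟩
  · rw [h, cv_top, h2]
  · rw [coeff_eq_zero_of_natDegree_lt ((cv_deg D p _ i).trans_lt h),
      coeff_eq_zero_of_natDegree_lt ((h1 i).trans_lt h)]

theorem nd_mem (K : Subfield ℂ) (l : Bool) : nd l ∈ K := by
  cases l
  · exact K.zero_mem
  · exact K.one_mem

theorem nd_ne (l : Bool) : nd l ≠ nd (!l) := by cases l <;> simp [nd]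

theorem QQ_eq (l : Bool) : QQ nd = (X - C (nd l)) * (X - C (nd (!l))) := by
  rw [QQ, Fintype.prod_bool]
  cases l
  · exact mul_comm _ _
  · rfl

theorem QQ_monic (n : ℕ) : (QQ nd ^ n).Monic ∧ (QQ nd ^ n).natDegree = 2 * n := by
  have h : (QQ nd).Monic := by
    rw [QQ_eq true]; exact (monic_X_sub_C _).mul (monic_X_sub_C _)
  refine ⟨h.pow n, ?_⟩
  rw [h.natDegree_pow, QQ_eq true, (monic_X_sub_C _).natDegree_mul (monic_X_sub_C _),
    natDegree_X_sub_C, natDegree_X_sub_C, mul_comm]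

theorem cop (l : Bool) : IsCoprime (X - C (nd l) : ℂ[X]) (X - C (nd (!l))) :=
  isCoprime_X_sub_C_of_isUnit_sub (sub_ne_zero.2 (nd_ne l)).isUnit

theorem dc_QQ (δ : Der) (n : ℕ) : dc δ (QQ nd ^ n) = 0 := by
  have h1 : ∀ l, dc δ (X - C (nd l)) = 0 := fun l => by
    rw [DcA.dc_lin]
    cases l <;> simp [nd]
  have h2 : dc δ (QQ nd) = 0 := by rw [QQ_eq true, DcA.dc_mul, h1, h1]; simp
  induction n with
  | zero => rw [pow_zero, ← C_1, DcA.dc_C]; simp
  | succ n ih => rw [pow_succ, DcA.dc_mul, h2, ih]; simp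

theorem eq_zero_of_coeff {f q : ℂ[X]} {n N : ℕ} (h : QQ nd ^ n * q = f) (h1 : f.natDegree ≤ N)
    (h2 : f.coeff N = 0) (h3 : ∀ k, k < N - 2 * n → q.coeff k = 0) : q = 0 := by
  by_contra hq
  obtain ⟨hm, hd⟩ := QQ_monic n
  have e1 : f.natDegree = 2 * n + q.natDegree := by rw [← h, hm.natDegree_mul' hq, hd]
  have e2 : f ≠ 0 := h ▸ mul_ne_zero hm.ne_zero hq
  have e3 : f.natDegree ≠ N := fun e => leadingCoeff_ne_zero.2 e2 (by rw [leadingCoeff, e, h2])
  exact leadingCoeff_ne_zero.2 hq (h3 _ (by omega))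

theorem pfp_cv (hpf : SPf) (hpp : SPp) (hpq : SPq) {σ U : Type} (K : Subfield ℂ) (D : σ → ℕ)
    (p : σ → ℂ) (hp : ∀ i, p i ∈ K) (r : (Σ i, Fin (D i)) → U) (i : σ) :
    PFP K fun z : U → ℂ => cv D p (fun u => z (r u)) i := by
  unfold cv
  exact hpp.add _ _ _ _ (hpp.mul _ _ _ _ (hpp.C _ _ _ (hpf.const _ _ _ (hp i)))
    (hpp.pow _ _ _ _ (hpp.X _ _))) (hpq.pol _ _ _ (fun k z => z (r ⟨i, k⟩)) fun k => hpf.var _ _ _)

end TgFA

open TgFA in
theorem rowTgF : OfTgF := by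
  intro hrk hpf hpp hpq hsp hkr htop hdc _ hgen hr2 hB hC hD hE σ J _ _ _ D K p hG hO hK hp hp0 hv0
    hvF hΓ
  classical
  obtain ⟨-, e0, he0, hE2⟩ := hE σ J D hG
  obtain ⟨e, Γ, hee, cΓ, oΓ, gΓ, jΓ⟩ := hΓ e0
  obtain ⟨hΦd, hcrv⟩ := hE2 e hee
  obtain ⟨jΦ, ⟨κ, hκ0, hκK, hκ⟩, hC3⟩ := hC σ J D hG
  have ok := hG.ok.ok
  set g : J → MvPolynomial σ ℂ := fun j => bd (D.F j) with hg
  have hw4 : ∀ i, 4 * D.π ≤ e * D.w i := fun i =>
    (he0.trans hee).trans (Nat.le_mul_of_pos_right _ (ok.wpos i))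
  have hd4 : ∀ j, 4 * D.π ≤ e * D.d j := fun j =>
    (he0.trans hee).trans (Nat.le_mul_of_pos_right _ (ok.dpos j))
  obtain ⟨hQm, hQd⟩ := QQ_monic (2 * D.π)
  have hpF : Fib g 0 p := fun j => by
    have := (htop.top σ D.w (g j) (D.d j) e Γ p (ok.hom j) cΓ).2
    rw [oΓ j] at this
    simpa using this.symm
  obtain ⟨⟨hρK, -, hΦK⟩, -⟩ := hD σ J Unit D K hG hO
  have hcom : ∀ j, CoM K (g j) := fun j => ‹SBd›.com σ K _ (hO.F j)
  -- the handle attached to a choice of `G`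
  have hand : ∀ (G : σ → ℂ[X]) (p : σ → ℂ), (∀ i, (G i).natDegree ≤ e * D.w i - 4 * D.π) →
      (∀ i, (G i).coeff (e * D.w i - 4 * D.π) = p i) →
      Crv D.w e (fun i => D.Φ i + QQ nd ^ (2 * D.π) * G i) p := fun G p h1 h2 => by
    have e1 : ∀ i, e * D.w i = 2 * (2 * D.π) + (e * D.w i - 4 * D.π) := fun i => by
      have := hw4 i; omega
    refine ⟨fun i => natDegree_add_le_of_degree_le (hΦd i).le (natDegree_mul_le.trans ?_),
      fun i => ?_⟩
    · rw [hQd, e1 i]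
      exact Nat.add_le_add_left ((h1 i).trans (by have := hw4 i; omega)) _
    · rw [coeff_add, coeff_eq_zero_of_natDegree_lt (hΦd i), zero_add]
      conv_lhs => rw [e1 i]
      rw [coeff_mul_add_eq_of_natDegree_le hQd.le (h1 i), h2, ← hQd, hQm.coeff_natDegree, one_mul]
  -- the initial handle
  have hdiv : ∀ i, QQ nd ^ (2 * D.π) ∣ Γ i - D.Φ i := fun i => by
    have h1 : ∀ l, (X - C (nd l)) ^ (2 * D.π) ∣ Γ i - D.Φ i := fun l => by
      have := dvd_sub (jΓ l i) (jΦ l i)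
      rw [sub_sub_sub_cancel_right, ← mul_sub] at this
      exact (cop l).pow.dvd_of_dvd_mul_left this
    rw [QQ_eq true, mul_pow]
    exact (cop true).pow.mul_dvd (h1 true) (h1 false)
  choose G0 hG0 using hdiv
  have hG0' : ∀ i, D.Φ i + QQ nd ^ (2 * D.π) * G0 i = Γ i := fun i => by rw [← hG0]; ring
  have hG0d : ∀ i, (G0 i).natDegree ≤ e * D.w i - 4 * D.π := fun i => by
    by_cases h0 : G0 i = 0
    · simp [h0]
    have h1 := hQm.natDegree_mul' h0
    rw [← hG0, hQd] at h1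
    have h2 := (natDegree_sub_le (Γ i) (D.Φ i)).trans (max_le (cΓ.deg i) (hΦd i).le)
    omega
  have hG0t : ∀ i, (G0 i).coeff (e * D.w i - 4 * D.π) = p i := fun i => by
    have := (hand G0 _ hG0d fun _ => rfl).top i
    rw [hG0', cΓ.top] at this
    exact this.symm
  -- the chart
  let A : Type := Bool × Σ j, Fin (D.a * D.d j)
  let B : Type := Σ i, Fin (e * D.w i - 4 * D.π)
  let B' : Type := Σ j, Fin (e * D.d j - 4 * D.π)
  let ζ : (Option (A ⊕ B) → ℂ) → Bool → J → ℂ[X] := fun z l j =>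
    pol fun k => z (some (.inl (l, ⟨j, k⟩)))
  let GB : (B → ℂ) → σ → ℂ[X] := fun z => cv (fun i => e * D.w i - 4 * D.π) p z
  let G : (Option (A ⊕ B) → ℂ) → σ → ℂ[X] := fun z => GB fun u => z (some (.inr u))
  have hζd : ∀ z l j, (ζ z l j).degree < (D.a * D.d j : ℕ) := fun z l j => degree_pol _
  have pGB : ∀ i, PFP K fun z => GB z i := fun i => pfp_cv hpf hpp hpq K _ p hp id i
  have pG : ∀ i, PFP K fun z => G z i := fun i =>
    pfp_cv (U := Option (A ⊕ B)) hpf hpp hpq K (fun i => e * D.w i - 4 * D.π) p hp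
      (fun u : B => some (Sum.inr u)) i
  have pζ : ∀ l j, PFP K fun z => ζ z l j := fun l j =>
    hpq.pol (Option (A ⊕ B)) K (D.a * D.d j) (fun k z => z (some (Sum.inl (l, ⟨j, k⟩))))
      fun k => hpf.var _ _ _
  obtain ⟨-, hD2⟩ := hD σ J (Option (A ⊕ B)) D K hG hO
  obtain ⟨pρ, pH, pV⟩ := hD2 (fun z => z none) (fun l j z => ζ z l j) (fun i z => G z i)
    (hpf.var _ _ _) pζ pG
  obtain ⟨-, hD3⟩ := hD σ J B D K hG hO
  obtain ⟨-, pH0, -⟩ := hD3 (fun _ => 0) (fun _ _ _ => 0) (fun i z => GB z i)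
    (hpf.const _ _ _ K.zero_mem) (fun l j => hpp.const _ _ _ fun k => by simp) pGB
  let f : A ⊕ B' → (Option (A ⊕ B) → ℂ) → ℂ := Sum.elim
    (fun q z => (D.H (z none) (ζ z) (G z) q.1 q.2.1).coeff q.2.2)
    fun q z => (D.val (z none) (ζ z) (G z) q.1 /ₘ D.den (z none) q.1).coeff q.2
  let z0 : Option (A ⊕ B) → ℂ := pt 0 (Sum.elim
    (fun q => -(κ q.1 q.2.1)⁻¹ * (D.H 0 0 G0 q.1 q.2.1).coeff q.2.2)
    fun u => (G0 u.1).coeff u.2)
  have hGz0 : G z0 = G0 := funext fun i => cv_of _ p G0 hG0d hG0t i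
  obtain ⟨z, hz, hs, hc⟩ := hkr K (Option (A ⊕ B)) (A ⊕ B') f z0 hK (by
      rintro (q | q)
      · exact hpp.coeff _ _ _ _ (pH q.1 q.2.1)
      · exact hpp.coeff _ _ _ _ (pV q.1)) (by
      rintro (⟨l, j, k⟩ | ⟨j, k⟩)
      · change (D.H 0 (ζ z0) (G z0) l j).coeff k = 0
        rw [hκ _ _ (hζd z0), hGz0, coeff_add, coeff_C_mul, coeff_pol, dif_pos k.2]
        change κ l j * (-(κ l j)⁻¹ * (D.H 0 0 G0 l j).coeff k) + _ = 0
        have := hκ0 l j
        field_simp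
        ring
      · change (D.val 0 (ζ z0) (G z0) j /ₘ D.den 0 j).coeff k = 0
        have := hC3 (ζ z0) (G z0) (hζd z0) hvF j
        rw [hGz0] at this ⊢
        simp only [hG0'] at this
        rw [oΓ j, Pi.zero_apply, C_0, mul_eq_zero, or_iff_right hQm.ne_zero] at this
        rw [this, coeff_zero])
  have low : ∀ l j k, k < D.a * D.d j → (D.H (z none) (ζ z) (G z) l j).coeff k = 0 :=
    fun l j k hk => hz (.inl (l, ⟨j, ⟨k, hk⟩⟩))
  have high : ∀ j k, k < e * D.d j - 4 * D.π →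
      (D.val (z none) (ζ z) (G z) j /ₘ D.den (z none) j).coeff k = 0 :=
    fun j k hk => hz (.inr ⟨j, ⟨k, hk⟩⟩)
  have hGd : ∀ i, (G z i).natDegree ≤ e * D.w i - 4 * D.π := fun i => cv_deg _ p _ i
  have hGt : ∀ i, (G z i).coeff (e * D.w i - 4 * D.π) = p i := fun i => cv_top _ p _ i
  have hε : z none ≠ 0 := by
    intro hε
    rw [hε] at low high
    set Γ' : σ → ℂ[X] := fun i => D.Φ i + QQ nd ^ (2 * D.π) * G z i with hΓ'
    have c' : Crv D.w e Γ' p := hand _ _ hGd hGt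
    have o' : On g 0 Γ' := fun j => by
      have h1 := hC3 (ζ z) (G z) (hζd z) hvF j
      obtain ⟨h2, h3⟩ := htop.top σ D.w (g j) (D.d j) e Γ' p (ok.hom j) c'
      rw [hpF j] at h3
      have h4 := eq_zero_of_coeff h1 h2 h3 fun k hk => high j k (by omega)
      rw [h4, mul_zero] at h1
      rw [Pi.zero_apply, C_0]
      exact h1.symm
    have two : (2 : ℂ) ∈ K := by exact_mod_cast natCast_mem K 2
    have pQ : PFP K fun _ : Option (A ⊕ B) → ℂ => QQ nd ^ (2 * D.π) :=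
      hpp.pow _ _ _ _ (hpp.prod _ _ _ _ (fun l _ => X - C (nd l)) fun l _ =>
        hpp.sub _ _ _ _ (hpp.X _ _) (hpp.C _ _ _ (hpf.const _ _ _ (nd_mem K l))))
    have sp := hsp.map _ _ K z z0
      (fun i z => (D.Φ i + QQ nd ^ (2 * D.π) * G z i).eval 2) hs fun i =>
        hpp.eval _ _ _ _ (hpp.add _ _ _ _ (hpp.const _ _ _ (hΦK i)) (hpp.mul _ _ _ _ pQ (pG i)))
          (hpf.const _ _ _ two)
    rw [hGz0] at sp
    simp only [hG0'] at sp
    have g' : Gen K g (ev Γ' 2) := (hgen σ J g ok.sm).spec K _ _ sp gΓ fun j => by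
      rw [← eval_aeval, o' j, eval_C]
    have hdc' : ∀ δ ∈ Kil K, ∀ i, dc δ (Γ' i) = QQ nd ^ (2 * D.π) * dc δ (G z i) :=
      fun δ hδ i => by
        simp only [hΓ']
        rw [DcA.dc_add, DcA.dc_mul, dc_QQ, hdc.cop K δ _ hδ (hΦK i), mul_zero, add_zero, zero_add]
    have bd := hr2 σ J D.w D.d g ok K e Γ' p 2 (QQ nd ^ (2 * D.π)) hcom two c' o' hp0 g'
      (by rw [QQ_eq true]; norm_num [nd]) (fun a ha => by
        rw [eval_pow, pow_eq_zero_iff (by have := hG.πpos; omega), QQ, eval_prod,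
          Finset.prod_eq_zero_iff] at ha
        obtain ⟨l, -, hl⟩ := ha
        rw [eval_sub, eval_X, eval_C, sub_eq_zero] at hl
        subst hl
        intro h0
        refine hv0 l (funext fun i => ?_)
        have h1 : (X - C (nd l)) ^ (2 * D.π) ∣ QQ nd ^ (2 * D.π) * G z i := by
          rw [QQ_eq l, mul_pow, mul_assoc]
          exact dvd_mul_right _ _
        have h2 := dvd_add (jΦ l i) (h1.mul_left ((X - C (nd (!l))) ^ (D.a * D.w i)))
        have h3 := ((dvd_pow_self (X - C (nd l)) (by have := hG.πpos; omega)).trans h2)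
        rw [dvd_iff_isRoot, IsRoot.def] at h3
        have h4 : (D.Φ i + QQ nd ^ (2 * D.π) * G z i).eval (nd l) = 0 := congrFun h0 i
        have h5 : sc D.w (D.ρ 0) (D.v l) i = 0 := by
          simp only [eval_add, eval_sub, eval_mul, eval_C] at h3 h4
          linear_combination
            (eval (nd l) ((X - C (nd (!l))) ^ (D.a * D.w i))) * h4 - h3
        exact (mul_eq_zero.1 h5).resolve_left (pow_ne_zero _ hG.ρ0))
      (fun δ hδ i => by rw [hdc' δ hδ i]; exact dvd_mul_right _ _)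
    have r1 : rk K (range z) ≤ rk K (cf Γ') := hrk.mono _ _ _ (cf_finite _) fun δ hδ h => by
      have h1 : ∀ u : B, δ (z (some (.inr u))) = 0 := fun u => by
        have h2 : dc δ (Γ' u.1) = 0 := by
          ext k
          rw [DcA.coeff_dc, coeff_zero]
          exact h _ ⟨u.1, k, rfl⟩
        rw [hdc' δ hδ, mul_eq_zero, or_iff_right hQm.ne_zero] at h2
        have h3 := DcA.coeff_dc δ (G z u.1) u.2
        rw [h2, coeff_zero] at h3
        rw [h3]
        exact congrArg δ (cv_coeff _ p (fun u => z (some (.inr u))) u.1 u.2).symm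
      rw [mem_Kil_range]
      rintro (_ | ⟨l, j, k⟩ | u)
      · rw [hε, map_zero]
      · have h2 := low l j k k.2
        rw [hκ _ _ (hζd z), coeff_add, coeff_C_mul, coeff_pol, dif_pos k.2] at h2
        have h3 := hpf.der _ K _ (fun u => z (some (.inr u))) δ (hpp.coeff _ _ _ k (pH0 l j)) hδ h1
        have h4 := congrArg δ h2
        rw [map_add, Derivation.leibniz, hδ _ (hκK K hρK l j), map_zero, smul_zero, add_zero,
          smul_eq_mul] at h4
        have h5 : κ l j * δ (z (some (.inl (l, ⟨j, k⟩)))) = 0 := by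
          rw [← h4]
          exact (add_zero _).symm.trans (congrArg _ h3.symm)
        exact (mul_eq_zero.1 h5).resolve_left (hκ0 l j)
      · exact h1 u
    have r2 : rk K (cf Γ') ≤ rk (K ∪ range p) (cf Γ') :=
      hrk.anti _ _ _ (cf_finite _) fun δ hδ =>
        mem_Kil_union.2 ⟨hδ, mem_Kil_range.2 fun i => hδ _ (hp i)⟩
    have cB : card B + card σ * (4 * D.π) = e * ∑ i, D.w i := by
      simp only [B, Fintype.card_sigma, Fintype.card_fin]
      rw [Finset.mul_sum, ← Finset.card_univ, ← smul_eq_mul (Finset.card _), ← Finset.sum_const,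
        ← Finset.sum_add_distrib]
      exact Finset.sum_congr rfl fun i _ => Nat.sub_add_cancel (hw4 i)
    have cB' : card B' + card J * (4 * D.π) = e * ∑ j, D.d j := by
      simp only [B', Fintype.card_sigma, Fintype.card_fin]
      rw [Finset.mul_sum, ← Finset.card_univ, ← smul_eq_mul (Finset.card _), ← Finset.sum_const,
        ← Finset.sum_add_distrib]
      exact Finset.sum_congr rfl fun j _ => Nat.sub_add_cancel (hd4 j)
    rw [Fintype.card_option, Fintype.card_sum, Fintype.card_sum] at hc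
    rw [Bd, hQd, show 2 * (2 * D.π) = 4 * D.π by ring] at bd
    omega
  have hρ : D.ρ (z none) ≠ 0 := hsp.ne _ K z z0 _ hs pρ hG.ρ0
  have cx := hcrv (z none) (ζ z) (G z) p hGd hGt
  obtain ⟨b1, b2⟩ := hB σ J D hG (z none) (ζ z) (G z) p e (hζd z) hε hρ cx hpF low high
  exact ⟨e + 2 * D.a, _, _, by have := hG.apos; omega, mul_ne_zero hρ (pow_ne_zero _ hε), cx,
    b1, b2⟩

end Pool.Agent.MP_776d16_ag.H7W
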