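import Pool.Agent.MP_776d16_ag.H7W.Spec

/-!
Nodes with prescribed residues.
-/

open Polynomial Finset
open Fintype (card)

namespace Pool.Agent.MP_776d16_ag.H7W

namespace VdmA

variable {L : Type} [Fintype L] [DecidableEq L] {β s : L → ℂ} {m : ℕ}

omit [DecidableEq L] in
theorem lin (h : ∀ k < m, ∑ l, β l * s l ^ (k + 1) = 0) {q : ℂ[X]} (hq : q.natDegree ≤ m) :
    ∑ l, β l * s l * q.eval (s l) = q.coeff m * ∑ l, β l * s l ^ (m + 1) := by
  have e : ∀ l, β l * s l * q.eval (s l) =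
      ∑ k ∈ range (m + 1), q.coeff k * (β l * s l ^ (k + 1)) := fun l => by
    rw [eval_eq_sum_range' (Nat.lt_succ_of_le hq), mul_sum]
    exact sum_congr rfl fun k _ => by ring
  simp only [e]
  rw [sum_comm, sum_range_succ, ← mul_sum, sum_eq_zero fun k hk => by
    rw [← mul_sum, h k (mem_range.1 hk), mul_zero], zero_add]

theorem main (hβ : ∀ t : Finset L, t.Nonempty → ∑ l ∈ t, β l ≠ 0) (hm : card L = m + 1)
    (h : ∀ k < m, ∑ l, β l * s l ^ (k + 1) = 0) (hs : s ≠ 0) :
    Function.Injective s ∧ (∀ l, s l ≠ 0) ∧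
      ∀ l, β l * s l * (uu s l).eval (s l) = ∑ l, β l * s l ^ (m + 1) := by
  have h1 : m + 1 ≤ #((univ.image s).erase 0) := by
    by_contra! h1
    obtain ⟨l, hl⟩ := Function.ne_iff.1 hs
    have h2 : s l ∈ (univ.image s).erase 0 := mem_erase.2 ⟨hl, mem_image_of_mem _ (mem_univ _)⟩
    have h3 : (∏ u ∈ ((univ.image s).erase 0).erase (s l), (X - C u)).natDegree < m := by
      have := card_pos.2 ⟨_, h2⟩
      rw [natDegree_prod_of_monic _ _ fun _ _ => monic_X_sub_C _]
      simp only [natDegree_X_sub_C, sum_const, card_erase_of_mem h2, smul_eq_mul]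
      omega
    have h4 := lin h h3.le
    rw [coeff_eq_zero_of_natDegree_lt h3, zero_mul, ← sum_filter_of_ne (p := fun i => s i = s l),
      sum_congr rfl fun i hi => by rw [(mem_filter.1 hi).2], ← sum_mul, ← sum_mul] at h4
    · refine mul_ne_zero (mul_ne_zero (hβ _ ⟨l, by simp⟩) hl) ?_ h4
      rw [eval_prod]
      exact prod_ne_zero_iff.2 fun u hu => by simpa [sub_eq_zero] using (mem_erase.1 hu).1.symm
    · intro i _ hi
      by_contra e
      refine right_ne_zero_of_mul hi ?_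
      rw [eval_prod]
      exact prod_eq_zero (mem_erase.2 ⟨e, mem_erase.2 ⟨right_ne_zero_of_mul
        (left_ne_zero_of_mul hi), mem_image_of_mem _ (mem_univ _)⟩⟩) (by simp)
  have h2 : #(univ.image s) ≤ m + 1 := card_image_le.trans hm.le
  have h3 : Function.Injective s := Set.injOn_univ.1 (by
    simpa using card_image_iff.1 (le_antisymm card_image_le
      (hm.le.trans (h1.trans card_erase_le))))
  refine ⟨h3, fun l e => ?_, fun l => ?_⟩
  · rw [card_erase_of_mem (mem_image.2 ⟨l, mem_univ _, e⟩)] at h1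
    omega
  · have h4 : (uu s l).Monic := monic_prod_of_monic _ _ fun _ _ => monic_X_sub_C _
    have h5 : (uu s l).natDegree = m := by
      rw [uu, natDegree_prod_of_monic _ _ fun _ _ => monic_X_sub_C _]
      simp [hm]
    have h6 := lin h h5.le
    rw [← h5, h4.coeff_natDegree, one_mul, h5, sum_eq_single l (fun i _ hi => ?_) (by simp)] at h6
    · exact h6
    · rw [uu, eval_prod, prod_eq_zero (mem_erase.2 ⟨hi, mem_univ _⟩) (by simp), mul_zero]

theorem ne (hs : Function.Injective s) (l : L) : (uu s l).eval (s l) ≠ 0 := by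
  rw [uu, eval_prod]
  exact prod_ne_zero_iff.2 fun u hu => by
    simpa [sub_eq_zero] using hs.ne (mem_erase.1 hu).1.symm

end VdmA

open VdmA

theorem rowVdm : OfVdm := by
  intro L _ _ _ β hβ
  obtain ⟨m, hm⟩ := Nat.exists_eq_add_one_of_ne_zero (Fintype.card_ne_zero (α := L))
  obtain ⟨s, hs, h⟩ := sKrull0 L (Fin m)
    (fun k => ∑ l, MvPolynomial.C (β l) * MvPolynomial.X l ^ (k.1 + 1)) (by simp) (by simp [hm])
  replace h : ∀ k < m, ∑ l, β l * s l ^ (k + 1) = 0 := fun k hk => by simpa using h ⟨k, hk⟩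
  obtain ⟨h1, h2, h3⟩ := main hβ hm h hs
  obtain ⟨l₀⟩ := ‹Nonempty L›
  have hκ : ∑ l, β l * s l ^ (m + 1) ≠ 0 := h3 l₀ ▸ mul_ne_zero
    (mul_ne_zero (by simpa using hβ {l₀} (singleton_nonempty _)) (h2 _)) (ne h1 _)
  obtain ⟨μ, hμ⟩ := IsAlgClosed.exists_pow_nat_eq (-(∑ l, β l * s l ^ (m + 1))⁻¹) m.succ_pos
  have e : ∀ k, ∑ l, β l * (μ * s l) ^ k = μ ^ k * ∑ l, β l * s l ^ k := fun k => by
    rw [mul_sum]
    exact sum_congr rfl fun _ _ => by ring
  obtain ⟨t, a1, a2, a3⟩ : ∃ t : L → ℂ, Function.Injective t ∧ (∀ l, t l ≠ 0) ∧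
      ∀ l, β l * t l * (uu t l).eval (t l) = -1 := by
    have := main (s := fun l => μ * s l) hβ hm (fun k hk => by
      rw [e, h k hk, mul_zero]) (Function.ne_iff.2 ⟨l₀, mul_ne_zero (by
        rintro rfl
        simp [hκ] at hμ) (h2 _)⟩)
    rw [e, hμ, neg_mul, inv_mul_cancel₀ hκ] at this
    exact ⟨_, this⟩
  refine ⟨t, a1, a2, a3, ?_⟩
  have := congrArg (eval 0) (Lagrange.sum_basis a1.injOn (univ_nonempty (α := L)))
  rw [eval_one, eval_finsetSum] at this
  rw [← this, sum_mul]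
  refine sum_congr rfl fun l _ => mul_right_cancel₀ (ne a1 l) ?_
  rw [QQ, ← mul_prod_erase _ _ (mem_univ l), eval_mul]
  have e1 : (Lagrange.basis univ t l).eval 0 * (uu t l).eval (t l) = (uu t l).eval 0 := by
    simp only [Lagrange.basis, Lagrange.basisDivisor, uu, eval_prod, ← prod_mul_distrib]
    refine prod_congr rfl fun i hi => ?_
    have := sub_ne_zero.2 (a1.ne (mem_erase.1 hi).1.symm)
    simp
    field_simp
  rw [e1, ← uu]
  simp only [eval_sub, eval_X, eval_C]
  linear_combination -(uu t l).eval 0 * a3 l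

end Pool.Agent.MP_776d16_ag.H7W
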