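import Pool.Agent.MP_776d16_ag.H7W.Spec

/-!
A very free curve in a generic fibre.
-/

open Polynomial
open MvPolynomial (pderiv IsWeightedHomogeneous)
open Fintype (card)
open Set (range)

namespace Pool.Agent.MP_776d16_ag.H7W

namespace VfA

theorem kil_sub {S S' : Set ℂ} (h : S ⊆ S') {δ : Der} (hδ : δ ∈ Kil S') : δ ∈ Kil S :=
  mem_Kil.2 fun a ha => mem_Kil.1 hδ a (h ha)

theorem duals (hR : SRk) {L : Type} [Fintype L] [DecidableEq L] {S : Set ℂ} {β : L → ℂ}
    (h : card L ≤ rk S (range β)) :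
    ∃ δ : L → Der, (∀ l, δ l ∈ Kil S) ∧ ∀ l l', δ l (β l') = if l' = l then 1 else 0 := by
  choose δ h1 h2 using fun l => hR.full L S β h fun l' => if l' = l then 1 else 0
  exact ⟨δ, h1, h2⟩

theorem sums {L : Type} [Fintype L] [DecidableEq L] {β : L → ℂ} {δ : L → Der}
    (h : ∀ l l', δ l (β l') = if l' = l then 1 else 0) (t : Finset L) (ht : t.Nonempty) :
    ∑ l ∈ t, β l ≠ 0 := by
  obtain ⟨l, hl⟩ := ht
  intro h0
  have h1 := congrArg (δ l) h0
  rw [map_sum, map_zero] at h1
  simp only [h, Finset.sum_ite_eq', if_pos hl] at h1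
  exact one_ne_zero h1

theorem span (hR : SRk) {L U : Type} [Fintype L] [DecidableEq L] [Fintype U] {S : Set ℂ}
    {β : L → ℂ} {δ : L → Der} {v : L → U → ℂ} (hS : ∀ l, δ l ∈ Kil S)
    (h : ∀ l l', δ l (β l') = if l' = l then 1 else 0) (hv : ∀ l l' u, δ l (v l' u) = 0)
    (hli : LinearIndependent ℂ v) : card L ≤ rk S (range fun u => ∑ l, β l * v l u) := by
  refine hR.ge S _ L δ (Set.finite_range _) hS fun c hc => ?_
  have h1 : ∀ l u, δ l (∑ l', β l' * v l' u) = v l u := fun l u => by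
    rw [map_sum]
    simp only [Derivation.leibniz, hv, h, smul_eq_mul, mul_zero, zero_add, mul_ite, mul_one,
      Finset.sum_ite_eq', Finset.mem_univ, if_true]
  funext l
  refine Fintype.linearIndependent_iff.1 hli c ?_ l
  funext u
  have h2 := hc _ ⟨u, rfl⟩
  simp only [h1] at h2
  simpa only [Finset.sum_apply, Pi.smul_apply, smul_eq_mul, Pi.zero_apply] using h2

end VfA

open VfA in
theorem rowVf : OfVf := by
  intro hR hP hSp hLow hD hL hG hSl hV hA σ J _ _ w d g ok S p hS hg hp
  classical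
  have G := hG σ J g ok.sm
  have hSp' : (S ∪ range p).Countable := hS.union (Set.countable_range p)
  obtain ⟨c, hc⟩ := hR.free J _ hSp'
  have hp1 : Gen (S ∪ range c) g p := G.ext S p J c hp hc
  have hsm : Sm g c := fun x _ hx => G.smc S c hg
    (hc.trans (hR.anti S _ _ (Set.finite_range c) fun δ hδ => (mem_Kil_union.1 hδ).1)) x hx
  obtain ⟨m, b, hm, hb, hon, hli⟩ := hSl σ J w d g ok S p c hS hg hp hc
  obtain ⟨K, hK, hSK, -⟩ := hR.ext _ (hSp'.union (Set.countable_range c))
  obtain ⟨β, hβ⟩ := hR.free (Fin (m + 1))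
    ((K : Set ℂ) ∪ range fun q : Fin (m + 1) × σ => slope w (b q.1) q.2)
    (hK.union (Set.countable_range _))
  obtain ⟨δ, hδ, hδβ⟩ := duals hR hβ
  obtain ⟨s, hs, hs0, hs1, hs2⟩ := hV (Fin (m + 1)) β (sums hδβ)
  obtain ⟨K', hK', hKK, -⟩ := hR.ext _ (hK.union (Set.countable_range s))
  have hle : (K : Set ℂ) ⊆ K' := fun a ha => hKK (Or.inl ha)
  obtain ⟨ε, η, T, hε, hsp, hT, hTon, hT0⟩ := hA σ J (Fin (m + 1)) w d g ok (S ∪ range c) K' p c
    b s β hK'
    (fun a ha => hle (hSK (ha.elim (fun h => Or.inl (Or.inl h)) Or.inr)))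
    (fun j n => Or.inl (hg j n)) (fun j => Or.inr ⟨j, rfl⟩)
    (fun i => hle (hSK (Or.inl (Or.inr ⟨i, rfl⟩)))) (fun l => hKK (Or.inr ⟨l, rfl⟩)) hp1 hsm hb hon
    hs hs0 hs1 hs2
  refine ⟨_, T, _, hT, hTon, ?_⟩
  have h1 := hLow (Option σ) K K' ε η _ hle hε hsp
  have h2 := span hR (S := (K : Set ℂ)) (v := fun l => pt (1 : ℂ) (slope w (b l)))
    (fun l => (mem_Kil_union.1 (hδ l)).1) hδβ (fun l l' u => by
      cases u with
      | none => exact (δ l).map_one_eq_zero
      | some i => exact mem_Kil_range.1 (mem_Kil_union.1 (hδ l)).2 (l', i)) hli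
  have hη : η none ≠ 0 := by
    refine hSp.ne _ K' _ _ (fun z => z (some none)) hsp (hP.var _ K' _) ?_
    have h0 := sums hδβ Finset.univ Finset.univ_nonempty
    simpa only [pt, Option.elim, mul_one] using h0
  have ht : ε * η none ≠ 0 := mul_ne_zero hε hη
  have h3 := hR.tower (S ∪ range p) (range c) (range fun u => ε * η u) (Set.finite_range _)
    (Set.finite_range _)
  have h4 := hR.anti (S ∪ range p ∪ range c) K (range fun u => ε * η u) (Set.finite_range _)
    fun δ' h => kil_sub hSK h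
  have h5 := hR.tower (S ∪ range p) (range (ev T 0)) (range fun _ : Unit => ε * η none)
    (Set.finite_range _) (Set.finite_range _)
  have h6 := hR.le_card Unit (S ∪ range p ∪ range (ev T 0)) fun _ => ε * η none
  have h7 := hR.mono (S ∪ range p) (range (ev T 0) ∪ range fun _ : Unit => ε * η none)
    (range c ∪ range fun u => ε * η u) ((Set.finite_range _).union (Set.finite_range _))
    fun δ' k1 k2 => by
      obtain ⟨kS, kp⟩ := mem_Kil_union.1 k1
      obtain ⟨kx, kt⟩ := mem_Kil_union.1 k2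
      have kt' : δ' (ε * η none) = 0 := mem_Kil_range.1 kt ()
      refine mem_Kil_union.2 ⟨mem_Kil_range.2 fun j => ?_, mem_Kil_range.2 fun u => ?_⟩
      · have e1 := hD.der σ S δ' (g j) (ev T 0) kS (hg j)
        have e2 := (hL σ J w d g ok.hom).fib0 _ T 0 hTon j
        simp only [mem_Kil_range.1 kx, mul_zero, Finset.sum_const_zero] at e1
        rw [e2, Derivation.leibniz, Derivation.leibniz_pow, kt', smul_zero, smul_zero, smul_zero,
          zero_add, smul_eq_mul] at e1
        exact (mul_eq_zero.1 e1).resolve_left (pow_ne_zero _ ht)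
      · cases u with
        | none => exact kt'
        | some i =>
          have e1 := mem_Kil_range.1 kx i
          rw [hT0, map_add, mem_Kil_range.1 kp i, zero_add] at e1
          exact e1
  simp only [Fintype.card_fin, Fintype.card_unit] at h2 h6
  omega

end Pool.Agent.MP_776d16_ag.H7W
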