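import Pool.Agent.MP_776d16_ag.H7W.Spec

/-!
Gluing lines at one generic point.
-/

open Polynomial
open Fintype (card)
open Set (range)

namespace Pool.Agent.MP_776d16_ag.H7W

namespace VfAA

theorem hz_step {D : ℕ} {f : ℂ[X]} (h0 : 0 < D) (h : f.degree < (1 * D : ℕ)) (ε : ℂ) :
    hz (1 * D) f ε = C ε * hz (D - 1) f ε := by
  ext k
  rw [one_mul] at h
  rw [one_mul, coeff_C_mul, coeff_hz, coeff_hz]
  split_ifs with h1 h2 h2
  · rw [show D - k = D - 1 - k + 1 by omega]
    ring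
  · rw [(degree_lt_iff_coeff_zero _ _).1 h k (by omega), zero_mul, mul_zero]
  · omega
  · rw [mul_zero]

/-- The lower parts of the teeth. -/
noncomputable def B {σ L : Type} (w : σ → ℕ) (z : Option (L × Σ i, Fin (1 * w i)) → ℂ) (l : L)
    (i : σ) : ℂ[X] := pol fun k => z (some (l, ⟨i, k⟩))

end VfAA

open VfAA in
theorem rowVfA : OfVfA := by
  intro hRk hPf hPp hPq hSp hKr hTop hLink hR1 hGlP hGlI hGlS hGlZ σ J L _ _ _ _ _ w d g ok S K p c
    b s β hK hSK hg hc hp hs hgen hsm hb hon hinj hs0 hβ hQ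
  obtain ⟨u, hu⟩ : ∃ u : L → ℂ, ∀ l, u l = (uu s l).eval (s l) := ⟨_, fun _ => rfl⟩
  simp only [← hu] at hβ
  have u0 : ∀ l, u l ≠ 0 := fun l e => by simpa [e] using hβ l
  have uK : ∀ l, u l ∈ K := fun l => by
    rw [hu, uu, eval_prod]
    exact prod_mem fun l' _ => by simpa using sub_mem (hs l) (hs l')
  have hβ' : ∀ l, β l = (u l)⁻¹ * (-s l)⁻¹ := fun l => by
    have := u0 l
    have := hs0 l
    field_simp
    linear_combination hβ l
  have gK : ∀ j, CoM K (g j) := fun j m => hSK (hg j m)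
  have crv : Crv w 0 (fun i => C (p i)) p := ⟨fun i => by simp, fun i => by simp⟩
  have ev0 : ∀ l, ev (fun i => C (p i)) (s l) = p := fun l => funext fun i => eval_C
  have hZ := fun (B : L → σ → ℂ[X]) (ε : L → ℂ) h1 h2 => hGlZ σ J L w d g 1 0 s (fun i => C (p i)) p
    B ε 0 (fun l j => (u l ^ 1) ^ d j * c j) (fun _ => c) ok.wpos ok.dpos ok.hom one_pos hinj crv
    hgen.2.1 h1 h2 (fun _ => rfl) fun l j => by rw [hu]
  simp only [ev0] at hZ
  have dB : ∀ (z : Option (L × Σ i, Fin (1 * w i)) → ℂ) l i, (B w z l i).degree < (1 * w i : ℕ) :=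
    fun z l i => degree_pol _
  have pB : ∀ (l : L) i, PFP K fun z => B w z l i := fun l i =>
    hPq.pol _ K _ _ fun k => hPf.var _ K _
  have pε : ∀ l, PF K fun z : Option (L × Σ i, Fin (1 * w i)) → ℂ => (u l)⁻¹ * z none := fun l =>
    hPf.mul _ K _ _ (hPf.const _ K _ (inv_mem (uK l))) (hPf.var _ K _)
  let z0 : Option (L × Σ i, Fin (1 * w i)) → ℂ := pt 0 fun x => (b x.1 x.2.1).coeff x.2.2
  have e0 : B w z0 = b := funext fun l => funext fun i => pol_coeff (hb l i)
  obtain ⟨z, h1, h2, h3⟩ := hKr K _ (L × Σ j, Fin (1 * d j)) (fun q z => (gLow g w 1 s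
    (fun i => C (p i)) (B w z) (fun l => (u l)⁻¹ * z none) (fun l j => (u l ^ 1) ^ d j * c j)
      q.1 q.2.1).coeff q.2.2) z0 hK
    (fun q => (hGlP σ J L _ K w d g 1 s (fun i _ => C (p i)) (fun l i z => B w z l i)
      (fun l z => (u l)⁻¹ * z none) (fun _ _ => 0) (fun l j _ => (u l ^ 1) ^ d j * c j) gK hs
      (fun i => hPp.C _ K _ (hPf.const _ K _ (hp i))) pB pε (fun _ => hPf.const _ K _ (zero_mem _))
      fun l j => hPf.const _ K _ (mul_mem (pow_mem (pow_mem (uK l) _) _) (hSK (hc j)))).1 _ _ _)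
    fun q => ((hZ (B w z0) _ (dB z0) fun l => mul_zero _).2
      ⟨fun j => by rw [aeval_C', hgen.2.1 j], e0 ▸ hon⟩).1 _ _ _ q.2.2.2
  have h1' := fun l j k (hk : k < 1 * d j) => h1 (l, ⟨j, k, hk⟩)
  have z1 : z none ≠ 0 := fun e => by
    have a1 := ((hZ (B w z) _ (dB z) fun l => by rw [e, mul_zero]).1
      ⟨h1', fun j k hk => absurd hk (by simp)⟩).2
    have a2 : ∀ l, rk K (cf (tooth w 1 p (B w z l))) + ∑ j, d j ≤ ∑ i, w i := fun l => by
      have := (hR1 σ J w d g ok S c 1 _ p hg hc ((hLink σ J w d g ok.hom).crv 1 p _ (dB z l))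
        (a1 l) hgen).1 1 hsm one_ne_zero (fun a h => by simp at h) fun _ _ _ => one_dvd _
      have := hRk.anti (S ∪ range p) K _ (cf_finite (tooth w 1 p (B w z l))) fun δ h a ha =>
        h a (ha.elim (fun k => hSK k) fun ⟨i, k⟩ => k ▸ hp i)
      simp only [Bd, natDegree_one] at *
      omega
    have a3 := (hRk.mono K _ (range z) (Set.finite_iUnion fun l => cf_finite _) fun δ _ h =>
      mem_Kil_range.2 fun q => by
        rcases q with _ | ⟨l, i, k⟩
        · rw [e, map_zero]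
        · refine h _ (Set.mem_iUnion.2 ⟨l, i, k, ?_⟩)
          rw [tooth, coeff_add, coeff_C_mul_X_pow, if_neg k.2.ne, zero_add, B, coeff_pol,
            dif_pos k.2]).trans (hRk.sum K L (fun l => cf (tooth w 1 p (B w z l)))
              fun l => cf_finite _)
    have a4 := Finset.sum_le_sum fun l (_ : l ∈ Finset.univ) => a2 l
    simp only [Finset.sum_add_distrib, Finset.sum_const, Finset.card_univ, smul_eq_mul] at a4
    simp only [Fintype.card_option, Fintype.card_prod, Fintype.card_sigma, Fintype.card_fin,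
      one_mul] at h3
    omega
  have a1 := hGlS σ J L w d g 1 0 s _ p (B w z) (fun l => (u l)⁻¹ * z none)
    (fun j => c j * z none ^ d j) _ ok.wpos ok.dpos ok.hom one_pos hinj crv hgen.2.1 (dB z)
    (fun l j => by
      rw [one_mul, pow_one, ← mul_assoc, ← mul_pow, mul_right_comm, inv_mul_cancel₀ (u0 l), one_mul,
        mul_comm]) h1' fun j k hk => absurd hk (by simp)
  have a2 := (hGlI σ L w 1 s _ (B w z) (fun l => (u l)⁻¹ * z none) ok.wpos one_pos (dB z)).crv 0 p
    crv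
  rw [zero_add, mul_one] at a2
  obtain ⟨μ, hμ⟩ := IsAlgClosed.exists_pow_nat_eq ((QQ s).eval 0) (Fintype.card_pos (α := L))
  let η : σ → (Option (L × Σ i, Fin (1 * w i)) → ℂ) → ℂ := fun i z => ∑ l, (u l)⁻¹ *
    (-s l)⁻¹ ^ w i * (hz (w i - 1) (B w z l i) ((u l)⁻¹ * z none)).eval (-s l)
  have a3 := hSp.map _ (Option (Option σ)) K z z0
    (fun v z => pt (z none) (pt (∑ l, β l) fun i => η i z) v) h2 (by
      rintro (_ | _ | i)
      · exact hPf.var _ K _
      · exact hPf.const _ K _ (sum_mem fun l _ => hβ' l ▸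
          mul_mem (inv_mem (uK l)) (inv_mem (neg_mem (hs l))))
      · exact hPf.sum _ L K _ _ fun l _ => hPf.mul _ K _ _ (hPf.const _ K _ (mul_mem
          (inv_mem (uK l)) (pow_mem (inv_mem (neg_mem (hs l))) _))) (hPp.eval _ K _ _
            (hPq.hz _ K _ _ _ (pB l i) (pε l)) (hPf.const _ K _ (neg_mem (hs l)))))
  refine ⟨z none, pt (∑ l, β l) fun i => η i z, fun i => C (∑ l, β l) ^ w i *
    (gx w 1 s (fun i => C (p i)) (B w z) (fun l => (u l)⁻¹ * z none) i).comp (C μ * X), z1, ?_,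
    ⟨fun i => ?_, fun i => ?_⟩, fun j => ?_, fun i => ?_⟩
  · convert a3 using 1
    funext v
    rcases v with _ | _ | i
    · rfl
    · simp [pt]
    · refine Finset.sum_congr rfl fun l _ => ?_
      obtain ⟨n, hn⟩ := Nat.exists_eq_succ_of_ne_zero (ok.wpos i).ne'
      have := neg_ne_zero.2 (hs0 l)
      rw [e0, show z0 none = 0 from rfl, mul_zero, hz_zero, hβ' l]
      simp only [pt, slope, Option.elim, eval_mul, eval_C, eval_pow, eval_X, hn, Nat.succ_sub_one]
      generalize -s l = t at this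
      rw [Nat.succ_eq_add_one, pow_succ, inv_pow]
      field_simp
  · refine natDegree_le_iff_coeff_eq_zero.2 fun k hk => ?_
    rw [← C_pow, coeff_C_mul, comp_C_mul_X_coeff,
      coeff_eq_zero_of_natDegree_lt ((a2.deg i).trans_lt hk), zero_mul, mul_zero]
  · rw [← C_pow, coeff_C_mul, comp_C_mul_X_coeff, a2.top, pow_mul, hμ, mul_left_comm, ← mul_pow, hQ,
      one_pow, mul_one]
  · rw [hTop.scale _ w _ _ _ _ (ok.hom j), ← aeval_comp', a1 j, C_comp, ← C_pow, ← C_mul]
    simp only [pt, Option.elim]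
    congr 1
    ring
  · have a4 : ∀ l, (∑ l, β l) * (uu s l).eval 0 = (-s l)⁻¹ := fun l => by
      rw [QQ, ← Finset.prod_erase_mul _ _ (Finset.mem_univ l), eval_mul, ← mul_assoc] at hQ
      exact eq_inv_of_mul_eq_one_left (by simpa [uu] using hQ)
    simp only [ev, gx, hz_step (ok.wpos i) (dB z _ i), pt, Option.elim, η]
    simp only [eval_mul, eval_pow, eval_C, eval_comp, eval_X, mul_zero, eval_add, eval_finsetSum,
      eval_sub, zero_sub, one_mul, mul_add, Finset.mul_sum (f := fun l => _ * (_ * eval _ _)),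
      ← mul_assoc, ← mul_pow, hQ, a4, one_pow]
    congr 1
    rw [Finset.mul_sum, Finset.mul_sum]
    refine Finset.sum_congr rfl fun l _ => ?_
    rw [← a4 l]
    ring

end Pool.Agent.MP_776d16_ag.H7W
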