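import Pool.Agent.MP_776d16_ag.H7W.Spec

/-!
Row Wone: a polynomial of weighted degree at most `m` vanishing to order `m` at a point depends
only on the coordinates of weight one.
-/

open Polynomial

namespace Pool.Agent.MP_776d16_ag.H7W

namespace WoneA

theorem deg_le {V : Type} [Fintype V] (a x : V → ℂ) (s : V →₀ ℕ) :
    (∏ v, (C (a v) + C (x v) * X : ℂ[X]) ^ s v).natDegree ≤ ∑ v, s v := by
  refine (natDegree_prod_le _ _).trans (Finset.sum_le_sum fun v _ => ?_)
  refine natDegree_pow_le.trans ?_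
  have h : (C (a v) + C (x v) * X : ℂ[X]).natDegree ≤ 1 := by
    rw [add_comm]
    exact natDegree_linear_le
  calc s v * (C (a v) + C (x v) * X : ℂ[X]).natDegree ≤ s v * 1 := Nat.mul_le_mul_left _ h
    _ = s v := mul_one _

theorem expand {V : Type} [Fintype V] (a x : V → ℂ) (Φ : MvPolynomial V ℂ) :
    MvPolynomial.aeval (fun v => (C (a v) + C (x v) * X : ℂ[X])) Φ =
      ∑ s ∈ Φ.support, C (MvPolynomial.coeff s Φ) *
        ∏ v, (C (a v) + C (x v) * X : ℂ[X]) ^ s v := by
  rw [MvPolynomial.aeval_def, MvPolynomial.eval₂_eq']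
  rfl

theorem weight_eq {V : Type} [Fintype V] (ω : V → ℕ) (s : V →₀ ℕ) :
    Finsupp.weight ω s = ∑ v, s v * ω v := by
  rw [Finsupp.weight_apply, Finsupp.sum_fintype _ _ (fun _ => by simp)]
  simp [smul_eq_mul]

theorem sum_le {V : Type} [Fintype V] {ω : V → ℕ} (hω : ∀ v, 0 < ω v) (s : V →₀ ℕ) :
    ∑ v, s v ≤ ∑ v, s v * ω v :=
  Finset.sum_le_sum fun v _ => Nat.le_mul_of_pos_right _ (hω v)

theorem eval_eq {V : Type} [Fintype V] {ω : V → ℕ} (hω : ∀ v, 0 < ω v) (a : V → ℂ)
    (Φ : MvPolynomial V ℂ) (m : ℕ) (hs : ∀ s ∈ Φ.support, Finsupp.weight ω s ≤ m) (y : V → ℂ)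
    (hd : (X : ℂ[X]) ^ m ∣
      MvPolynomial.aeval (fun v => (C (a v) + C (y v - a v) * X : ℂ[X])) Φ) :
    MvPolynomial.eval y Φ =
      (MvPolynomial.aeval (fun v => (C (a v) + C (y v - a v) * X : ℂ[X])) Φ).coeff m := by
  set P := MvPolynomial.aeval (fun v => (C (a v) + C (y v - a v) * X : ℂ[X])) Φ with hP
  have hdeg : P.natDegree ≤ m := by
    rw [hP, expand]
    refine natDegree_sum_le_of_forall_le _ _ fun s hs' => ?_
    refine (natDegree_C_mul_le _ _).trans ((deg_le _ _ s).trans ((sum_le hω s).trans ?_))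
    rw [← weight_eq]
    exact hs s hs'
  have hev : P.eval 1 = MvPolynomial.eval y Φ := by
    rw [hP, expand, MvPolynomial.eval_eq', eval_finsetSum]
    refine Finset.sum_congr rfl fun s _ => ?_
    simp [eval_prod]
  have hlow : ∀ k < m, P.coeff k = 0 := X_pow_dvd_iff.1 hd
  rw [← hev, eval_eq_sum_range' (Nat.lt_succ_of_le hdeg), Finset.sum_range_succ,
    Finset.sum_eq_zero fun k hk => by rw [hlow k (Finset.mem_range.1 hk), zero_mul]]
  simp

end WoneA

theorem rowWone : OfWone := by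
  intro V _ ω a Φ m hω hs hd y y' hy
  rw [WoneA.eval_eq hω a Φ m hs y (hd _), WoneA.eval_eq hω a Φ m hs y' (hd _), WoneA.expand,
    WoneA.expand, finsetSum_coeff, finsetSum_coeff]
  refine Finset.sum_congr rfl fun s hs' => ?_
  rw [coeff_C_mul, coeff_C_mul]
  congr 1
  have h1 := hs s hs'
  rw [WoneA.weight_eq] at h1
  rcases (WoneA.sum_le hω s).trans h1 |>.lt_or_eq with h | h
  · rw [coeff_eq_zero_of_natDegree_lt ((WoneA.deg_le _ _ s).trans_lt h),
      coeff_eq_zero_of_natDegree_lt ((WoneA.deg_le _ _ s).trans_lt h)]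
  · congr 1
    refine Finset.prod_congr rfl fun v _ => ?_
    rcases Nat.eq_zero_or_pos (s v) with h0 | h0
    · rw [h0, pow_zero, pow_zero]
    · have h2 : ∑ v, s v = ∑ v, s v * ω v := le_antisymm (WoneA.sum_le hω s) (h ▸ h1)
      have h3 := (Finset.sum_eq_sum_iff_of_le
        (fun v _ => Nat.le_mul_of_pos_right (s v) (hω v))).1 h2 v (Finset.mem_univ v)
      have h4 : ω v = 1 := by
        have : s v * 1 = s v * ω v := by rw [mul_one]; exact h3
        exact (Nat.eq_of_mul_eq_mul_left h0 this).symm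
      rw [hy v h4]

end Pool.Agent.MP_776d16_ag.H7W
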