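import Pool.Agent.MP_776d16_ag.H7W.Assemble
import Pool.Agent.MP_776d16_ag.H7W.Rk
import Pool.Agent.MP_776d16_ag.H7W.Pf
import Pool.Agent.MP_776d16_ag.H7W.Pp
import Pool.Agent.MP_776d16_ag.H7W.Pq
import Pool.Agent.MP_776d16_ag.H7W.Ind
import Pool.Agent.MP_776d16_ag.H7W.Kr
import Pool.Agent.MP_776d16_ag.H7W.Sp
import Pool.Agent.MP_776d16_ag.H7W.HomB
import Pool.Agent.MP_776d16_ag.H7W.Pl
import Pool.Agent.MP_776d16_ag.H7W.Low
import Pool.Agent.MP_776d16_ag.H7W.Top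
import Pool.Agent.MP_776d16_ag.H7W.Dc
import Pool.Agent.MP_776d16_ag.H7W.Tay
import Pool.Agent.MP_776d16_ag.H7W.Hv
import Pool.Agent.MP_776d16_ag.H7W.Link
import Pool.Agent.MP_776d16_ag.H7W.Gen
import Pool.Agent.MP_776d16_ag.H7W.Base
import Pool.Agent.MP_776d16_ag.H7W.Div
import Pool.Agent.MP_776d16_ag.H7W.B0
import Pool.Agent.MP_776d16_ag.H7W.R1
import Pool.Agent.MP_776d16_ag.H7W.R2
import Pool.Agent.MP_776d16_ag.H7W.Fin
import Pool.Agent.MP_776d16_ag.H7W.Inj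
import Pool.Agent.MP_776d16_ag.H7W.Mem
import Pool.Agent.MP_776d16_ag.H7W.Min
import Pool.Agent.MP_776d16_ag.H7W.Ord
import Pool.Agent.MP_776d16_ag.H7W.Wone
import Pool.Agent.MP_776d16_ag.H7W.Norm
import Pool.Agent.MP_776d16_ag.H7W.Sop
import Pool.Agent.MP_776d16_ag.H7W.Jac
import Pool.Agent.MP_776d16_ag.H7W.SlA
import Pool.Agent.MP_776d16_ag.H7W.Slope
import Pool.Agent.MP_776d16_ag.H7W.GlP
import Pool.Agent.MP_776d16_ag.H7W.GlI
import Pool.Agent.MP_776d16_ag.H7W.GlS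
import Pool.Agent.MP_776d16_ag.H7W.GlZ
import Pool.Agent.MP_776d16_ag.H7W.Vdm
import Pool.Agent.MP_776d16_ag.H7W.VfA
import Pool.Agent.MP_776d16_ag.H7W.Vf
import Pool.Agent.MP_776d16_ag.H7W.Edge
import Pool.Agent.MP_776d16_ag.H7W.Poly
import Pool.Agent.MP_776d16_ag.H7W.Newt
import Pool.Agent.MP_776d16_ag.H7W.Def
import Pool.Agent.MP_776d16_ag.H7W.CombA
import Pool.Agent.MP_776d16_ag.H7W.Comb
import Pool.Agent.MP_776d16_ag.H7W.Al
import Pool.Agent.MP_776d16_ag.H7W.Mark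
import Pool.Agent.MP_776d16_ag.H7W.Ram
import Pool.Agent.MP_776d16_ag.H7W.Tail
import Pool.Agent.MP_776d16_ag.H7W.Rinv
import Pool.Agent.MP_776d16_ag.H7W.Tdat
import Pool.Agent.MP_776d16_ag.H7W.TgA
import Pool.Agent.MP_776d16_ag.H7W.TgE
import Pool.Agent.MP_776d16_ag.H7W.TgB
import Pool.Agent.MP_776d16_ag.H7W.TgC
import Pool.Agent.MP_776d16_ag.H7W.TgD
import Pool.Agent.MP_776d16_ag.H7W.TgF
import Pool.Agent.MP_776d16_ag.H7W.Aff
import Pool.Agent.MP_776d16_ag.H7W.Main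

/-! All rows together. -/

namespace Pool.Agent.MP_776d16_ag.H7W

theorem sMain : SMain :=
  assemble rowRk rowPf rowPp rowPq rowInd rowKr rowSp rowHomB rowPl rowLow rowTop rowDc rowTay
    rowHv rowLink rowGen rowBase rowDiv rowB0 rowR1 rowR2 rowFin rowInj rowMem rowMin
    rowOrd rowWone rowNorm rowSop rowJac rowSlA rowSlope rowGlP rowGlI rowGlS rowGlZ
    rowVdm rowVfA rowVf rowEdge rowPoly rowNewt rowDef rowCombA rowComb rowAl rowMark
    rowRam rowTail rowRinv rowTdat rowTgA rowTgE rowTgB rowTgC rowTgD rowTgF rowAff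
    rowMain

end Pool.Agent.MP_776d16_ag.H7W
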