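import Pool.Agent.MP_776d16_ag.H7W.Spec

/-! The rows imply the theorem. -/

namespace Pool.Agent.MP_776d16_ag.H7W

theorem assemble (rk : OfRk) (pf : OfPf) (pp : OfPp) (pq : OfPq) (ind : OfInd) (kr : OfKr)
    (sp : OfSp) (hom : OfHom) (pl : OfPl) (low : OfLow) (top : OfTop) (dc : OfDc) (tay : OfTay)
    (hv : OfHv) (link : OfLink) (gen : OfGen) (base : OfBase) (div : OfDiv) (b0 : OfB0)
    (r1 : OfR1) (r2 : OfR2) (fin : OfFin) (inj : OfInj) (mem : OfMem) (min : OfMin) (ord : OfOrd)
    (wone : OfWone) (norm : OfNorm) (sop : OfSop) (jac : OfJac) (slA : OfSlA) (slope : OfSlope)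
    (glP : OfGlP) (glI : OfGlI) (glS : OfGlS) (glZ : OfGlZ) (vdm : OfVdm) (vfA : OfVfA)
    (vf : OfVf) (edge : OfEdge) (poly : OfPoly) (newt : OfNewt) (df : OfDef) (combA : OfCombA)
    (comb : OfComb) (al : OfAl) (mark : OfMark) (ram : OfRam) (tail : OfTail) (rinv : OfRinv)
    (tdat : OfTdat) (tgA : OfTgA) (tgE : OfTgE) (tgB : OfTgB) (tgC : OfTgC) (tgD : OfTgD)
    (tgF : OfTgF) (aff : OfAff) (main : OfMain) : SMain := by
  have pq := pq pf pp
  have ind := ind rk
  have kr := kr rk ind
  have sp := sp rk ind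
  have low := low rk ind
  have link := link top
  have gen := gen rk pf sp kr dc
  have b0 := b0 top (div (base top))
  have r1 := r1 rk dc gen b0
  have r2 := r2 rk top dc gen b0
  have norm := norm hv fin inj mem min ord wone
  have slope := slope top (slA rk top dc gen r1 norm (sop rk) (jac top tay.1 hv))
  have glP := glP pf pp pq
  have glS := glS top glI
  have glZ := glZ top glI
  have vf := vf rk pf sp low dc link gen slope vdm
    (vfA rk pf pp pq sp kr top link r1 glP glI glS glZ)
  have newt := newt pl edge.1 (edge.2 top link) poly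
  have comb := comb sp link gen (df rk pf pp pq sp kr top link gen r2)
    (combA rk pf pp pq sp kr top link gen r2 glP glI glS glZ)
  have al := al rk sp hom link gen vf newt comb
  have mark := mark rk pf pp pq sp kr top dc link r1 glP glI glS glZ
  have tdat := tdat rk pf pp pq tay.1 (tail pf pp pq top tay.2) (rinv top tay.2)
  have tgD := tgD pf pp pq tgE
  have tgF := tgF rk pf pp pq sp kr top dc tay.2 gen r2 (tgB top tay.2 (tgA top) tgE)
    (tgC top tay.2) tgD tgE
  exact main tay.2 (aff top tay.2 gen al mark (ram top link) tdat tgD tgF)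

end Pool.Agent.MP_776d16_ag.H7W
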