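import Mathlib
import Pool.Agent.MP_776d16_ag.H34.Defs

/-!
Definitions used in the proof that weighted complete intersection pairs with quasi-smooth boundary
are log rationally connected. Plan: team store file 776d16_planH7.md.
-/

open Polynomial
open MvPolynomial (pderiv IsWeightedHomogeneous)

namespace Pool.Agent.MP_776d16_ag.H7W

/-! ### Derivations and ranks -/

/-- Derivations of the complex numbers. -/
abbrev Der : Type := Derivation ℤ ℂ ℂ

/-- The derivations that kill `S`. -/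
def Kil (S : Set ℂ) : Submodule ℂ Der where
  carrier := {δ | ∀ a ∈ S, δ a = 0}
  add_mem' := fun {x y} hx hy a ha => by
    rw [Derivation.add_apply, hx a ha, hy a ha, add_zero]
  zero_mem' := fun _ _ => rfl
  smul_mem' := fun c x hx a ha => by rw [Derivation.smul_apply, hx a ha, smul_zero]

theorem mem_Kil {S : Set ℂ} {δ : Der} : δ ∈ Kil S ↔ ∀ a ∈ S, δ a = 0 := Iff.rfl

theorem mem_Kil_union {S A : Set ℂ} {δ : Der} : δ ∈ Kil (S ∪ A) ↔ δ ∈ Kil S ∧ δ ∈ Kil A :=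
  ⟨fun h => ⟨fun a ha => h a (Or.inl ha), fun a ha => h a (Or.inr ha)⟩,
    fun h a ha => ha.elim (h.1 a) (h.2 a)⟩

theorem mem_Kil_range {U : Type} {z : U → ℂ} {δ : Der} :
    δ ∈ Kil (Set.range z) ↔ ∀ u, δ (z u) = 0 := Set.forall_mem_range

/-- Restriction of a derivation to `A`. -/
noncomputable def res (A : Set ℂ) : Der →ₗ[ℂ] (A → ℂ) where
  toFun δ a := δ a
  map_add' _ _ := rfl
  map_smul' _ _ := rfl

/-- The number of degrees of freedom of `A` over `S` (the transcendence degree). -/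
noncomputable def rk (S A : Set ℂ) : ℕ := Module.finrank ℂ ((Kil S).map (res A))

/-- `δ` applied to the coefficients. -/
noncomputable def dc (δ : Der) (p : ℂ[X]) : ℂ[X] := p.sum fun n a => monomial n (δ a)

/-- The set of all coefficients of a family of polynomials. -/
def cf {σ : Type} (T : σ → ℂ[X]) : Set ℂ := {a | ∃ i k, a = (T i).coeff k}

theorem cf_finite {σ : Type} [Finite σ] (T : σ → ℂ[X]) : (cf T).Finite := by
  refine ((Set.finite_iUnion fun i => (T i).coeffs.finite_toSet).insert 0).subset ?_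
  rintro _ ⟨i, k, rfl⟩
  by_cases h : (T i).coeff k = 0
  · exact Or.inl h
  · exact Or.inr (Set.mem_iUnion.2 ⟨i, coeff_mem_coeffs h⟩)

/-- All coefficients lie in `S`. -/
def CoP (S : Set ℂ) (p : ℂ[X]) : Prop := ∀ k, p.coeff k ∈ S

/-- All coefficients lie in `S`. -/
def CoM {τ : Type} (S : Set ℂ) (G : MvPolynomial τ ℂ) : Prop := ∀ m, MvPolynomial.coeff m G ∈ S

/-! ### Polynomial functions and specialisation -/

/-- A polynomial function with coefficients in `K`. -/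
def PF {U : Type} (K : Subfield ℂ) (f : (U → ℂ) → ℂ) : Prop :=
  ∃ P : MvPolynomial U K, ∀ z, f z = MvPolynomial.aeval z P

/-- A polynomial whose coefficients are polynomial functions with coefficients in `K`. -/
def PFP {U : Type} (K : Subfield ℂ) (f : (U → ℂ) → ℂ[X]) : Prop :=
  ∃ P : (MvPolynomial U K)[X], ∀ z,
    f z = P.map (MvPolynomial.aeval z : MvPolynomial U K →ₐ[K] ℂ).toRingHom

/-- `z` specialises to `z0` over `K`. -/
def Spec {U : Type} (K : Subfield ℂ) (z z0 : U → ℂ) : Prop :=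
  ∀ P : MvPolynomial U K, MvPolynomial.aeval z P = 0 → MvPolynomial.aeval z0 P = 0

/-! ### Curves -/

/-- The polynomial with the given coefficients. -/
noncomputable def pol {D : ℕ} (b : Fin D → ℂ) : ℂ[X] := ∑ k : Fin D, monomial (k : ℕ) (b k)

/-- The vector of polynomials with top coefficients `p` in degrees `D` and lower coefficients
`z`. -/
noncomputable def cv {σ : Type} (D : σ → ℕ) (p : σ → ℂ) (z : (Σ i, Fin (D i)) → ℂ) (i : σ) :
    ℂ[X] := C (p i) * X ^ D i + pol fun k => z ⟨i, k⟩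

/-- `ε ^ D * f (X / ε)`. -/
noncomputable def hz (D : ℕ) (f : ℂ[X]) (ε : ℂ) : ℂ[X] :=
  ∑ k ∈ Finset.range (D + 1), monomial k (f.coeff k * ε ^ (D - k))

/-- The differential of `G` along `f` applied to `v`. -/
noncomputable def dP {τ : Type} [Fintype τ] (G : MvPolynomial τ ℂ) (f v : τ → ℂ[X]) : ℂ[X] :=
  ∑ l, MvPolynomial.aeval f (pderiv l G) * v l

/-- The Jacobian matrix. -/
noncomputable def jac {σ J : Type} (g : J → MvPolynomial σ ℂ) (x : σ → ℂ) : J → σ → ℂ :=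
  fun j i => MvPolynomial.eval x (pderiv i (g j))

/-- The Jacobian matrix along a curve. -/
noncomputable def jacP {σ J : Type} (g : J → MvPolynomial σ ℂ) (T : σ → ℂ[X]) : J → σ → ℂ[X] :=
  fun j i => MvPolynomial.aeval T (pderiv i (g j))

/-- `x` lies in the fibre of `g` over `c`. -/
def Fib {σ J : Type} (g : J → MvPolynomial σ ℂ) (c : J → ℂ) (x : σ → ℂ) : Prop :=
  ∀ j, MvPolynomial.eval x (g j) = c j

/-- The fibre over `c` is smooth off the origin. -/
def Sm {σ J : Type} (g : J → MvPolynomial σ ℂ) (c : J → ℂ) : Prop :=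
  ∀ x, x ≠ 0 → Fib g c x → LinearIndependent ℂ (jac g x)

/-- The standing hypotheses on the boundary. -/
structure Ok {σ J : Type} [Fintype σ] [Fintype J] (w : σ → ℕ) (d : J → ℕ)
    (g : J → MvPolynomial σ ℂ) : Prop where
  wpos : ∀ i, 0 < w i
  dpos : ∀ j, 0 < d j
  hom : ∀ j, IsWeightedHomogeneous w (g j) (d j)
  sm : Sm g 0
  fano : ∑ j, d j < ∑ i, w i

/-- `T` has degree at most `e` and top coefficient `v`. -/
structure Crv {σ : Type} (w : σ → ℕ) (e : ℕ) (T : σ → ℂ[X]) (v : σ → ℂ) : Prop where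
  deg : ∀ i, (T i).natDegree ≤ e * w i
  top : ∀ i, (T i).coeff (e * w i) = v i

/-- The curve `T` lies in the fibre of `g` over `c`. -/
def On {σ J : Type} (g : J → MvPolynomial σ ℂ) (c : J → ℂ) (T : σ → ℂ[X]) : Prop :=
  ∀ j, MvPolynomial.aeval T (g j) = C (c j)

/-- The point of the curve at the parameter `s`. -/
noncomputable def ev {σ : Type} (T : σ → ℂ[X]) (s : ℂ) : σ → ℂ := fun i => (T i).eval s

/-- Weighted scaling. -/
noncomputable def sc {σ : Type} (w : σ → ℕ) (l : ℂ) (v : σ → ℂ) : σ → ℂ := fun i => l ^ w i * v i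

/-- A point of the cone which is generic over `S`. -/
def Gen {σ J : Type} [Fintype σ] [Fintype J] (S : Set ℂ) (g : J → MvPolynomial σ ℂ)
    (y : σ → ℂ) : Prop :=
  y ≠ 0 ∧ Fib g 0 y ∧ Fintype.card σ ≤ rk S (Set.range y) + Fintype.card J

/-- A curve in the cone from `y` (at `0`) to `v` (at infinity); base points are allowed. -/
def Link {σ J : Type} (w : σ → ℕ) (g : J → MvPolynomial σ ℂ) (y v : σ → ℂ) : Prop :=
  ∃ (e : ℕ) (T : σ → ℂ[X]), Crv w e T v ∧ On g 0 T ∧ ev T 0 = y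

/-- A chain of links between nonzero points. -/
def Chain {σ J : Type} (w : σ → ℕ) (g : J → MvPolynomial σ ℂ) : (σ → ℂ) → (σ → ℂ) → Prop :=
  Relation.ReflTransGen fun a b => a ≠ 0 ∧ b ≠ 0 ∧ Link w g a b

/-! ### Sections and determinants -/

/-- `η` vanishes at `a` as much as `T` does, up to a multiple of the derivative of `T`. -/
def AdmAt {σ : Type} (T η : σ → ℂ[X]) (a : ℂ) : Prop :=
  ∃ γ : ℂ, ∀ i k, (X - C a) ^ k ∣ T i → (X - C a) ^ k ∣ η i + C γ * derivative (T i)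

/-- An admissible section along `T` divisible by `P`. -/
structure Sec {σ J : Type} [Fintype σ] (g : J → MvPolynomial σ ℂ) (T : σ → ℂ[X]) (P : ℂ[X])
    (η : σ → ℂ[X]) : Prop where
  ker : ∀ j, dP (g j) T η = 0
  dvd : ∀ i, P ∣ η i
  adm : ∀ a, ¬ LinearIndependent ℂ (jac g (ev T a)) → AdmAt T η a

/-- The determinant of the matrix with columns `u` and `w`. -/
noncomputable def DD {K N L : Type} [Fintype K] [DecidableEq K] (ε : K ≃ N ⊕ L)
    (u : N → K → ℂ[X]) (w : L → K → ℂ[X]) : ℂ[X] :=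
  (Matrix.of fun l l' => Sum.elim u w (ε l') l).det

/-- The determinant of the pairing of `φ` and `w`. -/
noncomputable def DW {K L : Type} [Fintype K] [Fintype L] [DecidableEq L]
    (φ w : L → K → ℂ[X]) : ℂ[X] :=
  (Matrix.of fun i i' => ∑ l, φ i l * w i' l).det

/-! ### Gluing teeth to a handle -/

section Glue

variable {σ L : Type} [Fintype L] [DecidableEq L]

/-- The product of all `X - s l`. -/
noncomputable def QQ (s : L → ℂ) : ℂ[X] := ∏ l, (X - C (s l))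

/-- The product of the `X - s l'`, `l' ≠ l`. -/
noncomputable def uu (s : L → ℂ) (l : L) : ℂ[X] := ∏ l' ∈ Finset.univ.erase l, (X - C (s l'))

/-- The glued curve: handle `Γ`, teeth with lower parts `b l`, parameters `ε l`. -/
noncomputable def gx (w : σ → ℕ) (a : ℕ) (s : L → ℂ) (Γ : σ → ℂ[X]) (b : L → σ → ℂ[X])
    (ε : L → ℂ) (i : σ) : ℂ[X] :=
  QQ s ^ (a * w i) * Γ i +
    ∑ l, uu s l ^ (a * w i) * (hz (a * w i) (b l i) (ε l)).comp (X - C (s l))

/-- The part of the glued curve that is regular at `s l`. -/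
noncomputable def gM (w : σ → ℕ) (a : ℕ) (s : L → ℂ) (Γ : σ → ℂ[X]) (b : L → σ → ℂ[X])
    (ε : L → ℂ) (l : L) (i : σ) : ℂ[X] :=
  (gx w a s Γ b ε i - uu s l ^ (a * w i) * (hz (a * w i) (b l i) (ε l)).comp (X - C (s l))) /ₘ
    (X - C (s l)) ^ (a * w i)

/-- The glued curve seen at the scale `ε l` around `s l`. -/
noncomputable def gX (w : σ → ℕ) (a : ℕ) (s : L → ℂ) (Γ : σ → ℂ[X]) (b : L → σ → ℂ[X])
    (ε : L → ℂ) (l : L) (i : σ) : ℂ[X] :=
  X ^ (a * w i) * (gM w a s Γ b ε l i).comp (C (s l) + C (ε l) * X) +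
    (uu s l ^ (a * w i)).comp (C (s l) + C (ε l) * X) * b l i

/-- The polynomials whose low coefficients are the equations at the teeth. -/
noncomputable def gLow {J : Type} (g : J → MvPolynomial σ ℂ) (w : σ → ℕ) (a : ℕ) (s : L → ℂ)
    (Γ : σ → ℂ[X]) (b : L → σ → ℂ[X]) (ε : L → ℂ) (κ' : L → J → ℂ) (l : L) (j : J) : ℂ[X] :=
  MvPolynomial.aeval (gX w a s Γ b ε l) (g j) - C (κ' l j)

/-- The polynomials whose coefficients are the equations at the handle. -/
noncomputable def gHigh {J : Type} (g : J → MvPolynomial σ ℂ) (w : σ → ℕ) (d : J → ℕ) (a : ℕ)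
    (s : L → ℂ) (Γ : σ → ℂ[X]) (b : L → σ → ℂ[X]) (ε : L → ℂ) (κ : J → ℂ) (j : J) : ℂ[X] :=
  (MvPolynomial.aeval (gx w a s Γ b ε) (g j) - C (κ j)) /ₘ QQ s ^ (a * d j)

/-- The tooth at `s l`. -/
noncomputable def tooth (w : σ → ℕ) (a : ℕ) (v : σ → ℂ) (b : σ → ℂ[X]) (i : σ) : ℂ[X] :=
  C (v i) * X ^ (a * w i) + b i

end Glue

/-! ### Gluing two tails -/

/-- The point with coordinates `t` and `x`. -/
def pt {σ R : Type} (t : R) (x : σ → R) : Option σ → R := fun o => o.elim t x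

/-- The restriction of `F` to `t = 0`. -/
noncomputable def bd {σ : Type} (F : MvPolynomial (Option σ) ℂ) : MvPolynomial σ ℂ :=
  MvPolynomial.aeval (pt 0 MvPolynomial.X) F

/-- The standing hypotheses on the pair, `t` of weight one. -/
structure OkF {σ J : Type} [Fintype σ] [Fintype J] (w : σ → ℕ) (d : J → ℕ)
    (F : J → MvPolynomial (Option σ) ℂ) : Prop where
  hom : ∀ j, IsWeightedHomogeneous (pt 1 w) (F j) (d j)
  ok : Ok w d fun j => bd (F j)

/-- The two nodes. -/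
def nd (l : Bool) : ℂ := if l then 1 else 0

/-- `ε ^ D * f ((X - nd l) / ε)`. -/
noncomputable def hat (D : ℕ) (f : ℂ[X]) (ε : ℂ) (l : Bool) : ℂ[X] :=
  (hz D f ε).comp (X - C (nd l))

/-- The local coordinate at the node. -/
noncomputable def loc (ε : ℂ) (l : Bool) : ℂ[X] := C (nd l) + C ε * X

/-- The data for gluing two tails. -/
structure TD (σ J : Type) where
  w : σ → ℕ
  d : J → ℕ
  F : J → MvPolynomial (Option σ) ℂ
  Q : J → MvPolynomial (Option (Option σ ⊕ Option σ)) ℂ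
  a : ℕ
  π : ℕ
  M : ℕ
  T : Bool → σ → ℂ[X]
  v : Bool → σ → ℂ
  Δ : Bool → ℂ[X]
  R : Bool → σ → J → ℂ[X]
  β : Bool → ℂ → ℂ[X]
  ρ : ℂ → ℂ

namespace TD

variable {σ J : Type} [Fintype σ] [Fintype J] (D : TD σ J)

noncomputable def dh (ε : ℂ) (l : Bool) : ℂ[X] := hat D.π (D.Δ l) ε l

noncomputable def Th (ε : ℂ) (l : Bool) (i : σ) : ℂ[X] := hat (D.a * D.w i) (D.T l i) ε l

noncomputable def Zh (ε : ℂ) (ζ : Bool → J → ℂ[X]) (l : Bool) (i : σ) : ℂ[X] :=
  hat (D.a * D.w i + 2 * D.π) (D.Δ l * ∑ j, D.R l i j * ζ l j) ε l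

/-- The factor `dh ^ 2 * (X - nd) ^ n` at one node. -/
noncomputable def fac (ε : ℂ) (n : ℕ) (l : Bool) : ℂ[X] := D.dh ε l ^ 2 * (X - C (nd l)) ^ n

/-- The glued curve. -/
noncomputable def xt (ε : ℂ) (ζ : Bool → J → ℂ[X]) (G : σ → ℂ[X]) (i : σ) : ℂ[X] :=
  C (D.ρ ε) ^ (D.w i - 1) * ∑ l, D.β l ε * D.dh ε (!l) ^ (D.M + 2) * D.Th ε l i +
    C (D.ρ ε) ^ D.w i * ∑ l, D.dh ε (!l) ^ (D.M + 2) * D.Zh ε ζ l i +
    (∏ l, D.fac ε (D.a * D.w i) l) * G i

noncomputable def E (ε : ℂ) (ζ : Bool → J → ℂ[X]) (l : Bool) (i : σ) : ℂ[X] :=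
  C (D.ρ ε) ^ (D.w i - 1) * D.β (!l) ε * (D.Th ε (!l) i - D.Th ε l i) +
    C (D.ρ ε) ^ D.w i * D.Zh ε ζ (!l) i

noncomputable def nu' (ε : ℂ) (ζ : Bool → J → ℂ[X]) (G : σ → ℂ[X]) (l : Bool) (i : σ) : ℂ[X] :=
  X ^ (D.a * D.w i) * (D.fac ε (D.a * D.w i) (!l) * G i).comp (loc ε l) +
    C ε ^ (D.M * D.π - D.a * D.w i) * D.Δ l ^ D.M * (D.E ε ζ l i).comp (loc ε l)

noncomputable def nu (ε : ℂ) (ζ : Bool → J → ℂ[X]) (G : σ → ℂ[X]) (l : Bool) (i : σ) : ℂ[X] :=
  C (D.ρ ε) ^ D.w i * (D.dh ε (!l) ^ (D.M + 2)).comp (loc ε l) * ∑ j, D.R l i j * ζ l j +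
    D.Δ l * D.nu' ε ζ G l i

/-- The scaled tail. -/
noncomputable def base (ε : ℂ) (l : Bool) : Option σ → ℂ[X] :=
  pt (C (D.ρ ε)) fun i => C (D.ρ ε) ^ D.w i * D.T l i

/-- The polynomials whose low coefficients are the equations at the tails. -/
noncomputable def H (ε : ℂ) (ζ : Bool → J → ℂ[X]) (G : σ → ℂ[X]) (l : Bool) (j : J) : ℂ[X] :=
  C (D.ρ ε) ^ D.d j * (D.dh ε (!l) ^ (D.M + 2)).comp (loc ε l) * ζ l j +
    dP (D.F j) (D.base ε l) (pt 0 (D.nu' ε ζ G l)) +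
    C ε ^ (2 * D.π) * MvPolynomial.aeval (pt (C ε ^ (2 * D.π) * D.Δ l)
      (Sum.elim (D.base ε l) (pt 0 (D.nu ε ζ G l)))) (D.Q j)

/-- The equations evaluated on the glued curve. -/
noncomputable def val (ε : ℂ) (ζ : Bool → J → ℂ[X]) (G : σ → ℂ[X]) (j : J) : ℂ[X] :=
  MvPolynomial.aeval (pt (C (D.ρ ε * ε ^ D.a)) (D.xt ε ζ G)) (D.F j)

noncomputable def den (ε : ℂ) (j : J) : ℂ[X] := ∏ l, D.fac ε (D.a * D.d j) l

/-- The interpolating part of the handle. -/
noncomputable def Φ (i : σ) : ℂ[X] :=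
  C (D.ρ 0) ^ (D.w i - 1) *
    ∑ l, D.β l 0 * (X - C (nd (!l))) ^ ((D.M + 2) * D.π - D.a * D.w i) * C (D.v l i)

/-- The hypotheses on the data. -/
structure Good [DecidableEq J] : Prop where
  ok : OkF D.w D.d D.F
  apos : 0 < D.a
  πpos : 0 < D.π
  crv : ∀ l, Crv D.w D.a (D.T l) (D.v l)
  on : ∀ l j, MvPolynomial.aeval (pt 1 (D.T l)) (D.F j) = 0
  monic : ∀ l, (D.Δ l).Monic
  degΔ : ∀ l, (D.Δ l).natDegree = D.π
  zeroΔ : ∀ l, (D.Δ l).coeff 0 = 0
  dπ : ∀ j, D.a * D.d j ≤ D.π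
  degR : ∀ l i j, (D.R l i j).natDegree ≤ D.a * D.w i + (D.π - D.a * D.d j)
  inv : ∀ l j j', ∑ i, MvPolynomial.aeval (pt 1 (D.T l)) (pderiv (some i) (D.F j)) * D.R l i j' =
    if j = j' then D.Δ l else 0
  tay : ∀ j (x ν : Option σ → ℂ[X]) (η : ℂ[X]),
    MvPolynomial.aeval (fun o => x o + η * ν o) (D.F j) = MvPolynomial.aeval x (D.F j) +
      η * dP (D.F j) x ν + η ^ 2 * MvPolynomial.aeval (pt η (Sum.elim x ν)) (D.Q j)
  big : ∀ i, D.a * D.w i < D.M * D.π
  bez : ∀ ε, ∑ l, D.β l ε * D.dh ε (!l) ^ (D.M + 2) = C (D.ρ ε)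
  bdd : ∃ B, ∀ l ε, (D.β l ε).natDegree ≤ B
  ρ0 : D.ρ 0 ≠ 0

/-- The data are defined over `K`. -/
structure Over (K : Subfield ℂ) : Prop where
  F : ∀ j, CoM K (D.F j)
  Q : ∀ j, CoM K (D.Q j)
  T : ∀ l i, CoP K (D.T l i)
  Δ : ∀ l, CoP K (D.Δ l)
  R : ∀ l i j, CoP K (D.R l i j)
  β : ∀ l, PFP K fun z : Unit → ℂ => D.β l (z ())
  ρ : PF K fun z : Unit → ℂ => D.ρ (z ())

end TD

/-! ### Small facts -/

theorem aeval_comp' {τ : Type} (f : τ → ℂ[X]) (q : ℂ[X]) (G : MvPolynomial τ ℂ) :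
    (MvPolynomial.aeval f G).comp q = MvPolynomial.aeval (fun o => (f o).comp q) G := by
  induction G using MvPolynomial.induction_on with
  | C c => simp
  | add p r hp hr => simp only [map_add, add_comp, hp, hr]
  | mul_X p i hp => simp only [map_mul, mul_comp, hp, MvPolynomial.aeval_X]

theorem eval_aeval {τ : Type} (f : τ → ℂ[X]) (s : ℂ) (G : MvPolynomial τ ℂ) :
    (MvPolynomial.aeval f G).eval s = MvPolynomial.eval (ev f s) G := by
  induction G using MvPolynomial.induction_on with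
  | C c => simp
  | add p q hp hq => simp only [map_add, eval_add, hp, hq]
  | mul_X p i hp =>
    simp only [map_mul, eval_mul, hp, MvPolynomial.aeval_X, MvPolynomial.eval_X, ev]

theorem aeval_C' {τ : Type} (x : τ → ℂ) (G : MvPolynomial τ ℂ) :
    MvPolynomial.aeval (fun o => (C (x o) : ℂ[X])) G = C (MvPolynomial.eval x G) := by
  induction G using MvPolynomial.induction_on with
  | C c => simp
  | add p q hp hq => simp only [map_add, hp, hq]
  | mul_X p i hp => simp only [map_mul, hp, MvPolynomial.aeval_X, MvPolynomial.eval_X]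

theorem coeff_pol {D : ℕ} (b : Fin D → ℂ) (k : ℕ) :
    (pol b).coeff k = if h : k < D then b ⟨k, h⟩ else 0 := by
  rw [pol, finsetSum_coeff]
  split_ifs with h
  · rw [Finset.sum_eq_single ⟨k, h⟩]
    · simp
    · intro k' _ hk
      rw [coeff_monomial, if_neg fun e => hk (Fin.ext e)]
    · simp
  · exact Finset.sum_eq_zero fun k' _ => by
      rw [coeff_monomial, if_neg fun e : (k' : ℕ) = k => h (e ▸ k'.2)]

theorem degree_pol {D : ℕ} (b : Fin D → ℂ) : (pol b).degree < D :=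
  (degree_lt_iff_coeff_zero _ _).2 fun k hk => by rw [coeff_pol, dif_neg (not_lt.2 hk)]

theorem pol_coeff {D : ℕ} {f : ℂ[X]} (h : f.degree < D) : (pol fun k : Fin D => f.coeff k) = f := by
  ext k
  rw [coeff_pol]
  split_ifs with hk
  · rfl
  · exact ((degree_lt_iff_coeff_zero _ _).1 h k (not_lt.1 hk)).symm

theorem coeff_hz (D : ℕ) (f : ℂ[X]) (ε : ℂ) (k : ℕ) :
    (hz D f ε).coeff k = if k ≤ D then f.coeff k * ε ^ (D - k) else 0 := by
  rw [hz, finsetSum_coeff]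
  simp only [coeff_monomial, Finset.sum_ite_eq', Finset.mem_range, Nat.lt_succ_iff]

theorem natDegree_hz (D : ℕ) (f : ℂ[X]) (ε : ℂ) : (hz D f ε).natDegree ≤ D :=
  natDegree_le_iff_coeff_eq_zero.2 fun k hk => by rw [coeff_hz, if_neg (not_le.2 hk)]

theorem hz_comp {D : ℕ} {f : ℂ[X]} (h : f.natDegree ≤ D) (ε : ℂ) :
    (hz D f ε).comp (C ε * X) = C ε ^ D * f := by
  ext k
  rw [comp_C_mul_X_coeff, coeff_hz, ← C_pow, coeff_C_mul]
  split_ifs with hk
  · rw [mul_assoc, ← pow_add, Nat.sub_add_cancel hk, mul_comm]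
  · rw [coeff_eq_zero_of_natDegree_lt (h.trans_lt (not_le.1 hk)), zero_mul, mul_zero]

theorem hz_zero (D : ℕ) (f : ℂ[X]) : hz D f 0 = C (f.coeff D) * X ^ D := by
  ext k
  rw [coeff_hz, coeff_C_mul_X_pow]
  split_ifs with h1 h2 h2
  · simp [h2]
  · rw [zero_pow (by omega), mul_zero]
  · omega
  · rfl

end Pool.Agent.MP_776d16_ag.H7W
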