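import Pool.Agent.MP_776d16_ag.H7W.Spec

/-!
A solution of the gluing equations is a curve in the fibre.
-/

open Polynomial
open MvPolynomial (pderiv IsWeightedHomogeneous)
open Fintype (card)

namespace Pool.Agent.MP_776d16_ag.H7W

namespace GlSA

theorem dvd_of_comp {H q : ℂ[X]} {s ε : ℂ} (hε : ε ≠ 0) {n : ℕ}
    (h : H.comp (C s + C ε * X) = X ^ n * q) : (X - C s) ^ n ∣ H := by
  have e : (C s + C ε * X : ℂ[X]).comp (C ε⁻¹ * (X - C s)) = X := by
    rw [add_comp, mul_comp, C_comp, C_comp, X_comp, ← mul_assoc, ← C_mul, mul_inv_cancel₀ hε,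
      C_1, one_mul, add_sub_cancel]
  have e2 := congrArg (fun p : ℂ[X] => p.comp (C ε⁻¹ * (X - C s))) h
  simp only [comp_assoc, e, comp_X, mul_comp, pow_comp, X_comp, mul_pow] at e2
  rw [e2]
  exact (Dvd.intro_left _ rfl).mul_right _

theorem eq_zero {H Q q : ℂ[X]} {m n : ℕ} (hQ : Q.Monic) (hd : Q.natDegree = m) (h : H = Q * q)
    (h1 : ∀ k, m + n ≤ k → H.coeff k = 0) (h2 : ∀ k, k < n → q.coeff k = 0) : H = 0 := by
  by_cases hq : q = 0
  · rw [h, hq, mul_zero]
  have a : n ≤ q.natDegree := not_lt.1 fun k => hq (leadingCoeff_eq_zero.1 (h2 _ k))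
  refine leadingCoeff_eq_zero.1 (h1 _ ?_)
  rw [h, natDegree_mul hQ.ne_zero hq, hd]
  omega

end GlSA

theorem rowGlS : OfGlS := by
  intro hT hI σ J L _ _ _ w d g a e s Γ p b ε κ κ' hw hd hg ha hs hΓ hp hb hκ hlow hhigh j
  have I := hI σ L w a s Γ b ε hw ha hb
  have hA : ∀ l, (X - C (s l)) ^ (a * d j) ∣
      MvPolynomial.aeval (gx w a s Γ b ε) (g j) - C (κ j) := by
    intro l
    by_cases hε : ε l = 0
    · have e1 : gx w a s Γ b ε = fun i => ((X - C (s l)) ^ a) ^ w i * gM w a s Γ b ε l i := by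
        funext i
        rw [I.split l i, hε, hz_zero, coeff_eq_zero_of_degree_lt (hb l i), C_0, zero_mul,
          zero_comp, mul_zero, add_zero, pow_mul]
      rw [hκ l j, hε, zero_pow (Nat.mul_pos ha (hd j)).ne', zero_mul, C_0, sub_zero, e1,
        hT.scale _ _ _ _ _ _ (hg j), pow_mul]
      exact Dvd.intro _ rfl
    · obtain ⟨q, hq⟩ := X_pow_dvd_iff.2 (hlow l j)
      refine GlSA.dvd_of_comp hε (q := C (ε l) ^ (a * d j) * q) ?_
      have e1 : (fun i => (gx w a s Γ b ε i).comp (C (s l) + C (ε l) * X)) =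
          fun i => (C (ε l) ^ a) ^ w i * gX w a s Γ b ε l i := by
        funext i
        rw [I.loc l i, pow_mul]
      rw [sub_comp, C_comp, aeval_comp', e1, hT.scale _ _ _ _ _ _ (hg j), hκ l j, C_mul, C_pow,
        ← pow_mul, ← mul_sub, mul_left_comm, ← hq]
      rfl
  have hB : QQ s ^ (a * d j) ∣ MvPolynomial.aeval (gx w a s Γ b ε) (g j) - C (κ j) := by
    rw [QQ, ← Finset.prod_pow]
    exact Fintype.prod_dvd_of_coprime
      (fun l l' h => IsCoprime.pow (pairwise_coprime_X_sub_C hs h)) hA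
  obtain ⟨q, hq⟩ := hB
  have hm : (QQ s).Monic := monic_prod_of_monic _ _ fun l _ => monic_X_sub_C _
  have hn : (QQ s).natDegree = card L := by
    rw [QQ, natDegree_prod_of_monic _ _ fun l _ => monic_X_sub_C _]
    simp
  have hh : gHigh g w d a s Γ b ε κ j = q := by
    rw [gHigh, hq, mul_divByMonic_cancel_left _ (hm.pow _)]
  obtain ⟨t1, t2⟩ := hT.top _ _ _ _ _ _ _ (hg j) (I.crv e p hΓ)
  have hpos : 0 < a * d j * card L :=
    Nat.mul_pos (Nat.mul_pos ha (hd j)) Fintype.card_pos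
  have hN : (e + card L * a) * d j = a * d j * card L + e * d j := by ring
  rw [hN] at t1 t2
  rw [← sub_eq_zero]
  refine GlSA.eq_zero (m := a * d j * card L) (n := e * d j) (hm.pow _)
    (by rw [hm.natDegree_pow, hn]) hq (fun k hk => ?_) fun k hk => hh ▸ hhigh j k hk
  rw [coeff_sub, coeff_C_of_ne_zero (by omega), sub_zero]
  rcases hk.eq_or_lt with rfl | hk
  · rw [t2]
    exact hp j
  · exact coeff_eq_zero_of_natDegree_lt (t1.trans_lt hk)

end Pool.Agent.MP_776d16_ag.H7W
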