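import Pool.Agent.MP_776d16_ag.H7W.Spec
import Pool.Agent.MP_776d16_ag.H7W.Emb

/-!
Row Hom: two points that specialise to each other are related by an endomorphism of the complex
numbers.
-/

namespace Pool.Agent.MP_776d16_ag.H7W

namespace HomA

/-- A homomorphism from a countable domain given as an image extends to the complex numbers. -/
theorem ext (A : Type) [CommRing A] [Countable A] (f g : A →+* ℂ)
    (h : ∀ a, f a = 0 ↔ g a = 0) : ∃ ψ : ℂ →+* ℂ, ∀ a, ψ (f a) = g a := by
  have hk : RingHom.ker f.rangeRestrict ≤ RingHom.ker g := fun a ha =>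
    (h a).1 (congrArg Subtype.val (RingHom.mem_ker.1 ha))
  let g1 : f.range →+* ℂ :=
    f.rangeRestrict.liftOfSurjective f.rangeRestrict_surjective ⟨g, hk⟩
  have e1 : ∀ a, g1 (f.rangeRestrict a) = g a := fun a =>
    f.rangeRestrict.liftOfRightInverse_comp_apply _ _ ⟨g, hk⟩ a
  have i1 : Function.Injective g1 := (injective_iff_map_eq_zero g1).2 fun x hx => by
    obtain ⟨a, rfl⟩ := f.rangeRestrict_surjective x
    rw [e1] at hx
    exact Subtype.ext ((h a).2 hx)
  let F := FractionRing f.range
  let j : F →+* ℂ := IsFractionRing.lift (A := f.range) (K := F) f.range.subtype_injective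
  let g2 : F →+* ℂ := IsFractionRing.lift (A := f.range) (K := F) i1
  have hc : Countable f.range := f.rangeRestrict_surjective.countable
  have hF : Countable F := by
    rw [← Cardinal.mk_le_aleph0_iff, FractionRing.cardinalMk, Cardinal.mk_le_aleph0_iff]
    exact hc
  let e : F ≃+* j.fieldRange := j.rangeRestrictFieldEquiv
  obtain ⟨σ, hσ⟩ := sEmb.2 j.fieldRange (e.surjective.countable) (g2.comp e.symm.toRingHom)
  refine ⟨σ, fun a => ?_⟩
  have h1 := hσ (e (algebraMap f.range F (f.rangeRestrict a)))
  have h2 : ((e (algebraMap f.range F (f.rangeRestrict a)) : j.fieldRange) : ℂ) = f a :=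
    IsFractionRing.lift_algebraMap (A := f.range) (K := F) f.range.subtype_injective _
  rw [h2] at h1
  rw [h1, ← e1]
  simp only [RingEquiv.toRingHom_eq_coe, RingHom.coe_comp, RingHom.coe_coe, Function.comp_apply,
    RingEquiv.symm_apply_apply]
  exact IsFractionRing.lift_algebraMap (A := f.range) (K := F) i1 _

end HomA

theorem rowHom : OfHom := by
  intro U _ K z z' hK h1 h2
  have : Countable K := hK
  have : Countable (MvPolynomial U K) := by
    rw [← Cardinal.mk_le_aleph0_iff]
    refine MvPolynomial.cardinalMk_le_max.trans ?_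
    simp
  obtain ⟨ψ, hψ⟩ := HomA.ext (MvPolynomial U K) (MvPolynomial.aeval z).toRingHom
    (MvPolynomial.aeval z').toRingHom fun P => ⟨h1 P, h2 P⟩
  refine ⟨ψ, fun a ha => ?_, fun u => ?_⟩
  · have h3 : ψ (algebraMap K ℂ ⟨a, ha⟩) = algebraMap K ℂ ⟨a, ha⟩ := by
      simpa using hψ (MvPolynomial.C ⟨a, ha⟩)
    exact h3
  · simpa using hψ (MvPolynomial.X u)

end Pool.Agent.MP_776d16_ag.H7W
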