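import Pool.Agent.MP_776d16_ag.H7W.Spec

/-!
A finite map from a polynomial ring in few variables is injective.
-/

open Set (range)

namespace Pool.Agent.MP_776d16_ag.H7W

theorem rowInj : OfInj := by
  intro U V _ _ Ψ hc hf
  have hi : Algebra.IsIntegral (Algebra.adjoin ℂ (range Ψ)) (MvPolynomial U ℂ) := ⟨fun x => by
    obtain ⟨p, h1, h2⟩ := hf.to_isIntegral x
    let ρ : MvPolynomial V ℂ →+* Algebra.adjoin ℂ (range Ψ) :=
      (MvPolynomial.aeval Ψ : MvPolynomial V ℂ →ₐ[ℂ] MvPolynomial U ℂ).toRingHom.codRestrict _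
        fun q => by rw [Algebra.adjoin_range_eq_range_aeval]; exact ⟨q, rfl⟩
    exact ⟨p.map ρ, h1.map ρ, by rw [Polynomial.eval₂_map]; exact h2⟩⟩
  exact (Algebra.IsAlgebraic.isTranscendenceBasis_of_le_trdeg_of_finite ℂ Ψ (by
    rw [MvPolynomial.trdeg_of_isDomain]
    simpa using hc)).1

end Pool.Agent.MP_776d16_ag.H7W
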