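import Pool.Agent.MP_776d16_ag.H7W.Top
import Pool.Agent.MP_776d16_ag.H7W.Hv

/-! Row Main: from the affine statement to log rational connectedness. -/

open Polynomial
open MvPolynomial (pderiv IsWeightedHomogeneous)

namespace Pool.Agent.MP_776d16_ag.H7W

open H34

namespace MainA

theorem eval_top (p : ℂ[X]) (n : ℕ) (t : Fin 2 → ℂ) (ht : t 1 = 0) :
    MvPolynomial.eval t (p.homogenize n) = p.coeff n * t 0 ^ n := by
  have key : ∀ k l : ℕ, ∀ c : ℂ, MvPolynomial.eval t
      (MvPolynomial.monomial (fun₀ | (0 : Fin 2) => k | 1 => l) c) = c * (t 0 ^ k * t 1 ^ l) := by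
    intro k l c
    rw [MvPolynomial.eval_monomial, Finsupp.prod_fintype _ _ (by simp)]
    simp
  rw [homogenize, map_sum, Finset.sum_eq_single (n, 0)]
  · rw [key]; simp
  · rintro ⟨k, l⟩ h h'
    have h1 : k + l = n := by simpa using h
    have h2 : l ≠ 0 := by rintro rfl; exact h' (by simpa using h1)
    rw [key, ht, zero_pow h2]; simp
  · simp

theorem mk_eq {σ : Type} {W : σ → ℕ} {u v : σ → ℂ} (hu : u ≠ 0) (hv : v ≠ 0) {c : ℂ} (hc : c ≠ 0)
    (h : ∀ i, v i = c ^ W i * u i) : WP.mk W u hu = WP.mk W v hv :=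
  Quotient.sound ⟨c, hc, h⟩

/-- The cyclic cover. -/
noncomputable def cov {σ : Type} (m : ℕ) (F : MvPolynomial (Option σ) ℂ) :
    MvPolynomial (Option σ) ℂ :=
  MvPolynomial.aeval (pt (MvPolynomial.X none ^ m) fun i => MvPolynomial.X (some i)) F

theorem aeval_cov {σ R : Type} [CommRing R] [Algebra ℂ R] (m : ℕ) (F : MvPolynomial (Option σ) ℂ)
    (x : Option σ → R) : MvPolynomial.aeval x (cov m F) =
      MvPolynomial.aeval (pt (x none ^ m) fun i => x (some i)) F := by
  rw [cov, ← AlgHom.comp_apply, MvPolynomial.comp_aeval]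
  congr 2
  funext o
  cases o <;> simp [pt]

theorem eval_cov {σ : Type} (m : ℕ) (F : MvPolynomial (Option σ) ℂ) (x : Option σ → ℂ) :
    MvPolynomial.eval x (cov m F) = MvPolynomial.eval (pt (x none ^ m) fun i => x (some i)) F := by
  exact aeval_cov m F x

theorem bd_cov {σ : Type} {m : ℕ} (hm : 0 < m) (F : MvPolynomial (Option σ) ℂ) :
    bd (cov m F) = bd F := by
  rw [bd, aeval_cov, bd]
  congr 2
  funext o
  cases o <;> simp [pt, hm.ne']

theorem hom_cov {σ : Type} (W : Option σ → ℕ) (F : MvPolynomial (Option σ) ℂ) (n : ℕ)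
    (h : IsWeightedHomogeneous W F n) :
    IsWeightedHomogeneous (pt 1 fun i => W (some i)) (cov (W none) F) n := by
  refine SHv.hom rowHv _ _ _ _ fun l _ z => ?_
  rw [eval_cov, eval_cov, ← STop.scale0 rowTop _ W F n l _ h]
  congr 2
  funext o
  cases o <;> simp [pt, sc, mul_pow]

end MainA

open MainA in
theorem rowMain : OfMain := by
  intro hbd haff n c W d F hW hd hF hD hι
  have scl : ∀ (l : ℂ) (x : Option (Fin n) → ℂ), (∀ j, MvPolynomial.eval x (F j) = 0) →
      ∀ j, MvPolynomial.eval (sc W l x) (F j) = 0 := fun l x hx j => by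
    rw [STop.scale0 rowTop _ W _ _ l _ (hF j), hx j, mul_zero]
  have ok : OkF (fun i => W (some i)) d fun j => cov (W none) (F j) := by
    refine ⟨fun j => hom_cov W _ _ (hF j), ?_⟩
    simp only [bd_cov (hW none)]
    refine ⟨fun i => hW _, hd, fun j => hbd.hom _ W _ _ (hF j), fun x hx h => ?_, hι⟩
    have := hD (pt 0 x) (fun e => hx (funext fun i => congrFun e (some i))) rfl
      fun j => (hbd.eval _ _ _).symm.trans (h j)
    convert this using 2 with j
    funext i
    rw [jac, hbd.der, hbd.eval]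
  -- points off the boundary
  have normal : ∀ (v : Option (Fin n) → ℂ) (hv : v ≠ 0), (∀ j, MvPolynomial.eval v (F j) = 0) →
      v none ≠ 0 → ∃ (q : Fin n → ℂ) (hq : pt (1 : ℂ) q ≠ 0),
        WP.mk W v hv = WP.mk W _ hq ∧ Fib (fun j => cov (W none) (F j)) 0 (pt 1 q) := by
    intro v hv hs h0
    obtain ⟨l, hl⟩ := IsAlgClosed.exists_pow_nat_eq (v none)⁻¹ (hW none)
    have hl0 : l ≠ 0 := by
      rintro rfl
      rw [zero_pow (hW none).ne'] at hl
      exact inv_ne_zero h0 hl.symm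
    have e : pt (1 : ℂ) (fun i => sc W l v (some i)) = sc W l v := by
      funext o
      cases o
      · simp [pt, sc, hl, h0]
      · rfl
    refine ⟨fun i => sc W l v (some i), fun h => one_ne_zero (congrFun h none),
      mk_eq _ _ hl0 fun o => congrFun e o, fun j => ?_⟩
    rw [eval_cov]
    have := scl l v hs j
    rw [← e] at this
    simpa [pt] using this
  -- the curve
  have curve : ∀ (q : Bool → Fin n → ℂ) (hq : ∀ l, pt (1 : ℂ) (q l) ≠ 0) (p : Fin n → ℂ)
      (hp : pt (0 : ℂ) p ≠ 0), (∀ l, Fib (fun j => cov (W none) (F j)) 0 (pt 1 (q l))) →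
      Fib (fun j => bd (cov (W none) (F j))) 0 p →
      ∃ Γ : Set (WP W), IsRationalCurve W Γ ∧
        Γ ⊆ {x | ∃ v hv, x = WP.mk W v hv ∧ ∀ j, MvPolynomial.eval v (F j) = 0} ∧
        (∀ l, WP.mk W _ (hq l) ∈ Γ) ∧ WP.mk W _ hp ∈ Γ ∧
        Γ ∩ {x | ∃ v hv, x = WP.mk W v hv ∧ (∀ j, MvPolynomial.eval v (F j) = 0) ∧ v none = 0} =
          {WP.mk W _ hp} := by
    intro q hq p hp h1 h2
    have hp0 : p ≠ 0 := fun e => hp (funext fun o => by cases o <;> simp [pt, e])
    obtain ⟨E, x, t, hE, ht, cx, hx, hv⟩ := (haff _ _ _ d _ ok q h1).2 p hp0 h2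
    have hpF : ∀ j, MvPolynomial.eval (pt 0 p) (F j) = 0 := fun j => by
      have := h2 j
      simp only [bd_cov (hW none), hbd.eval] at this
      exact this
    let P : Option (Fin n) → ℂ[X] := pt (C (t ^ W none)) x
    have hP : ∀ j, MvPolynomial.aeval P (F j) = 0 := fun j => by
      have := hx j
      rw [aeval_cov] at this
      simp only [P, C_pow]
      exact this
    have hew : E * W none ≠ 0 := (Nat.mul_pos hE (hW none)).ne'
    have hdeg : ∀ o, (P o).natDegree ≤ E * W o := by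
      rintro (_ | i)
      · exact (natDegree_C _).trans_le (Nat.zero_le _)
      · exact cx.deg i
    have htop : ∀ o, (P o).coeff (E * W o) = pt 0 p o := by
      rintro (_ | i)
      · exact coeff_C_of_ne_zero hew
      · exact cx.top i
    let G : Option (Fin n) → MvPolynomial (Fin 2) ℂ := fun o => (P o).homogenize (E * W o)
    have g2 : ∀ u : Fin 2 → ℂ, u 1 ≠ 0 → (fun o => MvPolynomial.eval u (G o)) =
        sc W (u 1 ^ E) (ev P (u 0 / u 1)) := fun u hu => funext fun o => by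
      rw [sc, ev, ← pow_mul, mul_comm]
      exact eval_homogenize (hdeg o) u hu
    have g3 : ∀ u : Fin 2 → ℂ, u 1 = 0 → (fun o => MvPolynomial.eval u (G o)) =
        sc W (u 0 ^ E) (pt 0 p) := fun u hu => funext fun o => by
      rw [sc, ← pow_mul, mul_comm, ← htop o]
      exact eval_top _ _ u hu
    have t0 : ∀ u : Fin 2 → ℂ, u ≠ 0 → u 1 = 0 → u 0 ≠ 0 := fun u hu h1 h0 =>
      hu (funext fun j => by fin_cases j <;> assumption)
    have g1 : ∀ u : Fin 2 → ℂ, u 1 ≠ 0 → MvPolynomial.eval u (G none) ≠ 0 := fun u hu => by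
      rw [congrFun (g2 u hu) none]
      simp [sc, ev, P, pt, hu, ht]
    have nz : ∀ u : Fin 2 → ℂ, u ≠ 0 → (fun o => MvPolynomial.eval u (G o)) ≠ 0 := by
      intro u hu hz
      by_cases h1 : u 1 = 0
      · rw [g3 u h1] at hz
        exact hp (funext fun o => (mul_eq_zero.1 (congrFun hz o)).resolve_left
          (pow_ne_zero _ (pow_ne_zero _ (t0 u hu h1))))
      · exact g1 u h1 (congrFun hz none)
    have eqn : ∀ (u : Fin 2 → ℂ) j,
        MvPolynomial.eval (fun o => MvPolynomial.eval u (G o)) (F j) = 0 := by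
      intro u
      by_cases h1 : u 1 = 0
      · rw [g3 u h1]
        exact scl _ _ hpF
      · rw [g2 u h1]
        exact scl _ _ fun j => by rw [← eval_aeval, hP, eval_zero]
    have n10 : (![1, 0] : Fin 2 → ℂ) ≠ 0 := fun h => one_ne_zero (congrFun h 0)
    have n01 : ∀ s : ℂ, (![s, 1] : Fin 2 → ℂ) ≠ 0 := fun s h => one_ne_zero (congrFun h 1)
    let Γ : Set (WP W) := {y | ∃ (u : Fin 2 → ℂ) (hu : u ≠ 0),
      y = WP.mk _ (fun o => MvPolynomial.eval u (G o)) (nz u hu)}
    have hqΓ : ∀ l, WP.mk W _ (hq l) ∈ Γ := fun l => by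
      refine ⟨![nd l, 1], n01 _, mk_eq _ _ ht fun o => ?_⟩
      rw [congrFun (g2 _ (by simp)) o]
      rcases o with _ | i
      · simp [sc, ev, P, pt]
      · simpa [sc, ev, P, pt] using congrFun (hv l) i
    have hpΓ : WP.mk W _ hp ∈ Γ := by
      refine ⟨![1, 0], n10, mk_eq _ _ one_ne_zero fun o => ?_⟩
      rw [congrFun (g3 _ (by simp)) o]
      simp [sc]
    have none0 : ∀ (v : Option (Fin n) → ℂ) (hv : v ≠ 0), WP.mk W v hv ∈
        {x | ∃ v hv, x = WP.mk W v hv ∧ (∀ j, MvPolynomial.eval v (F j) = 0) ∧ v none = 0} →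
        v none = 0 := by
      rintro v hv ⟨u, hu, e, -, h0⟩
      obtain ⟨l, -, hl⟩ := Quotient.exact e.symm
      simpa [h0] using hl none
    refine ⟨Γ, ⟨E, G, fun o => isHomogeneous_homogenize _, nz, rfl, _, hqΓ true, _, hpΓ,
      fun e => one_ne_zero (none0 _ (hq true) ⟨_, hp, e, hpF, rfl⟩)⟩, ?_, hqΓ, hpΓ,
      Set.eq_singleton_iff_unique_mem.2 ⟨⟨hpΓ, _, hp, rfl, hpF, rfl⟩, ?_⟩⟩
    · rintro _ ⟨u, hu, rfl⟩
      exact ⟨_, _, rfl, eqn u⟩
    · rintro _ ⟨⟨u, hu, rfl⟩, h⟩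
      have h1 : u 1 = 0 := by_contra fun h1 => g1 u h1 (none0 _ _ h)
      exact (mk_eq _ _ (pow_ne_zero E (t0 u hu h1)) fun o => congrFun (g3 u h1) o).symm
  rintro _ ⟨v, hv, rfl, hs⟩ _ ⟨⟨v', hv', rfl, hs'⟩, hq⟩
  obtain ⟨q, hq0, e', hq1⟩ := normal v' hv' hs' fun h => hq ⟨_, hv', rfl, hs', h⟩
  by_cases h0 : v none = 0
  · have e : pt (0 : ℂ) (fun i => v (some i)) = v := funext fun o => by
      cases o
      · exact h0.symm
      · rfl
    obtain ⟨Γ, c1, c2, c3, c4, c5⟩ := curve (fun _ => q) (fun _ => hq0) (fun i => v (some i))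
      (by rwa [e]) (fun _ => hq1) fun j => by
        simp only [bd_cov (hW none), hbd.eval, e]
        exact hs j
    refine ⟨Γ, c1, c2, ?_, e' ▸ c3 true, fun h => hq (h (e' ▸ c3 true)), _, c5⟩
    convert c4 using 2
    exact e.symm
  · obtain ⟨q', hq0', e, hq1'⟩ := normal v hv hs h0
    have h1 : ∀ l : Bool, Fib (fun j => cov (W none) (F j)) 0 (pt 1 (cond l q q')) := fun l => by
      cases l
      · exact hq1'
      · exact hq1
    obtain ⟨p, hp, hp1⟩ := (haff _ _ _ d _ ok _ h1).1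
    obtain ⟨Γ, c1, c2, c3, -, c5⟩ := curve (fun l => cond l q q')
      (fun l h => one_ne_zero (congrFun h none)) p
      (fun h => hp (funext fun i => congrFun h (some i))) h1 hp1
    exact ⟨Γ, c1, c2, e ▸ c3 false, e' ▸ c3 true, fun h => hq (h (e' ▸ c3 true)), _, c5⟩

end Pool.Agent.MP_776d16_ag.H7W
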