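import Pool.Agent.MP_776d16_ag.H7W.Spec

/-!
One curve through several given points and a generic point.
-/

open Polynomial
open Fintype (card)
open Set (range)

namespace Pool.Agent.MP_776d16_ag.H7W

namespace MarkA

/-- A polynomial with given constant term and given higher coefficients. -/
noncomputable def low {D : ℕ} (c : ℂ) (z : Fin D → ℂ) : ℂ[X] := C c + X * pol z

theorem low_zero {D : ℕ} (c : ℂ) (z : Fin D → ℂ) : (low c z).coeff 0 = c := by simp [low]

theorem low_succ {D : ℕ} (c : ℂ) (z : Fin D → ℂ) (k : ℕ) :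
    (low c z).coeff (k + 1) = (pol z).coeff k := by simp [low, coeff_X_mul]

theorem low_degree {n : ℕ} (hn : 0 < n) (c : ℂ) (z : Fin (n - 1) → ℂ) :
    (low c z).degree < n := by
  refine (degree_lt_iff_coeff_zero _ _).2 fun k hk => ?_
  obtain ⟨k, rfl⟩ : ∃ m, k = m + 1 := ⟨k - 1, by omega⟩
  rw [low_succ, coeff_pol, dif_neg (by omega)]

theorem low_coeff {n : ℕ} {f : ℂ[X]} (h : f.degree < n) :
    low (f.coeff 0) (fun k : Fin (n - 1) => f.coeff (k + 1)) = f := by
  ext k
  rcases k with _ | k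
  · exact low_zero _ _
  · rw [low_succ, coeff_pol]
    split_ifs with hk
    · rfl
    · exact ((degree_lt_iff_coeff_zero _ _).1 h _ (by omega)).symm

theorem coeff_tooth {σ : Type} (w : σ → ℕ) (a : ℕ) (v : σ → ℂ) (b : σ → ℂ[X]) (i : σ) {k : ℕ}
    (hk : k < a * w i) : (tooth w a v b i).coeff k = (b i).coeff k := by
  rw [tooth, coeff_add, coeff_C_mul_X_pow, if_neg hk.ne, zero_add]

theorem sum_pred {σ : Type} [Fintype σ] {w : σ → ℕ} {a : ℕ} (ha : 0 < a) (hw : ∀ i, 0 < w i) :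
    ∑ i, (a * w i - 1) + card σ = a * ∑ i, w i := by
  rw [Finset.mul_sum, ← Finset.card_univ, Finset.card_eq_sum_ones, ← Finset.sum_add_distrib]
  exact Finset.sum_congr rfl fun i _ => Nat.sub_add_cancel (Nat.mul_pos ha (hw i))

end MarkA

open MarkA in
theorem rowMark : OfMark := by
  intro hRk hPf hPp hPq _ hKr hTop _ hLink hR1 hP hI hS hZ σ J L _ _ _ _ w d g ok K y v s hK hg
    hvK hv0 hy hl hs
  classical
  have kit := hLink σ J w d g ok.hom
  have hfv : ∀ l, Fib g 0 (v l) := fun l => (kit.fib _ _ (hl l)).1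
  choose e T h1 h2 h3 using hl
  obtain ⟨a, ha, hle⟩ : ∃ a, 0 < a ∧ ∀ l, e l ≤ a :=
    ⟨Finset.univ.sup e + 1, Nat.succ_pos _, fun l =>
      (Finset.le_sup (f := e) (Finset.mem_univ l)).trans (Nat.le_succ _)⟩
  choose T' h4 h5 h6 using fun l => kit.pad (e l) a (T l) y (hle l) (h1 l) (h2 l)
  choose b0 h7 h8 using fun l => kit.tooth a (T' l) y (h4 l)
  have haw : ∀ i, 0 < a * w i := fun i => Nat.mul_pos ha (ok.wpos i)
  have h9 : ∀ l i, (b0 l i).coeff 0 = v l i := fun l i => by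
    rw [← coeff_tooth w a y (b0 l) i (haw i), ← h8, coeff_zero_eq_eval_zero, ← h3, ← h6]
    rfl
  obtain ⟨K', hK', hsub, -⟩ := hRk.ext (K ∪ range y ∪ range s)
    ((hK.union (Set.countable_range y)).union (Set.countable_range s))
  have hKK : ∀ x ∈ K, x ∈ K' := fun x hx => hsub (Or.inl (Or.inl hx))
  let B : (Option (L × Σ i, Fin (a * w i - 1)) → ℂ) → L → σ → ℂ[X] :=
    fun z l i => low (v l i) fun k => z (some (l, ⟨i, k⟩))
  have hB : ∀ z l i, (B z l i).degree < (a * w i : ℕ) := fun z l i => low_degree (haw i) _ _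
  have hB0 : ∀ z l, ev (B z l) 0 = v l := fun z l => funext fun i =>
    (coeff_zero_eq_eval_zero _).symm.trans (low_zero _ _)
  have hΓ : Crv w 0 (fun i => C (y i)) y := ⟨fun i => by simp, fun i => by simp⟩
  have hΓ0 : On g 0 fun i => C (y i) := fun j => by rw [aeval_C', hy.2.1 j]
  have hΓs : ∀ t, ev (fun i => C (y i)) t = y := fun t => funext fun i => eval_C
  have hz := fun z (h0 : z none = 0) => hZ σ J L w d g a 0 s (fun i => C (y i)) y (B z)
    (fun _ => z none) 0 0 0 ok.wpos ok.dpos ok.hom ha hs hΓ hy.2.1 (hB z) (fun _ => h0)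
    (fun _ => rfl) (fun _ _ => (mul_zero _).symm)
  have hpf := (hP σ J L (Option (L × Σ i, Fin (a * w i - 1))) K' w d g a s (fun i _ => C (y i))
    (fun l i z => B z l i) (fun _ z => z none) (fun _ _ => 0) (fun _ _ _ => 0)
    (fun j m => hKK _ (hg j m)) (fun l => hsub (Or.inr ⟨l, rfl⟩))
    (fun i => hPp.C _ _ _ (hPf.const _ _ _ (hsub (Or.inl (Or.inr ⟨i, rfl⟩)))))
    (fun l i => hPp.add _ _ _ _ (hPp.C _ _ _ (hPf.const _ _ _ (hKK _ (hvK l i))))
      (hPp.mul _ _ _ _ (hPp.X _ _) (hPq.pol _ _ _ _ fun k => hPf.var _ _ _)))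
    (fun _ => hPf.var _ _ _) (fun _ => hPf.const _ _ _ K'.zero_mem)
    (fun _ _ => hPf.const _ _ _ K'.zero_mem)).1
  let z0 : Option (L × Σ i, Fin (a * w i - 1)) → ℂ :=
    fun o => o.elim 0 fun p => (b0 p.1 p.2.1).coeff (p.2.2 + 1)
  have hz0 : B z0 = b0 := funext fun l => funext fun i => by
    have := low_coeff (h7 l i)
    rwa [h9] at this
  obtain ⟨z, e1, -, e2⟩ := hKr K' _ (L × Σ j, Fin (a * d j - 1))
    (fun p z => (gLow g w a s (fun i => C (y i)) (B z) (fun _ => z none) 0 p.1 p.2.1).coeff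
      (p.2.2 + 1)) z0 hK' (fun p => hpf p.1 p.2.1 _) fun p =>
      ((hz z0 rfl).2 ⟨hΓ0, fun l => by
        rw [hΓs, hz0, ← h8]
        exact h5 l⟩).1 _ _ _ (by have := p.2.2.2; omega)
  have gl := hI σ L w a s (fun i => C (y i)) (B z) (fun _ => z none) ok.wpos ha (hB z)
  have e3 : ∀ l j k, k < a * d j →
      (gLow g w a s (fun i => C (y i)) (B z) (fun _ => z none) 0 l j).coeff k = 0 := by
    intro l j k hk
    rcases k with _ | k
    · rw [coeff_zero_eq_eval_zero, gLow, eval_sub, eval_aeval, gl.val0, hB0,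
        hTop.scale0 _ _ _ _ _ _ (ok.hom j), hfv l j]
      simp
    · exact e1 (l, ⟨j, ⟨k, by omega⟩⟩)
  by_cases h0 : z none = 0
  · exfalso
    have e4 := ((hz z h0).1 ⟨e3, fun j k hk => by simp at hk⟩).2
    simp only [hΓs] at e4
    have e5 : ∀ l i, (tooth w a y (B z l) i).coeff 0 = v l i := fun l i => by
      rw [coeff_tooth _ _ _ _ _ (haw i), low_zero]
    have e6 : ∀ l, rk (K ∪ range y) (cf (tooth w a y (B z l))) + ∑ j, (a * d j - 1) ≤
        ∑ i, (a * w i - 1) := fun l => by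
      have := (hR1 σ J w d g ok K 0 a _ y hg (fun _ => K.zero_mem) (kit.crv a y _ (hB z l)) (e4 l)
        hy).1 X ok.sm X_ne_zero (fun t ht h => hv0 l (funext fun i => by
          rw [eval_X] at ht
          rw [← e5, coeff_zero_eq_eval_zero, ← ht]
          exact congrFun h i)) fun δ hδ i => by
          rw [X_dvd_iff, DcA.coeff_dc, e5]
          exact hδ _ (hvK l i)
      rw [Bd, natDegree_X, ← sum_pred ha ok.wpos, ← sum_pred ha ok.dpos] at this
      omega
    have e7 : rk K' (range z) ≤ ∑ l, rk (K ∪ range y) (cf (tooth w a y (B z l))) := by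
      refine (hRk.mono _ (⋃ l, cf (tooth w a y (B z l))) _
        (Set.finite_iUnion fun l => cf_finite _) fun δ _ hδ => mem_Kil_range.2 ?_).trans
        ((hRk.sum _ L _ fun l => cf_finite _).trans (Finset.sum_le_sum fun l _ =>
          hRk.anti _ _ _ (cf_finite _) fun δ hδ x hx => hδ x (hsub (Or.inl hx))))
      rintro (_ | ⟨l, i, k⟩)
      · rw [h0, map_zero]
      · refine hδ _ (Set.mem_iUnion.2 ⟨l, i, k + 1, ?_⟩)
        rw [coeff_tooth _ _ _ _ _ (by have := k.2; omega), low_succ, coeff_pol, dif_pos k.2]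
    have e8 := Finset.sum_le_sum (s := Finset.univ) fun l _ => e6 l
    simp only [Finset.sum_add_distrib, Finset.sum_const, Finset.card_univ, smul_eq_mul] at e8
    simp only [Fintype.card_option, Fintype.card_prod, Fintype.card_sigma, Fintype.card_fin] at e2
    omega
  · refine ⟨_, _, gl.crv 0 y hΓ, hS σ J L w d g a 0 s _ y (B z) _ 0 0 ok.wpos ok.dpos ok.hom ha hs
      hΓ hy.2.1 (hB z) (fun _ _ => (mul_zero _).symm) e3 fun j k hk => by simp at hk,
      fun l => ⟨_, pow_ne_zero a (mul_ne_zero h0 ?_), by rw [gl.val, hB0]⟩⟩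
    rw [uu, eval_prod]
    refine Finset.prod_ne_zero_iff.2 fun l' hl' => ?_
    rw [eval_sub, eval_X, eval_C]
    exact sub_ne_zero.2 fun h => (Finset.mem_erase.1 hl').1 (hs h).symm

end Pool.Agent.MP_776d16_ag.H7W
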