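import Pool.Agent.MP_776d16_ag.H7W.Defs

/-!
General lemmas, copied from the files of helper39's project (MP_4be736_ag/H39) so that this
development does not depend on them.
-/

open Polynomial

namespace Pool.Agent.MP_776d16_ag.H7W

namespace LatticeA

theorem core {M N I : Type} [AddCommGroup M] [Module ℂ[X] M] [Module ℂ M]
    [IsScalarTower ℂ ℂ[X] M] [Module.Free ℂ[X] M] [Module.Finite ℂ[X] M] [Fintype N]
    [DecidableEq N] [Fintype I] (s : N → M) (h : ℂ[X]) (v : I → M)
    (hs : LinearIndependent ℂ[X] s) (h0 : h ≠ 0)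
    (hh : ∀ x, h • x ∈ Submodule.span ℂ[X] (Set.range s))
    (hv : ∀ c : I → ℂ, ∑ i, c i • v i ∈ Submodule.span ℂ[X] (Set.range s) → c = 0) :
    ∃ (u : N → M) (A : Matrix N N ℂ[X]), (∀ n, s n = ∑ m, A n m • u m) ∧
      Fintype.card I ≤ A.det.natDegree := by
  set L := Submodule.span ℂ[X] (Set.range s) with hL
  have r1 : Module.finrank ℂ[X] L = Module.finrank ℂ[X] M := by
    refine le_antisymm L.finrank_le
      (((LinearMap.lsmul ℂ[X] M h).codRestrict L hh).finrank_le_finrank_of_injective ?_)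
    intro x y e
    exact smul_right_injective M h0 (congrArg Subtype.val e)
  have r2 : Module.finrank ℂ[X] M = Fintype.card N := r1.symm.trans (finrank_span_eq_card hs)
  obtain ⟨b, a, ab, hab⟩ := L.exists_smith_normal_form_of_rank_eq
    ((Module.finBasisOfFinrankEq ℂ[X] M r2).reindex (Fintype.equivFin N).symm) r1
  have ha : ∀ n, a n ≠ 0 := fun n e => ab.ne_zero n (Subtype.ext (by rw [hab, e, zero_smul]; rfl))
  let bs := Module.Basis.span hs
  refine ⟨b, Matrix.of fun n m => a m * (ab.toMatrix bs).transpose n m, fun n => ?_, ?_⟩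
  · have e := congrArg Subtype.val (ab.sum_repr (bs n))
    rw [Module.Basis.coe_span_apply] at e
    rw [← e, AddSubmonoidClass.coe_finsetSum]
    refine Finset.sum_congr rfl fun m _ => ?_
    rw [Submodule.coe_smul, hab, smul_smul, mul_comm]
    rfl
  · have hu : IsUnit (ab.toMatrix bs).det := ab.isUnit_det bs
    rw [Matrix.det_mul_row, Matrix.det_transpose,
      natDegree_mul (Finset.prod_ne_zero_iff.2 fun n _ => ha n) hu.ne_zero,
      natDegree_eq_zero_of_isUnit hu, add_zero, natDegree_prod _ _ fun n _ => ha n]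
    have : ∀ n, Module.Finite ℂ (ℂ[X] ⧸ Ideal.span {a n}) := fun n =>
      (AdjoinRoot.powerBasis (ha n)).finite
    let T : (I → ℂ) →ₗ[ℂ] (∀ n, ℂ[X] ⧸ Ideal.span {a n}) := LinearMap.pi fun n =>
      (Ideal.Quotient.mkₐ ℂ (Ideal.span {a n})).toLinearMap ∘ₗ
        ((b.coord n).restrictScalars ℂ ∘ₗ Fintype.linearCombination ℂ v)
    have hT : Function.Injective T := by
      rw [injective_iff_map_eq_zero]
      intro c hc
      refine hv c ?_
      have h1 : ∀ n, a n ∣ b.repr (∑ i, c i • v i) n := fun n =>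
        Ideal.mem_span_singleton.1 (Ideal.Quotient.eq_zero_iff_mem.1 (congrFun hc n))
      choose q hq using h1
      rw [← b.sum_repr (∑ i, c i • v i)]
      refine L.sum_mem fun n _ => ?_
      rw [hq, mul_comm, ← smul_smul, ← hab]
      exact L.smul_mem _ (ab n).2
    have := T.finrank_le_finrank_of_injective hT
    rw [Module.finrank_fintype_fun_eq_card, Module.finrank_pi_fintype] at this
    simpa only [finrank_quotient_span_eq_natDegree] using this

end LatticeA

theorem sLattice : ∀ (K N I : Type) [Fintype K] [Fintype N] [DecidableEq N] [Fintype I]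
    (Λ : Submodule ℂ[X] (K → ℂ[X])) (s : N → K → ℂ[X]) (h : ℂ[X]) (v : I → K → ℂ[X]),
    (∀ n, s n ∈ Λ) → LinearIndependent ℂ[X] s → h ≠ 0 →
    (∀ x ∈ Λ, h • x ∈ Submodule.span ℂ[X] (Set.range s)) → (∀ i, v i ∈ Λ) →
    (∀ c : I → ℂ, ∑ i, c i • v i ∈ Submodule.span ℂ[X] (Set.range s) → c = 0) →
    ∃ (u : N → K → ℂ[X]) (A : Matrix N N ℂ[X]), (∀ n, u n ∈ Λ) ∧ (∀ n, s n = ∑ m, A n m • u m) ∧
      Fintype.card I ≤ A.det.natDegree := by
  intro K N I _ _ _ _ Λ s h v hs hli h0 hh hv hc
  have key : ∀ x : Λ, x ∈ Submodule.span ℂ[X] (Set.range fun n => (⟨s n, hs n⟩ : Λ)) ↔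
      (x : K → ℂ[X]) ∈ Submodule.span ℂ[X] (Set.range s) := fun x => by
    have : Set.range s = Λ.subtype '' Set.range fun n => (⟨s n, hs n⟩ : Λ) := by
      rw [← Set.range_comp]; rfl
    rw [this, ← Submodule.map_span]
    exact ⟨fun h => ⟨x, h, rfl⟩, fun ⟨y, h, e⟩ => Subtype.ext e ▸ h⟩
  obtain ⟨u, A, h1, h2⟩ := LatticeA.core (M := Λ) (fun n => ⟨s n, hs n⟩) h (fun i => ⟨v i, hv i⟩)
    (LinearIndependent.of_comp Λ.subtype hli) h0 (fun x => (key _).2 (hh x x.2))
    fun c hc' => hc c (by simpa using (key _).1 hc')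
  refine ⟨fun n => u n, A, fun n => (u n).2, fun n => ?_, h2⟩
  simpa using congrArg Subtype.val (h1 n)

namespace TopDetA

theorem prod_top {K : Type} (s : Finset K) (p : K → ℂ[X]) (d : K → ℕ)
    (h : ∀ i, (p i).natDegree ≤ d i) :
    (∏ i ∈ s, p i).natDegree ≤ ∑ i ∈ s, d i ∧
      (∏ i ∈ s, p i).coeff (∑ i ∈ s, d i) = ∏ i ∈ s, (p i).coeff (d i) := by
  classical
  induction s using Finset.induction_on with
  | empty => simp
  | insert a s ha ih =>
    simp only [Finset.prod_insert ha, Finset.sum_insert ha]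
    exact ⟨natDegree_mul_le.trans (add_le_add (h a) ih.1),
      by rw [coeff_mul_add_eq_of_natDegree_le (h a) ih.1, ih.2]⟩

end TopDetA

theorem sTopDet : ∀ (K : Type) [Fintype K] [DecidableEq K] (M : Matrix K K ℂ[X])
    (a b : K → ℕ), (∀ i j, (M i j).natDegree ≤ a i + b j) →
    M.det.natDegree ≤ ∑ i, a i + ∑ i, b i ∧
      M.det.coeff (∑ i, a i + ∑ i, b i) = (Matrix.of fun i j => (M i j).coeff (a i + b j)).det := by
  intro K _ _ M a b h
  have key : ∀ σ : Equiv.Perm K, (∏ i, M (σ i) i).natDegree ≤ ∑ i, a i + ∑ i, b i ∧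
      (∏ i, M (σ i) i).coeff (∑ i, a i + ∑ i, b i) =
        ∏ i, (M (σ i) i).coeff (a (σ i) + b i) := fun σ => by
    have := TopDetA.prod_top Finset.univ (fun i => M (σ i) i) (fun i => a (σ i) + b i)
      fun i => h _ _
    rwa [Finset.sum_add_distrib, Equiv.sum_comp σ a] at this
  rw [Matrix.det_apply, Matrix.det_apply]
  refine ⟨natDegree_sum_le_of_forall_le _ _ fun σ _ => (natDegree_smul_le _ _).trans (key σ).1, ?_⟩
  rw [finsetSum_coeff]
  refine Finset.sum_congr rfl fun σ _ => ?_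
  rw [coeff_smul, (key σ).2]
  rfl

namespace BoundA

variable {K N L : Type} [Fintype K] [DecidableEq K] [Fintype N] [DecidableEq N] [Fintype L]
  [DecidableEq L]

theorem DD_change (ε : K ≃ N ⊕ L) (s u : N → K → ℂ[X]) (w : L → K → ℂ[X]) (A : Matrix N N ℂ[X])
    (h : ∀ n, s n = ∑ m, A n m • u m) : DD ε s w = DD ε u w * A.det := by
  have e : A.det = ((Matrix.fromBlocks A.transpose 0 0 (1 : Matrix L L ℂ[X])).submatrix ε ε).det := by
    rw [Matrix.det_submatrix_equiv_self, Matrix.det_fromBlocks_zero₂₁, Matrix.det_transpose,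
      Matrix.det_one, mul_one]
  rw [e, DD, DD, ← Matrix.det_mul]
  congr 1
  ext1 l k
  rw [Matrix.mul_apply]
  simp only [Matrix.of_apply, Matrix.submatrix_apply]
  rw [ε.sum_comp fun z => Sum.elim u w z l *
    Matrix.fromBlocks A.transpose 0 0 (1 : Matrix L L ℂ[X]) z (ε k), Fintype.sum_sum_type]
  rcases ε k with n | i
  · simp [h, mul_comm]
  · simp [Matrix.one_apply]

omit [DecidableEq N] in
theorem smul_mem (ε : K ≃ N ⊕ L) (φ w : L → K → ℂ[X]) (s : N → K → ℂ[X])
    (hs : ∀ n i, ∑ l, φ i l * s n l = 0) (hW : DW φ w ≠ 0) (x : K → ℂ[X])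
    (hx : ∀ i, ∑ l, φ i l * x l = 0) :
    DD ε s w • x ∈ Submodule.span ℂ[X] (Set.range s) := by
  obtain ⟨B, hB⟩ : ∃ B : N ⊕ L → ℂ[X], ∀ l, DD ε s w * x l =
      ∑ n, s n l * B (.inl n) + ∑ i, w i l * B (.inr i) := by
    let M : Matrix K K ℂ[X] := Matrix.of fun l l' => Sum.elim s w (ε l') l
    refine ⟨fun z => M.cramer x (ε.symm z), fun l => ?_⟩
    have := congrFun (M.mulVec_cramer x) l
    rw [Matrix.mulVec, dotProduct, ← ε.symm.sum_comp, Fintype.sum_sum_type] at this
    simpa [M, DD] using this.symm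
  have h0 : (fun i => B (.inr i)) = 0 := by
    refine Matrix.eq_zero_of_mulVec_eq_zero hW (funext fun i => ?_)
    have e : ∑ l, φ i l * (DD ε s w * x l) = 0 := by
      simp only [mul_left_comm (φ i _), ← Finset.mul_sum, hx i, mul_zero]
    simp only [hB, mul_add, Finset.sum_add_distrib, Finset.mul_sum, ← mul_assoc] at e
    rw [Finset.sum_comm, Finset.sum_comm (s := (Finset.univ : Finset K))] at e
    simp only [← Finset.sum_mul, hs, zero_mul, Finset.sum_const_zero, zero_add] at e
    exact e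
  have e : DD ε s w • x = ∑ n, B (.inl n) • s n := by
    funext l
    have h1 : ∀ i, B (.inr i) = 0 := congrFun h0
    simp [hB, h1, mul_comm]
  rw [e]
  exact Submodule.sum_mem _ fun n _ => Submodule.smul_mem _ _ (Submodule.subset_span ⟨n, rfl⟩)

end BoundA

open BoundA in
/-- The abstract dimension bound. -/
theorem absBound (K N L I : Type) [Fintype K] [DecidableEq K] [Fintype N] [DecidableEq N]
    [Fintype L] [DecidableEq L] [Fintype I] (ε : K ≃ N ⊕ L) (φ w : L → K → ℂ[X])
    (Λ : Submodule ℂ[X] (K → ℂ[X])) (H : ℂ[X]) (s : N → K → ℂ[X]) (v : I → K → ℂ[X])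
    (hΛ : ∀ x ∈ Λ, ∀ i, ∑ l, φ i l * x l = 0)
    (hH : ∀ u : N → K → ℂ[X], (∀ n, u n ∈ Λ) → H ∣ DD ε u w)
    (hs0 : ∀ n, s n ∈ Λ) (hv : ∀ i, v i ∈ Λ) (hD : DD ε s w ≠ 0) (hW : DW φ w ≠ 0)
    (hc : ∀ c : I → ℂ, ∑ i, c i • v i ∈ Submodule.span ℂ[X] (Set.range s) → c = 0) :
    Fintype.card I + H.natDegree ≤ (DD ε s w).natDegree := by
  have hs : LinearIndependent ℂ[X] s := by
    have := (Matrix.linearIndependent_cols_of_det_ne_zero hD).comp (fun n => ε.symm (.inl n))
      (ε.symm.injective.comp Sum.inl_injective)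
    have e : (Matrix.of fun l l' => Sum.elim s w (ε l') l).col ∘ (fun n => ε.symm (.inl n)) = s := by
      funext n l
      simp [Matrix.col]
    rwa [e] at this
  obtain ⟨u, A, hu, hA, hI⟩ := sLattice K N I Λ s (DD ε s w) v hs0 hs hD
    (fun x hx => smul_mem ε φ w s (fun n => hΛ _ (hs0 n)) hW x (hΛ x hx)) hv hc
  have e := DD_change ε s u w A hA
  rw [e] at hD ⊢
  have := natDegree_le_of_dvd (hH u hu) (left_ne_zero_of_mul hD)
  rw [natDegree_mul (left_ne_zero_of_mul hD) (right_ne_zero_of_mul hD)]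
  omega

namespace DetDivA

theorem exists_ext {K P : Type} [Fintype K] [Fintype P] {f : P → K → ℂ}
    (hf : LinearIndependent ℂ f) : ∃ (m : ℕ) (x : Fin m → K → ℂ),
      LinearIndependent ℂ (Sum.elim f x) ∧ Fintype.card P + m = Fintype.card K := by
  obtain ⟨W, hW⟩ := Submodule.exists_isCompl (Submodule.span ℂ (Set.range f))
  let b := Module.finBasis ℂ W
  refine ⟨_, fun i => (b i : K → ℂ), hf.sum_type
    (b.linearIndependent.map' W.subtype W.ker_subtype) (hW.disjoint.mono_right ?_), ?_⟩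
  · exact Submodule.span_le.2 (Set.range_subset_iff.2 fun i => (b i).2)
  · have := Submodule.finrank_add_eq_of_isCompl hW
    rwa [finrank_span_eq_card hf, Module.finrank_fintype_fun_eq_card] at this

theorem dvd_of_loc {H D : ℂ[X]} (h : ∀ a : ℂ, ∃ r : ℂ[X], r.eval a ≠ 0 ∧ H ∣ r * D) : H ∣ D := by
  let I : Ideal ℂ[X] :=
    { carrier := {r | H ∣ r * D}
      add_mem' := fun {a b} ha hb => by
        change H ∣ (a + b) * D
        rw [add_mul]
        exact dvd_add ha hb
      zero_mem' := by simp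
      smul_mem' := fun c r hr => by
        change H ∣ (c * r) * D
        rw [mul_assoc]
        exact Dvd.dvd.mul_left hr c }
  let p := Submodule.IsPrincipal.generator I
  by_cases hp : p.degree = 0
  · have h1 : H ∣ p * D := Submodule.IsPrincipal.generator_mem I
    exact (isUnit_iff_degree_eq_zero.2 hp).dvd_mul_left.1 h1
  · obtain ⟨a, ha⟩ := IsAlgClosed.exists_root p hp
    obtain ⟨r, h1, h2⟩ := h a
    exact absurd (ha.dvd ((Submodule.IsPrincipal.mem_iff_generator_dvd I).1 h2)) h1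

theorem det_mul_DD {K N L : Type} [Fintype K] [DecidableEq K] [Fintype N] [DecidableEq N]
    [Fintype L] [DecidableEq L] (ε : K ≃ N ⊕ L) (φ w : L → K → ℂ[X]) (ρ u : N → K → ℂ[X])
    (h : ∀ n i, ∑ l, φ i l * u n l = 0) :
    (Matrix.of fun k l => Sum.elim ρ φ (ε k) l).det * DD ε u w =
      (Matrix.of fun n n' => ∑ l, ρ n l * u n' l).det * DW φ w := by
  rw [DD, DW, ← Matrix.det_mul, ← Matrix.det_fromBlocks_zero₂₁ _
    (Matrix.of fun n i => ∑ l, ρ n l * w i l), ← Matrix.det_submatrix_equiv_self ε]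
  congr 1
  ext1 k k'
  rw [Matrix.mul_apply, Matrix.submatrix_apply]
  simp only [Matrix.of_apply]
  rcases ε k with n | i <;> rcases ε k' with n' | i' <;> simp [h]

end DetDivA

namespace DcA

theorem coeff_dc (δ : Der) (p : ℂ[X]) (n : ℕ) : (dc δ p).coeff n = δ (p.coeff n) := by
  classical
  rw [dc, coeff_sum, Polynomial.sum]
  simp only [coeff_monomial]
  rw [Finset.sum_ite_eq']
  split_ifs with h
  · rfl
  · rw [notMem_support_iff.1 h, map_zero]

theorem dc_add (δ : Der) (p q : ℂ[X]) : dc δ (p + q) = dc δ p + dc δ q := by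
  ext n
  simp only [coeff_dc, coeff_add, map_add]

theorem dc_mul (δ : Der) (p q : ℂ[X]) : dc δ (p * q) = p * dc δ q + q * dc δ p := by
  ext n
  rw [coeff_dc, coeff_add, mul_comm q, coeff_mul, coeff_mul, coeff_mul, map_sum,
    ← Finset.sum_add_distrib]
  refine Finset.sum_congr rfl fun x _ => ?_
  rw [Derivation.leibniz, coeff_dc, coeff_dc, smul_eq_mul, smul_eq_mul]
  ring

theorem dc_C (δ : Der) (a : ℂ) : dc δ (C a) = C (δ a) := by
  ext n
  rw [coeff_dc, coeff_C, coeff_C]
  split_ifs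
  · rfl
  · exact map_zero δ

theorem dc_lin (δ : Der) (a : ℂ) : dc δ (X - C a) = -C (δ a) := by
  ext n
  rw [coeff_dc, coeff_sub, map_sub, coeff_neg, ← dc_C, coeff_dc, coeff_X]
  split_ifs <;> simp

theorem chain (δ : Der) {τ : Type} [Fintype τ] (F : MvPolynomial τ ℂ) (f : τ → ℂ[X])
    (h : ∀ m, δ (MvPolynomial.coeff m F) = 0) : dc δ (MvPolynomial.aeval f F) = dP F f fun l => dc δ (f l) := by
  classical
  let Q : MvPolynomial τ ℂ → Prop := fun F =>
    dc δ (MvPolynomial.aeval f F) = dP F f fun l => dc δ (f l)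
  have hC : ∀ a : ℂ, δ a = 0 → Q (MvPolynomial.C a) := fun a ha => by
    simp [Q, dP, dc_C, ha]
  have hX : ∀ l, Q (MvPolynomial.X l) := fun l => by
    simp [Q, dP, MvPolynomial.pderiv_X, Pi.single_apply, apply_ite]
  have hA : ∀ F G, Q F → Q G → Q (F + G) := fun F G h h' => by
    simp only [Q, dP, map_add, dc_add, add_mul, Finset.sum_add_distrib] at h h' ⊢
    rw [h, h']
  have hM : ∀ F G, Q F → Q G → Q (F * G) := fun F G h h' => by
    simp only [Q, dP, map_mul, dc_mul, Derivation.leibniz, smul_eq_mul, map_add, add_mul,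
      Finset.sum_add_distrib] at h h' ⊢
    rw [h, h', Finset.mul_sum, Finset.mul_sum]
    simp only [mul_assoc]
  have h1 : Q 1 := by simpa using hC 1 δ.map_one_eq_zero
  have hP : ∀ (n : ℕ) l, Q (MvPolynomial.X l ^ n) := fun n l => by
    induction n with
    | zero => simpa using h1
    | succ n ih => rw [pow_succ]; exact hM _ _ ih (hX l)
  change Q F
  rw [F.as_sum]
  refine Finset.sum_induction _ Q hA (by simpa using hC 0 (map_zero δ)) fun m _ => ?_
  rw [MvPolynomial.monomial_eq]
  exact hM _ _ (hC _ (h m)) (Finset.prod_induction _ Q hM h1 fun l _ => hP _ l)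

end DcA

namespace IndepA

open KaehlerDifferential Module

theorem kaehler_basis {F L ι : Type*} [Field F] [CharZero F] [Field L] [Algebra F L] {v : ι → L}
    (hv : IsTranscendenceBasis F v) :
    ∃ b : Basis ι L Ω[L⁄F], ∀ i, b i = D F L (v i) := by
  let S := MvPolynomial ι F
  let _ : Algebra S L := (MvPolynomial.aeval v : S →ₐ[F] L).toRingHom.toAlgebra
  have _ : IsScalarTower F S L := .of_algebraMap_eq fun a => by
    change _ = MvPolynomial.aeval v (MvPolynomial.C a)
    simp
  let E := IntermediateField.adjoin F (Set.range v)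
  let e := hv.1.aevalEquivField
  let _ : Algebra S E := (e.toAlgHom.toRingHom.comp (algebraMap S (FractionRing S))).toAlgebra
  have _ : IsScalarTower S E L := .of_algebraMap_eq fun a =>
    (hv.1.aevalEquivField_algebraMap_apply_coe a).symm
  have h1 : Algebra.FormallyEtale S (FractionRing S) :=
    Algebra.FormallyEtale.of_isLocalization (nonZeroDivisors S)
  let e' : FractionRing S ≃ₐ[S] E := { e.toRingEquiv with commutes' := fun _ => rfl }
  have h2 : Algebra.FormallyEtale S E := Algebra.FormallyEtale.of_equiv e'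
  have _ : Algebra.IsAlgebraic E L := hv.isAlgebraic_field
  have _ : CharZero E := algebraRat.charZero _
  have h3 : Algebra.FormallyEtale E L := Algebra.FormallyEtale.of_isSeparable E L
  have h4 : Algebra.FormallyEtale S L := Algebra.FormallyEtale.comp S E L
  refine ⟨((mvPolynomialBasis F ι).baseChange L).map (tensorKaehlerEquivOfFormallyEtale F S L),
    fun i => ?_⟩
  rw [Basis.map_apply, Basis.baseChange_apply, mvPolynomialBasis_apply,
    tensorKaehlerEquivOfFormallyEtale_apply, mapBaseChange_tmul, one_smul, map_D]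
  congr 1
  exact MvPolynomial.aeval_X v i

theorem der_exists {F L ι M : Type*} [Field F] [CharZero F] [Field L] [Algebra F L] {v : ι → L}
    [AddCommGroup M] [Module L M] [Module F M] [IsScalarTower F L M]
    (hv : IsTranscendenceBasis F v) (w : ι → M) :
    ∃ E : Derivation F L M, ∀ i, E (v i) = w i := by
  obtain ⟨b, hb⟩ := kaehler_basis hv
  refine ⟨(b.constr L w).compDer (D F L), fun i => ?_⟩
  change b.constr L w (D F L (v i)) = _
  rw [← hb, Basis.constr_basis]

end IndepA

open Cardinal in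
theorem sFree : ∀ (I : Type) [Fintype I] (T : Set ℂ), T.Countable →
    ∃ c : I → ℂ, ∀ γ : I → ℂ, ∃ δ : Der, (∀ a ∈ T, δ a = 0) ∧ ∀ i, δ (c i) = γ i := by
  intro I _ T hT
  classical
  let K : Subfield ℂ := Subfield.closure T
  have hK : #K ≤ ℵ₀ :=
    (Subfield.cardinalMk_closure_le_max T).trans
      (max_le (Cardinal.le_aleph0_iff_set_countable.mpr hT) le_rfl)
  obtain ⟨s, hs⟩ := exists_isTranscendenceBasis K ℂ
  have hinf : Infinite s := by
    by_contra hfin
    rw [not_infinite_iff_finite] at hfin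
    have h1 := IsAlgClosed.cardinal_le_max_transcendence_basis' _ hs
    have h2 : #s ≤ ℵ₀ := (Cardinal.lt_aleph0_of_finite s).le
    have h3 : #ℂ ≤ ℵ₀ := h1.trans (max_le (max_le hK h2) le_rfl)
    rw [Cardinal.mk_complex] at h3
    exact absurd h3 (not_le.mpr Cardinal.aleph0_lt_continuum)
  obtain ⟨e⟩ : Nonempty (I ↪ s) :=
    ⟨(Fintype.equivFin I).toEmbedding.trans (Fin.valEmbedding.trans (Infinite.natEmbedding s))⟩
  refine ⟨fun i => e i, fun γ => ?_⟩
  obtain ⟨E, hE⟩ := IndepA.der_exists hs (Function.extend e γ (0 : s → ℂ))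
  refine ⟨E.restrictScalars ℤ, fun a ha => ?_, fun i => ?_⟩
  · exact E.map_algebraMap ⟨a, Subfield.subset_closure ha⟩
  · rw [Derivation.restrictScalars_apply, hE, e.injective.extend_apply]

namespace KrullA

open MvPolynomial

variable {σ : Type} [Fintype σ]

/-- Translation of the variables. -/
noncomputable def transl (a : σ → ℂ) : MvPolynomial σ ℂ ≃ₐ[ℂ] MvPolynomial σ ℂ :=
  AlgEquiv.ofAlgHom (MvPolynomial.aeval fun i => MvPolynomial.X i + MvPolynomial.C (a i)) (MvPolynomial.aeval fun i => MvPolynomial.X i - MvPolynomial.C (a i))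
    (by ext i; simp) (by ext i; simp)

theorem height_origin :
    (vanishingIdeal ℂ {(0 : σ → ℂ)}).height = (Fintype.card σ : ℕ∞) := by
  have hdim : ringKrullDim (MvPolynomial σ ℂ) = (Fintype.card σ : ℕ) := by
    rw [MvPolynomial.ringKrullDim_of_isNoetherianRing, ringKrullDim_eq_zero_of_field,
      Nat.card_eq_fintype_card, zero_add]
  have : FiniteRingKrullDim (MvPolynomial σ ℂ) := by
    rw [finiteRingKrullDim_iff_ne_bot_and_top, hdim]
    exact ⟨WithBot.coe_ne_bot, by
      intro h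
      exact (ENat.natCast_ne_top (Fintype.card σ)) (WithBot.coe_injective h)⟩
  obtain ⟨p, hp, hh⟩ := Ideal.exists_isMaximal_height (R := MvPolynomial σ ℂ)
  obtain ⟨a, rfl⟩ := isMaximal_iff_eq_vanishingIdeal_singleton.1 hp
  have he : vanishingIdeal ℂ {a} =
      (vanishingIdeal ℂ {(0 : σ → ℂ)}).comap (transl a).toRingEquiv := by
    ext f
    rw [Ideal.mem_comap, mem_vanishingIdeal_singleton_iff, mem_vanishingIdeal_singleton_iff]
    have : (MvPolynomial.aeval (0 : σ → ℂ)).comp (transl a).toAlgHom = MvPolynomial.aeval a := by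
      ext i; simp [transl]
    rw [← this]; rfl
  rw [he, RingEquiv.height_comap, hdim] at hh
  exact WithBot.coe_injective hh

end KrullA

open MvPolynomial in
/-- Fewer equations than unknowns. -/
theorem sKrull0 : ∀ (U I : Type) [Fintype U] [Fintype I] (p : I → MvPolynomial U ℂ),
    (∀ i, MvPolynomial.eval 0 (p i) = 0) → Fintype.card I < Fintype.card U →
    ∃ z : U → ℂ, z ≠ 0 ∧ ∀ i, MvPolynomial.eval z (p i) = 0 := by
  intro σ ι _ _ f h0 hc
  classical
  by_contra hno
  push Not at hno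
  set s : Finset (MvPolynomial σ ℂ) := Finset.univ.image f
  have hz : zeroLocus ℂ (Ideal.span (s : Set (MvPolynomial σ ℂ))) = {0} := by
    rw [zeroLocus_span]
    ext x
    simp only [Set.mem_ofPred_eq, Set.mem_singleton_iff]
    constructor
    · intro hx
      by_contra hx0
      obtain ⟨l, hl⟩ := hno x hx0
      exact hl (hx _ (by simp [s]))
    · rintro rfl p hp
      simp only [s, Finset.coe_image, Finset.coe_univ, Set.image_univ, Set.mem_range] at hp
      obtain ⟨l, rfl⟩ := hp
      exact h0 l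
  have hr := vanishingIdeal_zeroLocus_eq_radical (K := ℂ) (Ideal.span (s : Set (MvPolynomial σ ℂ)))
  rw [hz] at hr
  have hm : vanishingIdeal ℂ {(0 : σ → ℂ)} ∈
      (Ideal.span (s : Set (MvPolynomial σ ℂ))).minimalPrimes := by
    rw [← Ideal.radical_minimalPrimes, ← hr, Ideal.minimalPrimes_eq_subsingleton_self]
    rfl
  have h1 := Ideal.height_le_card_of_mem_minimalPrimes_span_finset hm
  rw [KrullA.height_origin] at h1
  have h2 : s.card ≤ Fintype.card ι := Finset.card_image_le.trans (by simp)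
  have h3 : Fintype.card σ ≤ s.card := by exact_mod_cast h1
  omega

end Pool.Agent.MP_776d16_ag.H7W
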