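import Pool.Agent.MP_776d16_ag.H7W.All

/-! The hypersurface section form: `D = X ∩ {G 0 = 0}`. -/

namespace Pool.Agent.MP_776d16_ag.H7W

open MvPolynomial Pool.Agent.MP_776d16_ag.H34

namespace Sec

variable {n c : ℕ}

/-- Weights after adding the variable `t` of weight `e`. -/
def wt (e : ℕ) (w : Fin n → ℕ) : Option (Fin n) → ℕ := fun o => o.elim e w

/-- Equations after adding the variable `t = G 0`. -/
noncomputable def eqs (G : Fin (c + 1) → MvPolynomial (Fin n) ℂ) (j : Fin (c + 1)) :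
    MvPolynomial (Option (Fin n)) ℂ :=
  rename some (G j) - if j = 0 then X none else 0

theorem eval_eqs (G : Fin (c + 1) → MvPolynomial (Fin n) ℂ) (j : Fin (c + 1))
    (v : Option (Fin n) → ℂ) :
    eval v (eqs G j) = eval (fun i => v (some i)) (G j) - if j = 0 then v none else 0 := by
  unfold eqs
  rw [map_sub, eval_rename]
  congr 1
  split_ifs <;> simp

theorem eval_pd (G : Fin (c + 1) → MvPolynomial (Fin n) ℂ) (j : Fin (c + 1))
    (v : Option (Fin n) → ℂ) (i : Fin n) :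
    eval v (pderiv (some i) (eqs G j)) = eval (fun i => v (some i)) (pderiv i (G j)) := by
  unfold eqs
  rw [map_sub, pderiv_rename (Option.some_injective _), map_sub, eval_rename]
  have : pderiv (some i) (if j = 0 then X none else 0 : MvPolynomial (Option (Fin n)) ℂ) = 0 := by
    split_ifs
    · exact pderiv_X_of_ne (by simp)
    · simp
  rw [this, map_zero, sub_zero]
  rfl

theorem hom_rename (e : ℕ) (w : Fin n → ℕ) (P : MvPolynomial (Fin n) ℂ) (k : ℕ)
    (h : P.IsWeightedHomogeneous w k) :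
    (rename some P).IsWeightedHomogeneous (wt e w) k := by
  intro m hm
  obtain ⟨u, rfl, hu⟩ := coeff_rename_ne_zero _ _ _ hm
  rw [← h hu, Finsupp.weight_apply, Finsupp.weight_apply,
    Finsupp.sum_mapDomain_index_inj (Option.some_injective _)]
  rfl

theorem hom_eqs (w : Fin n → ℕ) (d : Fin (c + 1) → ℕ)
    (G : Fin (c + 1) → MvPolynomial (Fin n) ℂ) (hG : ∀ j, (G j).IsWeightedHomogeneous w (d j))
    (j : Fin (c + 1)) : (eqs G j).IsWeightedHomogeneous (wt (d 0) w) (d j) := by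
  unfold eqs
  have h1 := hom_rename (d 0) w _ _ (hG j)
  have h2 : (if j = 0 then X none else 0 : MvPolynomial (Option (Fin n)) ℂ).IsWeightedHomogeneous
      (wt (d 0) w) (d j) := by
    split_ifs with h
    · subst h
      exact isWeightedHomogeneous_X ℂ (wt (d 0) w) none
    · exact isWeightedHomogeneous_zero _ _ _
  exact (weightedHomogeneousSubmodule ℂ (wt (d 0) w) (d j)).sub_mem h1 h2

theorem eval_scale {σ : Type} (w : σ → ℕ) (P : MvPolynomial σ ℂ) (k : ℕ)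
    (h : P.IsWeightedHomogeneous w k) (a : ℂ) (u : σ → ℂ) :
    eval (fun i => a ^ w i * u i) P = a ^ k * eval u P := by
  rw [eval_eq, eval_eq, Finset.mul_sum]
  refine Finset.sum_congr rfl fun m hm => ?_
  rw [← h (mem_support_iff.1 hm), Finsupp.weight_apply, Finsupp.sum]
  simp only [mul_pow, Finset.prod_mul_distrib, ← pow_mul, Finset.prod_pow_eq_pow_sum, smul_eq_mul,
    mul_comm (w _)]
  ring

theorem eval_zero' {σ : Type} (w : σ → ℕ) (P : MvPolynomial σ ℂ) (k : ℕ) (hk : 0 < k)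
    (h : P.IsWeightedHomogeneous w k) : eval (0 : σ → ℂ) P = 0 := by
  have := eval_scale w P k h 0 0
  simp only [Pi.zero_apply, mul_zero, zero_pow hk.ne', zero_mul] at this
  exact this

theorem mk_eq {σ : Type} (w : σ → ℕ) (u v : σ → ℂ) (hu : u ≠ 0) (hv : v ≠ 0) :
    WP.mk w u hu = WP.mk w v hv ↔ ∃ a : ℂ, a ≠ 0 ∧ ∀ i, v i = a ^ w i * u i :=
  Quotient.eq

end Sec

open Sec

theorem sec (n c : ℕ) (w : Fin n → ℕ) (d : Fin (c + 1) → ℕ)
    (G : Fin (c + 1) → MvPolynomial (Fin n) ℂ) (hw : ∀ i, 0 < w i) (hd : ∀ j, 0 < d j)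
    (hG : ∀ j, (G j).IsWeightedHomogeneous w (d j))
    (hJ : ∀ v : Fin n → ℂ, v ≠ 0 → (∀ j, eval v (G j) = 0) →
      LinearIndependent ℂ fun j i => eval v (pderiv i (G j)))
    (hF : ∑ j, d j < ∑ i, w i) :
    LogRC w {x | ∃ v hv, x = WP.mk w v hv ∧ ∀ j, j ≠ 0 → eval v (G j) = 0}
      {x | ∃ v hv, x = WP.mk w v hv ∧ ∀ j, eval v (G j) = 0} := by
  set W := wt (d 0) w with hW
  have hWp : ∀ o, 0 < W o := by
    rintro (_ | i)
    · exact hd 0
    · exact hw i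
  have key := sMain n (c + 1) W d (eqs G) hWp hd (hom_eqs w d G hG) (by
    intro v hv h0 hz
    simp only [eval_pd]
    refine hJ _ (fun h => hv ?_) fun j => ?_
    · funext o
      rcases o with _ | i
      · exact h0
      · exact congrFun h i
    · have := hz j
      rwa [eval_eqs, h0, ite_self, sub_zero] at this) hF
  -- lifting of points
  let L : (Fin n → ℂ) → Option (Fin n) → ℂ := fun v o => o.elim (eval v (G 0)) v
  have hL : ∀ v, v ≠ 0 → L v ≠ 0 := fun v hv h => hv (funext fun i => congrFun h (some i))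
  have hLz : ∀ v, (∀ j, j ≠ 0 → eval v (G j) = 0) → ∀ j, eval (L v) (eqs G j) = 0 := by
    intro v hv j
    rw [eval_eqs]
    by_cases h : j = 0
    · subst h
      simp [L]
    · simpa [L, h] using hv j h
  -- equations on the lifted variety
  have hz0 : ∀ u : Option (Fin n) → ℂ, (∀ j, eval u (eqs G j) = 0) →
      u none = eval (fun i => u (some i)) (G 0) := by
    intro u hu
    have := hu 0
    rw [eval_eqs, if_pos rfl, sub_eq_zero] at this
    exact this.symm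
  have hz1 : ∀ u : Option (Fin n) → ℂ, (∀ j, eval u (eqs G j) = 0) → ∀ j, j ≠ 0 →
      eval (fun i => u (some i)) (G j) = 0 := by
    intro u hu j hj
    have := hu j
    rwa [eval_eqs, if_neg hj, sub_zero] at this
  have hinv : ∀ (u u' : Option (Fin n) → ℂ) hu hu', WP.mk W u hu = WP.mk W u' hu' →
      (∀ j, eval u' (eqs G j) = 0) → ∀ j, eval u (eqs G j) = 0 := by
    intro u u' hu hu' h hz j
    obtain ⟨a, ha, h⟩ := (mk_eq W _ _ _ _).1 h.symm
    have e : u = fun o => a ^ W o * u' o := funext h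
    rw [e, eval_scale W _ _ (hom_eqs w d G hG j), hz, mul_zero]
  have hinv' : ∀ (u u' : Fin n → ℂ) hu hu', WP.mk w u hu = WP.mk w u' hu' →
      ∀ j, eval u' (G j) = 0 → eval u (G j) = 0 := by
    intro u u' hu hu' h j hz
    obtain ⟨a, ha, h⟩ := (mk_eq w _ _ _ _).1 h.symm
    have e : u = fun o => a ^ w o * u' o := funext h
    rw [e, eval_scale w _ _ (hG j), hz, mul_zero]
  -- the projection is injective and well defined
  have hiff : ∀ (u u' : Option (Fin n) → ℂ) hu hu' hx hx', (∀ j, eval u (eqs G j) = 0) →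
      (∀ j, eval u' (eqs G j) = 0) → (WP.mk W u hu = WP.mk W u' hu' ↔
        WP.mk w (fun i => u (some i)) hx = WP.mk w (fun i => u' (some i)) hx') := by
    intro u u' hu hu' hx hx' h h'
    rw [mk_eq, mk_eq]
    refine ⟨fun ⟨a, ha, k⟩ => ⟨a, ha, fun i => k (some i)⟩, fun ⟨a, ha, k⟩ => ⟨a, ha, ?_⟩⟩
    rintro (_ | i)
    · rw [hz0 u h, hz0 u' h', funext k, eval_scale w _ _ (hG 0)]
      rfl
    · exact k i
  rintro p ⟨v, hv, rfl, hvz⟩ q ⟨⟨y, hy, rfl, hyz⟩, hq⟩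
  obtain ⟨Γ, ⟨e, F, hFe, hF0, rfl, hnt⟩, hs, hp, hq', hn, r, hr⟩ :=
    key (WP.mk W (L v) (hL v hv)) ⟨_, _, rfl, hLz v hvz⟩ (WP.mk W (L y) (hL y hy))
      ⟨⟨_, _, rfl, hLz y hyz⟩, by
        rintro ⟨u, hu, h1, h2, h3⟩
        refine hq ⟨y, hy, rfl, fun j => ?_⟩
        by_cases hj : j = 0
        · subst hj
          obtain ⟨a, ha, h⟩ := (mk_eq W _ _ _ _).1 h1.symm
          have := h none
          rwa [h3, mul_zero] at this
        · exact hyz j hj⟩
  have hon : ∀ t : Fin 2 → ℂ, t ≠ 0 → ∀ j, eval (fun o => eval t (F o)) (eqs G j) = 0 := by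
    intro t ht
    obtain ⟨u, hu, h1, h2⟩ := hs ⟨t, ht, rfl⟩
    exact hinv _ _ _ _ h1 h2
  have hx : ∀ t : Fin 2 → ℂ, t ≠ 0 → (fun i => eval t (F (some i))) ≠ 0 := by
    intro t ht h
    refine hF0 t ht (funext ?_)
    rintro (_ | i)
    · have := hz0 _ (hon t ht)
      rw [h, eval_zero' w _ _ (hd 0) (hG 0)] at this
      exact this
    · exact congrFun h i
  have hD : ∀ (t : Fin 2 → ℂ) (ht : t ≠ 0),
      WP.mk W _ (hF0 t ht) ∈ {x | ∃ v hv, x = WP.mk W v hv ∧ (∀ j, eval v (eqs G j) = 0) ∧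
        v none = 0} ↔ WP.mk w _ (hx t ht) ∈
        {x | ∃ v hv, x = WP.mk w v hv ∧ ∀ j, eval v (G j) = 0} := by
    intro t ht
    constructor
    · rintro ⟨u, hu, h1, h2, h3⟩
      refine ⟨_, _, rfl, fun j => ?_⟩
      by_cases hj : j = 0
      · subst hj
        obtain ⟨a, ha, h⟩ := (mk_eq W _ _ _ _).1 h1.symm
        have := h none
        rw [h3, mul_zero] at this
        exact (hz0 _ (hon t ht)).symm.trans this
      · exact hz1 _ (hon t ht) j hj
    · rintro ⟨u, hu, h1, h2⟩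
      exact ⟨_, _, rfl, hon t ht, (hz0 _ (hon t ht)).trans (hinv' _ _ _ _ h1 0 (h2 0))⟩
  refine ⟨_, ⟨e, fun i => F (some i), fun i => hFe (some i), hx, rfl, ?_⟩, ?_, ?_, ?_, ?_, ?_⟩
  · obtain ⟨_, ⟨s, hs, rfl⟩, _, ⟨t, ht, rfl⟩, hne⟩ := hnt
    exact ⟨_, ⟨s, hs, rfl⟩, _, ⟨t, ht, rfl⟩,
      fun h => hne ((hiff _ _ _ _ _ _ (hon s hs) (hon t ht)).2 h)⟩
  · rintro _ ⟨t, ht, rfl⟩
    exact ⟨_, hx t ht, rfl, hz1 (fun o => eval t (F o)) (hon t ht)⟩
  · obtain ⟨t, ht, h⟩ := hp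
    exact ⟨t, ht, (hiff (L v) (fun o => eval t (F o)) _ _ hv (hx t ht) (hLz v hvz)
      (hon t ht)).1 h⟩
  · obtain ⟨t, ht, h⟩ := hq'
    exact ⟨t, ht, (hiff (L y) (fun o => eval t (F o)) _ _ hy (hx t ht) (hLz y hyz)
      (hon t ht)).1 h⟩
  · intro h
    refine hn ?_
    rintro _ ⟨t, ht, rfl⟩
    have h' := @h (WP.mk w _ (hx t ht)) ⟨t, ht, rfl⟩
    exact (hD t ht).2 h'
  · have hr1 : r ∈ _ ∩ _ := hr ▸ Set.mem_singleton r
    obtain ⟨⟨s, hs, rfl⟩, hs2⟩ := hr1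
    refine ⟨WP.mk w _ (hx s hs), Set.eq_singleton_iff_unique_mem.2
      ⟨⟨⟨s, hs, rfl⟩, (hD s hs).1 hs2⟩, ?_⟩⟩
    rintro _ ⟨⟨t, ht, rfl⟩, h2⟩
    have : WP.mk W _ (hF0 t ht) ∈ ({WP.mk W _ (hF0 s hs)} : Set _) :=
      hr ▸ ⟨⟨t, ht, rfl⟩, (hD t ht).2 h2⟩
    exact (hiff _ _ _ _ _ _ (hon t ht) (hon s hs)).1 this

end Pool.Agent.MP_776d16_ag.H7W
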