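import Pool.Agent.MP_776d16_ag.H7W.Old

/-!
Statements of the rows. Plan: team store file 776d16_planH7.md.
-/

open Polynomial
open MvPolynomial (pderiv IsWeightedHomogeneous)
open Fintype (card)
open Set (range)

namespace Pool.Agent.MP_776d16_ag.H7W

/-! ## A. Ranks, polynomial functions, specialisation -/

structure SRk : Prop where
  le_card : ∀ (U : Type) [Fintype U] (S : Set ℂ) (z : U → ℂ), rk S (range z) ≤ card U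
  mono : ∀ S A B : Set ℂ, A.Finite → (∀ δ ∈ Kil S, δ ∈ Kil A → δ ∈ Kil B) → rk S B ≤ rk S A
  anti : ∀ S S' A : Set ℂ, A.Finite → (∀ δ ∈ Kil S', δ ∈ Kil S) → rk S' A ≤ rk S A
  tower : ∀ S A B : Set ℂ, A.Finite → B.Finite → rk S (A ∪ B) = rk S A + rk (S ∪ A) B
  ge : ∀ (S A : Set ℂ) (I : Type) [Fintype I] (δ : I → Der), A.Finite → (∀ q, δ q ∈ Kil S) →
    (∀ c : I → ℂ, (∀ x ∈ A, ∑ q, c q * δ q x = 0) → c = 0) → card I ≤ rk S A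
  ex : ∀ S A : Set ℂ, A.Finite → ∃ δ : Fin (rk S A) → Der, (∀ q, δ q ∈ Kil S) ∧
    ∀ c : Fin (rk S A) → ℂ, (∀ x ∈ A, ∑ q, c q * δ q x = 0) → c = 0
  sum : ∀ (S : Set ℂ) (L : Type) [Fintype L] (A : L → Set ℂ), (∀ l, (A l).Finite) →
    rk S (⋃ l, A l) ≤ ∑ l, rk S (A l)
  full : ∀ (U : Type) [Fintype U] (S : Set ℂ) (z : U → ℂ), card U ≤ rk S (range z) →
    ∀ γ : U → ℂ, ∃ δ ∈ Kil S, ∀ u, δ (z u) = γ u
  ext : ∀ S : Set ℂ, S.Countable → ∃ K : Subfield ℂ, (K : Set ℂ).Countable ∧ S ⊆ K ∧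
    ∀ δ ∈ Kil S, δ ∈ Kil K
  free : ∀ (I : Type) [Fintype I] (S : Set ℂ), S.Countable → ∃ c : I → ℂ, card I ≤ rk S (range c)

structure SPf : Prop where
  const : ∀ (U : Type) (K : Subfield ℂ) (a : ℂ), a ∈ K → PF K fun _ : U → ℂ => a
  var : ∀ (U : Type) (K : Subfield ℂ) (u : U), PF K fun z : U → ℂ => z u
  add : ∀ (U : Type) (K : Subfield ℂ) (f g : (U → ℂ) → ℂ), PF K f → PF K g →
    PF K fun z => f z + g z
  sub : ∀ (U : Type) (K : Subfield ℂ) (f g : (U → ℂ) → ℂ), PF K f → PF K g →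
    PF K fun z => f z - g z
  mul : ∀ (U : Type) (K : Subfield ℂ) (f g : (U → ℂ) → ℂ), PF K f → PF K g →
    PF K fun z => f z * g z
  pow : ∀ (U : Type) (K : Subfield ℂ) (f : (U → ℂ) → ℂ) (n : ℕ), PF K f → PF K fun z => f z ^ n
  sum : ∀ (U L : Type) (K : Subfield ℂ) (s : Finset L) (f : L → (U → ℂ) → ℂ),
    (∀ l ∈ s, PF K (f l)) → PF K fun z => ∑ l ∈ s, f l z
  prod : ∀ (U L : Type) (K : Subfield ℂ) (s : Finset L) (f : L → (U → ℂ) → ℂ),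
    (∀ l ∈ s, PF K (f l)) → PF K fun z => ∏ l ∈ s, f l z
  subst : ∀ (U V : Type) (K : Subfield ℂ) (f : (V → ℂ) → ℂ) (h : V → (U → ℂ) → ℂ), PF K f →
    (∀ v, PF K (h v)) → PF K fun z => f fun v => h v z
  mv : ∀ (U τ : Type) (K : Subfield ℂ) (G : MvPolynomial τ ℂ) (h : τ → (U → ℂ) → ℂ), CoM K G →
    (∀ o, PF K (h o)) → PF K fun z => MvPolynomial.eval (fun o => h o z) G
  mem : ∀ (U : Type) (K : Subfield ℂ) (f : (U → ℂ) → ℂ) (z : U → ℂ), PF K f → (∀ u, z u ∈ K) →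
    f z ∈ K
  mono : ∀ (U : Type) (K K' : Subfield ℂ) (f : (U → ℂ) → ℂ), K ≤ K' → PF K f → PF K' f
  der : ∀ (U : Type) (K : Subfield ℂ) (f : (U → ℂ) → ℂ) (z : U → ℂ) (δ : Der), PF K f →
    δ ∈ Kil K → (∀ u, δ (z u) = 0) → δ (f z) = 0
  top : ∀ (U : Type) (K : Subfield ℂ) (f : (U → ℂ) → ℂ), PF K f →
    ∃ P : MvPolynomial U ℂ, ∀ z, f z = MvPolynomial.eval z P

structure SPp : Prop where
  C : ∀ (U : Type) (K : Subfield ℂ) (f : (U → ℂ) → ℂ), PF K f → PFP K fun z => C (f z)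
  const : ∀ (U : Type) (K : Subfield ℂ) (p : ℂ[X]), CoP K p → PFP K fun _ : U → ℂ => p
  X : ∀ (U : Type) (K : Subfield ℂ), PFP K fun _ : U → ℂ => (X : ℂ[X])
  add : ∀ (U : Type) (K : Subfield ℂ) (f g : (U → ℂ) → ℂ[X]), PFP K f → PFP K g →
    PFP K fun z => f z + g z
  sub : ∀ (U : Type) (K : Subfield ℂ) (f g : (U → ℂ) → ℂ[X]), PFP K f → PFP K g →
    PFP K fun z => f z - g z
  mul : ∀ (U : Type) (K : Subfield ℂ) (f g : (U → ℂ) → ℂ[X]), PFP K f → PFP K g →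
    PFP K fun z => f z * g z
  pow : ∀ (U : Type) (K : Subfield ℂ) (f : (U → ℂ) → ℂ[X]) (n : ℕ), PFP K f →
    PFP K fun z => f z ^ n
  sum : ∀ (U L : Type) (K : Subfield ℂ) (s : Finset L) (f : L → (U → ℂ) → ℂ[X]),
    (∀ l ∈ s, PFP K (f l)) → PFP K fun z => ∑ l ∈ s, f l z
  prod : ∀ (U L : Type) (K : Subfield ℂ) (s : Finset L) (f : L → (U → ℂ) → ℂ[X]),
    (∀ l ∈ s, PFP K (f l)) → PFP K fun z => ∏ l ∈ s, f l z
  comp : ∀ (U : Type) (K : Subfield ℂ) (f g : (U → ℂ) → ℂ[X]), PFP K f → PFP K g →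
    PFP K fun z => (f z).comp (g z)
  coeff : ∀ (U : Type) (K : Subfield ℂ) (f : (U → ℂ) → ℂ[X]) (k : ℕ), PFP K f →
    PF K fun z => (f z).coeff k
  eval : ∀ (U : Type) (K : Subfield ℂ) (f : (U → ℂ) → ℂ[X]) (s : (U → ℂ) → ℂ), PFP K f → PF K s →
    PF K fun z => (f z).eval (s z)
  subst : ∀ (U V : Type) (K : Subfield ℂ) (f : (V → ℂ) → ℂ[X]) (h : V → (U → ℂ) → ℂ), PFP K f →
    (∀ v, PF K (h v)) → PFP K fun z => f fun v => h v z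
  mono : ∀ (U : Type) (K K' : Subfield ℂ) (f : (U → ℂ) → ℂ[X]), K ≤ K' → PFP K f → PFP K' f
  bdd : ∀ (U : Type) (K : Subfield ℂ) (f : (U → ℂ) → ℂ[X]), PFP K f →
    ∃ B, ∀ z, (f z).natDegree ≤ B

structure SPq : Prop where
  aeval : ∀ (U τ : Type) (K : Subfield ℂ) (G : MvPolynomial τ ℂ) (h : τ → (U → ℂ) → ℂ[X]),
    CoM K G → (∀ o, PFP K (h o)) → PFP K fun z => MvPolynomial.aeval (fun o => h o z) G
  dP : ∀ (U τ : Type) [Fintype τ] (K : Subfield ℂ) (G : MvPolynomial τ ℂ)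
    (h v : τ → (U → ℂ) → ℂ[X]), CoM K G → (∀ o, PFP K (h o)) → (∀ o, PFP K (v o)) →
    PFP K fun z => dP G (fun o => h o z) fun o => v o z
  div : ∀ (U : Type) (K : Subfield ℂ) (f m : (U → ℂ) → ℂ[X]) (D : ℕ), PFP K f → PFP K m →
    (∀ z, (m z).Monic ∧ (m z).natDegree = D) → PFP K fun z => f z /ₘ m z
  pol : ∀ (U : Type) (K : Subfield ℂ) (D : ℕ) (b : Fin D → (U → ℂ) → ℂ), (∀ k, PF K (b k)) →
    PFP K fun z => pol fun k => b k z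
  hz : ∀ (U : Type) (K : Subfield ℂ) (D : ℕ) (f : (U → ℂ) → ℂ[X]) (ε : (U → ℂ) → ℂ), PFP K f →
    PF K ε → PFP K fun z => hz D (f z) (ε z)
  bez : ∀ (U : Type) (K : Subfield ℂ) (A B : (U → ℂ) → ℂ[X]) (D : ℕ) (z0 : U → ℂ), PFP K A →
    PFP K B → (∀ z, (A z).Monic ∧ (A z).natDegree = D) → IsCoprime (A z0) (B z0) →
    ∃ (α β : (U → ℂ) → ℂ[X]) (ρ : (U → ℂ) → ℂ), PFP K α ∧ PFP K β ∧ PF K ρ ∧ ρ z0 ≠ 0 ∧
      ∀ z, α z * A z + β z * B z = C (ρ z)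

structure SInd : Prop where
  ge : ∀ (K : Subfield ℂ) (I : Type) [Fintype I] (x : I → ℂ), AlgebraicIndependent K x →
    card I ≤ rk K (range x)
  ex : ∀ (K : Subfield ℂ) (U : Type) [Fintype U] (z : U → ℂ) (r : ℕ), r ≤ rk K (range z) →
    ∃ f : Fin r → U, AlgebraicIndependent K fun q => z (f q)

def SKr : Prop := ∀ (K : Subfield ℂ) (U I : Type) [Fintype U] [Fintype I]
  (f : I → (U → ℂ) → ℂ) (z0 : U → ℂ), (K : Set ℂ).Countable → (∀ i, PF K (f i)) →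
  (∀ i, f i z0 = 0) →
  ∃ z, (∀ i, f i z = 0) ∧ Spec K z z0 ∧ card U ≤ rk K (range z) + card I

structure SSp : Prop where
  refl : ∀ (U : Type) (K : Subfield ℂ) (z : U → ℂ), Spec K z z
  trans : ∀ (U : Type) (K : Subfield ℂ) (x y z : U → ℂ), Spec K x y → Spec K y z → Spec K x z
  mono : ∀ (U : Type) (K K' : Subfield ℂ) (z z0 : U → ℂ), K ≤ K' → Spec K' z z0 → Spec K z z0
  map : ∀ (U V : Type) (K : Subfield ℂ) (z z0 : U → ℂ) (h : V → (U → ℂ) → ℂ), Spec K z z0 →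
    (∀ v, PF K (h v)) → Spec K (fun v => h v z) fun v => h v z0
  ne : ∀ (U : Type) (K : Subfield ℂ) (z z0 : U → ℂ) (f : (U → ℂ) → ℂ), Spec K z z0 → PF K f →
    f z0 ≠ 0 → f z ≠ 0
  nz : ∀ (U : Type) (K : Subfield ℂ) (z z0 : U → ℂ), Spec K z z0 → z0 ≠ 0 → z ≠ 0
  rk : ∀ (U : Type) [Fintype U] (K : Subfield ℂ) (z z0 : U → ℂ), Spec K z z0 →
    rk K (range z0) ≤ rk K (range z)
  symm : ∀ (U : Type) [Fintype U] (K : Subfield ℂ) (z z0 : U → ℂ), Spec K z z0 →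
    H7W.rk K (range z) ≤ H7W.rk K (range z0) → Spec K z0 z
  free : ∀ (U : Type) [Fintype U] (K : Subfield ℂ) (z z0 : U → ℂ),
    card U ≤ H7W.rk K (range z) → Spec K z z0

def SHom : Prop := ∀ (U : Type) [Fintype U] (K : Subfield ℂ) (z z' : U → ℂ),
  (K : Set ℂ).Countable → Spec K z z' → Spec K z' z →
  ∃ ψ : ℂ →+* ℂ, (∀ a ∈ K, ψ a = a) ∧ ∀ u, ψ (z u) = z' u

/-- A place of `ℂ` with values in `ℂ`. -/
structure Plc where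
  V : ValuationSubring ℂ
  χ : ℂ → ℂ
  one : χ 1 = 1
  add : ∀ x ∈ V, ∀ y ∈ V, χ (x + y) = χ x + χ y
  mul : ∀ x ∈ V, ∀ y ∈ V, χ (x * y) = χ x * χ y
  ker : ∀ x ∈ V, χ x = 0 ↔ V.valuation x < 1

def SPl : Prop := ∀ (U : Type) (K : Subfield ℂ) (z z0 : U → ℂ), Spec K z z0 →
  ∃ P : Plc, (∀ a ∈ K, a ∈ P.V ∧ P.χ a = a) ∧ ∀ u, z u ∈ P.V ∧ P.χ (z u) = z0 u

def SLow : Prop := ∀ (U : Type) [Fintype U] (K K' : Subfield ℂ) (ε : ℂ) (η η0 : U → ℂ), K ≤ K' →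
  ε ≠ 0 → Spec K' (pt ε η) (pt 0 η0) → rk K (range η0) ≤ rk K (range fun u => ε * η u)

/-! ## B. Weighted polynomials and curves -/

structure STop : Prop where
  top : ∀ (τ : Type) (W : τ → ℕ) (G : MvPolynomial τ ℂ) (n e : ℕ) (f : τ → ℂ[X]) (v : τ → ℂ),
    IsWeightedHomogeneous W G n → Crv W e f v →
    (MvPolynomial.aeval f G).natDegree ≤ e * n ∧
      (MvPolynomial.aeval f G).coeff (e * n) = MvPolynomial.eval v G
  scale : ∀ (τ : Type) (W : τ → ℕ) (G : MvPolynomial τ ℂ) (n : ℕ) (l : ℂ[X]) (f : τ → ℂ[X]),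
    IsWeightedHomogeneous W G n →
    MvPolynomial.aeval (fun o => l ^ W o * f o) G = l ^ n * MvPolynomial.aeval f G
  scale0 : ∀ (τ : Type) (W : τ → ℕ) (G : MvPolynomial τ ℂ) (n : ℕ) (l : ℂ) (x : τ → ℂ),
    IsWeightedHomogeneous W G n → MvPolynomial.eval (sc W l x) G = l ^ n * MvPolynomial.eval x G
  refl : ∀ (τ : Type) (W : τ → ℕ) (G : MvPolynomial τ ℂ) (n e : ℕ) (f : τ → ℂ[X]),
    IsWeightedHomogeneous W G n → (∀ o, (f o).natDegree ≤ e * W o) →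
    MvPolynomial.aeval (fun o => reflect (e * W o) (f o)) G =
      reflect (e * n) (MvPolynomial.aeval f G)
  dtop : ∀ (τ : Type) [Fintype τ] (W : τ → ℕ) (G : MvPolynomial τ ℂ) (n e m : ℕ)
    (f η : τ → ℂ[X]) (v : τ → ℂ), IsWeightedHomogeneous W G n → Crv W e f v →
    (∀ o, (η o).natDegree ≤ e * W o + m) → (dP G f η).natDegree ≤ e * n + m ∧
      (dP G f η).coeff (e * n + m) =
        ∑ o, MvPolynomial.eval v (pderiv o G) * (η o).coeff (e * W o + m)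
  dscale : ∀ (τ : Type) [Fintype τ] (W : τ → ℕ) (G : MvPolynomial τ ℂ) (n : ℕ) (l : ℂ[X])
    (f η : τ → ℂ[X]), IsWeightedHomogeneous W G n →
    dP G (fun o => l ^ W o * f o) (fun o => l ^ W o * η o) = l ^ n * dP G f η
  euler : ∀ (τ : Type) [Fintype τ] (W : τ → ℕ) (G : MvPolynomial τ ℂ) (n : ℕ) (x : τ → ℂ),
    IsWeightedHomogeneous W G n →
    ∑ o, MvPolynomial.eval x (pderiv o G) * ((W o : ℂ) * x o) = n * MvPolynomial.eval x G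

structure SDc : Prop where
  lin : ∀ (I : Type) [Fintype I] (c : I → ℂ) (δ : I → Der) (p : ℂ[X]) (k : ℕ),
    (∑ q, c q • dc (δ q) p).coeff k = ∑ q, c q * δ q (p.coeff k)
  deg : ∀ (δ : Der) (p : ℂ[X]), (dc δ p).natDegree ≤ p.natDegree
  cop : ∀ (S : Set ℂ) (δ : Der) (p : ℂ[X]), δ ∈ Kil S → CoP S p → dc δ p = 0
  adm : ∀ (σ : Type) (δ : Der) (T : σ → ℂ[X]) (a : ℂ), AdmAt T (fun i => dc δ (T i)) a
  eval : ∀ (δ : Der) (p : ℂ[X]) (s : ℂ), δ s = 0 → (dc δ p).eval s = δ (p.eval s)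
  shift : ∀ (δ : Der) (p : ℂ[X]) (s : ℂ), δ s = 0 →
    dc δ (p.comp (X + C s)) = (dc δ p).comp (X + C s)
  refl : ∀ (δ : Der) (p : ℂ[X]) (N : ℕ), dc δ (reflect N p) = reflect N (dc δ p)
  der : ∀ (τ : Type) [Fintype τ] (S : Set ℂ) (δ : Der) (G : MvPolynomial τ ℂ) (x : τ → ℂ),
    δ ∈ Kil S → CoM S G →
    δ (MvPolynomial.eval x G) = ∑ o, MvPolynomial.eval x (pderiv o G) * δ (x o)
  sec : ∀ (σ J : Type) [Fintype σ] (S : Set ℂ) (δ : Der) (g : J → MvPolynomial σ ℂ) (c : J → ℂ)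
    (T : σ → ℂ[X]) (P : ℂ[X]), δ ∈ Kil S → (∀ j, CoM S (g j)) → (∀ j, c j ∈ S) → On g c T →
    (∀ i, P ∣ dc δ (T i)) → Sec g T P fun i => dc δ (T i)

def STay : Prop := ∀ (τ : Type) [Fintype τ] (G : MvPolynomial τ ℂ),
  ∃ Q : MvPolynomial (Option (τ ⊕ τ)) ℂ, ∀ (x ν : τ → ℂ[X]) (η : ℂ[X]),
    MvPolynomial.aeval (fun o => x o + η * ν o) G = MvPolynomial.aeval x G + η * dP G x ν +
      η ^ 2 * MvPolynomial.aeval (pt η (Sum.elim x ν)) Q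

structure SBd : Prop where
  aeval : ∀ (σ : Type) (F : MvPolynomial (Option σ) ℂ) (x : σ → ℂ[X]),
    MvPolynomial.aeval x (bd F) = MvPolynomial.aeval (pt 0 x) F
  eval : ∀ (σ : Type) (F : MvPolynomial (Option σ) ℂ) (x : σ → ℂ),
    MvPolynomial.eval x (bd F) = MvPolynomial.eval (pt 0 x) F
  der : ∀ (σ : Type) (F : MvPolynomial (Option σ) ℂ) (i : σ),
    pderiv i (bd F) = bd (pderiv (some i) F)
  hom : ∀ (σ : Type) (W : Option σ → ℕ) (F : MvPolynomial (Option σ) ℂ) (n : ℕ),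
    IsWeightedHomogeneous W F n → IsWeightedHomogeneous (fun i => W (some i)) (bd F) n
  com : ∀ (σ : Type) (K : Subfield ℂ) (F : MvPolynomial (Option σ) ℂ), CoM K F → CoM K (bd F)

structure SHv : Prop where
  hom : ∀ (U : Type) (ω : U → ℕ) (f : MvPolynomial U ℂ) (n : ℕ),
    (∀ l : ℂ, l ≠ 0 → ∀ z, MvPolynomial.eval (sc ω l z) f = l ^ n * MvPolynomial.eval z f) →
    IsWeightedHomogeneous ω f n
  lin : ∀ (U : Type) (ω : U → ℕ) (f : MvPolynomial U ℂ) (z η : U → ℂ) (x : ℂ), (∀ u, 0 < ω u) →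
    IsWeightedHomogeneous ω f 1 → MvPolynomial.eval (fun u => z u + x * η u) f =
      MvPolynomial.eval z f + x * MvPolynomial.eval η f

/-- Elementary operations on curves. -/
structure LinkKit {σ J : Type} (w : σ → ℕ) (g : J → MvPolynomial σ ℂ) : Prop where
  fib0 : ∀ (c : J → ℂ) (T : σ → ℂ[X]) (s : ℂ), On g c T → Fib g c (ev T s)
  fibT : ∀ (e : ℕ) (T : σ → ℂ[X]) (v : σ → ℂ), Crv w e T v → On g 0 T → Fib g 0 v
  fib : ∀ y v, Link w g y v → Fib g 0 y ∧ Fib g 0 v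
  refl : ∀ v, Fib g 0 v → Link w g v v
  symm : ∀ y v, Link w g y v → Link w g v y
  scale : ∀ y v (l : ℂ), Link w g y v → Link w g (sc w l y) v
  shift : ∀ (e : ℕ) (T : σ → ℂ[X]) (v : σ → ℂ) (s : ℂ), Crv w e T v → On g 0 T →
    Link w g (ev T s) v
  pad : ∀ (e e' : ℕ) (T : σ → ℂ[X]) (v : σ → ℂ), e ≤ e' → Crv w e T v → On g 0 T →
    ∃ T', Crv w e' T' v ∧ On g 0 T' ∧ ev T' 0 = ev T 0
  mulp : ∀ (e : ℕ) (T : σ → ℂ[X]) (v : σ → ℂ) (f : ℂ[X]), f.Monic → Crv w e T v → On g 0 T →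
    Crv w (e + f.natDegree) (fun i => f ^ w i * T i) v ∧ On g 0 fun i => f ^ w i * T i
  hom : ∀ y v (ψ : ℂ →+* ℂ),
    (∀ j m, ψ (MvPolynomial.coeff m (g j)) = MvPolynomial.coeff m (g j)) → Link w g y v →
    Link w g (fun i => ψ (y i)) fun i => ψ (v i)
  tooth : ∀ (a : ℕ) (T : σ → ℂ[X]) (v : σ → ℂ), Crv w a T v →
    ∃ b : σ → ℂ[X], (∀ i, (b i).degree < (a * w i : ℕ)) ∧ T = tooth w a v b
  crv : ∀ (a : ℕ) (v : σ → ℂ) (b : σ → ℂ[X]), (∀ i, (b i).degree < (a * w i : ℕ)) →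
    Crv w a (H7W.tooth w a v b) v

def SLink : Prop := ∀ (σ J : Type) (w : σ → ℕ) (d : J → ℕ) (g : J → MvPolynomial σ ℂ),
  (∀ j, IsWeightedHomogeneous w (g j) (d j)) → LinkKit w g

/-- Generic points. -/
structure GenKit {σ J : Type} [Fintype σ] [Fintype J] (g : J → MvPolynomial σ ℂ) : Prop where
  spec : ∀ (K : Subfield ℂ) (y y' : σ → ℂ), Spec K y' y → Gen K g y → Fib g 0 y' → Gen K g y'
  le : ∀ (S : Set ℂ) (y : σ → ℂ), (∀ j, CoM S (g j)) → y ≠ 0 → Fib g 0 y →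
    rk S (range y) + card J ≤ card σ
  mov : ∀ (S : Set ℂ) (y : σ → ℂ), (∀ j, CoM S (g j)) → Gen S g y → ∀ v : σ → ℂ,
    (∀ j, ∑ i, jac g y j i * v i = 0) → ∃ δ ∈ Kil S, ∀ i, δ (y i) = v i
  ex : ∀ (K : Subfield ℂ) (v : σ → ℂ), (K : Set ℂ).Countable → (∀ j, CoM K (g j)) → v ≠ 0 →
    Fib g 0 v → ∃ y, Gen K g y
  ext : ∀ (S : Set ℂ) (y : σ → ℂ) (I : Type) [Fintype I] (c : I → ℂ), Gen S g y →
    card I ≤ rk (S ∪ range y) (range c) → Gen (S ∪ range c) g y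
  smc : ∀ (S : Set ℂ) (c : J → ℂ), (∀ j, CoM S (g j)) → card J ≤ rk S (range c) →
    ∀ x, Fib g c x → LinearIndependent ℂ (jac g x)

def SGen : Prop := ∀ (σ J : Type) [Fintype σ] [Fintype J] (g : J → MvPolynomial σ ℂ), Sm g 0 →
  GenKit g

/-! ## C. The dimension bound -/

def SBase : Prop := ∀ (σ J N : Type) [Fintype σ] [DecidableEq σ] [Fintype J] [DecidableEq J]
  [Fintype N] [DecidableEq N] (w : σ → ℕ) (d : J → ℕ) (g : J → MvPolynomial σ ℂ), Ok w d g →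
  ∀ (ε : σ ≃ N ⊕ J) (T : σ → ℂ[X]) (u : N → σ → ℂ[X]) (ω : J → σ → ℂ[X]) (k : ℕ), On g 0 T →
  T ≠ 0 → ev T 0 = 0 → (∀ n j, dP (g j) T (u n) = 0) →
  (∀ n i m, X ^ m ∣ T i → X ^ m ∣ u n i) → DW (jacP g T) ω ≠ 0 →
  X ^ k ∣ DW (jacP g T) ω → X ^ (k + 1) ∣ DD ε u ω

def SDiv : Prop := ∀ (σ J N : Type) [Fintype σ] [DecidableEq σ] [Fintype J] [DecidableEq J]
  [Fintype N] [DecidableEq N] (w : σ → ℕ) (d : J → ℕ) (g : J → MvPolynomial σ ℂ), Ok w d g →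
  ∀ (ε : σ ≃ N ⊕ J) (c : J → ℂ) (T : σ → ℂ[X]) (P : ℂ[X]) (u : N → σ → ℂ[X]) (ω : J → σ → ℂ[X]),
  Sm g c → On g c T → T ≠ 0 → (∀ a, P.eval a = 0 → ev T a ≠ 0) → (∀ n, Sec g T P (u n)) →
  DW (jacP g T) ω ≠ 0 → DW (jacP g T) ω * P ^ card N ∣ DD ε u ω

/-- The inequality `r + n * π ≤ e * ι`. -/
def Bd {σ J : Type} [Fintype σ] [Fintype J] (w : σ → ℕ) (d : J → ℕ) (e π r : ℕ) : Prop :=
  r + card σ * π + e * ∑ j, d j ≤ e * ∑ i, w i + card J * π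

def SB0 : Prop := ∀ (σ J : Type) [Fintype σ] [Fintype J] (w : σ → ℕ) (d : J → ℕ)
  (g : J → MvPolynomial σ ℂ), Ok w d g →
  ∀ (c : J → ℂ) (e : ℕ) (T : σ → ℂ[X]) (y : σ → ℂ) (P : ℂ[X]), Sm g c → Crv w e T y → On g c T →
  y ≠ 0 → Fib g 0 y → P ≠ 0 → (∀ a, P.eval a = 0 → ev T a ≠ 0) →
  (∀ v : σ → ℂ, (∀ j, ∑ i, jac g y j i * v i = 0) → ∃ ξ, Sec g T P ξ ∧ Crv w e ξ v) →
  ∀ (I : Type) [Fintype I] (η : I → σ → ℂ[X]), LinearIndependent ℂ η →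
    ((∀ q, Sec g T P (η q) ∧ Crv w e (η q) 0) → Bd w d e P.natDegree (card I)) ∧
    ∀ s : ℂ, ev T s ≠ 0 →
      (∀ q, Sec g T (P * (X - C s)) (η q) ∧ ∀ i, (η q i).natDegree ≤ e * w i) →
      Bd w d e P.natDegree (card I)

def SR1 : Prop := ∀ (σ J : Type) [Fintype σ] [Fintype J] (w : σ → ℕ) (d : J → ℕ)
  (g : J → MvPolynomial σ ℂ), Ok w d g →
  ∀ (S : Set ℂ) (c : J → ℂ) (e : ℕ) (T : σ → ℂ[X]) (y : σ → ℂ), (∀ j, CoM S (g j)) →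
  (∀ j, c j ∈ S) → Crv w e T y → On g c T → Gen S g y →
  (∀ P : ℂ[X], Sm g c → P ≠ 0 → (∀ a, P.eval a = 0 → ev T a ≠ 0) →
    (∀ δ ∈ Kil S, ∀ i, P ∣ dc δ (T i)) → Bd w d e P.natDegree (rk (S ∪ range y) (cf T))) ∧
  ((∀ x, Fib g c x → LinearIndependent ℂ (jac g x)) →
    ∀ (I : Type) [Fintype I] (η : I → σ → ℂ[X]), LinearIndependent ℂ η →
      (∀ q j, dP (g j) T (η q) = 0) → (∀ q, Crv w e (η q) 0) → Bd w d e 0 (card I))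

def SR2 : Prop := ∀ (σ J : Type) [Fintype σ] [Fintype J] (w : σ → ℕ) (d : J → ℕ)
  (g : J → MvPolynomial σ ℂ), Ok w d g →
  ∀ (S : Set ℂ) (e : ℕ) (T : σ → ℂ[X]) (p : σ → ℂ) (s : ℂ) (P : ℂ[X]), (∀ j, CoM S (g j)) →
  s ∈ S → Crv w e T p → On g 0 T → p ≠ 0 → Gen S g (ev T s) → P.eval s ≠ 0 →
  (∀ a, P.eval a = 0 → ev T a ≠ 0) → (∀ δ ∈ Kil S, ∀ i, P ∣ dc δ (T i)) →
  Bd w d e P.natDegree (rk (S ∪ range p) (cf T))

/-! ## D. The slopes of the lines through a generic point span -/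

def SFin : Prop := ∀ (U V : Type) [Fintype U] [Fintype V] (ω : U → ℕ) (ω' : V → ℕ)
  (Ψ : V → MvPolynomial U ℂ), (∀ u, 0 < ω u) → (∀ v, 0 < ω' v) →
  (∀ v, IsWeightedHomogeneous ω (Ψ v) (ω' v)) → (∀ z, Fib Ψ 0 z → z = 0) →
  (MvPolynomial.aeval Ψ : MvPolynomial V ℂ →ₐ[ℂ] MvPolynomial U ℂ).toRingHom.Finite

def SInj : Prop := ∀ (U V : Type) [Fintype U] [Fintype V] (Ψ : V → MvPolynomial U ℂ),
  card V ≤ card U →
  (MvPolynomial.aeval Ψ : MvPolynomial V ℂ →ₐ[ℂ] MvPolynomial U ℂ).toRingHom.Finite →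
  Function.Injective (MvPolynomial.aeval Ψ : MvPolynomial V ℂ →ₐ[ℂ] MvPolynomial U ℂ)

def SMem : Prop := ∀ (U V : Type) [Fintype U] [Fintype V] (Ψ : V → MvPolynomial U ℂ) (a : V → ℂ)
  (f : MvPolynomial U ℂ),
  (∀ z, Fib Ψ a z → ∀ η : U → ℂ, (∀ v, ∑ u, jac Ψ z v u * η u = 0) → η = 0) →
  (∀ z, Fib Ψ a z → MvPolynomial.eval z f = 0) →
  f ∈ Ideal.span (range fun v => Ψ v - MvPolynomial.C (a v))

/-- `μ` is a minimal equation of `L` over the polynomials in `Ψ`. -/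
structure MinEq {U V : Type} (Ψ : V → MvPolynomial U ℂ) (L : MvPolynomial U ℂ)
    (μ : (MvPolynomial V ℂ)[X]) : Prop where
  monic : μ.Monic
  root : μ.eval₂ (MvPolynomial.aeval Ψ : MvPolynomial V ℂ →ₐ[ℂ] MvPolynomial U ℂ).toRingHom L = 0
  min : ∀ χ : (MvPolynomial V ℂ)[X],
    χ.eval₂ (MvPolynomial.aeval Ψ : MvPolynomial V ℂ →ₐ[ℂ] MvPolynomial U ℂ).toRingHom L = 0 →
    μ ∣ χ

def SMin : Prop := ∀ (U V : Type) [Fintype U] [Fintype V] (ω : U → ℕ) (ω' : V → ℕ)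
  (Ψ : V → MvPolynomial U ℂ) (L : MvPolynomial U ℂ),
  (∀ v, IsWeightedHomogeneous ω (Ψ v) (ω' v)) → IsWeightedHomogeneous ω L 1 →
  (MvPolynomial.aeval Ψ : MvPolynomial V ℂ →ₐ[ℂ] MvPolynomial U ℂ).toRingHom.Finite →
  Function.Injective (MvPolynomial.aeval Ψ : MvPolynomial V ℂ →ₐ[ℂ] MvPolynomial U ℂ) →
  ∃ μ, MinEq Ψ L μ ∧ ∀ i, IsWeightedHomogeneous ω' (μ.coeff i) (μ.natDegree - i)

def SOrd : Prop := ∀ (U V : Type) [Fintype U] [Fintype V] (Ψ : V → MvPolynomial U ℂ) (a : V → ℂ)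
  (L : MvPolynomial U ℂ) (l : ℂ) (μ : (MvPolynomial V ℂ)[X]),
  (MvPolynomial.aeval Ψ : MvPolynomial V ℂ →ₐ[ℂ] MvPolynomial U ℂ).toRingHom.Finite →
  MinEq Ψ L μ →
  L - MvPolynomial.C l ∈ Ideal.span (range fun v => Ψ v - MvPolynomial.C (a v)) →
  ∀ x : V → ℂ, (X : ℂ[X]) ^ μ.natDegree ∣
    MvPolynomial.aeval (fun v => C (a v) + C (x v) * X) (μ.eval (MvPolynomial.C l))

def SWone : Prop := ∀ (V : Type) [Fintype V] (ω' : V → ℕ) (a : V → ℂ) (Φ : MvPolynomial V ℂ)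
  (m : ℕ), (∀ v, 0 < ω' v) → (∀ s ∈ Φ.support, Finsupp.weight ω' s ≤ m) →
  (∀ x : V → ℂ, (X : ℂ[X]) ^ m ∣ MvPolynomial.aeval (fun v => C (a v) + C (x v) * X) Φ) →
  ∀ y y' : V → ℂ, (∀ v, ω' v = 1 → y v = y' v) → MvPolynomial.eval y Φ = MvPolynomial.eval y' Φ

def SNorm : Prop := ∀ (U V : Type) [Fintype U] [Fintype V] (ω : U → ℕ) (ω' : V → ℕ)
  (Ψ : V → MvPolynomial U ℂ) (a : V → ℂ) (L : MvPolynomial U ℂ) (l : ℂ), card V ≤ card U →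
  (∀ u, 0 < ω u) → (∀ v, 0 < ω' v) → (∀ v, IsWeightedHomogeneous ω (Ψ v) (ω' v)) →
  (∀ z, Fib Ψ 0 z → z = 0) →
  (∀ z, Fib Ψ a z → ∀ η : U → ℂ, (∀ v, ∑ u, jac Ψ z v u * η u = 0) → η = 0) →
  IsWeightedHomogeneous ω L 1 → (∀ z, Fib Ψ a z → MvPolynomial.eval z L = l) →
  ∀ η : U → ℂ, (∀ v, ω' v = 1 → MvPolynomial.eval η (Ψ v) = 0) → MvPolynomial.eval η L = 0

def SSop : Prop := ∀ (U : Type) [Fintype U] (ω : U → ℕ) (W r : ℕ) (S : Set ℂ) (Z : Set (U → ℂ)),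
  0 < W → (∀ u, ω u ∣ W) → S.Countable → (∀ z ∈ Z, ∀ l : ℂ, l ≠ 0 → sc ω l z ∈ Z) →
  (∀ z ∈ Z, rk S (range z) ≤ r) →
  ∃ h : Fin r → MvPolynomial U ℂ, (∀ q, IsWeightedHomogeneous ω (h q) W) ∧
    ∀ z ∈ Z, Fib h 0 z → z = 0

def SJac : Prop := ∀ (σ J : Type) [Fintype σ] [Fintype J] (w : σ → ℕ) (d : J → ℕ)
  (g : J → MvPolynomial σ ℂ) (p : σ → ℂ), (∀ i, 0 < w i) →
  (∀ j, IsWeightedHomogeneous w (g j) (d j)) → Fib g 0 p →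
  ∃ E : (Σ j, Fin (d j)) → MvPolynomial (Σ i, Fin (w i)) ℂ,
    (∀ z q, MvPolynomial.eval z (E q) = (MvPolynomial.aeval (cv w p z) (g q.1)).coeff q.2) ∧
    (∀ z η q, ∑ u, jac E z q u * η u = (dP (g q.1) (cv w p z) (cv w 0 η)).coeff q.2) ∧
    (∀ q, IsWeightedHomogeneous (fun u : Σ i, Fin (w i) => w u.1 - u.2) (E q) (d q.1 - q.2)) ∧
    ∀ v : σ → ℂ, (∀ j, ∑ i, jac g p j i * v i = 0) → ∀ q : Σ j, Fin (d j), d q.1 - q.2 = 1 →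
      MvPolynomial.eval (fun u => if (u.2 : ℕ) + 1 = w u.1 then v u.1 else 0) (E q) = 0

/-- The slope of a line. -/
noncomputable def slope {σ : Type} (w : σ → ℕ) (b : σ → ℂ[X]) : σ → ℂ :=
  fun i => (b i).coeff (w i - 1)

/-- A linear form which is constant on the slopes vanishes on the tangent space. -/
def SSlA : Prop := ∀ (σ J : Type) [Fintype σ] [Fintype J] (w : σ → ℕ) (d : J → ℕ)
  (g : J → MvPolynomial σ ℂ), Ok w d g →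
  ∀ (S : Set ℂ) (p : σ → ℂ) (c : J → ℂ), S.Countable → (∀ j, CoM S (g j)) → Gen S g p →
  card J ≤ rk (S ∪ range p) (range c) → ∀ (lam : σ → ℂ) (l : ℂ),
  (∀ b : σ → ℂ[X], (∀ i, (b i).degree < (1 * w i : ℕ)) → On g c (tooth w 1 p b) →
    ∑ i, lam i * slope w b i = l) →
  ∀ v : σ → ℂ, (∀ j, ∑ i, jac g p j i * v i = 0) → ∑ i, lam i * v i = 0

def SSlope : Prop := ∀ (σ J : Type) [Fintype σ] [Fintype J] (w : σ → ℕ) (d : J → ℕ)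
  (g : J → MvPolynomial σ ℂ), Ok w d g →
  ∀ (S : Set ℂ) (p : σ → ℂ) (c : J → ℂ), S.Countable → (∀ j, CoM S (g j)) → Gen S g p →
  card J ≤ rk (S ∪ range p) (range c) →
  ∃ (m : ℕ) (b : Fin (m + 1) → σ → ℂ[X]), m + card J = card σ ∧
    (∀ l i, (b l i).degree < (1 * w i : ℕ)) ∧ (∀ l, On g c (tooth w 1 p (b l))) ∧
    LinearIndependent ℂ fun l => pt (1 : ℂ) (slope w (b l))

/-! ## E. Gluing, chains, combs -/

def SGlP : Prop := ∀ (σ J L U : Type) [Fintype L] [DecidableEq L] (K : Subfield ℂ) (w : σ → ℕ)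
  (d : J → ℕ) (g : J → MvPolynomial σ ℂ) (a : ℕ) (s : L → ℂ) (Γ : σ → (U → ℂ) → ℂ[X])
  (b : L → σ → (U → ℂ) → ℂ[X]) (ε : L → (U → ℂ) → ℂ) (κ : J → (U → ℂ) → ℂ)
  (κ' : L → J → (U → ℂ) → ℂ), (∀ j, CoM K (g j)) → (∀ l, s l ∈ K) → (∀ i, PFP K (Γ i)) →
  (∀ l i, PFP K (b l i)) → (∀ l, PF K (ε l)) → (∀ j, PF K (κ j)) → (∀ l j, PF K (κ' l j)) →
  (∀ l j k, PF K fun z => (gLow g w a s (fun i => Γ i z) (fun l i => b l i z) (fun l => ε l z)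
    (fun l j => κ' l j z) l j).coeff k) ∧
  ∀ j k, PF K fun z => (gHigh g w d a s (fun i => Γ i z) (fun l i => b l i z) (fun l => ε l z)
    (fun j => κ j z) j).coeff k

/-- Identities for the glued curve. -/
structure GlId {σ L : Type} [Fintype L] [DecidableEq L] (w : σ → ℕ) (a : ℕ) (s : L → ℂ)
    (Γ : σ → ℂ[X]) (b : L → σ → ℂ[X]) (ε : L → ℂ) : Prop where
  split : ∀ l i, gx w a s Γ b ε i = (X - C (s l)) ^ (a * w i) * gM w a s Γ b ε l i +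
    uu s l ^ (a * w i) * (hz (a * w i) (b l i) (ε l)).comp (X - C (s l))
  loc : ∀ l i, (gx w a s Γ b ε i).comp (C (s l) + C (ε l) * X) =
    C (ε l) ^ (a * w i) * gX w a s Γ b ε l i
  val : ∀ l, ev (gx w a s Γ b ε) (s l) = sc w ((ε l * (uu s l).eval (s l)) ^ a) (ev (b l) 0)
  val0 : ∀ l, ev (gX w a s Γ b ε l) 0 = sc w ((uu s l).eval (s l) ^ a) (ev (b l) 0)
  crv : ∀ (e : ℕ) (p : σ → ℂ), Crv w e Γ p → Crv w (e + card L * a) (gx w a s Γ b ε) p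
  zero : (∀ l, ε l = 0) → (∀ i, gx w a s Γ b ε i = (QQ s ^ a) ^ w i * Γ i) ∧
    ∀ l i, gX w a s Γ b ε l i =
      C ((uu s l).eval (s l) ^ a) ^ w i * tooth w a (ev Γ (s l)) (b l) i

def SGlI : Prop := ∀ (σ L : Type) [Fintype L] [DecidableEq L] (w : σ → ℕ) (a : ℕ) (s : L → ℂ)
  (Γ : σ → ℂ[X]) (b : L → σ → ℂ[X]) (ε : L → ℂ), (∀ i, 0 < w i) → 0 < a →
  (∀ l i, (b l i).degree < (a * w i : ℕ)) → GlId w a s Γ b ε

def SGlS : Prop := ∀ (σ J L : Type) [Fintype L] [DecidableEq L] [Nonempty L] (w : σ → ℕ)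
  (d : J → ℕ) (g : J → MvPolynomial σ ℂ) (a e : ℕ) (s : L → ℂ) (Γ : σ → ℂ[X]) (p : σ → ℂ)
  (b : L → σ → ℂ[X]) (ε : L → ℂ) (κ : J → ℂ) (κ' : L → J → ℂ), (∀ i, 0 < w i) → (∀ j, 0 < d j) →
  (∀ j, IsWeightedHomogeneous w (g j) (d j)) → 0 < a → Function.Injective s → Crv w e Γ p →
  Fib g 0 p → (∀ l i, (b l i).degree < (a * w i : ℕ)) → (∀ l j, κ j = ε l ^ (a * d j) * κ' l j) →
  (∀ l j k, k < a * d j → (gLow g w a s Γ b ε κ' l j).coeff k = 0) →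
  (∀ j k, k < e * d j → (gHigh g w d a s Γ b ε κ j).coeff k = 0) → On g κ (gx w a s Γ b ε)

def SGlZ : Prop := ∀ (σ J L : Type) [Fintype L] [DecidableEq L] (w : σ → ℕ)
  (d : J → ℕ) (g : J → MvPolynomial σ ℂ) (a e : ℕ) (s : L → ℂ) (Γ : σ → ℂ[X]) (p : σ → ℂ)
  (b : L → σ → ℂ[X]) (ε : L → ℂ) (κ : J → ℂ) (κ' c : L → J → ℂ), (∀ i, 0 < w i) → (∀ j, 0 < d j) →
  (∀ j, IsWeightedHomogeneous w (g j) (d j)) → 0 < a → Function.Injective s → Crv w e Γ p →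
  Fib g 0 p → (∀ l i, (b l i).degree < (a * w i : ℕ)) → (∀ l, ε l = 0) → (∀ j, κ j = 0) →
  (∀ l j, κ' l j = ((uu s l).eval (s l) ^ a) ^ d j * c l j) →
  (((∀ l j k, k < a * d j → (gLow g w a s Γ b ε κ' l j).coeff k = 0) ∧
    ∀ j k, k < e * d j → (gHigh g w d a s Γ b ε κ j).coeff k = 0) ↔
  On g 0 Γ ∧ ∀ l, On g (c l) (tooth w a (ev Γ (s l)) (b l)))

def SVdm : Prop := ∀ (L : Type) [Fintype L] [DecidableEq L] [Nonempty L] (β : L → ℂ),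
  (∀ t : Finset L, t.Nonempty → ∑ l ∈ t, β l ≠ 0) →
  ∃ s : L → ℂ, Function.Injective s ∧ (∀ l, s l ≠ 0) ∧
    (∀ l, β l * s l * (uu s l).eval (s l) = -1) ∧ (∑ l, β l) * (QQ s).eval 0 = 1

/-- Gluing lines at one generic point. -/
def SVfA : Prop := ∀ (σ J L : Type) [Fintype σ] [Fintype J] [Fintype L] [DecidableEq L]
  [Nonempty L] (w : σ → ℕ) (d : J → ℕ) (g : J → MvPolynomial σ ℂ), Ok w d g →
  ∀ (S : Set ℂ) (K : Subfield ℂ) (p : σ → ℂ) (c : J → ℂ) (b : L → σ → ℂ[X]) (s β : L → ℂ),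
  (K : Set ℂ).Countable → S ⊆ K → (∀ j, CoM S (g j)) → (∀ j, c j ∈ S) → (∀ i, p i ∈ K) →
  (∀ l, s l ∈ K) → Gen S g p → Sm g c → (∀ l i, (b l i).degree < (1 * w i : ℕ)) →
  (∀ l, On g c (tooth w 1 p (b l))) → Function.Injective s → (∀ l, s l ≠ 0) →
  (∀ l, β l * s l * (uu s l).eval (s l) = -1) → (∑ l, β l) * (QQ s).eval 0 = 1 →
  ∃ (ε : ℂ) (η : Option σ → ℂ) (T : σ → ℂ[X]), ε ≠ 0 ∧
    Spec K (pt ε η) (pt 0 fun o => ∑ l, β l * pt 1 (slope w (b l)) o) ∧ Crv w (card L) T p ∧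
    On g (fun j => c j * (ε * η none) ^ d j) T ∧ ∀ i, ev T 0 i = p i + ε * η (some i)

/-- A very free curve in a generic fibre. -/
def SVf : Prop := ∀ (σ J : Type) [Fintype σ] [Fintype J] (w : σ → ℕ) (d : J → ℕ)
  (g : J → MvPolynomial σ ℂ), Ok w d g →
  ∀ (S : Set ℂ) (p : σ → ℂ), S.Countable → (∀ j, CoM S (g j)) → Gen S g p →
  ∃ (e : ℕ) (T : σ → ℂ[X]) (c : J → ℂ), Crv w e T p ∧ On g c T ∧
    card σ ≤ rk (S ∪ range p) (range (ev T 0))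

/-- Reduction of a curve at a place. -/
def SRed : Prop := ∀ (σ J : Type) (g : J → MvPolynomial σ ℂ) (P : Plc) (c : J → ℂ)
  (T : σ → ℂ[X]), (∀ j m, MvPolynomial.coeff m (g j) ∈ P.V ∧
    P.χ (MvPolynomial.coeff m (g j)) = MvPolynomial.coeff m (g j)) →
  (∀ i k, (T i).coeff k ∈ P.V) → On g c T →
  ∃ T' : σ → ℂ[X], (∀ i k, (T' i).coeff k = P.χ ((T i).coeff k)) ∧ On g (fun j => P.χ (c j)) T'

/-- One edge of the Newton polygon. `a j` is the primitive vector and `μ j` the size of the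
coefficient of index `j`. -/
def SEdge : Prop := ∀ (σ J : Type) (w : σ → ℕ) (d : J → ℕ) (g : J → MvPolynomial σ ℂ) (P : Plc)
  (c : J → ℂ) (E : ℕ) (a : ℕ → σ → ℂ) (μ : ℕ → ℂ) (r : ℂ) (j1 j2 : ℕ), (∀ i, 0 < w i) →
  (∀ j, IsWeightedHomogeneous w (g j) (d j)) →
  (∀ j m, MvPolynomial.coeff m (g j) ∈ P.V ∧
    P.χ (MvPolynomial.coeff m (g j)) = MvPolynomial.coeff m (g j)) →
  On g c (fun i => ∑ j ∈ Finset.range (E + 1), monomial (j * w i) (μ j ^ w i * a j i)) →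
  (∀ j i, a j i ∈ P.V) → (∀ j, P.V.valuation (c j) < 1) → j1 ≤ j2 → j2 ≤ E →
  1 ≤ P.V.valuation (μ j1 * r ^ j1) →
  P.V.valuation (μ j2 * r ^ j2) = P.V.valuation (μ j1 * r ^ j1) →
  (∀ j, j ≤ E → P.V.valuation (μ j * r ^ j) ≤ P.V.valuation (μ j1 * r ^ j1)) →
  (∀ j, j ≤ E → j < j1 ∨ j2 < j →
    P.V.valuation (μ j * r ^ j) < P.V.valuation (μ j1 * r ^ j1)) →
  Link w g (fun i => P.χ (a j1 i)) fun i => P.χ (a j2 i)

/-- The Newton polygon of a sequence: the vertices are joined by edges. -/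
def SPoly : Prop := ∀ (V : ValuationSubring ℂ) (E : ℕ) (μ : ℕ → ℂ) (R : ℕ → ℕ → Prop),
  μ 0 = 1 → μ E ≠ 0 →
  (∀ (r : ℂ) (j1 j2 : ℕ), j1 ≤ j2 → j2 ≤ E → μ j1 ≠ 0 → μ j2 ≠ 0 →
    1 ≤ V.valuation (μ j1 * r ^ j1) → V.valuation (μ j2 * r ^ j2) = V.valuation (μ j1 * r ^ j1) →
    (∀ j, j ≤ E → V.valuation (μ j * r ^ j) ≤ V.valuation (μ j1 * r ^ j1)) →
    (∀ j, j ≤ E → j < j1 ∨ j2 < j →
      V.valuation (μ j * r ^ j) < V.valuation (μ j1 * r ^ j1)) → R j1 j2) →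
  Relation.ReflTransGen R 0 E

def SNewt : Prop := ∀ (σ J : Type) [Fintype σ] [Fintype J] (w : σ → ℕ) (d : J → ℕ)
  (g : J → MvPolynomial σ ℂ), Ok w d g →
  ∀ (K : Subfield ℂ) (e : ℕ) (T : σ → ℂ[X]) (c : J → ℂ) (p y : σ → ℂ), (∀ j, CoM K (g j)) →
  (∀ i, p i ∈ K) → Crv w e T p → On g c T → p ≠ 0 → y ≠ 0 → Fib g 0 y → Spec K (ev T 0) y →
  Chain w g y p

/-- A free curve follows its end point along any curve. -/
def SDef : Prop := ∀ (σ J : Type) [Fintype σ] [Fintype J] (w : σ → ℕ) (d : J → ℕ)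
  (g : J → MvPolynomial σ ℂ), Ok w d g →
  ∀ (K : Subfield ℂ) (a : ℕ) (T Γ : σ → ℂ[X]) (A : Set ℂ), (K : Set ℂ).Countable →
  (∀ j, CoM K (g j)) → 0 < a → Crv w a T (ev Γ 0) → On g 0 T → Gen K g (ev T 0) → ev Γ 0 ≠ 0 →
  On g 0 Γ → A.Finite →
  ∃ (s : ℂ) (T' : σ → ℂ[X]), s ∉ A ∧ ev Γ s ≠ 0 ∧ Crv w a T' (ev Γ s) ∧ On g 0 T' ∧
    Spec K (ev T' 0) (ev T 0)

/-- Smoothing a comb with many free teeth. -/
def SCombA : Prop := ∀ (σ J L : Type) [Fintype σ] [Fintype J] [Fintype L] [DecidableEq L]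
  (w : σ → ℕ) (d : J → ℕ) (g : J → MvPolynomial σ ℂ), Ok w d g →
  ∀ (K : Subfield ℂ) (a e : ℕ) (Γ : σ → ℂ[X]) (p : σ → ℂ) (s : L → ℂ) (T : L → σ → ℂ[X]),
  (K : Set ℂ).Countable → (∀ j, CoM K (g j)) → 0 < a → Crv w e Γ p → On g 0 Γ →
  Function.Injective s → (∀ l, ev Γ (s l) ≠ 0) → (∀ l, Crv w a (T l) (ev Γ (s l))) →
  (∀ l, On g 0 (T l)) → (∀ l, Gen K g (ev (T l) 0)) → e * ∑ j, d j < card L →
  ∃ (l : L) (y : σ → ℂ), Spec K y (ev (T l) 0) ∧ Link w g y p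

def SComb : Prop := ∀ (σ J : Type) [Fintype σ] [Fintype J] (w : σ → ℕ) (d : J → ℕ)
  (g : J → MvPolynomial σ ℂ), Ok w d g →
  ∀ (K : Subfield ℂ) (y v p : σ → ℂ), (K : Set ℂ).Countable → (∀ j, CoM K (g j)) → Gen K g y →
  v ≠ 0 → Link w g y v → Link w g v p → ∃ y', Spec K y' y ∧ Link w g y' p

/-- Every point of the cone is linked to every generic point. -/
def SAl : Prop := ∀ (σ J : Type) [Fintype σ] [Fintype J] (w : σ → ℕ) (d : J → ℕ)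
  (g : J → MvPolynomial σ ℂ), Ok w d g →
  ∀ (K : Subfield ℂ) (v z : σ → ℂ), (K : Set ℂ).Countable → (∀ j, CoM K (g j)) → (∀ i, v i ∈ K) →
  v ≠ 0 → Fib g 0 v → Gen K g z → Link w g v z

/-- One curve through several given points and a generic point. -/
def SMark : Prop := ∀ (σ J L : Type) [Fintype σ] [Fintype J] [Fintype L] [Nonempty L]
  (w : σ → ℕ) (d : J → ℕ) (g : J → MvPolynomial σ ℂ), Ok w d g →
  ∀ (K : Subfield ℂ) (y : σ → ℂ) (v : L → σ → ℂ) (s : L → ℂ), (K : Set ℂ).Countable →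
  (∀ j, CoM K (g j)) → (∀ l i, v l i ∈ K) → (∀ l, v l ≠ 0) → Gen K g y →
  (∀ l, Link w g (v l) y) → Function.Injective s →
  ∃ (e : ℕ) (T : σ → ℂ[X]), Crv w e T y ∧ On g 0 T ∧
    ∀ l, ∃ t : ℂ, t ≠ 0 ∧ ev T (s l) = sc w t (v l)

/-- Change of parameter and ramification. -/
def SRam : Prop := ∀ (σ J : Type) (w : σ → ℕ) (d : J → ℕ) (g : J → MvPolynomial σ ℂ),
  (∀ j, IsWeightedHomogeneous w (g j) (d j)) →
  ∀ (e : ℕ) (T : σ → ℂ[X]) (y : σ → ℂ) (v : Option Bool → σ → ℂ) (s : Option Bool → ℂ)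
    (a μ e0 : ℕ), Crv w e T y → On g 0 T → Function.Injective s →
  (∀ l, ∃ t : ℂ, t ≠ 0 ∧ ev T (s l) = sc w t (v l)) →
  ∃ (e' : ℕ) (Γ : σ → ℂ[X]), e0 ≤ e' ∧ Crv w e' Γ (v none) ∧ On g 0 Γ ∧ ev Γ 2 = y ∧
    ∀ l i, (X - C (nd l)) ^ μ ∣ (X - C (nd (!l))) ^ (a * w i) * Γ i - C (v (some l) i)

/-! ## F. Tails -/

def STail : Prop := ∀ (σ J : Type) [Fintype σ] [Fintype J] (w : σ → ℕ) (d : J → ℕ)
  (F : J → MvPolynomial (Option σ) ℂ), OkF w d F → ∀ q : Bool → σ → ℂ,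
  (∀ l, Fib F 0 (pt 1 (q l))) →
  ∃ (a : ℕ) (T : Bool → σ → ℂ[X]) (v : Bool → σ → ℂ), 0 < a ∧ ∀ l, v l ≠ 0 ∧
    Fib (fun j => bd (F j)) 0 (v l) ∧ Crv w a (T l) (v l) ∧ ev (T l) 0 = q l ∧
    ∀ j, MvPolynomial.aeval (pt 1 (T l)) (F j) = 0

def SRinv : Prop := ∀ (σ J : Type) [Fintype σ] [Fintype J] [DecidableEq J] (w : σ → ℕ)
  (d : J → ℕ) (F : J → MvPolynomial (Option σ) ℂ), OkF w d F →
  ∀ (a : ℕ) (T : σ → ℂ[X]) (v : σ → ℂ), 0 < a → v ≠ 0 → Fib (fun j => bd (F j)) 0 v →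
  Crv w a T v →
  ∃ (Δ : ℂ[X]) (R : σ → J → ℂ[X]), Δ.Monic ∧ Δ.natDegree = a * ∑ j, d j + 1 ∧ Δ.coeff 0 = 0 ∧
    (∀ i j, (R i j).natDegree ≤ a * w i + (a * ∑ j, d j + 1 - a * d j)) ∧
    ∀ j j', ∑ i, MvPolynomial.aeval (pt 1 T) (pderiv (some i) (F j)) * R i j' =
      if j = j' then Δ else 0

/-- Existence of the data. -/
def STdat : Prop := ∀ (σ J : Type) [Fintype σ] [Fintype J] [DecidableEq J] (w : σ → ℕ)
  (d : J → ℕ) (F : J → MvPolynomial (Option σ) ℂ), OkF w d F → ∀ (q : Bool → σ → ℂ) (p : σ → ℂ),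
  (∀ l, Fib F 0 (pt 1 (q l))) →
  ∃ (D : TD σ J) (K : Subfield ℂ), D.w = w ∧ D.d = d ∧ D.F = F ∧ D.Good ∧ D.Over K ∧
    (K : Set ℂ).Countable ∧ (∀ i, p i ∈ K) ∧
    ∀ l, D.v l ≠ 0 ∧ Fib (fun j => bd (F j)) 0 (D.v l) ∧ ev (D.T l) 0 = q l

/-- Local identities. -/
def STgA : Prop := ∀ (σ J : Type) [Fintype σ] [Fintype J] [DecidableEq J] (D : TD σ J), D.Good →
  ∀ (ε : ℂ) (ζ : Bool → J → ℂ[X]) (G : σ → ℂ[X]),
  (∀ l j, (ζ l j).degree < (D.a * D.d j : ℕ)) → ∀ l,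
  (∀ i, (D.xt ε ζ G i).comp (loc ε l) = C ε ^ (D.a * D.w i) *
    (C (D.ρ ε) ^ D.w i * D.T l i + C ε ^ (2 * D.π) * D.Δ l * D.nu ε ζ G l i)) ∧
  ∀ j, (D.val ε ζ G j).comp (loc ε l) =
    C ε ^ (D.a * D.d j + 2 * D.π) * D.Δ l ^ 2 * D.H ε ζ G l j

/-- Degrees. -/
def STgE : Prop := ∀ (σ J : Type) [Fintype σ] [Fintype J] [DecidableEq J] (D : TD σ J), D.Good →
  (∀ ε j, (D.den ε j).Monic ∧ (D.den ε j).natDegree = 2 * (D.a * D.d j) + 4 * D.π) ∧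
  ∃ e0 : ℕ, 4 * D.π ≤ e0 ∧ ∀ e, e0 ≤ e → (∀ i, (D.Φ i).natDegree < e * D.w i) ∧
    ∀ (ε : ℂ) (ζ : Bool → J → ℂ[X]) (G : σ → ℂ[X]) (p : σ → ℂ),
    (∀ i, (G i).natDegree ≤ e * D.w i - 4 * D.π) →
    (∀ i, (G i).coeff (e * D.w i - 4 * D.π) = p i) →
    Crv D.w (e + 2 * D.a) (D.xt ε ζ G) p

/-- A solution with `ε ≠ 0`. -/
def STgB : Prop := ∀ (σ J : Type) [Fintype σ] [Fintype J] [DecidableEq J] (D : TD σ J), D.Good →
  ∀ (ε : ℂ) (ζ : Bool → J → ℂ[X]) (G : σ → ℂ[X]) (p : σ → ℂ) (e : ℕ),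
  (∀ l j, (ζ l j).degree < (D.a * D.d j : ℕ)) → ε ≠ 0 → D.ρ ε ≠ 0 →
  Crv D.w (e + 2 * D.a) (D.xt ε ζ G) p → Fib (fun j => bd (D.F j)) 0 p →
  (∀ l j k, k < D.a * D.d j → (D.H ε ζ G l j).coeff k = 0) →
  (∀ j k, k < e * D.d j - 4 * D.π → (D.val ε ζ G j /ₘ D.den ε j).coeff k = 0) →
  (∀ j, D.val ε ζ G j = 0) ∧
    ∀ l, ev (D.xt ε ζ G) (nd l) = sc D.w (D.ρ ε * ε ^ D.a) (ev (D.T l) 0)

/-- The fibre `ε = 0`. -/
def STgC : Prop := ∀ (σ J : Type) [Fintype σ] [Fintype J] [DecidableEq J] (D : TD σ J), D.Good →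
  (∀ l i, (X - C (nd l)) ^ (2 * D.π) ∣
    (X - C (nd (!l))) ^ (D.a * D.w i) * D.Φ i - C (sc D.w (D.ρ 0) (D.v l) i)) ∧
  (∃ κ : Bool → J → ℂ, (∀ l j, κ l j ≠ 0) ∧ (∀ K : Subfield ℂ, D.ρ 0 ∈ K → ∀ l j, κ l j ∈ K) ∧
    ∀ (ζ : Bool → J → ℂ[X]) (G : σ → ℂ[X]), (∀ l j, (ζ l j).degree < (D.a * D.d j : ℕ)) →
    ∀ l j, D.H 0 ζ G l j = C (κ l j) * ζ l j + D.H 0 0 G l j) ∧
  ∀ (ζ : Bool → J → ℂ[X]) (G : σ → ℂ[X]), (∀ l j, (ζ l j).degree < (D.a * D.d j : ℕ)) →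
    (∀ l, Fib (fun j => bd (D.F j)) 0 (D.v l)) → ∀ j,
    QQ nd ^ (2 * D.π) * (D.val 0 ζ G j /ₘ D.den 0 j) =
      MvPolynomial.aeval (fun i => D.Φ i + QQ nd ^ (2 * D.π) * G i) (bd (D.F j))

/-- Everything is polynomial in the parameters. -/
def STgD : Prop := ∀ (σ J U : Type) [Fintype σ] [Fintype J] [DecidableEq J] (D : TD σ J)
  (K : Subfield ℂ), D.Good → D.Over K →
  (D.ρ 0 ∈ K ∧ (∀ l i, D.v l i ∈ K) ∧ ∀ i, CoP K (D.Φ i)) ∧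
  ∀ (ε : (U → ℂ) → ℂ) (ζ : Bool → J → (U → ℂ) → ℂ[X]) (G : σ → (U → ℂ) → ℂ[X]), PF K ε →
  (∀ l j, PFP K (ζ l j)) → (∀ i, PFP K (G i)) →
  (PF K fun z => D.ρ (ε z)) ∧
  (∀ l j, PFP K fun z => D.H (ε z) (fun l j => ζ l j z) (fun i => G i z) l j) ∧
  ∀ j, PFP K fun z => D.val (ε z) (fun l j => ζ l j z) (fun i => G i z) j /ₘ D.den (ε z) j

/-- The smoothing. -/
def STgF : Prop := ∀ (σ J : Type) [Fintype σ] [Fintype J] [DecidableEq J] (D : TD σ J)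
  (K : Subfield ℂ) (p : σ → ℂ), D.Good → D.Over K → (K : Set ℂ).Countable → (∀ i, p i ∈ K) →
  p ≠ 0 → (∀ l, D.v l ≠ 0) → (∀ l, Fib (fun j => bd (D.F j)) 0 (D.v l)) →
  (∀ e0 : ℕ, ∃ (e : ℕ) (Γ : σ → ℂ[X]), e0 ≤ e ∧ Crv D.w e Γ p ∧ On (fun j => bd (D.F j)) 0 Γ ∧
    Gen K (fun j => bd (D.F j)) (ev Γ 2) ∧
    ∀ l i, (X - C (nd l)) ^ (2 * D.π) ∣
      (X - C (nd (!l))) ^ (D.a * D.w i) * Γ i - C (sc D.w (D.ρ 0) (D.v l) i)) →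
  ∃ (E : ℕ) (x : σ → ℂ[X]) (t : ℂ), 0 < E ∧ t ≠ 0 ∧ Crv D.w E x p ∧
    (∀ j, MvPolynomial.aeval (pt (C t) x) (D.F j) = 0) ∧
    ∀ l, ev x (nd l) = sc D.w t (ev (D.T l) 0)

/-- The affine form of the theorem. -/
def SAff : Prop := ∀ (σ J : Type) [Fintype σ] [Fintype J] (w : σ → ℕ) (d : J → ℕ)
  (F : J → MvPolynomial (Option σ) ℂ), OkF w d F → ∀ (q : Bool → σ → ℂ),
  (∀ l, Fib F 0 (pt 1 (q l))) →
  (∃ p : σ → ℂ, p ≠ 0 ∧ Fib (fun j => bd (F j)) 0 p) ∧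
  ∀ p : σ → ℂ, p ≠ 0 → Fib (fun j => bd (F j)) 0 p →
    ∃ (E : ℕ) (x : σ → ℂ[X]) (t : ℂ), 0 < E ∧ t ≠ 0 ∧ Crv w E x p ∧
      (∀ j, MvPolynomial.aeval (pt (C t) x) (F j) = 0) ∧ ∀ l, ev x (nd l) = sc w t (q l)

/-- The theorem. -/
def SMain : Prop := ∀ (n c : ℕ) (W : Option (Fin n) → ℕ) (d : Fin c → ℕ)
  (F : Fin c → MvPolynomial (Option (Fin n)) ℂ), (∀ o, 0 < W o) → (∀ j, 0 < d j) →
  (∀ j, IsWeightedHomogeneous W (F j) (d j)) →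
  (∀ v : Option (Fin n) → ℂ, v ≠ 0 → v none = 0 → (∀ j, MvPolynomial.eval v (F j) = 0) →
    LinearIndependent ℂ fun j i => MvPolynomial.eval v (pderiv (some i) (F j))) →
  ∑ j, d j < ∑ i, W (some i) →
  H34.LogRC W {x | ∃ v hv, x = H34.WP.mk W v hv ∧ ∀ j, MvPolynomial.eval v (F j) = 0}
    {x | ∃ v hv, x = H34.WP.mk W v hv ∧ (∀ j, MvPolynomial.eval v (F j) = 0) ∧ v none = 0}

/-! ## The rows -/

def OfRk : Prop := SRk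
def OfPf : Prop := SPf
def OfPp : Prop := SPp
def OfPq : Prop := SPf → SPp → SPq
def OfInd : Prop := SRk → SInd
def OfKr : Prop := SRk → SInd → SKr
def OfSp : Prop := SRk → SInd → SSp
def OfHom : Prop := SHom
def OfPl : Prop := SPl
def OfLow : Prop := SRk → SInd → SLow
def OfTop : Prop := STop
def OfDc : Prop := SDc
def OfTay : Prop := STay ∧ SBd
def OfHv : Prop := SHv
def OfLink : Prop := STop → SLink
def OfGen : Prop := SRk → SPf → SSp → SKr → SDc → SGen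
def OfBase : Prop := STop → SBase
def OfDiv : Prop := SBase → SDiv
def OfB0 : Prop := STop → SDiv → SB0
def OfR1 : Prop := SRk → SDc → SGen → SB0 → SR1
def OfR2 : Prop := SRk → STop → SDc → SGen → SB0 → SR2
def OfFin : Prop := SFin
def OfInj : Prop := SInj
def OfMem : Prop := SMem
def OfMin : Prop := SMin
def OfOrd : Prop := SOrd
def OfWone : Prop := SWone
def OfNorm : Prop := SHv → SFin → SInj → SMem → SMin → SOrd → SWone → SNorm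
def OfSop : Prop := SRk → SSop
def OfJac : Prop := STop → STay → SHv → SJac
def OfSlA : Prop := SRk → STop → SDc → SGen → SR1 → SNorm → SSop → SJac → SSlA
def OfSlope : Prop := STop → SSlA → SSlope
def OfGlP : Prop := SPf → SPp → SPq → SGlP
def OfGlI : Prop := SGlI
def OfGlS : Prop := STop → SGlI → SGlS
def OfGlZ : Prop := STop → SGlI → SGlZ
def OfVdm : Prop := SVdm
def OfVfA : Prop := SRk → SPf → SPp → SPq → SSp → SKr → STop → SLink → SR1 → SGlP → SGlI → SGlS →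
  SGlZ → SVfA
def OfVf : Prop := SRk → SPf → SSp → SLow → SDc → SLink → SGen → SSlope → SVdm → SVfA → SVf
def OfEdge : Prop := SRed ∧ (STop → SLink → SEdge)
def OfPoly : Prop := SPoly
def OfNewt : Prop := SPl → SRed → SEdge → SPoly → SNewt
def OfDef : Prop := SRk → SPf → SPp → SPq → SSp → SKr → STop → SLink → SGen → SR2 → SDef
def OfCombA : Prop := SRk → SPf → SPp → SPq → SSp → SKr → STop → SLink → SGen → SR2 → SGlP → SGlI →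
  SGlS → SGlZ → SCombA
def OfComb : Prop := SSp → SLink → SGen → SDef → SCombA → SComb
def OfAl : Prop := SRk → SSp → SHom → SLink → SGen → SVf → SNewt → SComb → SAl
def OfMark : Prop := SRk → SPf → SPp → SPq → SSp → SKr → STop → SDc → SLink → SR1 → SGlP → SGlI →
  SGlS → SGlZ → SMark
def OfRam : Prop := STop → SLink → SRam
def OfTail : Prop := SPf → SPp → SPq → STop → SBd → STail
def OfRinv : Prop := STop → SBd → SRinv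
def OfTdat : Prop := SRk → SPf → SPp → SPq → STay → STail → SRinv → STdat
def OfTgA : Prop := STop → STgA
def OfTgE : Prop := STgE
def OfTgB : Prop := STop → SBd → STgA → STgE → STgB
def OfTgC : Prop := STop → SBd → STgC
def OfTgD : Prop := SPf → SPp → SPq → STgE → STgD
def OfTgF : Prop := SRk → SPf → SPp → SPq → SSp → SKr → STop → SDc → SBd → SGen → SR2 → STgB →
  STgC → STgD → STgE → STgF
def OfAff : Prop := STop → SBd → SGen → SAl → SMark → SRam → STdat → STgD → STgF → SAff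
def OfMain : Prop := SBd → SAff → SMain

end Pool.Agent.MP_776d16_ag.H7W
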