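import Pool.Agent.MP_776d16_ag.H7W.Spec

/-!
Weighted homogeneous polynomials evaluated on curves.
-/

open Polynomial
open MvPolynomial (pderiv IsWeightedHomogeneous)

namespace Pool.Agent.MP_776d16_ag.H7W

namespace TopA

variable {τ : Type} {W : τ → ℕ}

theorem ind (P : ℕ → MvPolynomial τ ℂ → Prop) (hC : ∀ a, P 0 (MvPolynomial.C a))
    (h0 : ∀ n, P n 0) (hadd : ∀ n p q, P n p → P n q → P n (p + q))
    (hX : ∀ n p o, IsWeightedHomogeneous W p n → P n p → P (n + W o) (p * MvPolynomial.X o))
    {n : ℕ} {G : MvPolynomial τ ℂ} (hG : IsWeightedHomogeneous W G n) : P n G := by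
  have key : ∀ (d : τ →₀ ℕ) (r : ℂ), P (Finsupp.weight W d) (MvPolynomial.monomial d r) := by
    intro d r
    induction d using Finsupp.induction with
    | zero => simpa using hC r
    | single_add a b f h1 h2 ih =>
      clear h1 h2
      induction b with
      | zero => simpa using ih
      | succ b ihb =>
        have h3 := hX _ _ a (MvPolynomial.isWeightedHomogeneous_monomial W _ r rfl) ihb
        rw [MvPolynomial.X, MvPolynomial.monomial_mul, mul_one] at h3
        rw [Finsupp.single_add, add_right_comm, map_add (Finsupp.weight W) _ (Finsupp.single a 1),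
          Finsupp.weight_single, one_smul]
        exact h3
  induction hG using IsWeightedHomogeneous.induction_on with
  | zero => exact h0 n
  | add p q _ _ hp hq => exact hadd n p q hp hq
  | monomial d r hr => exact hr ▸ key d r

theorem leib [Fintype τ] {S F : Type} [CommRing S] [FunLike F (MvPolynomial τ ℂ) S]
    [RingHomClass F (MvPolynomial τ ℂ) S] (φ : F) (c : τ → S) (p : MvPolynomial τ ℂ) (o : τ) :
    ∑ l, φ (pderiv l (p * MvPolynomial.X o)) * c l =
      (∑ l, φ (pderiv l p) * c l) * φ (MvPolynomial.X o) + φ p * c o := by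
  classical
  simp only [Derivation.leibniz, smul_eq_mul, map_add, map_mul, add_mul, Finset.sum_add_distrib,
    Finset.sum_mul]
  rw [add_comm]
  congr 1
  · exact Finset.sum_congr rfl fun l _ => by ring
  · rw [Finset.sum_eq_single o (fun b _ hb => by
      rw [MvPolynomial.pderiv_X_of_ne hb.symm, map_zero, mul_zero, zero_mul]) (by simp)]
    simp

theorem dP_X [Fintype τ] (f η : τ → ℂ[X]) (p : MvPolynomial τ ℂ) (o : τ) :
    dP (p * MvPolynomial.X o) f η = dP p f η * f o + MvPolynomial.aeval f p * η o := by
  rw [dP, leib, MvPolynomial.aeval_X, dP]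

theorem dP_add [Fintype τ] (f η : τ → ℂ[X]) (p q : MvPolynomial τ ℂ) :
    dP (p + q) f η = dP p f η + dP q f η := by
  simp only [dP, map_add, add_mul, Finset.sum_add_distrib]

theorem top {G : MvPolynomial τ ℂ} {n e : ℕ} {f : τ → ℂ[X]} {v : τ → ℂ}
    (hG : IsWeightedHomogeneous W G n) (hf : Crv W e f v) :
    (MvPolynomial.aeval f G).natDegree ≤ e * n ∧
      (MvPolynomial.aeval f G).coeff (e * n) = MvPolynomial.eval v G := by
  refine ind (fun n G => (MvPolynomial.aeval f G).natDegree ≤ e * n ∧
    (MvPolynomial.aeval f G).coeff (e * n) = MvPolynomial.eval v G) (fun a => by simp)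
    (fun n => by simp) (fun n p q hp hq => ?_) (fun n p o _ hp => ?_) hG
  · rw [map_add, map_add, coeff_add, hp.2, hq.2]
    exact ⟨natDegree_add_le_of_degree_le hp.1 hq.1, rfl⟩
  · rw [map_mul, map_mul, MvPolynomial.aeval_X, MvPolynomial.eval_X, mul_add,
      coeff_mul_add_eq_of_natDegree_le hp.1 (hf.deg o), hp.2, hf.top]
    exact ⟨natDegree_mul_le.trans (add_le_add hp.1 (hf.deg o)), rfl⟩

theorem scale {S : Type} [CommRing S] [Algebra ℂ S] {G : MvPolynomial τ ℂ} {n : ℕ} (l : S)
    (f : τ → S) (hG : IsWeightedHomogeneous W G n) :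
    MvPolynomial.aeval (fun o => l ^ W o * f o) G = l ^ n * MvPolynomial.aeval f G := by
  refine ind (fun n G => MvPolynomial.aeval (fun o => l ^ W o * f o) G =
    l ^ n * MvPolynomial.aeval f G) (fun a => by simp) (fun n => by simp)
    (fun n p q hp hq => by rw [map_add, map_add, hp, hq, mul_add]) (fun n p o _ hp => ?_) hG
  rw [map_mul, map_mul, hp, MvPolynomial.aeval_X, MvPolynomial.aeval_X]
  ring

end TopA

open TopA in
theorem rowTop : OfTop where
  top τ W G n e f v hG hf := top hG hf
  scale τ W G n l f hG := scale l f hG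
  scale0 τ W G n l x hG := scale l x hG
  refl τ W G n e f hG hf := by
    refine ind (fun n G => MvPolynomial.aeval (fun o => reflect (e * W o) (f o)) G =
      reflect (e * n) (MvPolynomial.aeval f G)) (fun a => by simp) (fun n => by simp)
      (fun n p q hp hq => by rw [map_add, map_add, hp, hq, reflect_add])
      (fun n p o h1 hp => ?_) hG
    rw [map_mul, map_mul, hp, MvPolynomial.aeval_X, MvPolynomial.aeval_X, mul_add,
      reflect_mul _ _ (top h1 ⟨hf, fun _ => rfl⟩).1 (hf o)]
  dtop τ _ W G n e m f η v hG hf hη := by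
    refine ind (fun n G => (dP G f η).natDegree ≤ e * n + m ∧ (dP G f η).coeff (e * n + m) =
      ∑ o, MvPolynomial.eval v (pderiv o G) * (η o).coeff (e * W o + m))
      (fun a => by simp [dP]) (fun n => by simp [dP]) (fun n p q hp hq => ?_)
      (fun n p o h1 hp => ?_) hG
    · rw [dP_add, coeff_add, hp.2, hq.2]
      exact ⟨natDegree_add_le_of_degree_le hp.1 hq.1, by
        simp only [map_add, add_mul, Finset.sum_add_distrib]⟩
    · have h2 := top h1 hf
      have e1 : e * (n + W o) + m = e * n + m + e * W o := by ring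
      have e2 : e * (n + W o) + m = e * n + (e * W o + m) := by ring
      have h3 := coeff_mul_add_eq_of_natDegree_le hp.1 (hf.deg o)
      have h4 := coeff_mul_add_eq_of_natDegree_le h2.1 (hη o)
      rw [← e1] at h3
      rw [← e2] at h4
      rw [dP_X, leib, coeff_add, h3, h4, hp.2, h2.2, hf.top, MvPolynomial.eval_X]
      exact ⟨natDegree_add_le_of_degree_le
        (natDegree_mul_le.trans ((add_le_add hp.1 (hf.deg o)).trans e1.ge))
        (natDegree_mul_le.trans ((add_le_add h2.1 (hη o)).trans e2.ge)), rfl⟩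
  dscale τ _ W G n l f η hG := by
    refine ind (fun n G => dP G (fun o => l ^ W o * f o) (fun o => l ^ W o * η o) =
      l ^ n * dP G f η) (fun a => by simp [dP]) (fun n => by simp [dP])
      (fun n p q hp hq => by rw [dP_add, dP_add, hp, hq, mul_add]) (fun n p o h1 hp => ?_) hG
    rw [dP_X, dP_X, hp, scale l f h1]
    ring
  euler τ _ W G n x hG := by
    have h := congrArg (MvPolynomial.eval x) hG.sum_weight_X_mul_pderiv
    simp only [map_sum, nsmul_eq_mul, map_mul, map_natCast, MvPolynomial.eval_X] at h
    rw [← h]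
    exact Finset.sum_congr rfl fun o _ => by ring

end Pool.Agent.MP_776d16_ag.H7W
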